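import Pool.Agent.Sir.Tau
/-!
# The constant `kap` (text MP_2cd2dd_an_far_helper13.md, section 1)
modules: kaA, kaB, kaC, kaD, kaE
-/

namespace Sir

open MeasureTheory Filter Topology

variable {N : ℕ}

/-- `inf (∫(|∇u|² + l1 u²)) (∫(|∇v|² + l2 v²)) / ∫ u² v²` -/
noncomputable def kap (N : ℕ) (l1 l2 : ℝ) : ℝ :=
  sInf {t : ℝ | ∃ u v : H1 N, Q4 u u v v ≠ 0 ∧ t = ip l1 u u * ip l2 v v / Q4 u u v v}

private theorem kaA_bdd {l1 l2 : ℝ} (h1 : 0 < l1) (h2 : 0 < l2) : BddBelow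
    {t : ℝ | ∃ u v : H1 N, Q4 u u v v ≠ 0 ∧ t = ip l1 u u * ip l2 v v / Q4 u u v v} := by
  refine ⟨0, ?_⟩
  rintro t ⟨u, v, _, rfl⟩
  exact div_nonneg (mul_nonneg (ip_nonneg h1.le u) (ip_nonneg h2.le v)) (Q4_nonneg u v)

/-- module kaA (`csInf_le`, the set is bounded below by `0`: `ip_nonneg`, `Q4_nonneg`). -/
theorem kap_le [Dim N] {l1 l2 : ℝ} (h1 : 0 < l1) (h2 : 0 < l2) (u v : H1 N) :
    kap N l1 l2 * Q4 u u v v ≤ ip l1 u u * ip l2 v v := by
  have h3 := mul_nonneg (ip_nonneg h1.le u) (ip_nonneg h2.le v)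
  rcases eq_or_ne (Q4 u u v v) 0 with h | h
  · rw [h, mul_zero]
    exact h3
  · have h4 : 0 < Q4 u u v v := lt_of_le_of_ne (Q4_nonneg u v) h.symm
    have h5 : kap N l1 l2 ≤ ip l1 u u * ip l2 v v / Q4 u u v v :=
      csInf_le (kaA_bdd h1 h2) ⟨u, v, h, rfl⟩
    rwa [le_div_iff₀ h4] at h5

/-- module kaA (`exists_lt_of_csInf_lt`; the set is not empty: `exists_ne`, `Q4_pos`). -/
theorem kap_lt [Dim N] {l1 l2 t : ℝ} (h1 : 0 < l1) (h2 : 0 < l2) (h : kap N l1 l2 < t) :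
    ∃ u v : H1 N, 0 < Q4 u u v v ∧ ip l1 u u * ip l2 v v < t * Q4 u u v v := by
  obtain ⟨w, hw⟩ := exists_ne (N := N)
  have hne : {t : ℝ | ∃ u v : H1 N, Q4 u u v v ≠ 0 ∧
      t = ip l1 u u * ip l2 v v / Q4 u u v v}.Nonempty := ⟨_, w, w, (Q4_pos hw).ne', rfl⟩
  obtain ⟨s, ⟨u, v, huv, rfl⟩, hs⟩ := exists_lt_of_csInf_lt hne h
  have h4 : 0 < Q4 u u v v := lt_of_le_of_ne (Q4_nonneg u v) huv.symm
  exact ⟨u, v, h4, by rwa [div_lt_iff₀ h4] at hs⟩

/-- module kaA. `Q4 u u v v ≤ sqrt (Q4 u u u u) * sqrt (Q4 v v v v)` (`Q4_cs`) and `S2_le`. -/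
theorem kap_ge [Dim N] {l1 l2 : ℝ} (h1 : 0 < l1) (h2 : 0 < l2) :
    S2 N l1 * S2 N l2 ≤ kap N l1 l2 ^ 2 ∧ 0 < kap N l1 l2 := by
  have hS1 := S2_pos (N := N) h1
  have hS2 := S2_pos (N := N) h2
  have hS : 0 < S2 N l1 * S2 N l2 := mul_pos hS1 hS2
  have key : Real.sqrt (S2 N l1 * S2 N l2) ≤ kap N l1 l2 := by
    by_contra hcon
    rw [not_le] at hcon
    obtain ⟨u, v, hQ, huv⟩ := kap_lt h1 h2 hcon
    have e1 := S2_le h1 u
    have e2 := S2_le h2 v
    have e3 := Q4_cs u v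
    have e4 : (S2 N l1 * Q4 u u u u) * (S2 N l2 * Q4 v v v v) ≤ ip l1 u u ^ 2 * ip l2 v v ^ 2 :=
      mul_le_mul e1 e2 (mul_nonneg hS2.le (Q4_nonneg v v)) (sq_nonneg _)
    have e5 : (S2 N l1 * S2 N l2) * Q4 u u v v ^ 2 ≤ (ip l1 u u * ip l2 v v) ^ 2 := by
      calc (S2 N l1 * S2 N l2) * Q4 u u v v ^ 2
          ≤ (S2 N l1 * S2 N l2) * (Q4 u u u u * Q4 v v v v) :=
            mul_le_mul_of_nonneg_left e3 hS.le
        _ = (S2 N l1 * Q4 u u u u) * (S2 N l2 * Q4 v v v v) := by ring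
        _ ≤ ip l1 u u ^ 2 * ip l2 v v ^ 2 := e4
        _ = _ := by ring
    have e6 : (ip l1 u u * ip l2 v v) ^ 2 < (Real.sqrt (S2 N l1 * S2 N l2) * Q4 u u v v) ^ 2 :=
      pow_lt_pow_left₀ huv (mul_nonneg (ip_nonneg h1.le u) (ip_nonneg h2.le v)) (by norm_num)
    rw [mul_pow (Real.sqrt (S2 N l1 * S2 N l2)), Real.sq_sqrt hS.le] at e6
    exact absurd e5 (not_le.2 e6)
  have hs : 0 < Real.sqrt (S2 N l1 * S2 N l2) := Real.sqrt_pos.2 hS
  refine ⟨?_, lt_of_lt_of_le hs key⟩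
  have h5 := pow_le_pow_left₀ hs.le key 2
  rwa [Real.sq_sqrt hS.le] at h5

private theorem kaB_le [Dim N] {l1 l2 s : ℝ} (h1 : 0 < l1) (h2 : 0 < l2) (hs : 0 < s) :
    kap N (s ^ 2 * l1) (s ^ 2 * l2) ≤ s ^ (4 - N) * kap N l1 l2 := by
  obtain ⟨T, _, hi, hq⟩ := dil_H (N := N) s hs
  have hp : 0 < s ^ (4 - N) := by positivity
  by_contra hcon
  rw [not_le, ← lt_div_iff₀' hp] at hcon
  obtain ⟨u, v, hQ, huv⟩ := kap_lt h1 h2 hcon
  have h3 := kap_le (N := N) (l1 := s ^ 2 * l1) (l2 := s ^ 2 * l2) (by positivity) (by positivity)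
    (T u) (T v)
  rw [hi, hi, hq] at h3
  have h4 : s ^ (4 - N) * (kap N (s ^ 2 * l1) (s ^ 2 * l2) * Q4 u u v v) ≤
      s ^ (4 - N) * (s ^ (4 - N) * (ip l1 u u * ip l2 v v)) := by
    calc s ^ (4 - N) * (kap N (s ^ 2 * l1) (s ^ 2 * l2) * Q4 u u v v)
        = kap N (s ^ 2 * l1) (s ^ 2 * l2) * (s ^ (4 - N) * Q4 u u v v) := by ring
      _ ≤ s ^ (4 - N) * ip l1 u u * (s ^ (4 - N) * ip l2 v v) := h3
      _ = _ := by ring
  have h5 := le_of_mul_le_mul_left h4 hp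
  have h6 : s ^ (4 - N) * (ip l1 u u * ip l2 v v) <
      s ^ (4 - N) * (kap N (s ^ 2 * l1) (s ^ 2 * l2) / s ^ (4 - N) * Q4 u u v v) :=
    mul_lt_mul_of_pos_left huv hp
  have h7 : s ^ (4 - N) * (kap N (s ^ 2 * l1) (s ^ 2 * l2) / s ^ (4 - N) * Q4 u u v v) =
      kap N (s ^ 2 * l1) (s ^ 2 * l2) * Q4 u u v v := by
    field_simp
  rw [h7] at h6
  exact absurd h5 (not_le.2 h6)

/-- module kaB. Dilation `dil_H`. -/
theorem kap_scale [Dim N] {l1 l2 s : ℝ} (h1 : 0 < l1) (h2 : 0 < l2) (hs : 0 < s) :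
    kap N (s ^ 2 * l1) (s ^ 2 * l2) = s ^ (4 - N) * kap N l1 l2 := by
  refine le_antisymm (kaB_le h1 h2 hs) ?_
  have h3 := kaB_le (N := N) (l1 := s ^ 2 * l1) (l2 := s ^ 2 * l2) (s := s⁻¹) (by positivity)
    (by positivity) (by positivity)
  have e1 : s⁻¹ ^ 2 * (s ^ 2 * l1) = l1 := by field_simp
  have e2 : s⁻¹ ^ 2 * (s ^ 2 * l2) = l2 := by field_simp
  rw [e1, e2, inv_pow] at h3
  have hp : 0 < s ^ (4 - N) := by positivity
  calc s ^ (4 - N) * kap N l1 l2 ≤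
      s ^ (4 - N) * ((s ^ (4 - N))⁻¹ * kap N (s ^ 2 * l1) (s ^ 2 * l2)) :=
        mul_le_mul_of_nonneg_left h3 hp.le
    _ = _ := by
      rw [← mul_assoc, mul_inv_cancel₀ hp.ne', one_mul]

/-- module kaB. Monotone in `l1` (`ip_mono`). -/
theorem kap_mono [Dim N] {l1 l1' l2 : ℝ} (h1 : 0 < l1) (h : l1 ≤ l1') (h2 : 0 < l2) :
    kap N l1 l2 ≤ kap N l1' l2 := by
  by_contra hcon
  rw [not_le] at hcon
  obtain ⟨u, v, hQ, huv⟩ := kap_lt (h1.trans_le h) h2 hcon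
  have h3 := kap_le h1 h2 u v
  have h4 : ip l1 u u * ip l2 v v ≤ ip l1' u u * ip l2 v v :=
    mul_le_mul_of_nonneg_right (ip_mono h u) (ip_nonneg h2.le v)
  exact absurd (h3.trans h4) (not_le.2 huv)

private theorem kaC_bump (M : ℕ) {r R : ℝ} (hr : 0 < r) (hR : r < R) : ∃ φ : E M → ℝ,
    ContDiff ℝ 1 φ ∧ HasCompactSupport φ ∧ (∀ x, 0 ≤ φ x) ∧ (∀ x, φ x ≤ 1) ∧
    (∀ x, ‖x‖ ≤ r → φ x = 1) ∧ ∀ x, R ≤ ‖x‖ → φ x = 0 := by
  let f : ContDiffBump (0 : E M) := ⟨r, R, hr, hR⟩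
  refine ⟨fun x => f x, f.contDiff, f.hasCompactSupport, fun x => f.nonneg, fun x => f.le_one,
    fun x hx => f.one_of_mem_closedBall (by simpa using hx), fun x hx => ?_⟩
  exact f.zero_of_le_dist (by simpa [dist_zero_right] using hx)

private theorem kaC_grad {M : ℕ} (φ : E M → ℝ) (h0 : ∀ x, 0 ≤ φ x) (h1 : ∀ x, φ x ≤ 1) (x : E M)
    (hx : φ x = 1 ∨ φ x = 0) : gradient φ x = 0 := by
  have h : fderiv ℝ φ x = 0 := by
    rcases hx with hx | hx
    · exact IsLocalMax.fderiv_eq_zero (Eventually.of_forall fun y => by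
        show φ y ≤ φ x
        rw [hx]
        exact h1 y)
    · exact IsLocalMin.fderiv_eq_zero (Eventually.of_forall fun y => by
        show φ x ≤ φ y
        rw [hx]
        exact h0 y)
  unfold gradient
  rw [h, map_zero]

/-- module kaC. A cut-off `ψ` of class `C¹` on the plane, `ψ = 1` on the unit ball, `ψ = 0` outside the ball of radius 2
(for instance a smooth bump function, `ContDiffBump`), as an element of `H1 2` whose gradient vanishes a.e. outside the annulus. -/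
theorem cut_one : ∃ z : H1 2, (∀ᵐ x : E 2, ‖x‖ ≤ 1 → fn z x = 1) ∧ (∀ᵐ x : E 2, 2 ≤ ‖x‖ → fn z x = 0) ∧
    ∀ᵐ x : E 2, (‖x‖ < 1 ∨ 2 < ‖x‖) → gr z x = 0 := by
  obtain ⟨φ, c1, c2, h0, h1, ha, hb⟩ := kaC_bump 2 (r := 1) (R := 2) (by norm_num) (by norm_num)
  obtain ⟨z, z1, z2⟩ := ofCc φ c1 c2
  refine ⟨z, ?_, ?_, ?_⟩
  · filter_upwards [z1] with x hx hx'
    rw [hx, ha x hx']
  · filter_upwards [z1] with x hx hx'
    rw [hx, hb x hx']
  · filter_upwards [z2] with x hx hx'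
    rw [hx]
    refine kaC_grad φ h0 h1 x ?_
    rcases hx' with h | h
    · exact Or.inl (ha x h.le)
    · exact Or.inr (hb x h.le)

private theorem kaD_gX_sum {ι : Type*} (s : Finset ι) (f : ι → H1 N) (w : H1 N) :
    gX (∑ i ∈ s, f i) w = ∑ i ∈ s, gX (f i) w := by
  classical
  induction s using Finset.induction_on with
  | empty =>
    rw [Finset.sum_empty, Finset.sum_empty]
    have h := gX_smul_left (0 : ℝ) (0 : H1 N) w
    rwa [zero_smul, zero_mul] at h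
  | insert a s ha ih => rw [Finset.sum_insert ha, Finset.sum_insert ha, gX_add_left, ih]

private theorem kaD_fn_sum (n : ℕ) (f : ℕ → H1 N) (g : ℕ → E N → ℝ)
    (h : ∀ i, fn (f i) =ᵐ[volume] g i) :
    fn (∑ i ∈ Finset.range n, f i) =ᵐ[volume] fun x => ∑ i ∈ Finset.range n, g i x := by
  induction n with
  | zero => simpa using fn_zero (N := N)
  | succ n ih =>
    rw [Finset.sum_range_succ]
    filter_upwards [fn_add (∑ i ∈ Finset.range n, f i) (f n), ih, h n] with x a b c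
    rw [a, b, c, Finset.sum_range_succ]

/-- module kaD. **Capacity zero in the plane.** `η = (1/n) Σ_{j=1}^{n} ψ(2^{-j} x)`, `ψ` from `cut_one`: dilations `x ↦ ψ(2^{-j} x)` are
`2^j` times the map of `dil_H` with `s = 2^{-j}`; `gX` of each is `gX ψ ψ`, two different ones are orthogonal for `gX` (gradients live on
the disjoint annuli `2^j < ‖x‖ < 2^(j+1)`; for this one also needs the gradient of the dilation: read it from `dil_H` by
`H1_ext` or use the local statement `gr (T u) = 0` a.e. on open sets where `fn (T u)` is constant), so `gX η η = gX ψ ψ / n`; `η = 1` on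
the ball of radius 1. -/
theorem cap_zero {d : ℝ} (hd : 0 < d) : ∃ z : H1 2, gX z z < d ∧
    ∀ᵐ x : E 2, ‖x‖ ≤ 1 → fn z x = 1 := by
  have : Dim 2 := ⟨Or.inl rfl⟩
  obtain ⟨φ, c1, c2, h0, h1, ha, hb⟩ := kaC_bump 2 (r := 1) (R := 2) (by norm_num) (by norm_num)
  obtain ⟨g, g1, g2⟩ := ofCc φ c1 c2
  have hpos : ∀ j : ℕ, (0 : ℝ) < (2 ^ j)⁻¹ := fun j => by positivity
  have hex : ∀ j : ℕ, ∃ z : H1 2, (fn z =ᵐ[volume] fun x => φ ((2 ^ j : ℝ)⁻¹ • x)) ∧
      gr z =ᵐ[volume] fun x => gradient (fun y => φ ((2 ^ j : ℝ)⁻¹ • y)) x := fun j =>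
    ofCc (fun x => φ ((2 ^ j : ℝ)⁻¹ • x)) (c1.comp (contDiff_const_smul _))
      (c2.comp_smul (hpos j).ne')
  choose f f1 f2 using hex
  have hself : ∀ j, gX (f j) (f j) = gX g g := fun j => by
    obtain ⟨T, hT, hi, _⟩ := dil_H (N := 2) ((2 ^ j : ℝ)⁻¹) (hpos j)
    have e1 : f j = (2 ^ j : ℝ) • T g := by
      refine H1_ext ?_
      have hq : Measure.QuasiMeasurePreserving (fun x : E 2 => (2 ^ j : ℝ)⁻¹ • x) volume volume := by
        refine ⟨measurable_const_smul _, ?_⟩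
        rw [Measure.map_addHaar_smul (volume : Measure (E 2)) (hpos j).ne']
        exact Measure.smul_absolutelyContinuous
      filter_upwards [f1 j, fn_smul (2 ^ j : ℝ) (T g), hT g, hq.tendsto_ae.eventually g1]
        with x a b c e
      rw [a, b, c, ← mul_assoc, mul_inv_cancel₀ (by positivity), one_mul]
      exact e.symm
    have e2 := hi 0 g g
    have e3 : ∀ u v : H1 2, ip 0 u v = gX u v := fun u v => by
      unfold ip
      rw [zero_mul, add_zero]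
    rw [mul_zero, e3, e3] at e2
    rw [e1, gX_smul_left, gX_smul_right, e2]
    have e4 : (2 ^ j : ℝ) ≠ 0 := by positivity
    have e5 : ((2 ^ j : ℝ)⁻¹) ^ (4 - 2) = ((2 ^ j : ℝ)⁻¹) * ((2 ^ j : ℝ)⁻¹) := by
      norm_num [sq]
    rw [e5]
    field_simp
  have horth : ∀ i j, i < j → gX (f i) (f j) = 0 := fun i j hij => by
    unfold gX
    have hz : (fun x => inner ℝ (gr (f i) x) (gr (f j) x)) =ᵐ[volume] fun _ => (0 : ℝ) := by
      filter_upwards [f2 i, f2 j] with x a b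
      rw [a, b]
      have hn : ∀ k : ℕ, ‖(2 ^ k : ℝ)⁻¹ • x‖ = ‖x‖ / 2 ^ k := fun k => by
        rw [norm_smul, norm_inv, norm_pow, Real.norm_ofNat, mul_comm, div_eq_mul_inv]
      rcases le_or_gt ‖x‖ (2 ^ j) with h | h
      · have h3 : gradient (fun y => φ ((2 ^ j : ℝ)⁻¹ • y)) x = 0 := by
          refine kaC_grad (fun y => φ ((2 ^ j : ℝ)⁻¹ • y)) (fun y => h0 _) (fun y => h1 _) x
            (Or.inl (ha _ ?_))
          rw [hn, div_le_one (by positivity)]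
          exact h
        rw [h3, inner_zero_right]
      · have h3 : gradient (fun y => φ ((2 ^ i : ℝ)⁻¹ • y)) x = 0 := by
          refine kaC_grad (fun y => φ ((2 ^ i : ℝ)⁻¹ • y)) (fun y => h0 _) (fun y => h1 _) x
            (Or.inr (hb _ ?_))
          rw [hn, le_div_iff₀ (by positivity)]
          have h4 : (2 : ℝ) * 2 ^ i ≤ 2 ^ j := by
            rw [← pow_succ']
            exact pow_le_pow_right₀ (by norm_num) hij
          exact h4.trans h.le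
        rw [h3, inner_zero_left]
    rw [integral_congr_ae hz, integral_zero]
  obtain ⟨n, hn⟩ := exists_nat_gt (gX g g / d)
  have hg0 := gX_nonneg g
  have hn0 : 0 < (n : ℝ) := lt_of_le_of_lt (div_nonneg hg0 hd.le) hn
  refine ⟨(n : ℝ)⁻¹ • ∑ j ∈ Finset.range n, f j, ?_, ?_⟩
  · have hsum : gX (∑ j ∈ Finset.range n, f j) (∑ j ∈ Finset.range n, f j) = n * gX g g := by
      rw [kaD_gX_sum]
      have e : ∀ i ∈ Finset.range n, gX (f i) (∑ j ∈ Finset.range n, f j) = gX g g := by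
        intro i hi
        rw [gX_comm, kaD_gX_sum, Finset.sum_eq_single i]
        · exact hself i
        · intro j _ hji
          rcases lt_or_gt_of_ne hji with h | h
          · exact horth j i h
          · rw [gX_comm]
            exact horth i j h
        · intro h
          exact absurd hi h
      rw [Finset.sum_congr rfl e, Finset.sum_const, Finset.card_range, nsmul_eq_mul]
    rw [gX_smul_left, gX_smul_right, hsum]
    rw [div_lt_iff₀ hd] at hn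
    have h3 : (n : ℝ)⁻¹ * ((n : ℝ)⁻¹ * (n * gX g g)) = gX g g / n := by
      field_simp
    rw [h3, div_lt_iff₀ hn0]
    linarith
  · filter_upwards [fn_smul (n : ℝ)⁻¹ (∑ j ∈ Finset.range n, f j),
      kaD_fn_sum n f (fun j x => φ ((2 ^ j : ℝ)⁻¹ • x)) f1] with x a b hx
    rw [a, b]
    have h3 : ∀ j ∈ Finset.range n, φ ((2 ^ j : ℝ)⁻¹ • x) = 1 := by
      intro j _
      refine ha _ ?_
      rw [norm_smul, norm_inv, norm_pow, Real.norm_ofNat]
      have h4 : (1 : ℝ) ≤ 2 ^ j := one_le_pow₀ (by norm_num)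
      have h5 : (2 ^ j : ℝ)⁻¹ ≤ 1 := inv_le_one_of_one_le₀ h4
      calc (2 ^ j : ℝ)⁻¹ * ‖x‖ ≤ 1 * 1 :=
            mul_le_mul h5 hx (norm_nonneg x) zero_le_one
        _ = 1 := one_mul 1
    rw [Finset.sum_congr rfl h3, Finset.sum_const, Finset.card_range, nsmul_eq_mul, mul_one,
      inv_mul_cancel₀ hn0.ne']

private theorem kaE_exists : ∃ v : H1 2, v ≠ 0 ∧ ∀ᵐ x : E 2, 1 < ‖x‖ → fn v x = 0 := by
  obtain ⟨φ, c1, c2, h0, h1, ha, hb⟩ := kaC_bump 2 (r := 1 / 2) (R := 1) (by norm_num)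
    (by norm_num)
  obtain ⟨v, v1, v2⟩ := ofCc φ c1 c2
  refine ⟨v, fun h => ?_, ?_⟩
  · rw [h] at v1
    have h3 := (fn_zero (N := 2)).symm.trans v1
    have h4 := (Continuous.ae_eq_iff_eq (volume : Measure (E 2)) continuous_const
      c1.continuous).1 h3
    have h5 := congrFun h4 0
    rw [ha 0 (by simp)] at h5
    norm_num at h5
  · filter_upwards [v1] with x hx hx'
    rw [hx, hb x hx'.le]

private theorem kaE_two {ep : ℝ} (hep : 0 < ep) : ∃ l0 : ℝ, 0 < l0 ∧ ∀ l : ℝ, 0 < l → l < l0 →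
    kap 2 l 1 < ep := by
  have : Dim 2 := ⟨Or.inl rfl⟩
  obtain ⟨v, hv, hv0⟩ := kaE_exists
  have hY := gY_pos hv
  have hI := ip_pos one_pos hv
  obtain ⟨z, hz, hz1⟩ := cap_zero (d := ep * gY v v / (2 * ip 1 v v)) (by positivity)
  have hZ := gY_nonneg z
  have hQ : Q4 z z v v = gY v v := by
    unfold Q4 gY
    refine integral_congr_ae ?_
    filter_upwards [hz1, hv0] with x a b
    rcases le_or_gt ‖x‖ 1 with h | h
    · rw [a h, one_mul, one_mul]
    · rw [b h, mul_zero, mul_zero]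
  refine ⟨ep * gY v v / (2 * ip 1 v v * (gY z z + 1)), by positivity, fun l hl hl' => ?_⟩
  have h1 := kap_le (N := 2) hl one_pos z v
  rw [hQ] at h1
  have h2 : l * gY z z ≤ ep * gY v v / (2 * ip 1 v v) := by
    have h3 : l * (gY z z + 1) ≤ ep * gY v v / (2 * ip 1 v v) := by
      rw [lt_div_iff₀ (by positivity)] at hl'
      rw [le_div_iff₀ (by positivity)]
      nlinarith
    nlinarith
  have h4 : ip l z z < ep * gY v v / ip 1 v v := by
    have h5 : ip l z z = gX z z + l * gY z z := rfl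
    have h6 : ep * gY v v / ip 1 v v =
      ep * gY v v / (2 * ip 1 v v) + ep * gY v v / (2 * ip 1 v v) := by
      field_simp
      ring
    rw [h5, h6]
    linarith
  rw [lt_div_iff₀ hI] at h4
  have h7 : kap 2 l 1 * gY v v < ep * gY v v := lt_of_le_of_lt h1 h4
  exact lt_of_mul_lt_mul_right h7 hY.le

/-- module kaE. `N = 3`: `kap N l 1 ≤ kap N 1 1`. `N = 2`: `z` from `cap_zero`, `v ≠ 0` fixed in `H1 2` with `fn v = 0` a.e. outside the unit ball (a smooth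
bump, `ofCc`): `Q4 z z v v = gY v v`, so `kap 2 l 1 * gY v v ≤ (gX z z + l * gY z z) * ip 1 v v`, small for `d` small, then `l` small. -/
theorem kap_small [Dim N] {ep : ℝ} (hep : 0 < ep) : ∃ l0 : ℝ, 0 < l0 ∧ ∀ l : ℝ, 0 < l → l < l0 →
    kap N l 1 ^ 2 * l ^ (N - 2) < ep := by
  rcases Dim.h (N := N) with rfl | rfl
  · obtain ⟨l0, h0, h1⟩ := kaE_two (ep := Real.sqrt ep) (Real.sqrt_pos.2 hep)
    refine ⟨l0, h0, fun l hl hl' => ?_⟩
    have h2 := h1 l hl hl'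
    have h3 := (kap_ge (N := 2) hl one_pos).2
    have h4 := pow_lt_pow_left₀ h2 h3.le (n := 2) (by norm_num)
    rw [Real.sq_sqrt hep.le] at h4
    simpa using h4
  · have hK := (kap_ge (N := 3) one_pos one_pos).2
    refine ⟨min 1 (ep / kap 3 1 1 ^ 2), lt_min one_pos (by positivity), fun l hl hl' => ?_⟩
    have h1 : l < 1 := lt_of_lt_of_le hl' (min_le_left _ _)
    have h2 : l < ep / kap 3 1 1 ^ 2 := lt_of_lt_of_le hl' (min_le_right _ _)
    have h3 := kap_mono (N := 3) hl h1.le one_pos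
    have h4 := (kap_ge (N := 3) hl one_pos).2
    have h5 := pow_le_pow_left₀ h4.le h3 2
    rw [lt_div_iff₀ (by positivity)] at h2
    have h6 : l ^ (3 - 2) = l := by norm_num
    rw [h6]
    nlinarith

end Sir
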