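import Pool.Agent.SirF.Rel
/-!
# The existence criterion (text MP_2cd2dd_an_far_helper13.md, section 0, crit_GS)
modules: crA, crB, crC, crD
-/

namespace Sir

open MeasureTheory Filter Topology

variable {N : ℕ}

/-- module crA. A symmetrised minimising sequence: `level_lt` with `t = level + 1/(n+1)`, `Neh_En`, `symm_pair`, `Neh_ge`, with
`p n = m1 P(u n)`, `r n = m2 P(v n)` (unchanged by the symmetrisation), `q n` the old `be * Q4`, `a n = p n + q n`, `b n = q n + r n`. -/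
theorem crit_seq [Dim N] {l1 l2 m1 m2 be : ℝ} (h1 : 0 < l1) (h2 : 0 < l2) (hm1 : 0 < m1)
    (hm2 : 0 < m2) (hb : 0 < be) : ∃ (u v : ℕ → H1 N) (q : ℕ → ℝ),
      (∀ n, RD (u n) ∧ RD (v n) ∧ u n ≠ 0 ∧ v n ≠ 0 ∧ 0 ≤ q n ∧
        q n ≤ be * Q4 (u n) (u n) (v n) (v n) ∧
        ip l1 (u n) (u n) ≤ m1 * Q4 (u n) (u n) (u n) (u n) + q n ∧
        ip l2 (v n) (v n) ≤ q n + m2 * Q4 (v n) (v n) (v n) (v n) ∧
        S2 N l2 / (4 * m2) ≤ (m1 * Q4 (u n) (u n) (u n) (u n) + 2 * q n +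
          m2 * Q4 (v n) (v n) (v n) (v n)) / 4 +
          (q n ^ 2 - m1 * Q4 (u n) (u n) (u n) (u n) * (m2 * Q4 (v n) (v n) (v n) (v n))) /
            (4 * (m2 * Q4 (v n) (v n) (v n) (v n)))) ∧
      Tendsto (fun n => (m1 * Q4 (u n) (u n) (u n) (u n) + 2 * q n +
        m2 * Q4 (v n) (v n) (v n) (v n)) / 4) atTop (𝓝 (level N l1 l2 m1 m2 be)) := by
  have hex : ∀ n : ℕ, ∃ u v : H1 N, Neh l1 l2 m1 m2 be u v ∧
      En l1 l2 m1 m2 be u v < level N l1 l2 m1 m2 be + 1 / ((n : ℝ) + 1) := fun n =>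
    (level_lt h1 h2 hm1 hm2 (lt_add_of_pos_right _ (by positivity))).2
  choose a b hN hE using hex
  have hsym := fun n => symm_pair (a n) (b n)
  choose u v hs using hsym
  have hen : ∀ n, En l1 l2 m1 m2 be (a n) (b n) =
      (m1 * Q4 (u n) (u n) (u n) (u n) + 2 * (be * Q4 (a n) (a n) (b n) (b n)) +
        m2 * Q4 (v n) (v n) (v n) (v n)) / 4 := by
    intro n
    obtain ⟨_, _, s3, s4, s5, s6, s7, s8, s9⟩ := hs n
    rw [Neh_En (hN n), (hN n).2.2.1, (hN n).2.2.2, s7, s8]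
    ring
  refine ⟨u, v, fun n => be * Q4 (a n) (a n) (b n) (b n), fun n => ?_, ?_⟩
  · obtain ⟨s1, s2, s3, s4, s5, s6, s7, s8, s9⟩ := hs n
    obtain ⟨n1, n2, n3, n4⟩ := hN n
    have k1 : u n ≠ 0 := by
      intro h0
      have h5 := gY_pos n1
      rw [← s5, h0] at h5
      have h6 : gY (0 : H1 N) 0 = 0 := by
        have := gY_smul_left 0 (0 : H1 N) 0
        simpa using this
      rw [h6] at h5
      exact lt_irrefl _ h5
    have k2 : v n ≠ 0 := by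
      intro h0
      have h5 := gY_pos n2
      rw [← s6, h0] at h5
      have h6 : gY (0 : H1 N) 0 = 0 := by
        have := gY_smul_left 0 (0 : H1 N) 0
        simpa using this
      rw [h6] at h5
      exact lt_irrefl _ h5
    refine ⟨s1, s2, k1, k2, mul_nonneg hb.le (Q4_nonneg _ _), mul_le_mul_of_nonneg_left s9 hb.le,
      ?_, ?_, ?_⟩
    · have h5 : ip l1 (u n) (u n) ≤ ip l1 (a n) (a n) := by
        unfold ip
        rw [s5]
        linarith
      rw [n3, ← s7] at h5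
      exact h5
    · have h5 : ip l2 (v n) (v n) ≤ ip l2 (b n) (b n) := by
        unfold ip
        rw [s6]
        linarith
      rw [n4, ← s8] at h5
      linarith
    · have h5 := (Neh_ge h1 h2 hm1 hm2 (hN n)).1
      rw [hen n] at h5
      unfold Dl at h5
      rw [← s7, ← s8] at h5
      exact h5
  · have hlo : ∀ n, level N l1 l2 m1 m2 be ≤ (m1 * Q4 (u n) (u n) (u n) (u n) +
        2 * (be * Q4 (a n) (a n) (b n) (b n)) + m2 * Q4 (v n) (v n) (v n) (v n)) / 4 := by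
      intro n
      rw [← hen n]
      exact level_le h1 h2 (hN n)
    have hhi : ∀ n, (m1 * Q4 (u n) (u n) (u n) (u n) +
        2 * (be * Q4 (a n) (a n) (b n) (b n)) + m2 * Q4 (v n) (v n) (v n) (v n)) / 4 ≤
        level N l1 l2 m1 m2 be + 1 / ((n : ℝ) + 1) := by
      intro n
      rw [← hen n]
      exact (hE n).le
    refine tendsto_of_tendsto_of_tendsto_of_le_of_le tendsto_const_nhds ?_ hlo hhi
    have h5 := (tendsto_const_nhds (x := level N l1 l2 m1 m2 be)).add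
      (tendsto_one_div_add_atTop_nhds_zero_nat (𝕜 := ℝ))
    simpa using h5

/-- module crB. Extraction of a limit: all numbers are bounded, `exists_WC`, `RD_comp`, `n4_tendsto` / `Q4_tendsto`, `WC_lsc`; for the last
clause multiply the lower bound of `crit_seq` by `4 * (m2 * P(v n))` before passing to the limit. -/
theorem crit_lim [Dim N] {l1 l2 m1 m2 be : ℝ} (h1 : 0 < l1) (h2 : 0 < l2) (hm1 : 0 < m1)
    (hm2 : 0 < m2) (hb : 0 < be) {u v : ℕ → H1 N} {q : ℕ → ℝ}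
    (H : ∀ n, RD (u n) ∧ RD (v n) ∧ u n ≠ 0 ∧ v n ≠ 0 ∧ 0 ≤ q n ∧
        q n ≤ be * Q4 (u n) (u n) (v n) (v n) ∧
        ip l1 (u n) (u n) ≤ m1 * Q4 (u n) (u n) (u n) (u n) + q n ∧
        ip l2 (v n) (v n) ≤ q n + m2 * Q4 (v n) (v n) (v n) (v n) ∧
        S2 N l2 / (4 * m2) ≤ (m1 * Q4 (u n) (u n) (u n) (u n) + 2 * q n +
          m2 * Q4 (v n) (v n) (v n) (v n)) / 4 +
          (q n ^ 2 - m1 * Q4 (u n) (u n) (u n) (u n) * (m2 * Q4 (v n) (v n) (v n) (v n))) /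
            (4 * (m2 * Q4 (v n) (v n) (v n) (v n))))
    (HE : Tendsto (fun n => (m1 * Q4 (u n) (u n) (u n) (u n) + 2 * q n +
        m2 * Q4 (v n) (v n) (v n) (v n)) / 4) atTop (𝓝 (level N l1 l2 m1 m2 be))) :
    ∃ (f : ℕ → ℕ) (U V : H1 N) (q0 : ℝ), StrictMono f ∧ WC (fun n => u (f n)) U ∧
      WC (fun n => v (f n)) V ∧ RD U ∧ RD V ∧ Tendsto (fun n => n4 (u (f n) - U)) atTop (𝓝 0) ∧
      Tendsto (fun n => n4 (v (f n) - V)) atTop (𝓝 0) ∧ Tendsto (fun n => q (f n)) atTop (𝓝 q0) ∧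
      0 ≤ q0 ∧ q0 ≤ be * Q4 U U V V ∧ ip l1 U U ≤ m1 * Q4 U U U U + q0 ∧
      ip l2 V V ≤ q0 + m2 * Q4 V V V V ∧
      (m1 * Q4 U U U U + 2 * q0 + m2 * Q4 V V V V) / 4 = level N l1 l2 m1 m2 be ∧
      4 * (m2 * Q4 V V V V) * (S2 N l2 / (4 * m2) - level N l1 l2 m1 m2 be) ≤
        q0 ^ 2 - m1 * Q4 U U U U * (m2 * Q4 V V V V) := by
  obtain ⟨M, hM⟩ := HE.bddAbove_range
  have hM' : ∀ n, (m1 * Q4 (u n) (u n) (u n) (u n) + 2 * q n +
        m2 * Q4 (v n) (v n) (v n) (v n)) / 4 ≤ M := fun n => hM ⟨n, rfl⟩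
  have pn : ∀ n, 0 ≤ m1 * Q4 (u n) (u n) (u n) (u n) := fun n =>
    mul_nonneg hm1.le (Q4_nonneg _ _)
  have rn : ∀ n, 0 ≤ m2 * Q4 (v n) (v n) (v n) (v n) := fun n =>
    mul_nonneg hm2.le (Q4_nonneg _ _)
  have qn : ∀ n, 0 ≤ q n := fun n => (H n).2.2.2.2.1
  have hM0 : 0 ≤ M := by
    have := hM' 0
    have := pn 0
    have := rn 0
    have := qn 0
    linarith
  have bd : ∀ (l : ℝ), 0 < l → ∀ z : ℕ → H1 N, (∀ n, ip l (z n) (z n) ≤ 4 * M) →
      ∃ K : ℝ, ∀ n, ‖z n‖ ≤ K := by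
    intro l hl z hz
    obtain ⟨C, hC, hC2⟩ := norm_le_ip (N := N) hl
    refine ⟨Real.sqrt (C * (4 * M)), fun n => ?_⟩
    refine Real.le_sqrt_of_sq_le ((hC2 (z n)).trans ?_)
    exact mul_le_mul_of_nonneg_left (hz n) hC.le
  obtain ⟨K1, hK1⟩ := bd l1 h1 u (fun n => by
    have a1 := (H n).2.2.2.2.2.2.1
    have := hM' n
    have := pn n
    have := rn n
    have := qn n
    linarith)
  obtain ⟨K2, hK2⟩ := bd l2 h2 v (fun n => by
    have a1 := (H n).2.2.2.2.2.2.2.1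
    have := hM' n
    have := pn n
    have := rn n
    have := qn n
    linarith)
  obtain ⟨f1, U, hf1, hU⟩ := exists_WC u K1 hK1
  obtain ⟨f2, V, hf2, hV⟩ := exists_WC (fun n => v (f1 n)) K2 (fun n => hK2 _)
  have hqb : ∀ n, q (f1 (f2 n)) ∈ Set.Icc (0 : ℝ) (2 * M) := by
    intro n
    refine ⟨qn _, ?_⟩
    have := hM' (f1 (f2 n))
    have := pn (f1 (f2 n))
    have := rn (f1 (f2 n))
    linarith
  obtain ⟨q0, _, f3, hf3, hq⟩ := isCompact_Icc.tendsto_subseq hqb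
  have hfm : StrictMono (fun n => f1 (f2 (f3 n))) := hf1.comp (hf2.comp hf3)
  have hU' : WC (fun n => u (f1 (f2 (f3 n)))) U := WC_comp hU (hf2.comp hf3)
  have hV' : WC (fun n => v (f1 (f2 (f3 n)))) V := WC_comp hV hf3
  have hq' : Tendsto (fun n => q (f1 (f2 (f3 n)))) atTop (𝓝 q0) := hq
  have hRU : RD U := RD_WC hU' (fun n => (H _).1)
  have hRV : RD V := RD_WC hV' (fun n => (H _).2.1)
  have cU := RD_comp hU' (fun n => (H _).1)
  have cV := RD_comp hV' (fun n => (H _).2.1)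
  have tP := (Q4_tendsto _ _ _ _ U U U U cU cU cU cU).const_mul m1
  have tR := (Q4_tendsto _ _ _ _ V V V V cV cV cV cV).const_mul m2
  have tQ := (Q4_tendsto _ _ _ _ U U V V cU cU cV cV).const_mul be
  have hElim : (m1 * Q4 U U U U + 2 * q0 + m2 * Q4 V V V V) / 4 = level N l1 l2 m1 m2 be := by
    refine tendsto_nhds_unique (((tP.add (hq'.const_mul 2)).add tR).div_const 4) ?_
    exact HE.comp hfm.tendsto_atTop
  refine ⟨fun n => f1 (f2 (f3 n)), U, V, q0, hfm, hU', hV', hRU, hRV, cU, cV, hq',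
    ge_of_tendsto' hq' (fun n => qn _), ?_, ?_, ?_, hElim, ?_⟩
  · exact le_of_tendsto_of_tendsto' hq' tQ (fun n => (H _).2.2.2.2.2.1)
  · exact WC_lsc hU' h1.le (tP.add hq') (Eventually.of_forall fun n => (H _).2.2.2.2.2.2.1)
  · exact WC_lsc hV' h2.le (hq'.add tR) (Eventually.of_forall fun n => (H _).2.2.2.2.2.2.2.1)
  · have key : ∀ n, 4 * (m2 * Q4 (v n) (v n) (v n) (v n)) * (S2 N l2 / (4 * m2) -
        (m1 * Q4 (u n) (u n) (u n) (u n) + 2 * q n + m2 * Q4 (v n) (v n) (v n) (v n)) / 4) ≤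
        q n ^ 2 - m1 * Q4 (u n) (u n) (u n) (u n) * (m2 * Q4 (v n) (v n) (v n) (v n)) := by
      intro n
      have hr : 0 < m2 * Q4 (v n) (v n) (v n) (v n) := mul_pos hm2 (Q4_pos (H n).2.2.2.1)
      have h5 := (H n).2.2.2.2.2.2.2.2
      set R := m2 * Q4 (v n) (v n) (v n) (v n) with hR
      set P := m1 * Q4 (u n) (u n) (u n) (u n) with hP
      have h6 : S2 N l2 / (4 * m2) - (P + 2 * q n + R) / 4 ≤ (q n ^ 2 - P * R) / (4 * R) := by
        linarith
      rw [le_div_iff₀ (by positivity)] at h6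
      linarith
    have t1 : Tendsto (fun n => 4 * (m2 * Q4 (v (f1 (f2 (f3 n)))) (v (f1 (f2 (f3 n))))
        (v (f1 (f2 (f3 n)))) (v (f1 (f2 (f3 n))))) * (S2 N l2 / (4 * m2) -
        (m1 * Q4 (u (f1 (f2 (f3 n)))) (u (f1 (f2 (f3 n)))) (u (f1 (f2 (f3 n))))
          (u (f1 (f2 (f3 n)))) + 2 * q (f1 (f2 (f3 n))) +
          m2 * Q4 (v (f1 (f2 (f3 n)))) (v (f1 (f2 (f3 n)))) (v (f1 (f2 (f3 n))))
          (v (f1 (f2 (f3 n))))) / 4)) atTop
        (𝓝 (4 * (m2 * Q4 V V V V) * (S2 N l2 / (4 * m2) - level N l1 l2 m1 m2 be))) :=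
      (tR.const_mul 4).mul (tendsto_const_nhds.sub (HE.comp hfm.tendsto_atTop))
    have t2 := (hq'.pow 2).sub (tP.mul tR)
    exact le_of_tendsto_of_tendsto' t1 t2 (fun n => key _)

/-- module crC. Case `V ≠ 0`: `D0 = q0² - p r > 0`. `a = p + q0`, `b = q0 + r`: `OmM a b p q0 r`, `EEn a b p q0 r = (a + b)/4 = level`. If
`q0 < be Q4 U U V V`: `EE_q` and `relax` contradict. If `ip l1 U U < a` (or `ip l2 V V < b`): `EEn` has the partial derivative
`(b q - a r)/(2 (q² - p r)) = 1/2` in `a` at this point, so for `a' < a` close to `a`, `relax` contradicts. Hence `(U,V)` is a Nehari pair at the level: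
`IsMin_of_level`, `0 < Dl`, `IsMin_sol`, `HasGS_iff`. -/
theorem crit_pos [Dim N] {l1 l2 m1 m2 be : ℝ} (h1 : 0 < l1) (h2 : 0 < l2) (hm1 : 0 < m1)
    (hm2 : 0 < m2) (hb : 0 < be) (hK : level N l1 l2 m1 m2 be < S2 N l2 / (4 * m2))
    {U V : H1 N} {q0 : ℝ} (hV : V ≠ 0) (a1 : 0 ≤ q0) (a2 : q0 ≤ be * Q4 U U V V)
    (a3 : ip l1 U U ≤ m1 * Q4 U U U U + q0) (a4 : ip l2 V V ≤ q0 + m2 * Q4 V V V V)
    (a5 : (m1 * Q4 U U U U + 2 * q0 + m2 * Q4 V V V V) / 4 = level N l1 l2 m1 m2 be)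
    (a6 : 4 * (m2 * Q4 V V V V) * (S2 N l2 / (4 * m2) - level N l1 l2 m1 m2 be) ≤
        q0 ^ 2 - m1 * Q4 U U U U * (m2 * Q4 V V V V)) :
    HasGS N l1 l2 m1 m2 be := by
  set L := level N l1 l2 m1 m2 be with hL
  have hr : 0 < m2 * Q4 V V V V := mul_pos hm2 (Q4_pos hV)
  have hp0 : 0 ≤ m1 * Q4 U U U U := mul_nonneg hm1.le (Q4_nonneg U U)
  have hD : 0 < q0 ^ 2 - m1 * Q4 U U U U * (m2 * Q4 V V V V) := by
    have h5 : 0 < 4 * (m2 * Q4 V V V V) * (S2 N l2 / (4 * m2) - L) :=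
      mul_pos (by positivity) (by linarith)
    linarith
  have hq : 0 < q0 := by
    rcases a1.lt_or_eq with h | h
    · exact h
    · rw [← h] at hD
      have := mul_nonneg hp0 hr.le
      nlinarith
  have hU : U ≠ 0 := by
    rintro rfl
    rw [Q4_zero1, mul_zero] at a2
    linarith
  have hp : 0 < m1 * Q4 U U U U := mul_pos hm1 (Q4_pos hU)
  -- real variable facts
  set p := m1 * Q4 U U U U with hpdef
  set r := m2 * Q4 V V V V with hrdef
  have hOm : OmM (p + q0) (q0 + r) p q0 r := ⟨hD, by nlinarith, by nlinarith⟩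
  have hEE : EEn (p + q0) (q0 + r) p q0 r = L := by
    rw [← a5]
    unfold EEn
    rw [div_eq_div_iff (by positivity) (by norm_num)]
    ring
  have e1 : q0 = be * Q4 U U V V := by
    by_contra hne
    have hlt : q0 < be * Q4 U U V V := lt_of_le_of_ne a2 hne
    obtain ⟨o1, o2⟩ := EE_q hp hr (by linarith) (by linarith) hq hOm hlt
    have h6 := relax h1 h2 hm1 hm2 a3 a4 o1
    rw [← hL] at h6
    linarith
  have e2 : ip l1 U U = p + q0 := by
    by_contra hne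
    have hlt : ip l1 U U < p + q0 := lt_of_le_of_ne a3 hne
    set D := q0 ^ 2 - p * r with hDdef
    obtain ⟨ep, hep, hep1, hep2⟩ : ∃ ep : ℝ, 0 < ep ∧ ep ≤ p + q0 - ip l1 U U ∧
        ep * q0 < D := by
      refine ⟨min (p + q0 - ip l1 U U) (D / (2 * q0)), lt_min (by linarith) (by positivity),
        min_le_left _ _, ?_⟩
      have h7 : min (p + q0 - ip l1 U U) (D / (2 * q0)) * q0 ≤ D / (2 * q0) * q0 :=
        mul_le_mul_of_nonneg_right (min_le_right _ _) hq.le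
      have h8 : D / (2 * q0) * q0 = D / 2 := by field_simp
      linarith
    have o1 : OmM (p + q0 - ep) (q0 + r) p (be * Q4 U U V V) r := by
      rw [← e1]
      refine ⟨hD, ?_, ?_⟩
      · nlinarith [mul_pos hep hr]
      · nlinarith
    have h6 := relax h1 h2 hm1 hm2 (by linarith : ip l1 U U ≤ p + q0 - ep) a4 o1
    rw [← hL, ← hEE, ← e1] at h6
    unfold EEn at h6
    rw [div_le_div_iff_of_pos_right (by positivity)] at h6
    nlinarith [mul_pos hep hD, mul_pos (mul_pos hep hep) hr]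
  have e3 : ip l2 V V = q0 + r := by
    by_contra hne
    have hlt : ip l2 V V < q0 + r := lt_of_le_of_ne a4 hne
    set D := q0 ^ 2 - p * r with hDdef
    obtain ⟨ep, hep, hep1, hep2⟩ : ∃ ep : ℝ, 0 < ep ∧ ep ≤ q0 + r - ip l2 V V ∧
        ep * q0 < D := by
      refine ⟨min (q0 + r - ip l2 V V) (D / (2 * q0)), lt_min (by linarith) (by positivity),
        min_le_left _ _, ?_⟩
      have h7 : min (q0 + r - ip l2 V V) (D / (2 * q0)) * q0 ≤ D / (2 * q0) * q0 :=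
        mul_le_mul_of_nonneg_right (min_le_right _ _) hq.le
      have h8 : D / (2 * q0) * q0 = D / 2 := by field_simp
      linarith
    have o1 : OmM (p + q0) (q0 + r - ep) p (be * Q4 U U V V) r := by
      rw [← e1]
      refine ⟨hD, ?_, ?_⟩
      · nlinarith
      · nlinarith [mul_pos hep hp]
    have h6 := relax h1 h2 hm1 hm2 a3 (by linarith : ip l2 V V ≤ q0 + r - ep) o1
    rw [← hL, ← hEE, ← e1] at h6
    unfold EEn at h6
    rw [div_le_div_iff_of_pos_right (by positivity)] at h6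
    nlinarith [mul_pos hep hD, mul_pos (mul_pos hep hep) hp]
  have hN : Neh l1 l2 m1 m2 be U V := by
    refine ⟨hU, hV, ?_, ?_⟩
    · rw [e2, ← e1]
    · rw [e3, ← e1, add_comm]
  have hEn : En l1 l2 m1 m2 be U V = L := by
    rw [Neh_En hN, e2, e3, ← a5]
    ring
  have hmin := IsMin_of_level h1 h2 hN (by rw [hEn])
  have hDl : Dl m1 m2 be U V ≠ 0 := by
    unfold Dl
    rw [← e1]
    exact hD.ne'
  exact ⟨U, V, hU, hV, IsMin_sol h1 h2 hm1 hm2 hmin hDl, hEn⟩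

/-- module crD. **Criterion.** `crit_seq`, `crit_lim`, `crit_pos` if `V ≠ 0`. If `V = 0`: `q0 = 0`, `b n := q n + r n → 0`, `b n > 0` (`ip_pos`),
`w n := (1 / sqrt (b n)) • v n` is `RD`, `ip l2 (w n) (w n) ≤ 1`, `r n ≤ C (b n)²` (`S2_le`), so `q n / b n → 1`; a subsequence `w → W` weakly, `n4`-strongly
(`RD_comp`), `1 ≤ be Q4 U U W W`, `ip l2 W W ≤ 1` (`WC_lsc`), `ip l1 U U ≤ m1 P(U) = 4 level`: `Deg U W`, contradiction to `hd`. -/
theorem crit_GS [Dim N] {l1 l2 m1 m2 be : ℝ} (h1 : 0 < l1) (h2 : 0 < l2) (hm1 : 0 < m1)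
    (hm2 : 0 < m2) (hb : 0 < be) (hK : level N l1 l2 m1 m2 be < S2 N l2 / (4 * m2))
    (hd : ∀ u v : H1 N, Deg l1 l2 m1 be u v →
      level N l1 l2 m1 m2 be < m1 * Q4 u u u u / 4) :
    HasGS N l1 l2 m1 m2 be := by
  obtain ⟨u, v, q, H, HE⟩ := crit_seq (N := N) h1 h2 hm1 hm2 hb
  obtain ⟨f, U, V, q0, hf, hWU, hWV, hRU, hRV, cU, cV, hq, b1, b2, b3, b4, b5, b6⟩ :=
    crit_lim h1 h2 hm1 hm2 hb H HE
  by_cases hV : V = 0
  swap
  · exact crit_pos h1 h2 hm1 hm2 hb hK hV b1 b2 b3 b4 b5 b6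
  exfalso
  subst hV
  have z1 : Q4 U U (0 : H1 N) 0 = 0 := by rw [Q4_swapp, Q4_zero1]
  have z2 : Q4 (0 : H1 N) 0 0 0 = 0 := Q4_zero1 _ _ _
  have hq0 : q0 = 0 := by
    rw [z1, mul_zero] at b2
    linarith
  rw [hq0] at hq b3 b5
  rw [z2] at b5
  -- the numbers `b n`
  have tR := (Q4_tendsto _ _ _ _ (0 : H1 N) 0 0 0 cV cV cV cV).const_mul m2
  rw [z2, mul_zero] at tR
  have tb := hq.add tR
  rw [add_zero] at tb
  set b : ℕ → ℝ := fun n => q (f n) + m2 * Q4 (v (f n)) (v (f n)) (v (f n)) (v (f n)) with hbdef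
  have bpos : ∀ n, 0 < b n := fun n =>
    lt_of_lt_of_le (ip_pos h2 (H (f n)).2.2.2.1) (H (f n)).2.2.2.2.2.2.2.1
  have hS : 0 < S2 N l2 := S2_pos h2
  set C := m2 / S2 N l2 with hC
  have rb : ∀ n, m2 * Q4 (v (f n)) (v (f n)) (v (f n)) (v (f n)) ≤ C * b n ^ 2 := by
    intro n
    have h5 := S2_le h2 (v (f n))
    have h6 : ip l2 (v (f n)) (v (f n)) ^ 2 ≤ b n ^ 2 :=
      pow_le_pow_left₀ (ip_nonneg h2.le _) (H (f n)).2.2.2.2.2.2.2.1 2
    have h7 : Q4 (v (f n)) (v (f n)) (v (f n)) (v (f n)) ≤ b n ^ 2 / S2 N l2 := by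
      rw [le_div_iff₀ hS]
      linarith
    calc m2 * Q4 (v (f n)) (v (f n)) (v (f n)) (v (f n)) ≤ m2 * (b n ^ 2 / S2 N l2) :=
          mul_le_mul_of_nonneg_left h7 hm2.le
      _ = C * b n ^ 2 := by rw [hC]; ring
  set w : ℕ → H1 N := fun n => (1 / Real.sqrt (b n)) • v (f n) with hw
  have hsq : ∀ n, (1 / Real.sqrt (b n)) * (1 / Real.sqrt (b n)) = 1 / b n := by
    intro n
    rw [div_mul_div_comm, one_mul, Real.mul_self_sqrt (bpos n).le]
  have wRD : ∀ n, RD (w n) := fun n => RD_smul (H (f n)).2.1 (by positivity)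
  have wip : ∀ n, ip l2 (w n) (w n) ≤ 1 := by
    intro n
    have h5 : ip l2 (w n) (w n) = 1 / b n * ip l2 (v (f n)) (v (f n)) := by
      rw [hw]
      simp only []
      rw [ip_smul_left, ip_smul_right, ← mul_assoc, hsq]
    rw [h5, one_div, ← div_eq_inv_mul, div_le_one (bpos n)]
    exact (H (f n)).2.2.2.2.2.2.2.1
  have wQ : ∀ n, 1 - C * b n ≤ be * Q4 (u (f n)) (u (f n)) (w n) (w n) := by
    intro n
    have h5 : Q4 (u (f n)) (u (f n)) (w n) (w n) =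
        1 / b n * Q4 (u (f n)) (u (f n)) (v (f n)) (v (f n)) := by
      rw [hw]
      simp only []
      rw [Q4_smul3, Q4_smul4, ← mul_assoc, hsq]
    have h6 : b n - C * b n ^ 2 ≤ be * Q4 (u (f n)) (u (f n)) (v (f n)) (v (f n)) := by
      have h7 := (H (f n)).2.2.2.2.2.1
      have h8 := rb n
      have h9 : b n = q (f n) + m2 * Q4 (v (f n)) (v (f n)) (v (f n)) (v (f n)) := rfl
      linarith
    have h7 : 1 - C * b n = 1 / b n * (b n - C * b n ^ 2) := by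
      have := (bpos n).ne'
      field_simp
    rw [h5, h7]
    calc 1 / b n * (b n - C * b n ^ 2)
        ≤ 1 / b n * (be * Q4 (u (f n)) (u (f n)) (v (f n)) (v (f n))) :=
          mul_le_mul_of_nonneg_left h6 (by have := bpos n; positivity)
      _ = _ := by ring
  obtain ⟨C1, hC1, hC2⟩ := norm_le_ip (N := N) h2
  obtain ⟨g, W, hg, hW⟩ := exists_WC w (Real.sqrt C1) (fun n => by
    refine Real.le_sqrt_of_sq_le ((hC2 (w n)).trans ?_)
    have := mul_le_mul_of_nonneg_left (wip n) hC1.le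
    linarith)
  have cW := RD_comp hW (fun n => wRD _)
  have cU' : Tendsto (fun n => n4 (u (f (g n)) - U)) atTop (𝓝 0) := cU.comp hg.tendsto_atTop
  have tQ := (Q4_tendsto _ _ _ _ U U W W cU' cU' cW cW).const_mul be
  have tb' : Tendsto (fun n => 1 - C * b (g n)) atTop (𝓝 (1 - C * 0)) :=
    tendsto_const_nhds.sub ((tb.comp hg.tendsto_atTop).const_mul C)
  rw [mul_zero, sub_zero] at tb'
  have hQ1 : 1 ≤ be * Q4 U U W W := le_of_tendsto_of_tendsto' tb' tQ (fun n => wQ _)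
  have hW1 : ip l2 W W ≤ 1 :=
    WC_lsc hW h2.le tendsto_const_nhds (Eventually.of_forall fun n => wip _)
  have hU0 : U ≠ 0 := by
    rintro rfl
    rw [Q4_zero1, mul_zero] at hQ1
    linarith
  have hW0 : W ≠ 0 := by
    rintro rfl
    rw [z1, mul_zero] at hQ1
    linarith
  have h5 := hd U W ⟨hU0, hW0, by linarith, by linarith⟩
  linarith

end Sir
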