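import Pool.Agent.SirF.Kap
import Pool.Agent.Sir.ExS
import Pool.Agent.Sir.Poh
/-!
# Existence for `0 < be < tau2` (text MP_2cd2dd_an_far_helper13.md, section 5)
modules: exP, exQ, exR
-/

namespace Sir

open MeasureTheory Filter Topology

variable {N : ℕ}

private theorem exP_bd {a b p q r : ℝ} (hp : 0 < p) (hr : 0 < r) (hq : 0 ≤ q) {x y : ℝ} (hx : 0 ≤ x)
    (hy : 0 ≤ y) : ff a b p q r x y ≤ a ^ 2 / (4 * p) + b ^ 2 / (4 * r) := by
  have h1 : x * a / 2 - x ^ 2 * p / 4 ≤ a ^ 2 / (4 * p) := by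
    rw [le_div_iff₀ (by positivity)]
    nlinarith [sq_nonneg (a - x * p)]
  have h2 : y * b / 2 - y ^ 2 * r / 4 ≤ b ^ 2 / (4 * r) := by
    rw [le_div_iff₀ (by positivity)]
    nlinarith [sq_nonneg (b - y * r)]
  have h3 : 0 ≤ x * y * q := mul_nonneg (mul_nonneg hx hy) hq
  unfold ff
  linarith

/-- module exP. `Phi_le` with `ff ≤ a²/(4p) + b²/(4r)` (as in `exc_bd`, file Sir/ExS.lean) for two scalar ground states (`exists_GNo`, `GNo_vals`). -/
theorem Php_K [Dim N] {l1 l2 m1 m2 be : ℝ} (h1 : 0 < l1) (h2 : 0 < l2) (hm1 : 0 < m1)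
    (hm2 : 0 < m2) (hb : 0 ≤ be) {U V : H1 N}
    (h : ∀ u v : H1 N, u ≠ 0 → v ≠ 0 → Php l1 l2 m1 m2 be U V ≤ Php l1 l2 m1 m2 be u v) :
    Php l1 l2 m1 m2 be U V ≤ S2 N l1 / (4 * m1) + S2 N l2 / (4 * m2) := by
  obtain ⟨w1, hw1, _⟩ := exists_GNo (N := N) h1 hm1
  obtain ⟨w2, hw2, _⟩ := exists_GNo (N := N) h2 hm2
  refine (h w1 w2 hw1.1 hw2.1).trans ?_
  have hP1 := GNo_vals h1 hm1 hw1
  have hP2 := GNo_vals h2 hm2 hw2
  have hS1 := S2_pos (N := N) h1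
  have hS2 := S2_pos (N := N) h2
  unfold Php
  refine Phi_le fun x y hx hy => ?_
  refine (exP_bd (mul_pos hm1 (Q4_pos hw1.1)) (mul_pos hm2 (Q4_pos hw2.1))
    (mul_nonneg hb (Q4_nonneg _ _)) hx hy).trans (le_of_eq ?_)
  rw [hP1.1, hP1.2, hP2.1, hP2.2]
  field_simp

/-- module exP. Axis `u`: `Phi_a` (`q² ≤ p r` since `be² ≤ m1 m2`, `Q4_cs`): `Php = a²/(4p) ≥ (b p/q)²/(4p) = (b²/(4r)) (p r/q²) ≥ S2 N l2/(4 m2) * (m1 m2/be²)` (`S2_le`; `q > 0` because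
`b p ≤ a q` and `b p > 0`). -/
theorem Php_axis_u [Dim N] {l1 l2 m1 m2 be : ℝ} (h1 : 0 < l1) (h2 : 0 < l2) (hm1 : 0 < m1)
    (hm2 : 0 < m2) (hb : 0 < be) (hb2 : be ^ 2 < m1 * m2) {U V : H1 N} (hU : U ≠ 0) (hV : V ≠ 0)
    (h : ip l2 V V * (m1 * Q4 U U U U) ≤ ip l1 U U * (be * Q4 U U V V)) :
    S2 N l2 / (4 * m2) * (m1 * m2 / be ^ 2) ≤ Php l1 l2 m1 m2 be U V := by
  have hPU : 0 < Q4 U U U U := Q4_pos hU
  have hRV : 0 < Q4 V V V V := Q4_pos hV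
  have hQ0 : 0 ≤ Q4 U U V V := Q4_nonneg U V
  have hcs := Q4_cs U V
  have ha := ip_pos h1 hU
  have hbp := ip_pos h2 hV
  set a : ℝ := ip l1 U U with hav
  set b : ℝ := ip l2 V V with hbv
  set P : ℝ := Q4 U U U U with hPv
  set R : ℝ := Q4 V V V V with hRv
  set Q : ℝ := Q4 U U V V with hQv
  have hD : (be * Q) ^ 2 ≤ m1 * P * (m2 * R) := by
    have e1 : (be * Q) ^ 2 = be ^ 2 * Q ^ 2 := by ring
    rw [e1]
    calc be ^ 2 * Q ^ 2 ≤ be ^ 2 * (P * R) := mul_le_mul_of_nonneg_left hcs (sq_nonneg _)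
      _ ≤ (m1 * m2) * (P * R) := mul_le_mul_of_nonneg_right hb2.le (by positivity)
      _ = _ := by ring
  have hPhi : Php l1 l2 m1 m2 be U V = a ^ 2 / (4 * (m1 * P)) := by
    unfold Php
    exact Phi_a (mul_pos hm1 hPU) (mul_pos hm2 hRV) ha.le (mul_nonneg hb.le hQ0) hD h
  rw [hPhi]
  have hS := S2_le h2 V
  have hSp : 0 < S2 N l2 := S2_pos h2
  rw [← hRv, ← hbv] at hS
  set S : ℝ := S2 N l2 with hSv
  have e1 : (b * (m1 * P)) ^ 2 ≤ (a * (be * Q)) ^ 2 :=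
    pow_le_pow_left₀ (by positivity) h 2
  have e2 : S * R * (m1 * P) ^ 2 ≤ a ^ 2 * be ^ 2 * (P * R) := by
    calc S * R * (m1 * P) ^ 2 ≤ b ^ 2 * (m1 * P) ^ 2 :=
          mul_le_mul_of_nonneg_right hS (sq_nonneg _)
      _ = (b * (m1 * P)) ^ 2 := by ring
      _ ≤ (a * (be * Q)) ^ 2 := e1
      _ = a ^ 2 * be ^ 2 * Q ^ 2 := by ring
      _ ≤ a ^ 2 * be ^ 2 * (P * R) := mul_le_mul_of_nonneg_left hcs (by positivity)
  have e3 : S * m1 ^ 2 * P ≤ a ^ 2 * be ^ 2 := by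
    have e4 : (S * m1 ^ 2 * P) * (P * R) ≤ (a ^ 2 * be ^ 2) * (P * R) := by
      calc _ = S * R * (m1 * P) ^ 2 := by ring
        _ ≤ _ := e2
    exact le_of_mul_le_mul_right e4 (mul_pos hPU hRV)
  have e7 : S / (4 * m2) * (m1 * m2 / be ^ 2) = S * m1 / (4 * be ^ 2) := by
    field_simp
  rw [e7, div_le_div_iff₀ (by positivity) (by positivity)]
  nlinarith

/-- module exQ. **Scalar solutions of almost minimal energy are ground states.** Otherwise a sequence `v n` of `RD` solutions, not `GNo`, with `ip 1 → S2 N 1` (`≥` by `SNeh_ge`), `P(v n) = ip 1 (v n) (v n)`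
(test with `v n`): `GNo_compact`, `gs_isolated`, `RD_Rad`. -/
theorem scal_iso [Dim N] : ∃ d : ℝ, 0 < d ∧ ∀ v : H1 N, RD v → v ≠ 0 →
    (∀ z : H1 N, ip 1 v z = 1 * Q4 v v v z) → ip 1 v v ≤ (1 + d) * S2 N 1 → GNo 1 1 v := by
  by_contra hcon
  push Not at hcon
  have hseq : ∀ n : ℕ, ∃ v : H1 N, RD v ∧ v ≠ 0 ∧ (∀ z : H1 N, ip 1 v z = 1 * Q4 v v v z) ∧
      ip 1 v v ≤ (1 + 1 / ((n : ℝ) + 1)) * S2 N 1 ∧ ¬ GNo 1 1 v := fun n =>
    hcon (1 / ((n : ℝ) + 1)) (by positivity)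
  choose v hvRD hv0 hvs hvle hno using hseq
  have h1 : (0 : ℝ) < 1 := one_pos
  have hlow : ∀ n, S2 N 1 ≤ ip 1 (v n) (v n) := fun n => by
    have e1 := (SNeh_ge h1 h1 ⟨hv0 n, hvs n (v n)⟩).1
    rwa [div_one] at e1
  have hiplim : Tendsto (fun n => ip 1 (v n) (v n)) atTop (𝓝 (S2 N 1 / 1)) := by
    have e1 : Tendsto (fun n : ℕ => (1 + 1 / ((n : ℝ) + 1)) * S2 N 1) atTop
        (𝓝 ((1 + 0) * S2 N 1)) :=
      (tendsto_one_div_add_atTop_nhds_zero_nat.const_add 1).mul_const _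
    rw [add_zero, one_mul] at e1
    rw [div_one]
    exact tendsto_of_tendsto_of_tendsto_of_le_of_le tendsto_const_nhds e1 hlow hvle
  have hQlim : Tendsto (fun n => Q4 (v n) (v n) (v n) (v n)) atTop (𝓝 (S2 N 1 / 1 ^ 2)) := by
    rw [one_pow]
    refine hiplim.congr fun n => ?_
    rw [hvs n (v n), one_mul]
  obtain ⟨f, w', hf, hw', hw'RD, hconv⟩ := GNo_compact h1 h1 v hvRD hiplim hQlim
  obtain ⟨d', hd', hiso⟩ := gs_isolated h1 h1 hw' hw'RD
  have hnear : ∀ᶠ n in atTop, ‖v (f n) - w'‖ < d' := by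
    have e1 := tendsto_iff_norm_sub_tendsto_zero.mp hconv
    exact e1.eventually (gt_mem_nhds hd')
  obtain ⟨n, hn⟩ := hnear.exists
  have hveq : v (f n) = w' := hiso (v (f n)) (RD_Rad (hvRD (f n))) (hvs (f n)) hn
  apply hno (f n)
  rw [hveq]
  exact hw'

/-- module exR. Section 5. `tau N 1 1 l ≤ N/4 + l (4-N)/4` (`tau_self` with `pohozaev`), so `be² < m / (1 + e/2) < m` for small `l` (`N² ≤ 16 (1-e) m`). `Php_min`. If `OmPp`: `Php_int`. Otherwise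
`Dl < 0` (`Dl_neg`) and `b p ≤ a q` (then `Php_axis_u`, `Php_K`: `S/4 (1 + e/2) ≤ S/4 + s/4`, `s = S2 N l/m < (e/2) S2 N 1` for small `l` (`S2_scale`), contradiction) or `a r ≤ b q` (`Php_axis`, `Php_K`: `ip 1 v v ≤ S + s`,
`scal_iso`, `tau_le`, `Q4 U U v v > 0`: `tau N 1 1 l ≤ be`, contradiction). -/
theorem ex_far [Dim N] {M e : ℝ} (hM : 1 ≤ M) (he : 0 < e) (he1 : e < 1) :
    ∃ l0 : ℝ, 0 < l0 ∧ l0 ≤ 1 ∧ ∀ l m be : ℝ, 0 < l → l < l0 → 1 / M ≤ m → m ≤ M →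
      (N : ℝ) ^ 2 ≤ 16 * (1 - e) * m → 0 < be → be < tau N 1 1 l → HasGS N l 1 m 1 be := by
  obtain ⟨d, hd, hiso⟩ := scal_iso (N := N)
  have h1 : (0 : ℝ) < 1 := one_pos
  have hM0 : 0 < M := lt_of_lt_of_le one_pos hM
  obtain ⟨c, hc⟩ : ∃ c, c = min (e / 2) d := ⟨_, rfl⟩
  have hc0 : 0 < c := by rw [hc]; exact lt_min (by positivity) hd
  have hce : c ≤ e / 2 := by rw [hc]; exact min_le_left _ _
  have hcd : c ≤ d := by rw [hc]; exact min_le_right _ _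
  refine ⟨min (e / 8) ((c / M) ^ 2), lt_min (by positivity) (by positivity),
    (min_le_left _ _).trans (by linarith), ?_⟩
  intro l m be hl hl0 hm1 hm2 hNm hbe hbt
  have hle8 : l ≤ e / 8 := hl0.le.trans (min_le_left _ _)
  have hlc : l < (c / M) ^ 2 := lt_of_lt_of_le hl0 (min_le_right _ _)
  have hm0 : 0 < m := lt_of_lt_of_le (by positivity) hm1
  have hS : 0 < S2 N 1 := S2_pos h1
  have hSl : 0 < S2 N l := S2_pos hl
  have hN : (2 : ℝ) ≤ N ∧ (N : ℝ) ≤ 3 := by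
    rcases (Dim.h (N := N)) with h | h <;> rw [h] <;> norm_num
  -- the upper bound for `tau`
  obtain ⟨w, hw, _⟩ := exists_GNo (N := N) h1 h1
  have ht1 := tau_self h1 h1 hl hw
  rw [pohozaev h1 h1 hw] at ht1
  have ht2 : be < (N : ℝ) / 4 + l * ((4 - N) / 4) := by
    refine lt_of_lt_of_le hbt (ht1.trans (le_of_eq ?_))
    ring
  have ht3 : be < (N : ℝ) / 4 * (1 + l) := by
    refine lt_of_lt_of_le ht2 ?_
    nlinarith [hN.1]
  have hbe2 : be ^ 2 * (1 + e / 2) < m := by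
    have e1 : be ^ 2 < ((N : ℝ) / 4 * (1 + l)) ^ 2 := by
      have := hN.1
      exact pow_lt_pow_left₀ ht3 hbe.le (by norm_num)
    have e2 : ((N : ℝ) / 4 * (1 + l)) ^ 2 = (N : ℝ) ^ 2 / 16 * (1 + l) ^ 2 := by ring
    have e3 : (N : ℝ) ^ 2 / 16 * (1 + l) ^ 2 ≤ (1 - e) * m * (1 + l) ^ 2 :=
      mul_le_mul_of_nonneg_right (by linarith) (by positivity)
    have e4 : (1 - e) * (1 + l) ^ 2 * (1 + e / 2) ≤ 1 := by
      have e5 : (1 + l) ^ 2 ≤ (1 + e / 8) ^ 2 := by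
        exact pow_le_pow_left₀ (by positivity) (by linarith) 2
      have e6 : (1 - e) * (1 + l) ^ 2 * (1 + e / 2) ≤ (1 - e) * (1 + e / 8) ^ 2 * (1 + e / 2) :=
        mul_le_mul_of_nonneg_right (mul_le_mul_of_nonneg_left e5 (by linarith)) (by positivity)
      refine e6.trans ?_
      have e7 : (1 - e) * (1 + e / 8) ^ 2 * (1 + e / 2) =
          1 - (e / 4 + 39 / 64 * e ^ 2 + 17 / 128 * e ^ 3 + 1 / 128 * e ^ 4) := by ring
      rw [e7]
      have : 0 ≤ e / 4 + 39 / 64 * e ^ 2 + 17 / 128 * e ^ 3 + 1 / 128 * e ^ 4 := by positivity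
      linarith
    have e5 : be ^ 2 * (1 + e / 2) < (1 - e) * m * (1 + l) ^ 2 * (1 + e / 2) :=
      mul_lt_mul_of_pos_right (by linarith) (by positivity)
    have e6 : (1 - e) * m * (1 + l) ^ 2 * (1 + e / 2) =
        m * ((1 - e) * (1 + l) ^ 2 * (1 + e / 2)) := by ring
    rw [e6] at e5
    refine lt_of_lt_of_le e5 ?_
    calc m * ((1 - e) * (1 + l) ^ 2 * (1 + e / 2)) ≤ m * 1 :=
          mul_le_mul_of_nonneg_left e4 hm0.le
      _ = m := mul_one m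
  have hb2 : be ^ 2 < m * 1 := by
    have : be ^ 2 ≤ be ^ 2 * (1 + e / 2) := le_mul_of_one_le_right (sq_nonneg _) (by linarith)
    linarith
  -- the small level
  have hs : S2 N l / m ≤ c * S2 N 1 := by
    have hsq : 0 < Real.sqrt l := Real.sqrt_pos.2 hl
    have hsc : Real.sqrt l < c / M := by
      rw [Real.sqrt_lt' (by positivity)]
      exact hlc
    have hsl1 : Real.sqrt l ≤ 1 := by
      rw [Real.sqrt_le_left (by norm_num)]
      linarith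
    have e1 : S2 N l = Real.sqrt l ^ (4 - N) * S2 N 1 := by
      have e2 := S2_scale (N := N) h1 hsq
      rwa [mul_one, Real.sq_sqrt hl.le] at e2
    have e2 : Real.sqrt l ^ (4 - N) ≤ Real.sqrt l := by
      rcases (Dim.h (N := N)) with h | h
      · rw [h]
        simp only [Nat.reduceSub]
        nlinarith
      · rw [h]
        simp
    have e3 : S2 N l ≤ Real.sqrt l * S2 N 1 := by
      rw [e1]
      exact mul_le_mul_of_nonneg_right e2 hS.le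
    rw [div_le_iff₀ hm0]
    have e4 : 1 ≤ M * m := by
      rw [div_le_iff₀ hM0] at hm1
      linarith
    calc S2 N l ≤ Real.sqrt l * S2 N 1 := e3
      _ ≤ c / M * S2 N 1 := mul_le_mul_of_nonneg_right hsc.le hS.le
      _ = c / M * S2 N 1 * 1 := by ring
      _ ≤ c / M * S2 N 1 * (M * m) := mul_le_mul_of_nonneg_left e4 (by positivity)
      _ = c * S2 N 1 * m := by field_simp
  obtain ⟨U, V, hUr, hVr, hU, hV, hmin⟩ := Php_min (N := N) hl h1 hm0 h1 hbe.le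
  have hK := Php_K hl h1 hm0 h1 hbe.le hmin
  have hK' : Php l 1 m 1 be U V ≤ (1 + c) * S2 N 1 / 4 := by
    have e1 : S2 N l / (4 * m) = S2 N l / m / 4 := by field_simp
    rw [e1] at hK
    linarith
  by_contra hno
  have hnot : ¬ OmPp l 1 m 1 be U V := fun hi =>
    hno (Php_int hl h1 hm0 h1 hbe.le hb2 hU hV hmin hi)
  have hD := Dl_neg hb2 hU hV
  by_cases hax : ip 1 V V * (m * Q4 U U U U) ≤ ip l U U * (be * Q4 U U V V)
  · have e1 := Php_axis_u hl h1 hm0 h1 hbe hb2 hU hV hax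
    have e2 : 1 + e / 2 < m * 1 / be ^ 2 := by
      rw [lt_div_iff₀ (by positivity)]
      linarith
    have e3 : S2 N 1 / (4 * 1) * (1 + e / 2) < S2 N 1 / (4 * 1) * (m * 1 / be ^ 2) :=
      mul_lt_mul_of_pos_left e2 (by positivity)
    have e4 : (1 + c) * S2 N 1 / 4 ≤ S2 N 1 / (4 * 1) * (1 + e / 2) := by
      have : (1 + c) * S2 N 1 ≤ (1 + e / 2) * S2 N 1 :=
        mul_le_mul_of_nonneg_right (by linarith) hS.le
      linarith
    linarith
  · push Not at hax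
    have hle : ip l U U * (1 * Q4 V V V V) ≤ ip 1 V V * (be * Q4 U U V V) := by
      by_contra h2
      push Not at h2
      exact hnot ⟨hD, h2, hax⟩
    obtain ⟨v, hv1, hv2, hv3, hv4, hv5⟩ := Php_axis hl h1 hm0 h1 hbe.le hb2 hU hV hVr hmin hle
    have hg : GNo 1 1 v := by
      refine hiso v hv1 hv2 hv3 ?_
      have e1 : ip 1 v v / 4 ≤ (1 + c) * S2 N 1 / 4 := hv4 ▸ hK'
      have e2 : (1 + c) * S2 N 1 ≤ (1 + d) * S2 N 1 :=
        mul_le_mul_of_nonneg_right (by linarith) hS.le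
      linarith
    have e1 := tau_le h1 h1 hl hg U
    have e3 : Q4 v v U U = Q4 U U v v := Q4_swapp _ _ _ _
    rw [e3] at e1
    have e4 : 0 < Q4 U U v v := by
      have e5 := ip_pos hl hU
      have e6 := Q4_nonneg U v
      rcases e6.lt_or_eq with h | h
      · exact h
      · rw [← h, mul_zero] at hv5
        linarith
    have e5 : tau N 1 1 l * Q4 U U v v ≤ be * Q4 U U v v := e1.trans hv5
    have e6 := le_of_mul_le_mul_right e5 e4
    linarith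

end Sir
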