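import Pool.Agent.SirF.ExF
/-!
# Existence below `tau2`, general form
-/

namespace Sir

open MeasureTheory Filter Topology

variable {N : ℕ}

theorem ex_gen2 [Dim N] {M e : ℝ} (hM : 1 ≤ M) (he : 0 < e) (he1 : e < 1) :
    ∃ l0 : ℝ, 0 < l0 ∧ l0 ≤ 1 ∧ ∀ l m be : ℝ, 0 < l → l < l0 → 1 / M ≤ m → m ≤ M →
      be ^ 2 ≤ (1 - e) * m → 0 < be → be < tau N 1 1 l → HasGS N l 1 m 1 be := by
  obtain ⟨d, hd, hiso⟩ := scal_iso (N := N)
  have h1 : (0 : ℝ) < 1 := one_pos
  have hM0 : 0 < M := lt_of_lt_of_le one_pos hM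
  obtain ⟨c, hc⟩ : ∃ c, c = min (e / 2) d := ⟨_, rfl⟩
  have hc0 : 0 < c := by rw [hc]; exact lt_min (by positivity) hd
  have hce : c ≤ e / 2 := by rw [hc]; exact min_le_left _ _
  have hcd : c ≤ d := by rw [hc]; exact min_le_right _ _
  refine ⟨min (e / 8) ((c / M) ^ 2), lt_min (by positivity) (by positivity),
    (min_le_left _ _).trans (by linarith), ?_⟩
  intro l m be hl hl0 hm1 hm2 hNm hbe hbt
  have hle8 : l ≤ e / 8 := hl0.le.trans (min_le_left _ _)
  have hlc : l < (c / M) ^ 2 := lt_of_lt_of_le hl0 (min_le_right _ _)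
  have hm0 : 0 < m := lt_of_lt_of_le (by positivity) hm1
  have hS : 0 < S2 N 1 := S2_pos h1
  have hSl : 0 < S2 N l := S2_pos hl
  have hbe2 : be ^ 2 * (1 + e / 2) < m := by
    have e1 : be ^ 2 * (1 + e / 2) ≤ (1 - e) * m * (1 + e / 2) :=
      mul_le_mul_of_nonneg_right hNm (by linarith)
    have e2 : (1 - e) * m * (1 + e / 2) = m - m * (e / 2 + e ^ 2 / 2) := by ring
    have e3 : 0 < m * (e / 2 + e ^ 2 / 2) := by positivity
    linarith
  have hb2 : be ^ 2 < m * 1 := by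
    have : be ^ 2 ≤ be ^ 2 * (1 + e / 2) := le_mul_of_one_le_right (sq_nonneg _) (by linarith)
    linarith
  -- the small level
  have hs : S2 N l / m ≤ c * S2 N 1 := by
    have hsq : 0 < Real.sqrt l := Real.sqrt_pos.2 hl
    have hsc : Real.sqrt l < c / M := by
      rw [Real.sqrt_lt' (by positivity)]
      exact hlc
    have hsl1 : Real.sqrt l ≤ 1 := by
      rw [Real.sqrt_le_left (by norm_num)]
      linarith
    have e1 : S2 N l = Real.sqrt l ^ (4 - N) * S2 N 1 := by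
      have e2 := S2_scale (N := N) h1 hsq
      rwa [mul_one, Real.sq_sqrt hl.le] at e2
    have e2 : Real.sqrt l ^ (4 - N) ≤ Real.sqrt l := by
      rcases (Dim.h (N := N)) with h | h
      · rw [h]
        simp only [Nat.reduceSub]
        nlinarith
      · rw [h]
        simp
    have e3 : S2 N l ≤ Real.sqrt l * S2 N 1 := by
      rw [e1]
      exact mul_le_mul_of_nonneg_right e2 hS.le
    rw [div_le_iff₀ hm0]
    have e4 : 1 ≤ M * m := by
      rw [div_le_iff₀ hM0] at hm1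
      linarith
    calc S2 N l ≤ Real.sqrt l * S2 N 1 := e3
      _ ≤ c / M * S2 N 1 := mul_le_mul_of_nonneg_right hsc.le hS.le
      _ = c / M * S2 N 1 * 1 := by ring
      _ ≤ c / M * S2 N 1 * (M * m) := mul_le_mul_of_nonneg_left e4 (by positivity)
      _ = c * S2 N 1 * m := by field_simp
  obtain ⟨U, V, hUr, hVr, hU, hV, hmin⟩ := Php_min (N := N) hl h1 hm0 h1 hbe.le
  have hK := Php_K hl h1 hm0 h1 hbe.le hmin
  have hK' : Php l 1 m 1 be U V ≤ (1 + c) * S2 N 1 / 4 := by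
    have e1 : S2 N l / (4 * m) = S2 N l / m / 4 := by field_simp
    rw [e1] at hK
    linarith
  by_contra hno
  have hnot : ¬ OmPp l 1 m 1 be U V := fun hi =>
    hno (Php_int hl h1 hm0 h1 hbe.le hb2 hU hV hmin hi)
  have hD := Dl_neg hb2 hU hV
  by_cases hax : ip 1 V V * (m * Q4 U U U U) ≤ ip l U U * (be * Q4 U U V V)
  · have e1 := Php_axis_u hl h1 hm0 h1 hbe hb2 hU hV hax
    have e2 : 1 + e / 2 < m * 1 / be ^ 2 := by
      rw [lt_div_iff₀ (by positivity)]
      linarith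
    have e3 : S2 N 1 / (4 * 1) * (1 + e / 2) < S2 N 1 / (4 * 1) * (m * 1 / be ^ 2) :=
      mul_lt_mul_of_pos_left e2 (by positivity)
    have e4 : (1 + c) * S2 N 1 / 4 ≤ S2 N 1 / (4 * 1) * (1 + e / 2) := by
      have : (1 + c) * S2 N 1 ≤ (1 + e / 2) * S2 N 1 :=
        mul_le_mul_of_nonneg_right (by linarith) hS.le
      linarith
    linarith
  · push Not at hax
    have hle : ip l U U * (1 * Q4 V V V V) ≤ ip 1 V V * (be * Q4 U U V V) := by
      by_contra h2
      push Not at h2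
      exact hnot ⟨hD, h2, hax⟩
    obtain ⟨v, hv1, hv2, hv3, hv4, hv5⟩ := Php_axis hl h1 hm0 h1 hbe.le hb2 hU hV hVr hmin hle
    have hg : GNo 1 1 v := by
      refine hiso v hv1 hv2 hv3 ?_
      have e1 : ip 1 v v / 4 ≤ (1 + c) * S2 N 1 / 4 := hv4 ▸ hK'
      have e2 : (1 + c) * S2 N 1 ≤ (1 + d) * S2 N 1 :=
        mul_le_mul_of_nonneg_right (by linarith) hS.le
      linarith
    have e1 := tau_le h1 h1 hl hg U
    have e3 : Q4 v v U U = Q4 U U v v := Q4_swapp _ _ _ _
    rw [e3] at e1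
    have e4 : 0 < Q4 U U v v := by
      have e5 := ip_pos hl hU
      have e6 := Q4_nonneg U v
      rcases e6.lt_or_eq with h | h
      · exact h
      · rw [← h, mul_zero] at hv5
        linarith
    have e5 : tau N 1 1 l * Q4 U U v v ≤ be * Q4 U U v v := e1.trans hv5
    have e6 := le_of_mul_le_mul_right e5 e4
    linarith

end Sir
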