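import Pool.Agent.SirF.NonF
import Pool.Agent.SirF.ExF
/-!
# The plane: no condition on `m1 / m2`
modules: twA, twB, twC, twD, twE, twF, twG, twH, twI
-/

namespace Sir

open MeasureTheory Filter Topology

variable {N : ℕ}

private theorem twA_pos {c : ℝ} (hc : 0 < c) {F : ℝ → ℝ} (hF : ContinuousAt F 0) :
    ∀ᶠ t in 𝓝[>] (0 : ℝ), 0 < t * (c + t * F t) := by
  have h1 : ContinuousAt (fun t => c + t * F t) 0 :=
    continuousAt_const.add (continuousAt_id.mul hF)
  have h2 : 0 < c + 0 * F 0 := by simpa using hc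
  have h3 : ∀ᶠ t in 𝓝[>] (0 : ℝ), 0 < c + t * F t :=
    (h1.tendsto.eventually (lt_mem_nhds h2)).filter_mono nhdsWithin_le_nhds
  filter_upwards [h3, self_mem_nhdsWithin] with t a b
  exact mul_pos b a

private theorem twA_Q [Dim N] {u s w : H1 N}
    (h : fn w =ᵐ[volume] fun x => Real.sqrt (fn u x ^ 2 + fn s x ^ 2)) (y z : H1 N) :
    Q4 w w y z = Q4 u u y z + Q4 s s y z := by
  have i1 := Q4_integrable u u y z
  have i2 := Q4_integrable s s y z
  unfold Q4
  rw [← integral_add i1 i2]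
  refine integral_congr_ae ?_
  filter_upwards [h] with x a
  have e : fn w x * fn w x = fn u x ^ 2 + fn s x ^ 2 := by
    rw [a, Real.mul_self_sqrt (by positivity)]
  rw [e]
  ring

/-- module twA. The proof of `ineqII` (Sir/Non.lean) with the second `v` replaced by an arbitrary `z`: `w t = sqrt (u² + t z²)` (`sqrt_H`), `ip l1 (w t) (w t) ≤ a + t ip l1 z z`, `p_t = m1 (P + 2 t Q4 u u z z + t² P(z))`,
`q_t = be (Q + t Q4 z z v v)`, `b`, `r` fixed. -/
theorem ev_all [Dim N] {l1 l2 m1 m2 be : ℝ} (h1 : 0 < l1) (h2 : 0 < l2) (hm1 : 0 < m1)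
    (hm2 : 0 < m2) (hb : 0 < be) {u v : H1 N} (h : IsMin l1 l2 m1 m2 be u v)
    (hD : 0 < Dl m1 m2 be u v) (hu : ∀ᵐ x : E N, 0 ≤ fn u x) (z : H1 N) :
    m1 * Q4 u u z z + be * Q4 z z v v ≤ ip l1 z z := by
  by_contra hc
  push Not at hc
  have hP : 0 < Q4 u u u u := Q4_pos h.1.1
  have hR : 0 < Q4 v v v v := Q4_pos h.1.2.1
  obtain ⟨k1, k2, k3⟩ := Neh_Om h.1
  have hEn := k3 hD.ne'
  have hN := h.1
  obtain ⟨-, -, n3, n4'⟩ := hN
  set a := ip l1 u u with ha
  set b := ip l2 v v with hb'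
  set P := Q4 u u u u with hPd
  set Q := Q4 u u v v with hQd
  set R := Q4 v v v v with hRd
  set A := ip l1 z z with hA
  set S := Q4 u u z z with hSd
  set V := Q4 z z v v with hVd
  set Pz := Q4 z z z z with hPz
  -- the sequence
  set t : ℕ → ℝ := fun n => 1 / ((n : ℝ) + 1) with ht
  have tp : ∀ n, 0 < t n := fun n => by rw [ht]; positivity
  have t1 : ∀ n, t n ≤ 1 := fun n => by
    rw [ht]
    simp only
    rw [div_le_one (by positivity)]
    have : (0 : ℝ) ≤ (n : ℝ) := Nat.cast_nonneg n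
    linarith
  have lt0 : Tendsto t atTop (𝓝 0) := tendsto_one_div_add_atTop_nhds_zero_nat
  have lt0' : Tendsto t atTop (𝓝[>] 0) :=
    tendsto_nhdsWithin_iff.2 ⟨lt0, Eventually.of_forall fun n => tp n⟩
  choose w w1 w2 w3 using fun n => sqrt_H u (Real.sqrt (t n) • z)
  have hss : ∀ n, Real.sqrt (t n) * Real.sqrt (t n) = t n := fun n => Real.mul_self_sqrt (tp n).le
  have w2' : ∀ n, gX (w n) (w n) ≤ gX u u + t n * gX z z := by
    intro n
    have := w2 n
    rw [gX_smul_left, gX_smul_right, ← mul_assoc, hss] at this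
    exact this
  have w3' : ∀ n, gY (w n) (w n) = gY u u + t n * gY z z := by
    intro n
    rw [w3 n, gY_smul_left, gY_smul_right, ← mul_assoc, hss]
  have hup : ∀ n, ip l1 (w n) (w n) ≤ a + t n * A := by
    intro n
    have e : a + t n * A = (gX u u + t n * gX z z) + l1 * (gY u u + t n * gY z z) := by
      rw [ha, hA]; unfold ip; ring
    rw [e, ← w3' n]
    unfold ip
    linarith [w2' n]
  have hQw : ∀ n, Q4 (w n) (w n) v v = Q + t n * V := by
    intro n
    rw [twA_Q (w1 n), Q4_smul1, Q4_smul2, ← mul_assoc, hss]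
  have hPw : ∀ n, Q4 (w n) (w n) (w n) (w n) = P + 2 * t n * S + t n ^ 2 * Pz := by
    intro n
    rw [twA_Q (w1 n), Q4_swapp u u, Q4_swapp _ _ (w n) (w n), twA_Q (w1 n), twA_Q (w1 n)]
    simp only [Q4_smul1, Q4_smul2, Q4_smul3, Q4_smul4]
    rw [Q4_swapp z z u u]
    have := hss n
    linear_combination (2 * S + (t n + Real.sqrt (t n) * Real.sqrt (t n)) * Pz) * this
  -- weak convergence
  have hM : ∀ n, ‖w n‖ ≤ ‖u‖ + ‖z‖ := by
    intro n
    have e1 : ‖w n‖ ^ 2 ≤ (‖u‖ + ‖z‖) ^ 2 := by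
      have f1 := norm_sq_eq (w n)
      have f2 := norm_sq_eq u
      have f3 := norm_sq_eq z
      unfold ip at f1 f2 f3
      have g1 := w2' n
      have g2 := w3' n
      have g3 := gX_nonneg z
      have g4 := gY_nonneg z
      have g5 : t n * gX z z ≤ gX z z := by nlinarith [t1 n]
      have g6 : t n * gY z z ≤ gY z z := by nlinarith [t1 n]
      nlinarith [norm_nonneg u, norm_nonneg z, mul_nonneg (norm_nonneg u) (norm_nonneg z)]
    exact (pow_le_pow_iff_left₀ (norm_nonneg _) (by positivity) (by norm_num)).1 e1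
  have hL2 : Tendsto (fun n => ∫ x, (fn (w n) x - fn u x) ^ 2) atTop (𝓝 0) := by
    have hl : Tendsto (fun n => t n * gY z z) atTop (𝓝 0) := by
      simpa using lt0.mul_const (gY z z)
    refine squeeze_zero (fun n => integral_nonneg fun x => sq_nonneg _) (fun n => ?_) hl
    unfold gY
    rw [← integral_const_mul]
    refine integral_mono_of_nonneg (Eventually.of_forall fun x => sq_nonneg _)
      (((fn_memLp z).integrable_mul (fn_memLp z)).const_mul _) ?_
    filter_upwards [w1 n, fn_smul (Real.sqrt (t n)) z, hu] with x e1 e2 e3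
    rw [e1, e2]
    have hs := hss n
    have h3 : 0 ≤ Real.sqrt (fn u x ^ 2 + (Real.sqrt (t n) * fn z x) ^ 2) - fn u x := by
      rw [sub_nonneg]
      exact Real.le_sqrt_of_sq_le (by nlinarith [sq_nonneg (Real.sqrt (t n) * fn z x)])
    have h4 : Real.sqrt (fn u x ^ 2 + (Real.sqrt (t n) * fn z x) ^ 2) ^ 2 =
        fn u x ^ 2 + (Real.sqrt (t n) * fn z x) ^ 2 := Real.sq_sqrt (by positivity)
    have h5 : (Real.sqrt (t n) * fn z x) ^ 2 = t n * (fn z x * fn z x) := by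
      rw [mul_pow, sq, hs]; ring
    nlinarith [mul_nonneg e3 h3]
  obtain ⟨w', hw', hWC⟩ := WC_of_L2 w _ hM (fn u) (fn_memLp u) hL2
  have hwu : w' = u := H1_ext hw'
  rw [hwu] at hWC
  have hlow : ∀ c, c < a → ∀ᶠ n in atTop, c < ip l1 (w n) (w n) := by
    intro c hca
    by_contra hne
    rw [not_eventually] at hne
    obtain ⟨f, hf, hf2⟩ := extraction_of_frequently_atTop hne
    have := WC_lsc (WC_comp hWC hf) h1.le (c := fun _ => c) (c0 := c) tendsto_const_nhds
      (Eventually.of_forall fun n => not_lt.1 (hf2 n))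
    linarith
  have hlim : Tendsto (fun n => ip l1 (w n) (w n)) atTop (𝓝 a) := by
    rw [tendsto_order]
    refine ⟨hlow, fun c hca => ?_⟩
    have hl : Tendsto (fun n => a + t n * A) atTop (𝓝 a) := by
      simpa using (lt0.mul_const A).const_add a
    filter_upwards [hl.eventually (gt_mem_nhds hca)] with n hn
    exact lt_of_le_of_lt (hup n) hn
  -- the perturbed data
  set D : ℝ := (be * Q) ^ 2 - m1 * P * (m2 * R) with hDd
  have hDp : 0 < D := hD
  have cpt : Tendsto (fun n => m1 * (P + 2 * t n * S + t n ^ 2 * Pz)) atTop (𝓝 (m1 * P)) := by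
    have c : Continuous fun s : ℝ => m1 * (P + 2 * s * S + s ^ 2 * Pz) := by fun_prop
    have h0 : Tendsto (fun s : ℝ => m1 * (P + 2 * s * S + s ^ 2 * Pz)) (𝓝 0) (𝓝 (m1 * P)) := by
      simpa using c.tendsto 0
    exact h0.comp lt0
  have cqt : Tendsto (fun n => be * (Q + t n * V)) atTop (𝓝 (be * Q)) := by
    have c : Continuous fun s : ℝ => be * (Q + s * V) := by fun_prop
    have h0 : Tendsto (fun s : ℝ => be * (Q + s * V)) (𝓝 0) (𝓝 (be * Q)) := by
      simpa using c.tendsto 0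
    exact h0.comp lt0
  have cat : Tendsto (fun n => a + t n * A) atTop (𝓝 a) := by
    simpa using (lt0.mul_const A).const_add a
  have hr : 0 < m2 * R := mul_pos hm2 hR
  obtain ⟨-, q1, q2⟩ := k1 hD
  have OmEv : ∀ s : ℕ → ℝ, Tendsto s atTop (𝓝 a) → ∀ᶠ n in atTop,
      OmM (s n) b (m1 * (P + 2 * t n * S + t n ^ 2 * Pz)) (be * (Q + t n * V)) (m2 * R) := by
    intro s hs
    have c1 := (cqt.pow 2).sub (cpt.mul_const (m2 * R))
    have c2 := (cqt.const_mul b).sub (hs.mul_const (m2 * R))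
    have c3 := (hs.mul cqt).sub (cpt.const_mul b)
    filter_upwards [c1.eventually (lt_mem_nhds hDp), c2.eventually (lt_mem_nhds (sub_pos.2 q1)),
      c3.eventually (lt_mem_nhds (sub_pos.2 q2))] with n d1 d2 d3
    exact ⟨d1, sub_pos.1 d2, sub_pos.1 d3⟩
  -- strict inequality for the explicit data
  set al : ℝ := b * (be * V) - A * (m2 * R) with hal
  set bt : ℝ := 2 * (be * Q) * (be * V) - 2 * (m1 * S) * (m2 * R) with hbt
  set ga : ℝ := (be * V) ^ 2 - m1 * Pz * (m2 * R) with hga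
  have hcpos : 0 < D * (2 * al - bt) := by
    have e : 2 * al - bt = 2 * (m2 * R) * (m1 * S + be * V - A) := by
      rw [hal, hbt, n4']
      ring
    rw [e]
    have : 0 < m1 * S + be * V - A := by linarith
    positivity
  have ev := lt0'.eventually (twA_pos hcpos (F := fun _ => al ^ 2 - ga * D) continuousAt_const)
  obtain ⟨n, g1, g2, g3⟩ := (ev.and ((OmEv _ hlim).and (OmEv _ cat))).exists
  have hOm : OmMp l1 l2 m1 m2 be (w n) v := by
    unfold OmMp
    rw [hPw, hQw]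
    exact g2
  have hmin := min_le h1 h2 hm1 hm2 h (Or.inl hOm)
  unfold EEp at hmin hEn
  rw [hPw, hQw] at hmin
  have hmono := EE_mono_a hr g2 g3 (hup n)
  have hE1 := EE_b (a := a + t n * A) (b := b) hr.ne' g3.1.ne'
  have hE0 := EE_b (a := a) (b := b) (p := m1 * P) (q := be * Q) hr.ne' hDp.ne'
  -- numerators
  have num0 : b * (be * Q) - a * (m2 * R) = D := by
    rw [n3, n4', hDd]; ring
  have num1 : b * (be * (Q + t n * V)) - (a + t n * A) * (m2 * R) = D + t n * al := by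
    rw [hal]
    linear_combination num0
  have den1 : (be * (Q + t n * V)) ^ 2 - m1 * (P + 2 * t n * S + t n ^ 2 * Pz) * (m2 * R) =
      D + t n * bt + t n ^ 2 * ga := by
    rw [hDd, hbt, hga]; ring
  have hden1 : 0 < D + t n * bt + t n ^ 2 * ga := by rw [← den1]; exact g3.1
  rw [num1, den1] at hE1
  rw [num0] at hE0
  have hE0' : D ^ 2 / (4 * (m2 * R) * ((be * Q) ^ 2 - m1 * P * (m2 * R))) = D / (4 * (m2 * R)) := by
    change D ^ 2 / (4 * (m2 * R) * D) = D / (4 * (m2 * R))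
    field_simp
  have hlt : D / (4 * (m2 * R)) < (D + t n * al) ^ 2 / (4 * (m2 * R) * (D + t n * bt + t n ^ 2 * ga)) := by
    rw [div_lt_div_iff₀ (by positivity) (by positivity)]
    have e : D * (D + t n * bt + t n ^ 2 * ga) < (D + t n * al) ^ 2 := by
      have : (D + t n * al) ^ 2 - D * (D + t n * bt + t n ^ 2 * ga) =
          t n * (D * (2 * al - bt) + t n * (al ^ 2 - ga * D)) := by ring
      rw [← sub_pos, this]
      exact g1
    calc D * (4 * (m2 * R) * (D + t n * bt + t n ^ 2 * ga))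
        = (4 * (m2 * R)) * (D * (D + t n * bt + t n ^ 2 * ga)) := by ring
      _ < (4 * (m2 * R)) * ((D + t n * al) ^ 2) := mul_lt_mul_of_pos_left e (by positivity)
      _ = (D + t n * al) ^ 2 * (4 * (m2 * R)) := by ring
  rw [hE0'] at hE0
  linarith

private theorem twB_one [Dim N] {l : ℝ} (hl : 0 < l) (u : H1 N) {a d : ℝ} (ha : ip l u u ≤ a)
    (hd : 0 < d) : ∃ U : H1 N, ip l U U = a ∧ n4 (U - u) ≤ Real.sqrt (a - ip l u u) * d := by
  obtain ⟨p0, hp1, hp2⟩ := flat (N := N) hl (d := d ^ 4) (by positivity)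
  obtain ⟨p, hp1, hp2, hp3⟩ : ∃ p : H1 N, ip l p p = 1 ∧ Q4 p p p p < d ^ 4 ∧ 0 ≤ ip l u p := by
    rcases le_total 0 (ip l u p0) with h | h
    · exact ⟨p0, hp1, hp2, h⟩
    · refine ⟨-p0, ?_, ?_, ?_⟩
      · rw [ip_neg_left, ip_neg_right, hp1]; norm_num
      · rw [Q4_neg1, Q4_neg2, Q4_neg3, Q4_neg4]; simpa using hp2
      · rw [ip_neg_right]; linarith
  obtain ⟨c, hc⟩ : ∃ c, c = ip l u p := ⟨_, rfl⟩
  rw [← hc] at hp3
  obtain ⟨A, hA⟩ : ∃ A, A = a - ip l u u := ⟨_, rfl⟩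
  have hA0 : 0 ≤ A := by rw [hA]; linarith
  obtain ⟨s, hs⟩ : ∃ s, s = Real.sqrt (c ^ 2 + A) := ⟨_, rfl⟩
  have hs0 : 0 ≤ s := by rw [hs]; exact Real.sqrt_nonneg _
  have hs2 : s ^ 2 = c ^ 2 + A := by rw [hs]; exact Real.sq_sqrt (by positivity)
  have hcs : c ≤ s := by
    rw [hs]
    exact Real.le_sqrt_of_sq_le (by linarith)
  refine ⟨u + (s - c) • p, ?_, ?_⟩
  · rw [ip_add_left, ip_add_right, ip_add_right, ip_smul_left, ip_smul_left, ip_smul_right,
      ip_smul_right, ip_comm l p u, hp1, ← hc]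
    have : ip l u u = a - A := by rw [hA]; ring
    rw [this]
    linear_combination hs2
  · have e1 : u + (s - c) • p - u = (s - c) • p := by abel
    rw [e1, n4_smul, abs_of_nonneg (by linarith), ← hA]
    have e2 : s - c ≤ Real.sqrt A := by
      refine Real.le_sqrt_of_sq_le ?_
      nlinarith
    have e3 : n4 p ≤ d := by
      have h4 := n4_pow p
      refine le_of_not_gt fun h5 => ?_
      have h6 : d ^ 4 < n4 p ^ 4 := pow_lt_pow_left₀ h5 hd.le (by norm_num)
      linarith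
    exact mul_le_mul e2 e3 (n4_nonneg p) (Real.sqrt_nonneg _)

private theorem twB_seq [Dim N] {l : ℝ} (hl : 0 < l) (u : H1 N) {a : ℝ} (ha : ip l u u ≤ a) :
    ∃ U : ℕ → H1 N, (∀ n, ip l (U n) (U n) = a) ∧
      Tendsto (fun n => n4 (U n - u)) atTop (𝓝 0) := by
  choose U h3 h4 using fun n : ℕ => twB_one hl u ha (d := 1 / ((n : ℝ) + 1)) (by positivity)
  refine ⟨U, h3, ?_⟩
  refine squeeze_zero (fun n => n4_nonneg _) h4 ?_
  have := tendsto_one_div_add_atTop_nhds_zero_nat (𝕜 := ℝ)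
  simpa using this.const_mul (Real.sqrt (a - ip l u u))

/-- module twB. `relax` for `OmP` (same proof, negative discriminant). Here `u v ≠ 0` is an extra hypothesis. -/
theorem relaxP [Dim N] {l1 l2 m1 m2 be : ℝ} (h1 : 0 < l1) (h2 : 0 < l2) (hm1 : 0 < m1)
    (hm2 : 0 < m2) {u v : H1 N} {a b : ℝ} (hu : u ≠ 0) (hv : v ≠ 0) (ha : ip l1 u u ≤ a)
    (hb : ip l2 v v ≤ b) (h : OmP a b (m1 * Q4 u u u u) (be * Q4 u u v v) (m2 * Q4 v v v v)) :
    level N l1 l2 m1 m2 be ≤
      EEn a b (m1 * Q4 u u u u) (be * Q4 u u v v) (m2 * Q4 v v v v) := by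
  obtain ⟨U, hU1, hU2⟩ := twB_seq h1 u ha
  obtain ⟨V, hV1, hV2⟩ := twB_seq h2 v hb
  have tp := (Q4_tendsto U U U U u u u u hU2 hU2 hU2 hU2).const_mul m1
  have tq := (Q4_tendsto U U V V u u v v hU2 hU2 hV2 hV2).const_mul be
  have tr := (Q4_tendsto V V V V v v v v hV2 hV2 hV2 hV2).const_mul m2
  obtain ⟨hD, hO2, hO3⟩ := h
  have tD := (tq.pow 2).sub (tp.mul tr)
  have e1 := tD.eventually (gt_mem_nhds hD)
  have e2 : ∀ᶠ n in atTop, b * (be * Q4 (U n) (U n) (V n) (V n)) <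
      a * (m2 * Q4 (V n) (V n) (V n) (V n)) := (tq.const_mul b).eventually_lt (tr.const_mul a) hO2
  have e3 : ∀ᶠ n in atTop, a * (be * Q4 (U n) (U n) (V n) (V n)) <
      b * (m1 * Q4 (U n) (U n) (U n) (U n)) := (tq.const_mul a).eventually_lt (tp.const_mul b) hO3
  have tE : Tendsto (fun n => EEn a b (m1 * Q4 (U n) (U n) (U n) (U n))
      (be * Q4 (U n) (U n) (V n) (V n)) (m2 * Q4 (V n) (V n) (V n) (V n))) atTop
      (𝓝 (EEn a b (m1 * Q4 u u u u) (be * Q4 u u v v) (m2 * Q4 v v v v))) := by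
    unfold EEn
    refine Tendsto.div ?_ (tD.const_mul 4) (mul_ne_zero (by norm_num) hD.ne)
    exact ((tq.const_mul (2 * a * b)).sub (tr.const_mul (a ^ 2))).sub (tp.const_mul (b ^ 2))
  refine ge_of_tendsto tE ?_
  filter_upwards [e1, e2, e3] with n f1 f2 f3
  have hO : OmPp l1 l2 m1 m2 be (U n) (V n) := by
    unfold OmPp
    rw [hU1, hV1]
    exact ⟨f1, f2, f3⟩
  have := level_proj h1 h2 hm1 hm2 (Or.inr hO)
  unfold EEp at this
  rwa [hU1, hV1] at this

/-- module twC. `b = r` for `w` (`GNo_vals`). If `Dl > 0`: `relax` with `a' = q - t`, `t → 0+` (`a' r < b q`, and `b p < a' q` in the limit because `r p < q²`). If `Dl < 0`: `relaxP` with `a' = q + t` (`b q < a' r`, `a' q < b p` in the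
limit because `q² < p r`). `EE_b`: `EEn a' b p q r = b²/(4r) - (b q - a' r)²/(4 r D) → b²/(4r) = S2 N l2 / (4 m2)`. -/
theorem level_K2 [Dim N] {l1 l2 m1 m2 be : ℝ} (h1 : 0 < l1) (h2 : 0 < l2) (hm1 : 0 < m1)
    (hm2 : 0 < m2) {w p : H1 N} (hw : GNo l2 m2 w) (hp : ip l1 p p < be * Q4 p p w w)
    (hD : Dl m1 m2 be p w ≠ 0) : level N l1 l2 m1 m2 be ≤ S2 N l2 / (4 * m2) := by
  have hR := Q4_pos hw.1
  obtain ⟨v1, v2⟩ := GNo_vals h2 hm2 hw
  have hb0 := ip_pos h2 hw.1
  have hp0 : p ≠ 0 := by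
    rintro rfl
    rw [ip_zero_left, Q4_zero1] at hp
    simp at hp
  have hP := Q4_pos hp0
  obtain ⟨P, hPd⟩ : ∃ P, P = m1 * Q4 p p p p := ⟨_, rfl⟩
  obtain ⟨q, hq⟩ : ∃ q, q = be * Q4 p p w w := ⟨_, rfl⟩
  obtain ⟨r, hr⟩ : ∃ r, r = m2 * Q4 w w w w := ⟨_, rfl⟩
  obtain ⟨b, hb⟩ : ∃ b, b = ip l2 w w := ⟨_, rfl⟩
  have hbr : b = r := by rw [hb, hr]; exact hw.2.1
  have hr0 : 0 < r := by rw [hr]; positivity
  have hP0 : 0 < P := by rw [hPd]; positivity
  have hDn : q ^ 2 - P * r ≠ 0 := by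
    rw [hPd, hq, hr]
    exact hD
  rw [← hq] at hp
  have hq0 : 0 < q := lt_of_lt_of_le (ip_pos h1 hp0) hp.le
  have hK : r ^ 2 / (4 * r) = S2 N l2 / (4 * m2) := by
    have e : r = S2 N l2 / m2 := by rw [← hbr, hb, v2]
    have : r ^ 2 / (4 * r) = r / 4 := by field_simp
    rw [this, e]
    field_simp
  rcases lt_or_gt_of_ne hDn with hneg | hpos
  · have key : ∀ t : ℝ, 0 < t → (q + t) * q < r * P →
        level N l1 l2 m1 m2 be ≤ S2 N l2 / (4 * m2) + (r * t) ^ 2 / (4 * r * (P * r - q ^ 2)) := by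
      intro t ht ht2
      have hO : OmP (q + t) b P q r := by
        refine ⟨hneg, ?_, ?_⟩
        · rw [hbr]
          have : 0 < t * r := by positivity
          linarith
        · rw [hbr]; exact ht2
      have hre := relaxP (a := q + t) (b := b) h1 h2 hm1 hm2 (be := be) hp0 hw.1 (by linarith)
        (le_of_eq hb.symm) (by rw [← hPd, ← hq, ← hr]; exact hO)
      rw [← hPd, ← hq, ← hr] at hre
      have hEE := EE_b (a := q + t) (b := b) hr0.ne' hDn
      rw [hbr, hK] at hEE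
      rw [hbr] at hre
      have e5 : (r * q - (q + t) * r) ^ 2 / (4 * r * (q ^ 2 - P * r)) =
          -((r * t) ^ 2 / (4 * r * (P * r - q ^ 2))) := by
        have : 4 * r * (q ^ 2 - P * r) = -(4 * r * (P * r - q ^ 2)) := by ring
        rw [this, div_neg]
        congr 2
        ring
      linarith
    have hev : ∀ᶠ t in 𝓝[>] (0 : ℝ), level N l1 l2 m1 m2 be ≤
        S2 N l2 / (4 * m2) + (r * t) ^ 2 / (4 * r * (P * r - q ^ 2)) := by
      have h5 : ContinuousAt (fun t : ℝ => (q + t) * q) 0 := by fun_prop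
      have h6 : ∀ᶠ t in 𝓝 (0 : ℝ), (q + t) * q < r * P := by
        refine h5.eventually (gt_mem_nhds ?_)
        simp only [add_zero]
        nlinarith
      filter_upwards [self_mem_nhdsWithin, nhdsWithin_le_nhds h6] with t a b
      exact key t a b
    have h7 : Tendsto (fun t : ℝ => S2 N l2 / (4 * m2) + (r * t) ^ 2 / (4 * r * (P * r - q ^ 2)))
        (𝓝[>] 0) (𝓝 (S2 N l2 / (4 * m2))) := by
      have : ContinuousAt (fun t : ℝ => S2 N l2 / (4 * m2) +
          (r * t) ^ 2 / (4 * r * (P * r - q ^ 2))) 0 := by fun_prop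
      have h8 := this.tendsto
      simp only [mul_zero, ne_eq, OfNat.ofNat_ne_zero, not_false_eq_true, zero_pow, zero_div,
        add_zero] at h8
      exact h8.mono_left nhdsWithin_le_nhds
    exact ge_of_tendsto h7 hev
  · obtain ⟨a0, ha0⟩ : ∃ a0, a0 = ip l1 p p := ⟨_, rfl⟩
    rw [← ha0] at hp
    have key : ∀ t : ℝ, 0 < t → a0 ≤ q - t → r * P < (q - t) * q →
        level N l1 l2 m1 m2 be ≤ S2 N l2 / (4 * m2) := by
      intro t ht ht1 ht2
      have hO : OmM (q - t) b P q r := by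
        refine ⟨hpos, ?_, ?_⟩
        · rw [hbr]
          have : 0 < t * r := by positivity
          linarith
        · rw [hbr]; exact ht2
      have hre := relax (a := q - t) (b := b) h1 h2 hm1 hm2 (be := be) (u := p) (v := w)
        (by rw [← ha0]; exact ht1) (le_of_eq hb.symm) (by rw [← hPd, ← hq, ← hr]; exact hO)
      rw [← hPd, ← hq, ← hr] at hre
      have hEE := EE_b (a := q - t) (b := b) hr0.ne' hDn
      rw [hbr, hK] at hEE
      rw [hbr] at hre
      have e5 : 0 ≤ (r * q - (q - t) * r) ^ 2 / (4 * r * (q ^ 2 - P * r)) := by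
        have : 0 < q ^ 2 - P * r := hpos
        positivity
      linarith
    have h5 : ContinuousAt (fun t : ℝ => (q - t) * q) 0 := by fun_prop
    have h6 : ∀ᶠ t in 𝓝 (0 : ℝ), r * P < (q - t) * q := by
      refine h5.eventually (lt_mem_nhds ?_)
      simp only [sub_zero]
      nlinarith
    have h7 : ContinuousAt (fun t : ℝ => q - t) 0 := by fun_prop
    have h8 : ∀ᶠ t in 𝓝 (0 : ℝ), a0 < q - t := by
      refine h7.eventually (lt_mem_nhds ?_)
      simpa using hp
    have h9 : ∀ᶠ t in 𝓝[>] (0 : ℝ), t ∈ Set.Ioi (0 : ℝ) := self_mem_nhdsWithin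
    have h6' : ∀ᶠ t in 𝓝[>] (0 : ℝ), r * P < (q - t) * q := nhdsWithin_le_nhds h6
    have h8' : ∀ᶠ t in 𝓝[>] (0 : ℝ), a0 < q - t := nhdsWithin_le_nhds h8
    obtain ⟨t, t1, t2, t3⟩ := (h9.and (h6'.and h8')).exists
    exact key t t1 t3.le t2

private theorem twD_Q [Dim N] {u v : H1 N} {k : ℝ} (hk : 0 < k)
    (h : ∀ᵐ x : E N, fn v x ^ 2 = k * fn u x ^ 2) (y z : H1 N) : Q4 v v y z = k * Q4 u u y z := by
  have h1 : ∀ᵐ x, fn v x ^ 2 = fn (Real.sqrt k • u) x ^ 2 := by
    filter_upwards [h, fn_smul (Real.sqrt k) u] with x a b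
    rw [a, b, mul_pow, Real.sq_sqrt hk.le]
  rw [Q4_congr_sq h1, Q4_smul1, Q4_smul2, ← mul_assoc, Real.mul_self_sqrt hk.le]

private theorem twD_gr {u v : H1 N} {k : ℝ} (hk : 0 ≤ k)
    (h : ∀ᵐ x : E N, fn v x ^ 2 = k * fn u x ^ 2) (hv : ∀ᵐ x : E N, fn v x ≠ 0) :
    ∀ᵐ x : E N, inner ℝ (gr v x) (gr v x) = k * inner ℝ (gr u x) (gr u x) ∧
      ∀ e : E N, fn v x * inner ℝ (gr v x) e = k * (fn u x * inner ℝ (gr u x) e) := by
  obtain ⟨U, U1, U2⟩ := abs_H u
  obtain ⟨V, V1, V2⟩ := abs_H v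
  have hV : V = Real.sqrt k • U := by
    refine H1_ext ?_
    filter_upwards [V1, U1, h, fn_smul (Real.sqrt k) U] with x a b c d
    rw [a, d, b, ← Real.sqrt_sq_eq_abs, ← Real.sqrt_sq_eq_abs, c, Real.sqrt_mul hk]
  rw [hV] at V2
  filter_upwards [U2, V2, gr_smul (Real.sqrt k) U, h, hv] with x a b c d e
  have hkk : Real.sqrt k * Real.sqrt k = k := Real.mul_self_sqrt hk
  have hu : fn u x ≠ 0 := by
    intro h0
    rw [h0] at d
    exact e (by simpa using d)
  have e1 : ((SignType.sign (fn v x) : SignType) : ℝ) • gr v x =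
      (Real.sqrt k * ((SignType.sign (fn u x) : SignType) : ℝ)) • gr u x := by
    rw [← b, c, a, smul_smul]
  have su : ((SignType.sign (fn u x) : SignType) : ℝ) * ((SignType.sign (fn u x) : SignType) : ℝ) = 1 := by
    rcases lt_or_gt_of_ne hu with h1 | h1
    · rw [sign_neg h1]; norm_num
    · rw [sign_pos h1]; norm_num
  have sv : ((SignType.sign (fn v x) : SignType) : ℝ) * ((SignType.sign (fn v x) : SignType) : ℝ) = 1 := by
    rcases lt_or_gt_of_ne e with h1 | h1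
    · rw [sign_neg h1]; norm_num
    · rw [sign_pos h1]; norm_num
  have au : ((SignType.sign (fn u x) : SignType) : ℝ) * |fn u x| = fn u x := by
    rcases lt_or_gt_of_ne hu with h1 | h1
    · rw [sign_neg h1, abs_of_neg h1]; norm_num
    · rw [sign_pos h1, abs_of_pos h1]; norm_num
  have av : ((SignType.sign (fn v x) : SignType) : ℝ) * |fn v x| = fn v x := by
    rcases lt_or_gt_of_ne e with h1 | h1
    · rw [sign_neg h1, abs_of_neg h1]; norm_num
    · rw [sign_pos h1, abs_of_pos h1]; norm_num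
  have abs1 : |fn v x| = Real.sqrt k * |fn u x| := by
    rw [← Real.sqrt_sq_eq_abs, ← Real.sqrt_sq_eq_abs, d, Real.sqrt_mul hk]
  obtain ⟨σ, hσ⟩ : ∃ σ : ℝ, σ = ((SignType.sign (fn u x) : SignType) : ℝ) := ⟨_, rfl⟩
  obtain ⟨τ, hτ⟩ : ∃ τ : ℝ, τ = ((SignType.sign (fn v x) : SignType) : ℝ) := ⟨_, rfl⟩
  rw [← hσ, ← hτ] at e1
  rw [← hσ] at su au
  rw [← hτ] at sv av
  have e2 : gr v x = (τ * (Real.sqrt k * σ)) • gr u x := by
    calc gr v x = (τ * τ) • gr v x := by rw [sv, one_smul]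
      _ = τ • (τ • gr v x) := by rw [smul_smul]
      _ = _ := by rw [e1, smul_smul]
  refine ⟨?_, fun y => ?_⟩
  · rw [e2, real_inner_smul_left, real_inner_smul_right]
    linear_combination (σ * σ * (τ * τ) * inner ℝ (gr u x) (gr u x)) * hkk +
      (k * (τ * τ) * inner ℝ (gr u x) (gr u x)) * su + (k * inner ℝ (gr u x) (gr u x)) * sv
  · obtain ⟨A, hA⟩ : ∃ A, A = |fn u x| := ⟨_, rfl⟩
    rw [← hA] at abs1 au
    have e3 : fn v x = τ * (Real.sqrt k * A) := by rw [← abs1, av]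
    rw [e2, real_inner_smul_left, e3, ← au]
    linear_combination (τ * τ * σ * A * inner ℝ (gr u x) y) * hkk +
      (k * σ * A * inner ℝ (gr u x) y) * sv

private theorem twD_bdd (g : E N → ℝ) (g1 : ContDiff ℝ 1 g) (g2 : HasCompactSupport g) :
    ∃ M : ℝ, (∀ x, |g x| ≤ M) ∧ ∀ x, ‖gradient g x‖ ≤ M := by
  obtain ⟨C1, h1⟩ := g1.continuous.bounded_above_of_compact_support g2
  obtain ⟨C2, h2⟩ := (g1.continuous_fderiv (by norm_num)).bounded_above_of_compact_support
    (g2.fderiv ℝ)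
  refine ⟨max C1 C2, fun x => ?_, fun x => ?_⟩
  · have := h1 x
    rw [Real.norm_eq_abs] at this
    exact this.trans (le_max_left _ _)
  · unfold gradient
    rw [LinearIsometryEquiv.norm_map]
    exact (h2 x).trans (le_max_right _ _)

/-- module twD. Otherwise `D_zero0`: `v² = k u²` a.e. As in the proof of `D_zero'` (Sir/Poh.lean) `√c v` is `GNo l2 m2` for a `c > 0`, so `v ≠ 0` a.e. (`GNo_ne_zero`) and `v` solves a scalar equation `ip l2 v z = c2 Q4 v v v z`
(`GNo_sol`); by `Sol` and `v² = k u²` (`Q4_congr_sq`) `ip l1 u z = c1 Q4 u u u z`. Test with `z = η u`, `z = η v`, `η ∈ C¹_c` (`mul_H`): since `u ∇u = ∇(u²)/2 = ∇(v²)/(2k)` and `|∇u|² = |∇v|²/k` a.e. (both from `|v| = √k |u|`: `abs_H`,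
`H1_ext`) the first one is `∫ η |∇v|² + v ∇v·∇η + l1 η v² = c1' ∫ η v⁴`; subtract: `(l1 - l2) ∫ η v² = c3 ∫ η v⁴` for all `η`, so `(l1 - l2) v² = c3 v⁴` a.e., `v²` is a.e. a nonzero constant: impossible in `L²`. -/
theorem D_ne [Dim N] {l1 l2 m1 m2 be : ℝ} (h1 : 0 < l1) (h2 : 0 < l2) (hne : l1 ≠ l2)
    (hm1 : 0 < m1) (hm2 : 0 < m2) (hb : 0 < be) {u v : H1 N} (hs : Sol l1 l2 m1 m2 be u v)
    (h : IsMin l1 l2 m1 m2 be u v) (hE : En l1 l2 m1 m2 be u v ≤ S2 N l2 / (4 * m2)) :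
    Dl m1 m2 be u v ≠ 0 := by
  intro hD
  obtain ⟨hbe, k, hk, hsq⟩ := D_zero0 h1 h2 hm1 hm2 hb hs h hD
  have hR : 0 < Q4 v v v v := Q4_pos h.1.2.1
  have hEn := Neh_En h.1
  have hNh := h.1
  obtain ⟨-, -, n3, n4'⟩ := hNh
  have hb0 : 0 < ip l2 v v := ip_pos h2 h.1.2.1
  have hSle := S2_le h2 v
  have hbS : ip l2 v v ^ 2 = S2 N l2 * Q4 v v v v := by
    refine le_antisymm ?_ hSle
    have e1 : ip l2 v v ^ 2 = (ip l1 u u + ip l2 v v) * (m2 * Q4 v v v v) := by
      unfold Dl at hD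
      rw [n3, n4']
      linear_combination hD
    rw [e1]
    rw [hEn] at hE
    have h3 : ip l1 u u + ip l2 v v ≤ S2 N l2 / m2 := by
      have e2 : S2 N l2 / (4 * m2) = S2 N l2 / m2 / 4 := by field_simp
      rw [e2] at hE
      linarith
    calc (ip l1 u u + ip l2 v v) * (m2 * Q4 v v v v) ≤ S2 N l2 / m2 * (m2 * Q4 v v v v) :=
          mul_le_mul_of_nonneg_right h3 (by positivity)
      _ = S2 N l2 * Q4 v v v v := by field_simp
  set c : ℝ := ip l2 v v / (m2 * Q4 v v v v) with hc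
  have hcp : 0 < c := by positivity
  have hcc : Real.sqrt c * Real.sqrt c = c := Real.mul_self_sqrt hcp.le
  have hw : GNo l2 m2 (Real.sqrt c • v) := by
    have e1 : ip l2 (Real.sqrt c • v) (Real.sqrt c • v) = c * ip l2 v v := by
      rw [ip_smul_left, ip_smul_right, ← mul_assoc, hcc]
    have e2 : Q4 (Real.sqrt c • v) (Real.sqrt c • v) (Real.sqrt c • v) (Real.sqrt c • v) =
        c ^ 2 * Q4 v v v v := by
      rw [Q4_smul1, Q4_smul2, Q4_smul3, Q4_smul4]
      linear_combination ((Real.sqrt c * Real.sqrt c + c) * Q4 v v v v) * hcc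
    refine ⟨?_, ?_, ?_⟩
    · exact smul_ne_zero (Real.sqrt_pos.2 hcp).ne' h.1.2.1
    · rw [e1, e2, hc]; field_simp
    · rw [e1, e2, mul_pow, hbS]; ring
  have hv0 : ∀ᵐ x : E N, fn v x ≠ 0 := by
    filter_upwards [GNo_ne_zero h2 hm2 hw, fn_smul (Real.sqrt c) v] with x a b h0
    exact a (by rw [b, h0, mul_zero])
  have hsq' : ∀ᵐ x : E N, fn u x ^ 2 = k⁻¹ * fn v x ^ 2 := by
    filter_upwards [hsq] with x a
    rw [a]
    field_simp
  have s1 : ∀ z : H1 N, ip l1 u z = (m1 + be * k) * Q4 u u u z := by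
    intro z
    rw [hs.1 z, twD_Q hk hsq u z]
    ring
  have s2 : ∀ z : H1 N, ip l2 v z = (m2 + be * k⁻¹) * Q4 v v v z := by
    intro z
    rw [hs.2 z, twD_Q (inv_pos.2 hk) hsq' v z]
    ring
  have hgr := twD_gr hk.le hsq hv0
  -- tested against the cut-offs
  have key : ∀ g : E N → ℝ, ContDiff ℝ 1 g → HasCompactSupport g →
      (l1 - l2) * ∫ x, g x * fn v x ^ 2 =
        ((m1 + be * k) / k - (m2 + be * k⁻¹)) * ∫ x, g x * fn v x ^ 4 := by
    intro g g1 g2
    obtain ⟨M, hM1, hM2⟩ := twD_bdd g g1 g2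
    obtain ⟨U, hU1, hU2⟩ := mul_H g g1 M hM1 hM2 u
    obtain ⟨V, hV1, hV2⟩ := mul_H g g1 M hM1 hM2 v
    have eX : gX v V = k * gX u U := by
      unfold gX
      rw [← integral_const_mul]
      refine integral_congr_ae ?_
      filter_upwards [hU2, hV2, hgr] with x a b c
      rw [a, b, inner_add_right, inner_add_right, real_inner_smul_right, real_inner_smul_right,
        real_inner_smul_right, real_inner_smul_right, c.1]
      have e3 := c.2 (gradient g x)
      linear_combination e3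
    have eY : gY v V = k * gY u U := by
      unfold gY
      rw [← integral_const_mul]
      refine integral_congr_ae ?_
      filter_upwards [hU1, hV1, hsq] with x a b c
      rw [a, b]
      linear_combination g x * c
    have eP : Q4 v v v V = k ^ 2 * Q4 u u u U := by
      unfold Q4
      rw [← integral_const_mul]
      refine integral_congr_ae ?_
      filter_upwards [hU1, hV1, hsq] with x a b c
      rw [a, b]
      linear_combination g x * (fn v x ^ 2 + k * fn u x ^ 2) * c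
    have eY' : gY v V = ∫ x, g x * fn v x ^ 2 := by
      unfold gY
      refine integral_congr_ae ?_
      filter_upwards [hV1] with x a
      rw [a]
      ring
    have eP' : Q4 v v v V = ∫ x, g x * fn v x ^ 4 := by
      unfold Q4
      refine integral_congr_ae ?_
      filter_upwards [hV1] with x a
      rw [a]
      ring
    have t1 := s1 U
    have t2 := s2 V
    unfold ip at t1 t2
    rw [← eY', ← eP']
    have t3 : Q4 u u u U = Q4 v v v V / k ^ 2 := by
      rw [eP]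
      field_simp
    rw [t3] at t1
    have t4 : gX v V + l1 * gY v V = (m1 + be * k) / k * Q4 v v v V := by
      rw [eX, eY]
      have : k * gX u U + l1 * (k * gY u U) = k * (gX u U + l1 * gY u U) := by ring
      rw [this, t1]
      field_simp
    linear_combination t4 - t2
  obtain ⟨c3, hc3⟩ : ∃ c3, c3 = (m1 + be * k) / k - (m2 + be * k⁻¹) := ⟨_, rfl⟩
  rw [← hc3] at key
  -- integrability
  have iv2 : Integrable (fun x : E N => fn v x ^ 2) := (fn_memLp v).integrable_sq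
  have iv4 : Integrable (fun x : E N => fn v x ^ 4) := by
    have := Q4_integrable v v v v
    refine this.congr (Eventually.of_forall fun x => ?_)
    simp only
    ring
  have hF : LocallyIntegrable (fun x : E N => (l1 - l2) * fn v x ^ 2 - c3 * fn v x ^ 4)
      (volume : Measure (E N)) := ((iv2.const_mul _).sub (iv4.const_mul _)).locallyIntegrable
  have hz := ae_eq_zero_of_integral_contDiff_smul_eq_zero hF (fun g hg1 hg2 => by
    have g1 : ContDiff ℝ 1 g := hg1.of_le (by exact_mod_cast le_top)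
    obtain ⟨M, hM1, -⟩ := twD_bdd g g1 hg2
    have j2 : Integrable (fun x : E N => g x * fn v x ^ 2) :=
      iv2.bdd_mul g1.continuous.aestronglyMeasurable (c := M)
        (Eventually.of_forall fun x => by rw [Real.norm_eq_abs]; exact hM1 x)
    have j4 : Integrable (fun x : E N => g x * fn v x ^ 4) :=
      iv4.bdd_mul g1.continuous.aestronglyMeasurable (c := M)
        (Eventually.of_forall fun x => by rw [Real.norm_eq_abs]; exact hM1 x)
    have e : ∫ x, g x • ((l1 - l2) * fn v x ^ 2 - c3 * fn v x ^ 4) =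
        ∫ x, ((l1 - l2) * (g x * fn v x ^ 2) - c3 * (g x * fn v x ^ 4)) := by
      refine integral_congr_ae (Eventually.of_forall fun x => ?_)
      simp only [smul_eq_mul]
      ring
    rw [e, integral_sub (j2.const_mul _) (j4.const_mul _), integral_const_mul, integral_const_mul]
    have := key g g1 hg2
    linarith)
  have hcst : ∀ᵐ x : E N, c3 * fn v x ^ 2 = l1 - l2 := by
    filter_upwards [hz, hv0] with x a b
    have h3 : fn v x ^ 2 * (c3 * fn v x ^ 2 - (l1 - l2)) = 0 := by linear_combination -a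
    have h4 := (mul_eq_zero.1 h3).resolve_left (pow_ne_zero 2 b)
    linarith
  have iK : Integrable (fun _ : E N => l1 - l2) (volume : Measure (E N)) := by
    refine (iv2.const_mul c3).congr ?_
    filter_upwards [hcst] with x a
    exact a
  rw [integrable_const_iff] at iK
  rcases iK with h0 | h0
  · exact hne (by linarith)
  · have hN : N ≠ 0 := by
      rcases (Dim.h (N := N)) with h | h <;> omega
    have : Nonempty (Fin N) := ⟨⟨0, Nat.pos_of_ne_zero hN⟩⟩
    have : Nontrivial (E N) := by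
      infer_instance
    have : NoncompactSpace (E N) := NormedSpace.noncompactSpace ℝ (E N)
    have h3 : (volume : Measure (E N)) Set.univ = ⊤ := measure_univ_of_isAddLeftInvariant _
    have h4 := h0.measure_univ_lt_top
    rw [h3] at h4
    exact lt_irrefl _ h4

private theorem twE_radius (w : H1 2) {Y : ℝ} (hY : 0 < Y) (hYd : Y = gY w w) (B : ℝ) :
    ∃ R : ℝ, 0 < R ∧ Y / 2 ≤ (∫ x in Metric.ball (0 : E 2) R, fn w x * fn w x) ∧
      B < (volume (Metric.ball (0 : E 2) R)).toReal := by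
  have i1 : Integrable (fun x : E 2 => fn w x * fn w x) := (fn_memLp w).integrable_mul (fn_memLp w)
  have hmono : Monotone (fun n : ℕ => Metric.ball (0 : E 2) (n : ℝ)) := by
    intro a b hab
    exact Metric.ball_subset_ball (by exact_mod_cast hab)
  have hU : (⋃ n : ℕ, Metric.ball (0 : E 2) (n : ℝ)) = Set.univ := Metric.iUnion_ball_nat 0
  have ht := tendsto_setIntegral_of_monotone (μ := (volume : Measure (E 2)))
    (f := fun x : E 2 => fn w x * fn w x) (fun n : ℕ => measurableSet_ball) hmono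
    (by rw [hU]; exact i1.integrableOn)
  rw [hU, setIntegral_univ] at ht
  have hlim : ∫ x : E 2, fn w x * fn w x = Y := by rw [hYd]; rfl
  rw [hlim] at ht
  have e1 : ∀ᶠ n : ℕ in atTop, Y / 2 < ∫ x in Metric.ball (0 : E 2) (n : ℝ), fn w x * fn w x :=
    ht.eventually (lt_mem_nhds (by linarith))
  obtain ⟨V, hV⟩ : ∃ V, V = (volume (Metric.ball (0 : E 2) 1)).toReal := ⟨_, rfl⟩
  have hV0 : 0 < V := by
    rw [hV]
    exact ENNReal.toReal_pos (Metric.measure_ball_pos volume _ one_pos).ne'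
      Metric.isBounded_ball.measure_lt_top.ne
  have hvol : ∀ n : ℕ, (volume (Metric.ball (0 : E 2) (n : ℝ))).toReal = (n : ℝ) ^ 2 * V := by
    intro n
    rw [Measure.addHaar_ball volume (0 : E 2) (Nat.cast_nonneg n), ENNReal.toReal_mul, ← hV,
      ENNReal.toReal_ofReal (by positivity)]
    simp
  have e2 : ∀ᶠ n : ℕ in atTop, B < (volume (Metric.ball (0 : E 2) (n : ℝ))).toReal := by
    have h1 : Tendsto (fun n : ℕ => (n : ℝ) ^ 2 * V) atTop atTop :=
      ((tendsto_pow_atTop (by norm_num)).comp tendsto_natCast_atTop_atTop).atTop_mul_const hV0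
    filter_upwards [h1.eventually_gt_atTop B] with n hn
    rw [hvol]
    exact hn
  obtain ⟨n, n1, n2, n3⟩ := (e1.and (e2.and (eventually_gt_atTop 0))).exists
  exact ⟨n, by exact_mod_cast n3, n1.le, n2⟩

private theorem twE_clip (z : H1 2) (hz1 : ∀ᵐ x : E 2, ‖x‖ ≤ 1 → fn z x = 1) {R : ℝ} (hR : 0 < R) :
    ∃ p : H1 2, (∀ᵐ x : E 2, |fn p x| ≤ 1) ∧
      (∀ᵐ x : E 2, x ∈ Metric.ball (0 : E 2) R → fn p x = 1) ∧ gX p p ≤ gX z z := by
  have : Dim 2 := ⟨Or.inl rfl⟩
  have hs : 0 < R⁻¹ := inv_pos.2 hR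
  obtain ⟨T, hT1, hT2, -⟩ := dil_H (N := 2) R⁻¹ hs
  obtain ⟨y, hy⟩ : ∃ y, y = R • T z := ⟨_, rfl⟩
  have hyX : gX y y = gX z z := by
    have h1 := hT2 0 z z
    rw [mul_zero] at h1
    unfold ip at h1
    rw [hy, gX_smul_left, gX_smul_right]
    have h2 : gX (T z) (T z) = R⁻¹ ^ 2 * gX z z := by linarith
    rw [h2]
    field_simp
  have hyf : fn y =ᵐ[volume] fun x => fn z (R⁻¹ • x) := by
    rw [hy]
    filter_upwards [fn_smul R (T z), hT1 z] with x a b
    rw [a, b]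
    field_simp
  obtain ⟨S, hS, -⟩ := soft_H one_pos y
  have hip := (soft_ip one_pos hS (le_refl (0 : ℝ))).1
  have hpf : fn (y - S) =ᵐ[volume] fun x => fn y x - sft 1 (fn y x) := by
    unfold IsT at hS
    filter_upwards [fn_sub y S, hS] with x a b
    rw [a, b]
  refine ⟨y - S, ?_, ?_, ?_⟩
  · filter_upwards [hpf] with x hx
    rw [hx]
    exact (sft_facts one_pos (fn y x)).1
  · have hq : Measure.QuasiMeasurePreserving (fun x : E 2 => R⁻¹ • x) volume volume := by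
      refine ⟨measurable_const_smul _, ?_⟩
      rw [Measure.map_addHaar_smul volume hs.ne']
      exact Measure.smul_absolutelyContinuous
    have hz2 := hq.ae hz1
    filter_upwards [hpf, hyf, hz2] with x a b c hx
    have h1 : ‖R⁻¹ • x‖ ≤ 1 := by
      rw [Metric.mem_ball, dist_zero_right] at hx
      rw [norm_smul, Real.norm_of_nonneg hs.le, inv_mul_le_iff₀ hR]
      linarith
    rw [a, b, c h1]
    unfold sft
    norm_num
  · have h1 := gX_nonneg S
    rw [← hyX]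
    unfold ip at hip
    linarith

/-- module twE. **Wide functions in the plane.** `z` from `cap_zero` (`d` small), dilated by `x ↦ z(x/R)` (`gX` is invariant in the plane; `dil_H`), then clipped: `p = z_R - T_1 z_R` with `T_1` the soft truncation at level `1`
(`soft_H`, `soft_ip`, `sft_facts`): `|p| ≤ 1`, `p = 1` a.e. on the ball of radius `R`, `gX p p ≤ gX z z < d`. For `R` large `Q4 p p w w ≥ gY w w / 2`, `Q4 p p w w ≤ gY w w`, `Q4 p p p p ≥ |B_R|`; then `d`, then `l0` small. -/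
theorem wide {w : H1 2} (hw : w ≠ 0) {c A : ℝ} (hc : 0 < c) (hA : 0 < A) :
    ∃ (p : H1 2) (l0 : ℝ), 0 < l0 ∧ 0 < Q4 p p w w ∧ A * Q4 p p w w ^ 2 < Q4 p p p p ∧
      ∀ l : ℝ, 0 < l → l < l0 → ip l p p < c * Q4 p p w w := by
  have : Dim 2 := ⟨Or.inl rfl⟩
  have hY := gY_pos hw
  obtain ⟨Y, hYd⟩ : ∃ Y, Y = gY w w := ⟨_, rfl⟩
  rw [← hYd] at hY
  obtain ⟨z, hz, hz1⟩ := cap_zero (d := c * Y / 8) (by positivity)
  obtain ⟨R, hR0, hR1, hR2⟩ := twE_radius w hY hYd (A * Y ^ 2)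
  obtain ⟨p, hp1, hp2, hp3⟩ := twE_clip z hz1 hR0
  -- the mixed term
  have i1 : Integrable (fun x : E 2 => fn w x * fn w x) := (fn_memLp w).integrable_mul (fn_memLp w)
  have hQ1 : Q4 p p w w ≤ Y := by
    rw [hYd]
    unfold Q4 gY
    refine integral_mono_ae (Q4_integrable p p w w) i1 ?_
    filter_upwards [hp1] with x hx
    have h3 : fn p x * fn p x ≤ 1 := by
      have := abs_le.1 hx
      nlinarith
    have h4 : 0 ≤ fn w x * fn w x := mul_self_nonneg _
    calc fn p x * fn p x * fn w x * fn w x = (fn p x * fn p x) * (fn w x * fn w x) := by ring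
      _ ≤ 1 * (fn w x * fn w x) := mul_le_mul_of_nonneg_right h3 h4
      _ = fn w x * fn w x := one_mul _
  have hQ2 : Y / 2 ≤ Q4 p p w w := by
    refine hR1.trans ?_
    rw [← integral_indicator measurableSet_ball]
    unfold Q4
    refine integral_mono_ae (i1.indicator measurableSet_ball) (Q4_integrable p p w w) ?_
    filter_upwards [hp2] with x hx
    have h4 : 0 ≤ fn w x * fn w x := mul_self_nonneg _
    by_cases hb : x ∈ Metric.ball (0 : E 2) R
    · rw [Set.indicator_of_mem hb, hx hb]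
      linarith
    · rw [Set.indicator_of_notMem hb]
      have : fn p x * fn p x * fn w x * fn w x = (fn p x * fn p x) * (fn w x * fn w x) := by ring
      rw [this]
      exact mul_nonneg (mul_self_nonneg _) h4
  have hQ3 : (volume (Metric.ball (0 : E 2) R)).toReal ≤ Q4 p p p p := by
    have e1 : (volume (Metric.ball (0 : E 2) R)).toReal =
        ∫ x : E 2, (Metric.ball (0 : E 2) R).indicator (fun _ => (1 : ℝ)) x := by
      rw [integral_indicator measurableSet_ball]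
      simp [Measure.real]
    rw [e1]
    unfold Q4
    refine integral_mono_ae ?_ (Q4_integrable p p p p) ?_
    · refine (integrable_indicator_iff measurableSet_ball).2 ?_
      exact integrableOn_const (Metric.isBounded_ball.measure_lt_top.ne) (by simp)
    · filter_upwards [hp2] with x hx
      by_cases hb : x ∈ Metric.ball (0 : E 2) R
      · rw [Set.indicator_of_mem hb, hx hb]
        norm_num
      · rw [Set.indicator_of_notMem hb]
        have : fn p x * fn p x * fn p x * fn p x = (fn p x * fn p x) * (fn p x * fn p x) := by ring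
        rw [this]
        exact mul_self_nonneg _
  have hG := gY_nonneg p
  refine ⟨p, c * Y / (8 * (1 + gY p p)), by positivity, by linarith, ?_, ?_⟩
  · have h5 : Q4 p p w w ^ 2 ≤ Y ^ 2 := pow_le_pow_left₀ (by linarith) hQ1 2
    have h6 : A * Q4 p p w w ^ 2 ≤ A * Y ^ 2 := mul_le_mul_of_nonneg_left h5 hA.le
    linarith
  · intro l hl hl0
    rw [lt_div_iff₀ (by positivity)] at hl0
    have h7 : ip l p p = gX p p + l * gY p p := rfl
    have h8 : c * (Y / 2) ≤ c * Q4 p p w w := mul_le_mul_of_nonneg_left hQ2 hc.le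
    have h9 : 0 < c * Y := by positivity
    nlinarith

/-- module twF. Otherwise `v n` `RD`, `l n → 0`, `ip 1 ≤ S2 2 1`, `P(v n) ≥ S2 2 1 / 2` and `c Q4 p p (v n) (v n) ≤ ip (l n) p p` for all `p`; `exists_WC`, `RD_comp`: `v n → V` in `n4`, `P(V) ≥ S2 2 1 / 2`, `V ≠ 0`; `wide` for `V` with `c/2`. -/
theorem cap_v {c : ℝ} (hc : 0 < c) : ∃ l0 : ℝ, 0 < l0 ∧ ∀ (l : ℝ) (v : H1 2), 0 < l → l < l0 →
    RD v → ip 1 v v ≤ S2 2 1 → S2 2 1 / 2 ≤ Q4 v v v v →
      ∃ p : H1 2, ip l p p < c * Q4 p p v v := by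
  have hdim : Dim 2 := ⟨Or.inl rfl⟩
  by_contra hcon
  push Not at hcon
  have hS := S2_pos (N := 2) (l := 1) one_pos
  have hex : ∀ n : ℕ, ∃ (l : ℝ) (v : H1 2), 0 < l ∧ l < 1 / ((n : ℝ) + 1) ∧ RD v ∧ ip 1 v v ≤ S2 2 1 ∧
      S2 2 1 / 2 ≤ Q4 v v v v ∧ ∀ p : H1 2, c * Q4 p p v v ≤ ip l p p := by
    intro n
    obtain ⟨l, v, h1, h2, h3, h4, h5, h6⟩ := hcon (1 / ((n : ℝ) + 1)) (by positivity)
    exact ⟨l, v, h1, h2, h3, h4, h5, h6⟩
  choose l v hl0 hl1 hv1 hv2 hv3 hv4 using hex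
  obtain ⟨C, hC, hCn⟩ := norm_le_ip (N := 2) (l := 1) one_pos
  have hbd : ∀ n, ‖v n‖ ≤ C * S2 2 1 + 1 := by
    intro n
    have h1 := hCn (v n)
    have h2 : C * ip 1 (v n) (v n) ≤ C * S2 2 1 := mul_le_mul_of_nonneg_left (hv2 n) hC.le
    nlinarith [norm_nonneg (v n), sq_nonneg (‖v n‖ - 1), mul_pos hC hS]
  obtain ⟨f, V, hf, hV⟩ := exists_WC v _ hbd
  have hlim := RD_comp hV fun n => hv1 (f n)
  have hQ : Tendsto (fun n => Q4 (v (f n)) (v (f n)) (v (f n)) (v (f n))) atTop (𝓝 (Q4 V V V V)) :=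
    Q4_tendsto _ _ _ _ _ _ _ _ hlim hlim hlim hlim
  have hQV : S2 2 1 / 2 ≤ Q4 V V V V := ge_of_tendsto' hQ fun n => hv3 (f n)
  have hV0 : V ≠ 0 := by
    rintro rfl
    rw [Q4_zero1] at hQV
    linarith
  obtain ⟨p, l0, hl00, hp0, -, hp⟩ := wide hV0 (half_pos hc) one_pos
  have hcst : Tendsto (fun _ : ℕ => n4 (p - p)) atTop (𝓝 0) := by
    rw [sub_self]
    have : n4 (0 : H1 2) = 0 := by
      have := n4_smul (0 : ℝ) (0 : H1 2)
      simpa using this
    rw [this]
    exact tendsto_const_nhds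
  have hQp : Tendsto (fun n => Q4 p p (v (f n)) (v (f n))) atTop (𝓝 (Q4 p p V V)) :=
    Q4_tendsto (fun _ => p) (fun _ => p) _ _ _ _ _ _ hcst hcst hlim hlim
  have e1 : ∀ᶠ n in atTop, Q4 p p V V / 2 < Q4 p p (v (f n)) (v (f n)) :=
    hQp.eventually (lt_mem_nhds (half_lt_self hp0))
  have e2 : ∀ᶠ n in atTop, l (f n) < l0 := by
    have h1 : Tendsto (fun n : ℕ => 1 / ((n : ℝ) + 1)) atTop (𝓝 0) := tendsto_one_div_add_atTop_nhds_zero_nat
    have h2 := (h1.comp hf.tendsto_atTop).eventually (gt_mem_nhds hl00)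
    filter_upwards [h2] with n hn
    exact (hl1 (f n)).trans hn
  obtain ⟨n, hn1, hn2⟩ := (e1.and e2).exists
  have h1 := hv4 (f n) p
  have h2 := hp (l (f n)) (hl0 (f n)) hn2
  have h3 : c * (Q4 p p V V / 2) < c * Q4 p p (v (f n)) (v (f n)) := mul_lt_mul_of_pos_left hn1 hc
  linarith

/-- module twG. `HasGS_iff`: a minimiser `(u,v)`. `En ≤ S2 2 1 / 4`: if `be > 1` `level_large` with any `w`, `GNo 1 1 w` (`rho0_eq`: `ip l w w / P(w) = (1+l)/2 < be`); if `be ≤ 1` `level_K2` with `p` from `wide` for `w`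
(`c = 1 / (2 sqrt M)`, `A = 2 M / S2 2 1`... so that `Dl < 0`: `be² Q² ≤ Q² < m P(p) P(w)`), `level_IsMin`. Then `Dl ≥ 0` (`Neh_ge`), `≠ 0` (`D_ne`, `l ≠ 1`), `radialise`, `ev_all` (`z = v` gives the inequality in `GdF`). -/
theorem two_GdF {M : ℝ} (hM : 1 ≤ M) : ∃ l0 : ℝ, 0 < l0 ∧ l0 ≤ 1 ∧ ∀ l m be : ℝ, 0 < l → l < l0 →
    1 / M ≤ m → m ≤ M → 0 < be → m ≤ be ^ 2 → HasGS 2 l 1 m 1 be →
      ∃ u v : H1 2, GdF l m be u v ∧
        ∀ z : H1 2, m * Q4 u u z z + be * Q4 z z v v ≤ ip l z z := by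
  have hdim : Dim 2 := ⟨Or.inl rfl⟩
  have hM0 : 0 < M := one_pos.trans_le hM
  have hS := S2_pos (N := 2) (l := 1) one_pos
  obtain ⟨w, hw, -⟩ := exists_GNo (N := 2) (l := 1) (m := 1) one_pos one_pos
  have hsM : 0 < Real.sqrt M := Real.sqrt_pos.2 hM0
  obtain ⟨p, l1, hl1, hp0, hpA, hp⟩ := wide hw.1 (c := 1 / (2 * Real.sqrt M)) (A := 2 * M / S2 2 1)
    (by positivity) (by positivity)
  refine ⟨min l1 1, lt_min hl1 one_pos, min_le_right _ _, fun l m be hl hll hm1 hm2 hbe hmb hGS => ?_⟩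
  have hll1 : l < l1 := hll.trans_le (min_le_left _ _)
  have hl1' : l < 1 := hll.trans_le (min_le_right _ _)
  have hm : 0 < m := (by positivity : (0 : ℝ) < 1 / M).trans_le hm1
  obtain ⟨u, v, hs, hmin⟩ := (HasGS_iff hl one_pos).1 hGS
  have hE : ∀ u v : H1 2, IsMin l 1 m 1 be u v → En l 1 m 1 be u v ≤ S2 2 1 / (4 * 1) := by
    intro u v hmin
    rcases le_or_gt be 1 with hb1 | hb1
    · have hw4 := (GNo_vals (N := 2) one_pos one_pos hw).1
      have hw4' : Q4 w w w w = S2 2 1 := by rw [hw4]; ring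
      have hcb : 1 / (2 * Real.sqrt M) ≤ be := by
        have h1 : (1 / (2 * Real.sqrt M)) ^ 2 ≤ be ^ 2 := by
          have h2 : (1 / (2 * Real.sqrt M)) ^ 2 = 1 / (4 * M) := by
            rw [div_pow, mul_pow, Real.sq_sqrt hM0.le]; norm_num
          rw [h2]
          refine le_trans ?_ (hm1.trans hmb)
          exact one_div_le_one_div_of_le hM0 (by linarith)
        exact (sq_le_sq₀ (by positivity) hbe.le).1 h1
      have hpb : ip l p p < be * Q4 p p w w :=
        (hp l hl hll1).trans_le (mul_le_mul_of_nonneg_right hcb hp0.le)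
      have hD : Dl m 1 be p w ≠ 0 := by
        apply ne_of_lt
        unfold Dl
        rw [hw4', one_mul]
        have h1 : (be * Q4 p p w w) ^ 2 ≤ Q4 p p w w ^ 2 := by
          rw [mul_pow]
          have : be ^ 2 ≤ 1 := pow_le_one₀ hbe.le hb1
          nlinarith [sq_nonneg (Q4 p p w w)]
        have h2 : 2 * Q4 p p w w ^ 2 < m * Q4 p p p p * S2 2 1 := by
          have h3 : 2 * M / S2 2 1 * Q4 p p w w ^ 2 * S2 2 1 < Q4 p p p p * S2 2 1 :=
            mul_lt_mul_of_pos_right hpA hS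
          have h4 : 2 * M / S2 2 1 * Q4 p p w w ^ 2 * S2 2 1 = 2 * Q4 p p w w ^ 2 * M := by
            field_simp
          rw [h4] at h3
          have h5 : 1 ≤ m * M := by
            rw [div_le_iff₀ hM0] at hm1
            exact hm1
          have h6 : m * (2 * Q4 p p w w ^ 2 * M) < m * (Q4 p p p p * S2 2 1) := mul_lt_mul_of_pos_left h3 hm
          nlinarith [sq_nonneg (Q4 p p w w)]
        nlinarith [sq_pos_of_pos hp0]
      have h1 := level_K2 hl one_pos hm one_pos hw hpb hD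
      rwa [level_IsMin hl one_pos hmin] at h1
    · refine level_large hl one_pos hm one_pos hbe hw ?_ (by rw [mul_one]; exact hmb) hmin
      have h1 := rho0_eq (l1 := l) (N := 2) one_pos one_pos hw
      rw [div_eq_iff (Q4_pos hw.1).ne'] at h1
      rw [h1]
      refine mul_lt_mul_of_pos_right ?_ (Q4_pos hw.1)
      unfold rho0
      push_cast
      nlinarith
  have h5 := hE u v hmin
  have h6 := (Neh_ge hl one_pos hm one_pos hmin.1).1
  have h8 : 0 < 4 * ((1 : ℝ) * Q4 v v v v) := by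
    have := Q4_pos hmin.1.2.1
    positivity
  have h7 : 0 ≤ Dl m 1 be u v := by
    by_contra hc
    push Not at hc
    have h9 := div_neg_of_neg_of_pos hc h8
    linarith
  have h9 : 0 < Dl m 1 be u v := lt_of_le_of_ne h7
    (D_ne hl one_pos hl1'.ne hm one_pos hbe hs hmin h5).symm
  obtain ⟨U, V, k1, k2, k3, k4, k5⟩ := radialise hl one_pos hm one_pos hbe hmin h9
  have hall := ev_all hl one_pos hm one_pos hbe k4 k5 k1.1
  exact ⟨U, V, ⟨k1, k2, k3, k4, k5, hall V, hE U V k4⟩, hall⟩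

private theorem twH_gY {N : ℕ} (u T : H1 N) :
    gY u u ≤ 2 * (gY T T + gY (u - T) (u - T)) := by
  have h1 := gY_nonneg (T + (-1 : ℝ) • (u - T))
  have h2 : gY u u = gY (T + (u - T)) (T + (u - T)) := by rw [add_sub_cancel]
  rw [gY_add_left, gY_add_right, gY_add_right, gY_smul_left, gY_smul_left, gY_smul_right,
    gY_smul_right] at h1
  rw [gY_add_left, gY_add_right, gY_add_right] at h2
  have h3 := gY_comm (u - T) T
  linarith

/-- module twH. The proof of `nonex_far` with the last step replaced: `a ≤ e4 b` gives `r = b - q ≥ (1 - e4) b`, `b ≥ S2 2 1 * r / b ≥ (1 - e4) S2 2 1` (`S2_le`), so `P(v) = r ≥ S2 2 1 / 2`, `ip 1 v v = b ≤ S2 2 1`; `cap_v` with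
`c = 1 / sqrt M ≤ be`: `be Q4 p p v v ≤ ip l p p < c Q4 p p v v`, contradiction. -/
theorem nonex_two {M : ℝ} (hM : 1 ≤ M) :
    ∃ x1 l0 : ℝ, 1 ≤ x1 ∧ 0 < l0 ∧ l0 ≤ 1 ∧ ∀ l m be : ℝ, 0 < l → l < l0 → 1 / M ≤ m → m ≤ M →
      0 < be → m ≤ be ^ 2 → x1 * be * (S2 2 l / m) ≤ kap 2 l 1 → ¬ HasGS 2 l 1 m 1 be := by
  have : Dim 2 := ⟨Or.inl rfl⟩
  have h1 : (0 : ℝ) < 1 := one_pos
  have hM0 : 0 < M := lt_of_lt_of_le one_pos hM
  have hS : 0 < S2 2 1 := S2_pos h1
  obtain ⟨d, hd, hgn⟩ := gn_near (N := 2) (ep := 1 / 64) (by norm_num)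
  obtain ⟨ep, hep⟩ : ∃ ep, ep = min (1 / 64) (d / 16) := ⟨_, rfl⟩
  have hep0 : 0 < ep := by rw [hep]; exact lt_min (by norm_num) (by positivity)
  have hep1 : ep ≤ 1 / 64 := by rw [hep]; exact min_le_left _ _
  have hep2 : ep ≤ d / 16 := by rw [hep]; exact min_le_right _ _
  obtain ⟨th, x1, hth, hx1, hone⟩ := step_one (N := 2) (ep := ep / 4) (by positivity)
  obtain ⟨l1, hl1, hl1', htwo⟩ := step_two (N := 2) (M := M) (ep := ep / 4) (th := th)
    (C0 := 36 * M ^ 2 * S2 2 1) hM (by positivity) hth (by positivity)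
  obtain ⟨l2, hl2, hl2', hG⟩ := two_GdF hM
  obtain ⟨l3, hl3, hcap⟩ := cap_v (c := 1 / M) (by positivity)
  refine ⟨x1, min l1 (min l2 l3), hx1, lt_min hl1 (lt_min hl2 hl3),
    (min_le_left _ _).trans hl1', ?_⟩
  intro l m be hl hll hm1 hm2 hbe hb2 hx hgs
  have hll1 : l < l1 := lt_of_lt_of_le hll (min_le_left _ _)
  have hll2 : l < l2 := lt_of_lt_of_le hll ((min_le_right _ _).trans (min_le_left _ _))
  have hll3 : l < l3 := lt_of_lt_of_le hll ((min_le_right _ _).trans (min_le_right _ _))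
  have hle1 : l ≤ 1 := hll1.le.trans hl1'
  have hm0 : 0 < m := lt_of_lt_of_le (by positivity) hm1
  obtain ⟨u, v, hg, hev⟩ := hG l m be hl hll2 hm1 hm2 hbe hb2 hgs
  obtain ⟨f1, f2, f3, f4, f5, f6, f7, f8, f9, f10, f11, f12, f13⟩ := GdF_facts hl hm0 hbe hg
  have hSl : 0 < S2 2 l / m := div_pos (S2_pos hl) hm0
  have hx' : be * (S2 2 l / m) ≤ kap 2 l 1 := by
    refine le_trans ?_ hx
    rw [mul_assoc]
    exact le_mul_of_one_le_left (by positivity) hx1
  have hup := level_up hM hl hle1 hm1 hm2 hbe hb2 hx' f8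
  have hC : be * (ip l u u + ip 1 v v) ≤ 36 * M ^ 2 * S2 2 1 := by
    rw [f6]
    linarith
  have hb0 : 0 < ip 1 v v := ip_pos h1 f2
  obtain ⟨k, hk⟩ : ∃ k, k = Real.sqrt (th * Q4 u u v v / ip 1 v v) := ⟨_, rfl⟩
  have hk0 : 0 < k := by rw [hk]; exact Real.sqrt_pos.2 (by positivity)
  have hk2 : k ^ 2 = th * Q4 u u v v / ip 1 v v := by rw [hk]; exact Real.sq_sqrt (by positivity)
  obtain ⟨T, hT, -⟩ := soft_H hk0 u
  obtain ⟨g1, g2⟩ := hone l m be k u v T hl hle1 hm0 hbe hg hx hk0 hk2 hT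
  have g3 := htwo l m be k u v T hl hll1 hm1 hm2 hbe hg hx' hC hk0 hk2 hT
  have hmin := hg.2.2.2.1
  have hDl := hg.2.2.2.2.1
  have hpoh := poh_GS hl h1 hm0 h1 hmin hDl.ne'
  have ha0 : 0 < ip l u u := ip_pos hl f1
  have hp0 : 0 < m * Q4 u u u u := mul_pos hm0 (Q4_pos f1)
  have hq0 : 0 < be * Q4 u u v v := mul_pos hbe f3
  have hr0 : 0 < Q4 v v v v := Q4_pos f2
  have hab : 0 < ip l u u + ip 1 v v := by linarith
  have hD : (be * Q4 u u v v) ^ 2 - m * Q4 u u u u * Q4 v v v v ≤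
      ep * (be * Q4 u u v v) * (ip l u u + ip 1 v v) := by
    have e1 : 0 < ep * (be * Q4 u u v v) * (ip l u u + ip 1 v v) := by positivity
    have e2 : ep / 4 * (be * Q4 u u v v) * (ip l u u + ip 1 v v) =
        ep * (be * Q4 u u v v) * (ip l u u + ip 1 v v) / 4 := by ring
    linarith
  have hYu : l * gY u u ≤ ep * (ip l u u + ip 1 v v) := by
    have e1 := mul_le_mul_of_nonneg_left (twH_gY u T) hl.le
    have e2 := gY_le_ip (l := l) (u - T)
    linarith
  have hYv : gY v v ≤ ip 1 v v := by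
    have e1 := gY_le_ip (l := 1) v
    linarith
  have hpoh' : l * gY u u + gY v v = (4 - (2 : ℝ)) / 4 * (ip l u u + ip 1 v v) := by
    rw [one_mul] at hpoh
    push_cast at hpoh
    exact hpoh
  obtain ⟨s1, s2⟩ := step_real (nn := 2) (Or.inl rfl) hp0 hq0 hr0 f4 f5 f7 hep0 (by linarith) hD
    f9 hYu hpoh' hYv
  have s3 : ip 1 v v ^ 2 ≤ (1 + d) * (S2 2 1 * Q4 v v v v) := by
    refine s1.trans (mul_le_mul_of_nonneg_right (by linarith) (by positivity))
  have s4 := hgn v s3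
  have s5 : |gY v v - (4 - (2 : ℝ)) / 4 * ip 1 v v| ≤ 1 / 64 * ip 1 v v := by
    push_cast at s4
    exact s4
  have s6 := s2 (1 / 64) (by norm_num) s5
  have s7 : ip l u u ≤ 1 / 4 * ip 1 v v := by
    refine s6.trans (mul_le_mul_of_nonneg_right (by linarith) hb0.le)
  have s8 : 3 / 4 * ip 1 v v ≤ Q4 v v v v := by linarith
  have s9 := S2_le h1 v
  have s10 : 3 / 4 * S2 2 1 ≤ ip 1 v v := by
    have e1 : S2 2 1 * (3 / 4 * ip 1 v v) ≤ S2 2 1 * Q4 v v v v :=
      mul_le_mul_of_nonneg_left s8 hS.le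
    have e2 : (3 / 4 * S2 2 1) * ip 1 v v ≤ ip 1 v v * ip 1 v v := by
      have : ip 1 v v ^ 2 = ip 1 v v * ip 1 v v := by ring
      linarith
    exact le_of_mul_le_mul_right e2 hb0
  have s11 : S2 2 1 / 2 ≤ Q4 v v v v := by linarith
  have s12 : ip 1 v v ≤ S2 2 1 := by linarith
  obtain ⟨p, hp⟩ := hcap l v hl hll3 hg.2.1 s12 s11
  have e1 := hev p
  have e2 : 0 ≤ m * Q4 u u p p := mul_nonneg hm0.le (Q4_nonneg u p)
  have e3 : 0 ≤ Q4 p p v v := Q4_nonneg p v
  have e4 : 1 / M ≤ be := by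
    have k1 : 1 / M ≤ 1 := by
      rw [div_le_one hM0]
      exact hM
    have k2 : 0 < 1 / M := by positivity
    by_contra hcon
    push Not at hcon
    have k3 : be ^ 2 < (1 / M) ^ 2 := pow_lt_pow_left₀ hcon hbe.le (by norm_num)
    have k4 : (1 / M) ^ 2 ≤ 1 / M := by nlinarith
    linarith
  have e5 : 1 / M * Q4 p p v v ≤ be * Q4 p p v v := mul_le_mul_of_nonneg_right e4 e3
  linarith

/-- the threshold tends to `0` in the plane -/
private theorem twI_tau {c : ℝ} (hc : 0 < c) : ∃ l0 : ℝ, 0 < l0 ∧ ∀ l : ℝ, 0 < l → l < l0 →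
    0 < tau 2 1 1 l ∧ tau 2 1 1 l < c := by
  haveI : Dim 2 := ⟨Or.inl rfl⟩
  have h1 : (0 : ℝ) < 1 := one_pos
  obtain ⟨w, hw, -⟩ := exists_GNo (N := 2) h1 h1
  obtain ⟨p, l0, hl0, hq, -, h⟩ := wide hw.1 hc one_pos
  refine ⟨l0, hl0, fun l hl hll => ⟨?_, ?_⟩⟩
  · have h2 := tau_ge (N := 2) h1 h1 hl
    refine lt_of_lt_of_le ?_ h2
    rw [one_mul, div_one]
    exact lt_min one_pos hl
  · have h2 := h l hl hll
    have h3 := tau_le h1 h1 hl hw p
    have h4 : Q4 w w p p = Q4 p p w w := Q4_swapp _ _ _ _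
    rw [h4] at h3
    exact lt_of_mul_lt_mul_right (lt_of_le_of_lt h3 h2) hq.le

/-- the last part of the proof of `ex_far` -/
private theorem twI_core [Dim N] {c d M l m be : ℝ} (hM0 : 0 < M)
    (hiso : ∀ v : H1 N, RD v → v ≠ 0 →
      (∀ z : H1 N, ip 1 v z = 1 * Q4 v v v z) → ip 1 v v ≤ (1 + d) * S2 N 1 → GNo 1 1 v)
    (hc0 : 0 < c) (hc1 : c ≤ 1) (hcd : c ≤ d) (hl : 0 < l) (hl1 : l ≤ 1)
    (hlc : l < (c / M) ^ 2) (hm1 : 1 / M ≤ m) (hbe : 0 < be)
    (hbt : be < tau N 1 1 l) (hbe2 : be ^ 2 * 2 < m) : HasGS N l 1 m 1 be := by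
  have h1 : (0 : ℝ) < 1 := one_pos
  have hm0 : 0 < m := lt_of_lt_of_le (by positivity) hm1
  have hS : 0 < S2 N 1 := S2_pos h1
  have hSl : 0 < S2 N l := S2_pos hl
  have hb2 : be ^ 2 < m * 1 := by
    have : 0 ≤ be ^ 2 := sq_nonneg _
    linarith
  have hs : S2 N l / m ≤ c * S2 N 1 := by
    have hsq : 0 < Real.sqrt l := Real.sqrt_pos.2 hl
    have hsc : Real.sqrt l < c / M := by
      rw [Real.sqrt_lt' (by positivity)]
      exact hlc
    have hsl1 : Real.sqrt l ≤ 1 := by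
      rw [Real.sqrt_le_left (by norm_num)]
      linarith
    have e1 : S2 N l = Real.sqrt l ^ (4 - N) * S2 N 1 := by
      have e2 := S2_scale (N := N) h1 hsq
      rwa [mul_one, Real.sq_sqrt hl.le] at e2
    have e2 : Real.sqrt l ^ (4 - N) ≤ Real.sqrt l := by
      rcases (Dim.h (N := N)) with h | h
      · rw [h]
        simp only [Nat.reduceSub]
        nlinarith
      · rw [h]
        simp
    have e3 : S2 N l ≤ Real.sqrt l * S2 N 1 := by
      rw [e1]
      exact mul_le_mul_of_nonneg_right e2 hS.le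
    rw [div_le_iff₀ hm0]
    have e4 : 1 ≤ M * m := by
      rw [div_le_iff₀ hM0] at hm1
      linarith
    calc S2 N l ≤ Real.sqrt l * S2 N 1 := e3
      _ ≤ c / M * S2 N 1 := mul_le_mul_of_nonneg_right hsc.le hS.le
      _ = c / M * S2 N 1 * 1 := by ring
      _ ≤ c / M * S2 N 1 * (M * m) := mul_le_mul_of_nonneg_left e4 (by positivity)
      _ = c * S2 N 1 * m := by field_simp
  obtain ⟨U, V, hUr, hVr, hU, hV, hmin⟩ := Php_min (N := N) hl h1 hm0 h1 hbe.le
  have hK := Php_K hl h1 hm0 h1 hbe.le hmin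
  have hK' : Php l 1 m 1 be U V ≤ (1 + c) * S2 N 1 / 4 := by
    have e1 : S2 N l / (4 * m) = S2 N l / m / 4 := by field_simp
    rw [e1] at hK
    linarith
  by_contra hno
  have hnot : ¬ OmPp l 1 m 1 be U V := fun hi =>
    hno (Php_int hl h1 hm0 h1 hbe.le hb2 hU hV hmin hi)
  have hD := Dl_neg hb2 hU hV
  by_cases hax : ip 1 V V * (m * Q4 U U U U) ≤ ip l U U * (be * Q4 U U V V)
  · have e1 := Php_axis_u hl h1 hm0 h1 hbe hb2 hU hV hax
    have e2 : 2 < m * 1 / be ^ 2 := by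
      rw [lt_div_iff₀ (by positivity)]
      linarith
    have e3 : S2 N 1 / (4 * 1) * 2 < S2 N 1 / (4 * 1) * (m * 1 / be ^ 2) :=
      mul_lt_mul_of_pos_left e2 (by positivity)
    have e4 : (1 + c) * S2 N 1 / 4 ≤ S2 N 1 / (4 * 1) * 2 := by
      have : (1 + c) * S2 N 1 ≤ 2 * S2 N 1 :=
        mul_le_mul_of_nonneg_right (by linarith) hS.le
      linarith
    linarith
  · push Not at hax
    have hle : ip l U U * (1 * Q4 V V V V) ≤ ip 1 V V * (be * Q4 U U V V) := by
      by_contra h2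
      push Not at h2
      exact hnot ⟨hD, h2, hax⟩
    obtain ⟨v, hv1, hv2, hv3, hv4, hv5⟩ := Php_axis hl h1 hm0 h1 hbe.le hb2 hU hV hVr hmin hle
    have hg : GNo 1 1 v := by
      refine hiso v hv1 hv2 hv3 ?_
      have e1 : ip 1 v v / 4 ≤ (1 + c) * S2 N 1 / 4 := hv4 ▸ hK'
      have e2 : (1 + c) * S2 N 1 ≤ (1 + d) * S2 N 1 :=
        mul_le_mul_of_nonneg_right (by linarith) hS.le
      linarith
    have e1 := tau_le h1 h1 hl hg U
    have e3 : Q4 v v U U = Q4 U U v v := Q4_swapp _ _ _ _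
    rw [e3] at e1
    have e4 : 0 < Q4 U U v v := by
      have e5 := ip_pos hl hU
      have e6 := Q4_nonneg U v
      rcases e6.lt_or_eq with h | h
      · exact h
      · rw [← h, mul_zero] at hv5
        linarith
    have e5 : tau N 1 1 l * Q4 U U v v ≤ be * Q4 U U v v := e1.trans hv5
    have e6 := le_of_mul_le_mul_right e5 e4
    linarith

/-- module twI. `tau 2 1 1 l → 0` (`wide` for a ground state, `tau_le`), so `be² ≤ m / 2` and the proof of `ex_far` applies. -/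
theorem ex_two {M : ℝ} (hM : 1 ≤ M) :
    ∃ l0 : ℝ, 0 < l0 ∧ l0 ≤ 1 ∧ ∀ l m : ℝ, 0 < l → l < l0 → 1 / M ≤ m → m ≤ M →
      tau 2 1 1 l ^ 2 < m ∧ ∀ be : ℝ, 0 < be → be < tau 2 1 1 l → HasGS 2 l 1 m 1 be := by
  haveI : Dim 2 := ⟨Or.inl rfl⟩
  obtain ⟨d, hd, hiso⟩ := scal_iso (N := 2)
  have hM0 : 0 < M := lt_of_lt_of_le one_pos hM
  obtain ⟨l1, hl1, ht⟩ := twI_tau (c := 1 / (2 * M)) (by positivity)
  obtain ⟨c, hc⟩ : ∃ c, c = min 1 d := ⟨_, rfl⟩
  have hc0 : 0 < c := by rw [hc]; exact lt_min one_pos hd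
  have hc1 : c ≤ 1 := by rw [hc]; exact min_le_left _ _
  have hcd : c ≤ d := by rw [hc]; exact min_le_right _ _
  refine ⟨min 1 (min l1 ((c / M) ^ 2)), lt_min one_pos (lt_min hl1 (by positivity)),
    min_le_left _ _, ?_⟩
  intro l m hl hl0 hm1 hm2
  have hle : l ≤ 1 := hl0.le.trans (min_le_left _ _)
  have hll1 : l < l1 := lt_of_lt_of_le hl0 ((min_le_right _ _).trans (min_le_left _ _))
  have hlc : l < (c / M) ^ 2 := lt_of_lt_of_le hl0 ((min_le_right _ _).trans (min_le_right _ _))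
  obtain ⟨ht0, ht1⟩ := ht l hl hll1
  have hsq : ∀ t : ℝ, 0 < t → t < 1 / (2 * M) → t ^ 2 * 2 < m := by
    intro t h0 h2
    have e1 : t ^ 2 < (1 / (2 * M)) ^ 2 := pow_lt_pow_left₀ h2 h0.le (by norm_num)
    have e2 : (1 / (2 * M)) ^ 2 * 2 ≤ 1 / M := by
      rw [div_pow, one_pow, div_mul_eq_mul_div, one_mul, div_le_div_iff₀ (by positivity) hM0]
      nlinarith
    linarith
  refine ⟨?_, fun be hbe hbt => ?_⟩
  · have e1 := hsq _ ht0 ht1
    have : 0 ≤ tau 2 1 1 l ^ 2 := sq_nonneg _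
    linarith
  · exact twI_core hM0 hiso hc0 hc1 hcd hl hle hlc hm1 hbe hbt (hsq be hbe (hbt.trans ht1))

end Sir
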