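import Pool.Agent.SirF.Gen
import Pool.Agent.SirF.Two

/-!
# Nonexistence between `tau2` and the threshold, general form
-/

namespace Sir

open MeasureTheory Filter Topology

variable {N : ℕ}

/-- for every scalar ground state the quotient `∫|∇p|² / ∫ w²p²` takes values below `t` -/
def HT (N : ℕ) (t : ℝ) : Prop := ∀ w : H1 N, GNo 1 1 w → ∃ p : H1 N, ip 0 p p < t * Q4 p p w w

theorem cap_gen [Dim N] {t : ℝ} (H : HT N t) : ∃ d l0 : ℝ, 0 < d ∧ d ≤ 1 / 2 ∧ 0 < l0 ∧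
    ∀ (l : ℝ) (v : H1 N), 0 < l → l < l0 →
    RD v → ip 1 v v ≤ S2 N 1 → (1 - d) * S2 N 1 ≤ Q4 v v v v →
      ∃ p : H1 N, ip l p p < t * Q4 p p v v := by
  by_contra hcon
  push Not at hcon
  have h1 : (0 : ℝ) < 1 := one_pos
  have hS : 0 < S2 N 1 := S2_pos h1
  have hseq : ∀ n : ℕ, ∃ (l : ℝ) (v : H1 N), 0 < l ∧ l < 1 / ((n : ℝ) + 1) ∧ RD v ∧
      ip 1 v v ≤ S2 N 1 ∧ (1 - 1 / ((n : ℝ) + 2)) * S2 N 1 ≤ Q4 v v v v ∧
      ∀ p : H1 N, t * Q4 p p v v ≤ ip l p p := by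
    intro n
    have e1 : (1 : ℝ) / ((n : ℝ) + 2) ≤ 1 / 2 := by
      rw [div_le_div_iff₀ (by positivity) (by norm_num)]
      have : (0 : ℝ) ≤ n := Nat.cast_nonneg n
      linarith
    obtain ⟨l, v, a1, a2, a3, a4, a5, a6⟩ := hcon (1 / ((n : ℝ) + 2)) (1 / ((n : ℝ) + 1))
      (by positivity) e1 (by positivity)
    exact ⟨l, v, a1, a2, a3, a4, a5, a6⟩
  choose l v k1 k2 k3 k4 k5 k6 using hseq
  have hup : ∀ n, Q4 (v n) (v n) (v n) (v n) ≤ ip 1 (v n) (v n) := by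
    intro n
    have e1 := S2_le h1 (v n)
    have e2 : 0 ≤ ip 1 (v n) (v n) := ip_nonneg h1.le _
    have e3 : ip 1 (v n) (v n) ^ 2 ≤ S2 N 1 * ip 1 (v n) (v n) := by
      rw [sq]
      exact mul_le_mul_of_nonneg_right (k4 n) e2
    exact le_of_mul_le_mul_left (e1.trans e3) hS
  have hlow : Tendsto (fun n : ℕ => (1 - 1 / ((n : ℝ) + 2)) * S2 N 1) atTop (𝓝 (S2 N 1)) := by
    have e1 : Tendsto (fun n : ℕ => (1 : ℝ) / ((n : ℝ) + 2)) atTop (𝓝 0) := by
      have e2 := (tendsto_one_div_add_atTop_nhds_zero_nat (𝕜 := ℝ)).comp (tendsto_add_atTop_nat 1)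
      refine e2.congr fun n => ?_
      simp only [Function.comp_apply, Nat.cast_add, Nat.cast_one]
      ring
    have e3 := (e1.const_sub 1).mul_const (S2 N 1)
    rw [sub_zero, one_mul] at e3
    exact e3
  have hQ : Tendsto (fun n => Q4 (v n) (v n) (v n) (v n)) atTop (𝓝 (S2 N 1)) :=
    tendsto_of_tendsto_of_tendsto_of_le_of_le hlow tendsto_const_nhds k5
      (fun n => (hup n).trans (k4 n))
  have hI : Tendsto (fun n => ip 1 (v n) (v n)) atTop (𝓝 (S2 N 1)) :=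
    tendsto_of_tendsto_of_tendsto_of_le_of_le hlow tendsto_const_nhds
      (fun n => (k5 n).trans (hup n)) k4
  obtain ⟨f, w, hf, hw, -, hconv⟩ := GNo_compact h1 h1 v k3 (by simpa using hI)
    (by simpa using hQ)
  obtain ⟨p, hp⟩ := H w hw
  have h7 := n4_tendsto hconv
  have hc : Tendsto (fun _ : ℕ => n4 (p - p)) atTop (𝓝 0) := by
    rw [sub_self]
    have : n4 (0 : H1 N) = 0 := by
      have := n4_smul (0 : ℝ) (0 : H1 N)
      simpa using this
    rw [this]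
    exact tendsto_const_nhds
  have h8 : Tendsto (fun n => Q4 p p (v (f n)) (v (f n))) atTop (𝓝 (Q4 p p w w)) :=
    Q4_tendsto (fun _ => p) (fun _ => p) _ _ p p w w hc hc h7 h7
  have hl0 : Tendsto l atTop (𝓝 0) :=
    squeeze_zero (fun n => (k1 n).le) (fun n => (k2 n).le) tendsto_one_div_add_atTop_nhds_zero_nat
  have h9 : Tendsto (fun n => ip (l (f n)) p p) atTop (𝓝 (ip 0 p p)) := by
    have e1 := ((hl0.comp hf.tendsto_atTop).mul_const (gY p p)).const_add (gX p p)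
    unfold ip
    exact e1
  have h10 := le_of_tendsto_of_tendsto' (h8.const_mul t) h9 (fun n => k6 (f n) p)
  linarith

private theorem gn_sq {u v : H1 N} {k : ℝ} (hk : 0 ≤ k)
    (h : ∀ᵐ x : E N, fn v x ^ 2 = k * fn u x ^ 2) (l : ℝ) : ip l v v = k * ip l u u := by
  obtain ⟨U, U1, U2, U3⟩ := abs_H' u
  obtain ⟨V, V1, V2, V3⟩ := abs_H' v
  have hV : V = Real.sqrt k • U := by
    refine H1_ext ?_
    filter_upwards [V1, U1, h, fn_smul (Real.sqrt k) U] with x a b c d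
    rw [a, d, b, ← Real.sqrt_sq_eq_abs, ← Real.sqrt_sq_eq_abs, c, Real.sqrt_mul hk]
  have e1 : ip l v v = ip l V V := by unfold ip; rw [V2, V3]
  have e2 : ip l u u = ip l U U := by unfold ip; rw [U2, U3]
  rw [e1, e2, hV, ip_smul_left, ip_smul_right, ← mul_assoc, Real.mul_self_sqrt hk]

/-- a small perturbation in the direction of `w` makes the discriminant nonzero -/
theorem pert_D [Dim N] {l m be : ℝ} (hm : m < be ^ 2) {w p : H1 N} (hw : w ≠ 0)
    (hp : ip l p p < be * Q4 p p w w) :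
    ∃ p' : H1 N, ip l p' p' < be * Q4 p' p' w w ∧ Dl m 1 be p' w ≠ 0 := by
  have hP := Q4_pos hw
  -- the strict inequality is stable
  have hg : ∀ s : ℝ, be * Q4 (p + s • w) (p + s • w) w w - ip l (p + s • w) (p + s • w) =
      (be * Q4 p p w w - ip l p p) + s * (be * (Q4 p w w w + Q4 w p w w) - ip l p w - ip l w p) +
        s ^ 2 * (be * Q4 w w w w - ip l w w) := by
    intro s
    simp only [ip_add_left, ip_add_right, ip_smul_left, ip_smul_right, Q4_add1, Q4_add2,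
      Q4_smul1, Q4_smul2]
    ring
  have hcont : Continuous fun s : ℝ => (be * Q4 p p w w - ip l p p) +
      s * (be * (Q4 p w w w + Q4 w p w w) - ip l p w - ip l w p) +
        s ^ 2 * (be * Q4 w w w w - ip l w w) := by fun_prop
  have hev : ∀ᶠ s in 𝓝 (0 : ℝ), 0 < (be * Q4 p p w w - ip l p p) +
      s * (be * (Q4 p w w w + Q4 w p w w) - ip l p w - ip l w p) +
        s ^ 2 * (be * Q4 w w w w - ip l w w) := by
    refine hcont.continuousAt.eventually (lt_mem_nhds ?_)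
    simp only [zero_mul, add_zero, ne_eq, OfNat.ofNat_ne_zero, not_false_eq_true, zero_pow]
    linarith
  obtain ⟨d, hd, hd2⟩ := Metric.eventually_nhds_iff.1 hev
  have hin : ∀ s : ℝ, 0 ≤ s → s < d →
      ip l (p + s • w) (p + s • w) < be * Q4 (p + s • w) (p + s • w) w w := by
    intro s h0 h1
    have e1 := hd2 (y := s) (by rw [Real.dist_eq, sub_zero, abs_of_nonneg h0]; exact h1)
    rw [← hg s] at e1
    linarith
  by_contra hcon
  push Not at hcon
  have hz : ∀ s : ℝ, 0 ≤ s → s < d → Dl m 1 be (p + s • w) w = 0 := fun s h0 h1 =>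
    hcon _ (hin s h0 h1)
  -- the discriminant is a polynomial of degree four
  obtain ⟨c0, c1, c2, c3, hc⟩ : ∃ c0 c1 c2 c3 : ℝ, ∀ s : ℝ, Dl m 1 be (p + s • w) w =
      c0 + c1 * s + c2 * s ^ 2 + c3 * s ^ 3 + (be ^ 2 - m) * Q4 w w w w ^ 2 * s ^ 4 := by
    refine ⟨(be * Q4 p p w w) ^ 2 - m * Q4 p p p p * Q4 w w w w,
      2 * be ^ 2 * Q4 p p w w * (Q4 p w w w + Q4 w p w w) -
        m * (Q4 w p p p + Q4 p w p p + Q4 p p w p + Q4 p p p w) * Q4 w w w w,
      be ^ 2 * ((Q4 p w w w + Q4 w p w w) ^ 2 + 2 * Q4 p p w w * Q4 w w w w) -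
        m * (Q4 w w p p + Q4 w p w p + Q4 w p p w + Q4 p w w p + Q4 p w p w + Q4 p p w w) *
          Q4 w w w w,
      2 * be ^ 2 * (Q4 p w w w + Q4 w p w w) * Q4 w w w w -
        m * (Q4 p w w w + Q4 w p w w + Q4 w w p w + Q4 w w w p) * Q4 w w w w, fun s => ?_⟩
    unfold Dl
    simp only [Q4_add1, Q4_add2, Q4_add3, Q4_add4, Q4_smul1, Q4_smul2, Q4_smul3, Q4_smul4]
    ring
  have f0 := hz 0 le_rfl hd
  have f1 := hz (d / 8) (by positivity) (by linarith)
  have f2 := hz (2 * (d / 8)) (by positivity) (by linarith)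
  have f3 := hz (3 * (d / 8)) (by positivity) (by linarith)
  have f4 := hz (4 * (d / 8)) (by positivity) (by linarith)
  rw [hc] at f0 f1 f2 f3 f4
  have h5 : 24 * (d / 8) ^ 4 * ((be ^ 2 - m) * Q4 w w w w ^ 2) = 0 := by
    linear_combination f0 - 4 * f1 + 6 * f2 - 4 * f3 + f4
  have h6 : 0 < 24 * (d / 8) ^ 4 * ((be ^ 2 - m) * Q4 w w w w ^ 2) := by
    have : 0 < be ^ 2 - m := by linarith
    positivity
  linarith

theorem K2_gen [Dim N] {l m be : ℝ} (hl : 0 < l) (hm : 0 < m) (hb : 0 < be) (hb2 : m ≤ be ^ 2)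
    {w p : H1 N} (hw : GNo 1 1 w) (hp : ip l p p < be * Q4 p p w w) {u v : H1 N}
    (h : IsMin l 1 m 1 be u v) : En l 1 m 1 be u v ≤ S2 N 1 / (4 * 1) := by
  have h1 : (0 : ℝ) < 1 := one_pos
  have key : ∀ p' : H1 N, ip l p' p' < be * Q4 p' p' w w → Dl m 1 be p' w ≠ 0 →
      En l 1 m 1 be u v ≤ S2 N 1 / (4 * 1) := by
    intro p' k1 k2
    rw [← level_IsMin hl h1 h]
    exact level_K2 hl h1 hm h1 hw k1 k2
  by_cases hD : Dl m 1 be p w = 0
  · rcases hb2.lt_or_eq with h2 | h2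
    · obtain ⟨p', k1, k2⟩ := pert_D (l := l) h2 hw.1 hp
      exact key p' k1 k2
    · have hR := Q4_pos hw.1
      have hcs : Q4 w w p p ^ 2 = Q4 w w w w * Q4 p p p p := by
        have h3 : be ^ 2 * (Q4 p p w w ^ 2 - Q4 p p p p * Q4 w w w w) = 0 := by
          unfold Dl at hD
          rw [← hD, ← h2]
          ring_nf
          rw [show be ^ 2 = m from h2.symm]
          ring
        have h4 := (mul_eq_zero.1 h3).resolve_left (by positivity)
        rw [Q4_swapp w w p p]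
        linarith
      have hsq := Q4_cs_eq hw.1 hcs
      have hk : 0 ≤ Q4 w w p p / Q4 w w w w := div_nonneg (Q4_nonneg _ _) hR.le
      have h5 := gn_sq hk hsq l
      have h6 : be * Q4 p p w w = (Q4 w w p p / Q4 w w w w) * (be * Q4 w w w w) := by
        rw [Q4_swapp p p w w]
        field_simp
      rw [h5, h6] at hp
      have h7 : ip l w w < be * Q4 w w w w := by
        by_contra hcon
        push Not at hcon
        have := mul_le_mul_of_nonneg_left hcon hk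
        linarith
      exact level_large hl h1 hm h1 hb hw h7 (by rw [mul_one]; exact h2.le) h
  · exact key p hp hD

/-- below `l0` the test function beats `t`, and `tau < t` -/
theorem gen_l0 [Dim N] {t : ℝ} (ht : 0 < t) (H : HT N t) : ∃ (w p : H1 N) (l0 : ℝ), 0 < l0 ∧
    l0 ≤ 1 ∧ GNo 1 1 w ∧ ∀ l : ℝ, 0 < l → l < l0 →
      ip l p p < t * Q4 p p w w ∧ tau N 1 1 l < t := by
  obtain ⟨w, hw, -⟩ := exists_GNo (N := N) one_pos one_pos
  obtain ⟨p, hp⟩ := H w hw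
  have hY := gY_nonneg p
  have e0 : ip 0 p p = gX p p := by
    unfold ip
    ring
  rw [e0] at hp
  have hX := gX_nonneg p
  refine ⟨w, p, min 1 ((t * Q4 p p w w - gX p p) / (gY p p + 1)),
    lt_min one_pos (div_pos (by linarith) (by linarith)), min_le_left _ _, hw,
    fun l h1 h2 => ?_⟩
  have h3 := lt_of_lt_of_le h2 (min_le_right _ _)
  rw [lt_div_iff₀ (by linarith)] at h3
  have h4 : ip l p p < t * Q4 p p w w := by
    unfold ip
    nlinarith
  refine ⟨h4, ?_⟩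
  have h5 := tau_le one_pos one_pos h1 hw p
  have h6 : 0 < Q4 p p w w := by
    by_contra hcon
    push Not at hcon
    have : t * Q4 p p w w ≤ 0 := mul_nonpos_of_nonneg_of_nonpos ht.le hcon
    linarith
  rw [Q4_swapp w w p p] at h5
  have h7 : tau N 1 1 l * Q4 p p w w < t * Q4 p p w w := lt_of_le_of_lt h5 h4
  exact lt_of_mul_lt_mul_right h7 h6.le

theorem gen_GdF [Dim N] {t : ℝ} (ht : 0 < t) (H : HT N t) : ∃ l0 : ℝ, 0 < l0 ∧ l0 ≤ 1 ∧
    ∀ l m be : ℝ, 0 < l → l < l0 → 0 < m → t ≤ be → m ≤ be ^ 2 → HasGS N l 1 m 1 be →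
      ∃ u v : H1 N, GdF l m be u v ∧
        ∀ z : H1 N, m * Q4 u u z z + be * Q4 z z v v ≤ ip l z z := by
  obtain ⟨w, p, l0, h0, h01, hw, hl0⟩ := gen_l0 ht H
  refine ⟨l0, h0, h01, fun l m be hl hll hm hbt hb2 hG => ?_⟩
  have h1 : (0 : ℝ) < 1 := one_pos
  have hb : 0 < be := lt_of_lt_of_le ht hbt
  have hp : ip l p p < be * Q4 p p w w :=
    lt_of_lt_of_le (hl0 l hl hll).1 (mul_le_mul_of_nonneg_right hbt (Q4_nonneg _ _))
  have hne : l ≠ 1 := (lt_of_lt_of_le hll h01).ne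
  obtain ⟨u, v, h3, h4⟩ := (HasGS_iff hl h1).1 hG
  have h5 := K2_gen hl hm hb hb2 hw hp h4
  have h6 := (Neh_ge hl h1 hm h1 h4.1).1
  have h8 : 0 < 4 * (1 * Q4 v v v v) := by
    have := Q4_pos h4.1.2.1
    positivity
  have h7 : 0 ≤ Dl m 1 be u v := by
    by_contra hc
    push Not at hc
    have h9 := div_neg_of_neg_of_pos hc h8
    linarith
  have h9 : 0 < Dl m 1 be u v := lt_of_le_of_ne h7 (D_ne hl h1 hne hm h1 hb h3 h4 h5).symm
  obtain ⟨U, V, k1, k2, k3, k4, k5⟩ := radialise hl h1 hm h1 hb h4 h9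
  have k6 := ev_all hl h1 hm h1 hb k4 k5 k1.1
  exact ⟨U, V, ⟨k1, k2, k3, k4, k5, k6 V, K2_gen hl hm hb hb2 hw hp k4⟩, k6⟩

end Sir
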