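import Pool.Agent.SirF.Win
/-!
# Monotonicity and closedness in the window (text MP_2cd2dd_an_far_helper13.md, section 4, mono and closed)
modules: moA, moB, moC, moD, moE, moF
-/

namespace Sir

open MeasureTheory Filter Topology

variable {N : ℕ}

/-- module moA. Real lemma. `a = p + q`, `b = q + r`, `D = q² - p r`: `EEn a b p q r = (a+b)/4` and
`EEn a b p q r - EEn a b p (g q) r = (g-1) [2 a b q (g q² + p r) - (a² r + b² p)(g+1) q²] / (4 D (g² q² - p r))`, which is `≥ (g-1) h (1 - C d) / (2 g)`, while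
`(a+b)/4 ≤ (1 + 2 d) h / 2`. -/
theorem mono_real {ep : ℝ} (hep : 0 < ep) : ∃ d : ℝ, 0 < d ∧ d ≤ 1 / 2 ∧ ∀ h p q r g : ℝ, 0 < h →
    0 < p → p ≤ d * h → 0 < r → r ≤ d * h → (1 - d) * h ≤ q → q ≤ (1 + d) * h → 1 ≤ g → g ≤ 2 →
      OmM (p + q) (q + r) p (g * q) r ∧
        EEn (p + q) (q + r) p (g * q) r ≤ (p + 2 * q + r) / 4 * (1 - (1 - ep) * (g - 1) / g) := by
  obtain ⟨e1, he1, he1', he1''⟩ : ∃ e1 : ℝ, 0 < e1 ∧ e1 ≤ ep ∧ e1 ≤ 1 :=
    ⟨min ep 1, lt_min hep one_pos, min_le_left _ _, min_le_right _ _⟩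
  refine ⟨e1 / 4, by positivity, by linarith, ?_⟩
  intro h p q r g hh hp hpd hr hrd hq1 hq2 hg1 hg2
  have hdh : e1 / 4 * h ≤ h / 4 := by nlinarith
  have hq0 : 3 / 4 * h ≤ q := by nlinarith
  have hqp : 0 < q := by linarith
  have hpq : p < q := by linarith
  have hrq : r < q := by linarith
  have hD : 0 < q ^ 2 - p * r := by nlinarith
  have hgq : q ≤ g * q := by nlinarith
  have hgq2 : q * q ≤ g * q * q := by nlinarith
  have hgg : q ^ 2 ≤ (g * q) ^ 2 := pow_le_pow_left₀ hqp.le hgq 2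
  have hD2 : 0 < (g * q) ^ 2 - p * r := by linarith
  have hrgq : r * q ≤ r * (g * q) := mul_le_mul_of_nonneg_left hgq hr.le
  have hpgq : p * q ≤ p * (g * q) := mul_le_mul_of_nonneg_left hgq hp.le
  refine ⟨⟨hD2, by nlinarith, by nlinarith⟩, ?_⟩
  obtain ⟨k, hk⟩ : ∃ k, k = (g - 1) / g := ⟨_, rfl⟩
  have hg0 : 0 < g := by linarith
  have hkg : k * g = g - 1 := by rw [hk]; field_simp
  have hk0 : 0 ≤ k := by rw [hk]; exact div_nonneg (by linarith) hg0.le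
  have hk' : (1 - ep) * (g - 1) / g = (1 - ep) * k := by rw [hk]; ring
  rw [hk']
  have hmain : EEn (p + q) (q + r) p (g * q) r ≤ (p + 2 * q + r) / 4 * (1 - (1 - e1) * k) := by
    unfold EEn
    rw [div_le_iff₀ (by linarith)]
    have key : 2 * (p + q) * (q + r) ≤ (p + 2 * q + r) * (q * (1 + e1)) := by
      have h1 : p + 2 * q + r ≤ 2 * (q * (1 + e1)) := by
        have h2 : e1 * (3 / 4 * h) ≤ e1 * q := mul_le_mul_of_nonneg_left hq0 he1.le
        nlinarith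
      nlinarith [sq_nonneg (p - r)]
    have key2 : 2 * (p + q) * (q + r) * (g - 1) * q ≤
        (p + 2 * q + r) * ((g - 1) * q ^ 2 * (1 + e1 * g)) := by
      have h3 : q * (1 + e1) ≤ q * (1 + e1 * g) := by
        have : e1 ≤ e1 * g := by nlinarith
        nlinarith
      have h4 : 2 * (p + q) * (q + r) ≤ (p + 2 * q + r) * (q * (1 + e1 * g)) :=
        key.trans (mul_le_mul_of_nonneg_left h3 (by positivity))
      have h5 := mul_le_mul_of_nonneg_right h4 (show (0:ℝ) ≤ (g - 1) * q from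
        mul_nonneg (by linarith) hqp.le)
      nlinarith
    have e2 : (p + 2 * q + r) / 4 * (1 - (1 - e1) * k) * (4 * ((g * q) ^ 2 - p * r)) =
        (p + 2 * q + r) * ((q ^ 2 - p * r) + (g - 1) * q ^ 2 * (1 + e1 * g)) +
          (p + 2 * q + r) * ((1 - e1) * k * (p * r)) := by
      have : k * (g * q) ^ 2 = (g - 1) * g * q ^ 2 := by
        calc k * (g * q) ^ 2 = (k * g) * g * q ^ 2 := by ring
          _ = _ := by rw [hkg]
      calc (p + 2 * q + r) / 4 * (1 - (1 - e1) * k) * (4 * ((g * q) ^ 2 - p * r)) =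
          (p + 2 * q + r) * ((g * q) ^ 2 - p * r - (1 - e1) * (k * (g * q) ^ 2) +
            (1 - e1) * k * (p * r)) := by ring
        _ = _ := by rw [this]; ring
    rw [e2]
    have h6 : 0 ≤ (p + 2 * q + r) * ((1 - e1) * k * (p * r)) := by
      have : 0 ≤ 1 - e1 := by linarith
      positivity
    have e3 : 2 * (p + q) * (q + r) * (g * q) - (p + q) ^ 2 * r - (q + r) ^ 2 * p =
        (p + 2 * q + r) * (q ^ 2 - p * r) + 2 * (p + q) * (q + r) * (g - 1) * q := by ring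
    rw [e3, mul_add]
    linarith
  refine hmain.trans ?_
  apply mul_le_mul_of_nonneg_left _ (by positivity)
  nlinarith

/-- module moB. **The level drops fast** (W1). `GdF` at `be0` (`win_GdF`), `low_sol`, `up_int`: with `h = kap / be0`: `q ≥ (1 - d) h`, `p + 2 q + r = 4 level ≤ 2 (1 + d) h`, so
`q ≤ (1 + d) h`, `p + r ≤ 4 d h`; `mono_real` with `g = be / be0`; the tuple `(a, b, p, g q, r)` is `EEp` of the same pair at `be`: `level_proj`. -/
theorem level_drop [Dim N] {M x0 x1 ep : ℝ} (hM : 1 ≤ M) (h0 : 0 < x0) (h1 : x0 ≤ x1)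
    (hep : 0 < ep) : ∃ l0 : ℝ, 0 < l0 ∧ l0 ≤ 1 ∧ ∀ l m be0 be : ℝ, Wnd N M x0 x1 l0 l m be0 →
      HasGS N l 1 m 1 be0 → be0 ≤ be → be ≤ 2 * be0 →
      level N l 1 m 1 be ≤ level N l 1 m 1 be0 * (1 - (1 - ep) * (be / be0 - 1) / (be / be0)) := by
  obtain ⟨d, hd, hd2, hmr⟩ := mono_real hep
  have hx1 : 0 < x1 := by linarith
  obtain ⟨la, ha0, ha1, hA⟩ := win_GdF (N := N) hM h0 h1
  obtain ⟨lb, hb0, hb1, hB⟩ := low_sol (N := N) (C := 4 * x1) (d := d / 4) hM h0 h1 (by positivity)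
    (by positivity)
  obtain ⟨lc, hc0, hc1, hC⟩ := up_int (N := N) (d := d / 4) hM h0 h1 (by positivity)
  refine ⟨min la (min lb lc), lt_min ha0 (lt_min hb0 hc0), (min_le_left _ _).trans ha1, ?_⟩
  intro l m be0 be hW hGS hbe1 hbe2
  obtain ⟨w1, w2, w3, w4, w5, w6, w7⟩ := hW
  have Wa : Wnd N M x0 x1 la l m be0 := ⟨w1, w2.trans_le (min_le_left _ _), w3, w4, w5, w6, w7⟩
  have Wb : Wnd N M x0 x1 lb l m be0 :=
    ⟨w1, w2.trans_le ((min_le_right _ _).trans (min_le_left _ _)), w3, w4, w5, w6, w7⟩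
  have Wc : Wnd N M x0 x1 lc l m be0 :=
    ⟨w1, w2.trans_le ((min_le_right _ _).trans (min_le_right _ _)), w3, w4, w5, w6, w7⟩
  have hm : 0 < m := lt_of_lt_of_le (by positivity) w3
  obtain ⟨u, v, hG⟩ := hA l m be0 Wa hGS
  obtain ⟨g1, g2, g3, g4, g5, g6, g7, g8, g9, g10, g11, g12, g13⟩ := GdF_facts w1 hm w5 hG
  have hup := hC l m be0 Wc
  have hk := (kap_ge (N := N) w1 one_pos).2
  obtain ⟨h, hh⟩ : ∃ h, h = kap N l 1 / be0 := ⟨_, rfl⟩
  have hh0 : 0 < h := by rw [hh]; positivity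
  have hhs : h ≤ x1 * (S2 N l / m) := by
    rw [hh, div_le_iff₀ w5]
    calc kap N l 1 ≤ x1 * be0 * (S2 N l / m) := w7
      _ = _ := by ring
  rw [← hh] at hup
  have hsum : ip l u u + ip 1 v v ≤ 4 * x1 * (S2 N l / m) := by
    rw [g6]
    have : 4 * level N l 1 m 1 be0 ≤ 2 * (1 + d / 4) * h := by linarith
    nlinarith
  have hlow := hB l m be0 u v Wb hG.1 hG.2.1 g1 g2 hG.2.2.1 hsum
  rw [← hh] at hlow
  obtain ⟨p, hp⟩ : ∃ p, p = m * Q4 u u u u := ⟨_, rfl⟩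
  obtain ⟨q, hq⟩ : ∃ q, q = be0 * Q4 u u v v := ⟨_, rfl⟩
  obtain ⟨r, hr⟩ : ∃ r, r = Q4 v v v v := ⟨_, rfl⟩
  have hp0 : 0 < p := by rw [hp]; exact mul_pos hm (Q4_pos g1)
  have hr0 : 0 < r := by rw [hr]; exact Q4_pos g2
  rw [← hp, ← hq] at g4
  rw [← hq, ← hr] at g5
  rw [← hq] at hlow
  have hlev : p + 2 * q + r = 4 * level N l 1 m 1 be0 := by rw [← g6, g4, g5]; ring
  have hg : 1 ≤ be / be0 := by rw [le_div_iff₀ w5]; linarith
  have hg2 : be / be0 ≤ 2 := by rw [div_le_iff₀ w5]; linarith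
  obtain ⟨k1, k2⟩ := hmr h p q r (be / be0) hh0 hp0 (by nlinarith) hr0 (by nlinarith)
    (by nlinarith) (by nlinarith) hg hg2
  have hgq : be / be0 * q = be * Q4 u u v v := by rw [hq]; field_simp
  have hOm : OmMp l 1 m 1 be u v := by
    unfold OmMp
    rw [← hgq, ← hp, one_mul, ← hr, g4, g5]
    exact k1
  have hE : EEp l 1 m 1 be u v = EEn (p + q) (q + r) p (be / be0 * q) r := by
    unfold EEp
    rw [← hgq, ← hp, one_mul, ← hr, g4, g5]
  have hL := level_proj w1 one_pos hm one_pos (Or.inl hOm)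
  rw [hE] at hL
  refine hL.trans (k2.trans (le_of_eq ?_))
  rw [hlev]; ring

/-- module moC. Real inequalities for the competitor: `zt = 1 + (g-1)/(2(1-d))`, `lam = 2/3 + ep/4`, `ro = (1 + lam (zt² - 1))^(1/4)`, for `1 ≤ g ≤ 1 + y0`:
`1 ≤ ro ≤ zt ≤ 2`, `g ≤ 1 + 2 (zt - 1)(1 - d)`, `ro³ ≥ zt` (i.e. `ro⁴ ≥ zt ro`), `ro⁴ (1 + 15 d (zt - 1)) ≤ 1 + (2/3 + ep)(g - 1)`, and for `tt ≤ (1 + d) cc`, `0 ≤ tt, cc`:
`0 ≤ tt (ro⁴ - zt²) + cc (ro⁴ - ro²)` (`ro⁴ - ro² = ro² lam (zt²-1)/(1 + ro²) ≥ lam (zt²-1)/2`). -/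
theorem comp_real {ep : ℝ} (hep : 0 < ep) (hep1 : ep ≤ 1 / 10) : ∃ d y0 : ℝ, 0 < d ∧ d ≤ 1 / 10 ∧
    0 < y0 ∧ y0 ≤ 1 / 10 ∧ ∀ g : ℝ, 1 ≤ g → g ≤ 1 + y0 → ∃ zt ro : ℝ, 1 ≤ ro ∧ ro ≤ zt ∧ zt ≤ 2 ∧
      g ≤ 1 + 2 * (zt - 1) * (1 - d) ∧ zt ≤ ro ^ 3 ∧
      ro ^ 4 * (1 + 15 * d * (zt - 1)) ≤ 1 + (2 / 3 + ep) * (g - 1) ∧
      ∀ tt cc : ℝ, 0 ≤ tt → 0 ≤ cc → tt ≤ (1 + d) * cc →
        0 ≤ tt * (ro ^ 4 - zt ^ 2) + cc * (ro ^ 4 - ro ^ 2) := by
  refine ⟨ep / 100, ep / 4, by positivity, by linarith, by positivity, by linarith, ?_⟩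
  intro g hg1 hg2
  obtain ⟨d, hd⟩ : ∃ d, d = ep / 100 := ⟨_, rfl⟩
  rw [← hd]
  have hd0 : 0 < d := by rw [hd]; positivity
  have hd1 : d ≤ 1 / 1000 := by rw [hd]; linarith
  obtain ⟨y, hy⟩ : ∃ y, y = (g - 1) / (2 * (1 - d)) := ⟨_, rfl⟩
  have hy0 : 0 ≤ y := by rw [hy]; exact div_nonneg (by linarith) (by linarith)
  have hyg : 2 * y * (1 - d) = g - 1 := by
    have h0 : 1 - d ≠ 0 := by linarith
    rw [hy]; field_simp
  have hy1 : y ≤ ep / 4 := by nlinarith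
  obtain ⟨lam, hlam⟩ : ∃ lam, lam = 2 / 3 + ep / 4 := ⟨_, rfl⟩
  have hl1 : 2 / 3 ≤ lam := by rw [hlam]; linarith
  have hl2 : lam ≤ 7 / 10 := by rw [hlam]; linarith
  obtain ⟨w, hw⟩ : ∃ w, w = 2 * y + y ^ 2 := ⟨_, rfl⟩
  have hw0 : 0 ≤ w := by rw [hw]; positivity
  have hw1 : w ≤ 3 * y := by rw [hw]; nlinarith
  have hz2 : (1 + y) ^ 2 = 1 + w := by rw [hw]; ring
  obtain ⟨R, hR⟩ : ∃ R, R = 1 + lam * w := ⟨_, rfl⟩
  have hR1 : 1 ≤ R := by rw [hR]; nlinarith [mul_nonneg (show 0 ≤ lam by linarith) hw0]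
  obtain ⟨rh, hrh⟩ : ∃ rh, rh = Real.sqrt R := ⟨_, rfl⟩
  have hrh2 : rh ^ 2 = R := by rw [hrh]; exact Real.sq_sqrt (by linarith)
  have hrh1 : 1 ≤ rh := by rw [hrh]; exact Real.one_le_sqrt.2 hR1
  obtain ⟨ro, hro⟩ : ∃ ro, ro = Real.sqrt rh := ⟨_, rfl⟩
  have hro2 : ro ^ 2 = rh := by rw [hro]; exact Real.sq_sqrt (by linarith)
  have hro1 : 1 ≤ ro := by rw [hro]; exact Real.one_le_sqrt.2 hrh1
  have hro4 : ro ^ 4 = R := by rw [← hrh2, ← hro2]; ring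
  refine ⟨1 + y, ro, hro1, ?_, by linarith, by linarith, ?_, ?_, ?_⟩
  · have h1 : ro ^ 4 ≤ (1 + y) ^ 4 := by
      have : (1 + y) ^ 4 = (1 + w) ^ 2 := by rw [← hz2]; ring
      rw [this, hro4, hR]
      nlinarith
    exact (pow_le_pow_iff_left₀ (by linarith) (by linarith) (by norm_num)).1 h1
  · have h1 : (1 + y) ^ 4 ≤ (ro ^ 3) ^ 4 := by
      have e1 : (1 + y) ^ 4 = (1 + w) ^ 2 := by rw [← hz2]; ring
      have e2 : (ro ^ 3) ^ 4 = R ^ 3 := by rw [← hro4]; ring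
      rw [e1, e2, hR]
      have h2 : 0 ≤ lam * w := mul_nonneg (by linarith) hw0
      have h3 : 2 * w ≤ 3 * (lam * w) := by nlinarith
      have h4 : w ^ 2 ≤ 3 * (lam * w) ^ 2 := by
        have h5 : (2 / 3 : ℝ) * w ≤ lam * w := mul_le_mul_of_nonneg_right hl1 hw0
        have h6 : ((2 / 3 : ℝ) * w) ^ 2 ≤ (lam * w) ^ 2 := pow_le_pow_left₀ (by positivity) h5 2
        nlinarith [sq_nonneg w]
      nlinarith [pow_nonneg h2 3]
    exact (pow_le_pow_iff_left₀ (by linarith) (by positivity) (by norm_num)).1 h1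
  · rw [hro4, hR]
    have e1 : g - 1 = 2 * y * (1 - d) := hyg.symm
    rw [e1]
    have h0 : 1 + y - 1 = y := by ring
    rw [h0]
    have h2 : lam * w ≤ 1 / 10 := by nlinarith
    have h3 : (1 + lam * w) * (1 + 15 * d * y) ≤ 1 + lam * w + 15 * d * y * (11 / 10) := by
      nlinarith [mul_nonneg hd0.le hy0]
    refine h3.trans ?_
    have h4 : lam * w = 2 * lam * y + lam * y * y := by rw [hw]; ring
    rw [h4]
    have h5 : lam * y * y ≤ 7 / 10 * (ep / 4) * y := by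
      have : lam * y ≤ 7 / 10 * (ep / 4) := mul_le_mul hl2 hy1 hy0 (by norm_num)
      nlinarith
    have h6 : 2 * lam * y = (4 / 3 + ep / 2) * y := by rw [hlam]; ring
    rw [h6]
    have h7 : 1 + (2 / 3 + ep) * (2 * y * (1 - d)) = 1 + (4 / 3 + 2 * ep) * y -
      (4 / 3 + 2 * ep) * d * y := by ring
    rw [h7]
    have h8 : (4 / 3 + 2 * ep) * d * y ≤ 2 * (ep / 100) * y := by
      rw [hd]
      have : (4 / 3 + 2 * ep) ≤ 2 := by linarith
      have h9 : (4 / 3 + 2 * ep) * (ep / 100) ≤ 2 * (ep / 100) :=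
        mul_le_mul_of_nonneg_right this (by positivity)
      exact mul_le_mul_of_nonneg_right h9 hy0
    have h10 : 15 * d * y * (11 / 10) = 165 / 1000 * ep * y := by rw [hd]; ring
    rw [h10]
    nlinarith [mul_nonneg hep.le hy0]
  · intro tt cc htt hcc htc
    have e1 : ro ^ 4 - (1 + y) ^ 2 = - ((1 - lam) * w) := by rw [hro4, hR, hz2]; ring
    have h2 : lam * w / 2 ≤ ro ^ 4 - ro ^ 2 := by
      have h3 : lam * w = rh ^ 2 - 1 := by rw [hrh2, hR]; ring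
      have h4 : ro ^ 4 = rh ^ 2 := by rw [hrh2, hro4]
      rw [h3, h4, hro2]
      nlinarith [sq_nonneg (rh - 1)]
    rw [e1]
    have h5 : tt * ((1 - lam) * w) ≤ (1 + d) * cc * ((1 - lam) * w) :=
      mul_le_mul_of_nonneg_right htc (mul_nonneg (by linarith) hw0)
    have h6 : cc * (lam * w / 2) ≤ cc * (ro ^ 4 - ro ^ 2) := mul_le_mul_of_nonneg_left h2 hcc
    have h7 : (1 + d) * (1 - lam) ≤ lam / 2 := by
      rw [hlam, hd]
      nlinarith
    have h8 : cc * w * ((1 + d) * (1 - lam)) ≤ cc * w * (lam / 2) :=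
      mul_le_mul_of_nonneg_left h7 (mul_nonneg hcc hw0)
    nlinarith

/-- module moD. **Competitor at the smaller coupling.** `U' = zt • T + ro • (U - T)` with `comp_real`, `g = be / be0`. Pointwise (`T (U-T) ≥ 0`, `|T| ≤ |U|`): `|U'| ≥ |U + (zt-1) T|`,
so `Q4 U' U' V V ≥ Q4 U U V V + 2 (zt-1) Q4 T T V V ≥ g Q4 U U V V`; `|U'| ≥ ro |U|`, so `m P(U') ≥ ro⁴ m P(U) ≥ ro⁴ ip l U U`, and
`ro⁴ ip l U U - ip l U' U' = ip l T T (ro⁴ - zt²) + ip l c c (ro⁴ - ro²) + 2 ip l T c (ro⁴ - zt ro) ≥ 0`; `|U'| ≤ ro (|U| + (zt/ro - 1)|T|)` and `(1 + y t)⁴ ≤ 1 + 15 y t`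
(`0 ≤ y, t ≤ 1`): `P(U') ≤ ro⁴ (P(U) + 15 (zt - 1) n4 U ^3 n4 T)`, `n4 T ≤ d n4 U`. -/
theorem comp_low [Dim N] {ep : ℝ} (hep : 0 < ep) (hep1 : ep ≤ 1 / 10) : ∃ d y0 : ℝ, 0 < d ∧
    0 < y0 ∧ y0 ≤ 1 / 10 ∧ ∀ (l m be0 be k : ℝ) (U V T : H1 N), 0 < l → 0 < m → 0 < be0 → be0 ≤ be →
      be ≤ (1 + y0) * be0 → Deg l 1 m be U V → 0 < k → IsT k U T →
      ip l T T ≤ (1 + d) * ip l (U - T) (U - T) → (1 - d) * Q4 U U V V ≤ Q4 T T V V →
      Q4 T T T T ≤ d ^ 4 * Q4 U U U U →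
      ∃ U' : H1 N, Deg l 1 m be0 U' V ∧
        m * Q4 U' U' U' U' ≤ (1 + (2 / 3 + ep) * (be / be0 - 1)) * (m * Q4 U U U U) := by
  obtain ⟨d, y0, hd0, hd1, hy0, hy1, H⟩ := comp_real hep hep1
  refine ⟨d, y0, hd0, hy0, hy1, ?_⟩
  intro l m be0 be k U V T hl hm hbe0 hbe hbe1 hDeg hk hT hTT hQ hP
  obtain ⟨dU, dV, dp, dq⟩ := hDeg
  have hg1 : 1 ≤ be / be0 := by rw [le_div_iff₀ hbe0]; linarith
  have hg2 : be / be0 ≤ 1 + y0 := by rw [div_le_iff₀ hbe0]; exact hbe1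
  obtain ⟨zt, ro, z1, z2, z3, z4, z5, z6, z7⟩ := H (be / be0) hg1 hg2
  obtain ⟨c, hc⟩ : ∃ c, c = U - T := ⟨_, rfl⟩
  rw [← hc] at hTT
  obtain ⟨U', hU'⟩ : ∃ U', U' = zt • T + ro • c := ⟨_, rfl⟩
  have hfU' : fn U' =ᵐ[volume] fun x => zt * fn T x + ro * fn c x := by
    rw [hU']
    filter_upwards [fn_add (zt • T) (ro • c), fn_smul zt T, fn_smul ro c] with x a1 a2 a3
    rw [a1, a2, a3]
  have hfc : fn c =ᵐ[volume] fun x => fn U x - fn T x := by
    rw [hc]; exact fn_sub U T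
  have hfT : fn T =ᵐ[volume] fun x => sft k (fn U x) := hT
  -- pointwise facts
  have hpt : ∀ᵐ x : E N, 0 ≤ fn T x * fn c x ∧ fn U x = fn T x + fn c x ∧
      fn U' x = zt * fn T x + ro * fn c x := by
    filter_upwards [hfU', hfc, hfT] with x a1 a2 a3
    refine ⟨?_, by rw [a2]; ring, a1⟩
    rw [a2, a3]
    exact (sft_facts hk (fn U x)).2.2.1
  -- mixed term
  have hmix : Q4 U U V V + 2 * (zt - 1) * Q4 T T V V ≤ Q4 U' U' V V := by
    have e : Q4 U U V V + 2 * (zt - 1) * Q4 T T V V =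
        ∫ x, (fn U x * fn U x * fn V x * fn V x +
          2 * (zt - 1) * (fn T x * fn T x * fn V x * fn V x)) := by
      rw [integral_add (Q4_integrable U U V V) ((Q4_integrable T T V V).const_mul _),
        integral_const_mul]
      rfl
    rw [e]
    apply integral_mono_ae ((Q4_integrable U U V V).add ((Q4_integrable T T V V).const_mul _))
      (Q4_integrable U' U' V V)
    filter_upwards [hpt] with x hx
    obtain ⟨b1, b2, b3⟩ := hx
    simp only [Pi.add_apply]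
    rw [b2, b3]
    have h1 : (fn T x + fn c x) * (fn T x + fn c x) + 2 * (zt - 1) * (fn T x * fn T x) ≤
        (zt * fn T x + ro * fn c x) * (zt * fn T x + ro * fn c x) := by
      have h2 : 0 ≤ (ro ^ 2 - 1) * (fn c x) ^ 2 := mul_nonneg (by nlinarith) (sq_nonneg _)
      have h3 : 0 ≤ (zt * ro - 1) * (fn T x * fn c x) := mul_nonneg (by nlinarith) b1
      have h4 : 0 ≤ (zt - 1) ^ 2 * (fn T x) ^ 2 := by positivity
      nlinarith
    have h5 := mul_le_mul_of_nonneg_right h1 (mul_self_nonneg (fn V x))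
    nlinarith
  have hquart : ro ^ 4 * Q4 U U U U ≤ Q4 U' U' U' U' := by
    have e : ro ^ 4 * Q4 U U U U = ∫ x, ro ^ 4 * (fn U x * fn U x * fn U x * fn U x) := by
      rw [integral_const_mul]; rfl
    rw [e]
    apply integral_mono_ae ((Q4_integrable U U U U).const_mul _) (Q4_integrable U' U' U' U')
    filter_upwards [hpt] with x hx
    obtain ⟨b1, b2, b3⟩ := hx
    rw [b2, b3]
    have h1 : (ro * (fn T x + fn c x)) ^ 2 ≤ (zt * fn T x + ro * fn c x) ^ 2 := by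
      have h2 : 0 ≤ (zt ^ 2 - ro ^ 2) * (fn T x) ^ 2 := mul_nonneg (by nlinarith) (sq_nonneg _)
      have h3 : 0 ≤ (zt - ro) * ro * (fn T x * fn c x) :=
        mul_nonneg (mul_nonneg (by linarith) (by linarith)) b1
      nlinarith
    have h5 := pow_le_pow_left₀ (sq_nonneg _) h1 2
    calc ro ^ 4 * ((fn T x + fn c x) * (fn T x + fn c x) * (fn T x + fn c x) * (fn T x + fn c x))
        = ((ro * (fn T x + fn c x)) ^ 2) ^ 2 := by ring
      _ ≤ _ := h5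
      _ = _ := by ring
  obtain ⟨s1, s2, s3, s4, s5, s6⟩ := soft_ip hk hT hl.le
  rw [← hc] at s1 s3 s4
  have hUe : U = T + c := by rw [hc]; abel
  have hipU : ip l U U = ip l T T + ip l c c + 2 * ip l T c := by
    rw [hUe, ip_add_left, ip_add_right, ip_add_right, ip_comm l c T]; ring
  have hipU' : ip l U' U' = zt ^ 2 * ip l T T + ro ^ 2 * ip l c c + 2 * (zt * ro) * ip l T c := by
    rw [hU', ip_add_left, ip_add_right, ip_add_right, ip_smul_left, ip_smul_left,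
      ip_smul_left, ip_smul_left, ip_smul_right, ip_smul_right, ip_smul_right, ip_smul_right,
      ip_comm l c T]
    ring
  have hiple : ip l U' U' ≤ ro ^ 4 * ip l U U := by
    have h1 := z7 (ip l T T) (ip l c c) (ip_nonneg hl.le T) (ip_nonneg hl.le c) hTT
    have h2 : 0 ≤ (ro ^ 4 - zt * ro) * ip l T c := by
      apply mul_nonneg _ s4
      have : zt * ro ≤ ro ^ 3 * ro := mul_le_mul_of_nonneg_right z5 (by linarith)
      nlinarith
    rw [hipU, hipU']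
    nlinarith
  have hbind : ip 1 V V ≤ be0 * Q4 U' U' V V := by
    have h1 : be / be0 * Q4 U U V V ≤ Q4 U' U' V V := by
      have h2 : be / be0 * Q4 U U V V ≤ (1 + 2 * (zt - 1) * (1 - d)) * Q4 U U V V :=
        mul_le_mul_of_nonneg_right z4 (Q4_nonneg U V)
      have h3 : 2 * (zt - 1) * ((1 - d) * Q4 U U V V) ≤ 2 * (zt - 1) * Q4 T T V V :=
        mul_le_mul_of_nonneg_left hQ (by linarith)
      nlinarith
    calc ip 1 V V ≤ be * Q4 U U V V := dq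
      _ = be0 * (be / be0 * Q4 U U V V) := by field_simp
      _ ≤ be0 * Q4 U' U' V V := mul_le_mul_of_nonneg_left h1 hbe0.le
  refine ⟨U', ⟨?_, dV, ?_, hbind⟩, ?_⟩
  · intro h0
    rw [h0, Q4_zero1, mul_zero] at hbind
    exact absurd (ip_pos one_pos dV) (not_lt.2 hbind)
  · calc ip l U' U' ≤ ro ^ 4 * ip l U U := hiple
      _ ≤ ro ^ 4 * (m * Q4 U U U U) := mul_le_mul_of_nonneg_left dp (by positivity)
      _ = m * (ro ^ 4 * Q4 U U U U) := by ring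
      _ ≤ m * Q4 U' U' U' U' := mul_le_mul_of_nonneg_left hquart hm.le
  · have hUr : U' = ro • U + (zt - ro) • T := by
      rw [hU', hc, smul_sub, sub_smul]; abel
    have hnT : n4 T ≤ d * n4 U := by
      have h1 : n4 T ^ 4 ≤ (d * n4 U) ^ 4 := by
        rw [n4_pow, mul_pow, n4_pow]; exact hP
      exact (pow_le_pow_iff_left₀ (n4_nonneg _) (mul_nonneg hd0.le (n4_nonneg _))
        (by norm_num)).1 h1
    have hn : n4 U' ≤ (ro + (zt - ro) * d) * n4 U := by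
      rw [hUr]
      refine (n4_add _ _).trans ?_
      rw [n4_smul, n4_smul, abs_of_nonneg (by linarith), abs_of_nonneg (by linarith)]
      have := mul_le_mul_of_nonneg_left hnT (show 0 ≤ zt - ro by linarith)
      nlinarith
    have hq4 : Q4 U' U' U' U' ≤ (ro + (zt - ro) * d) ^ 4 * Q4 U U U U := by
      rw [← n4_pow, ← n4_pow, ← mul_pow]
      exact pow_le_pow_left₀ (n4_nonneg _) hn 4
    have hcoef : (ro + (zt - ro) * d) ^ 4 ≤ ro ^ 4 * (1 + 15 * d * (zt - 1)) := by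
      have h1 : ro + (zt - ro) * d ≤ ro * (1 + (zt - 1) * d) := by
        nlinarith [mul_nonneg (show 0 ≤ zt * (ro - 1) by nlinarith) hd0.le]
      have h2 : (ro + (zt - ro) * d) ^ 4 ≤ (ro * (1 + (zt - 1) * d)) ^ 4 :=
        pow_le_pow_left₀ (by nlinarith [mul_nonneg (show 0 ≤ zt - ro by linarith) hd0.le]) h1 4
      refine h2.trans ?_
      rw [mul_pow]
      apply mul_le_mul_of_nonneg_left _ (by positivity)
      obtain ⟨t, ht⟩ : ∃ t, t = (zt - 1) * d := ⟨_, rfl⟩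
      have ht0 : 0 ≤ t := by rw [ht]; exact mul_nonneg (by linarith) hd0.le
      have ht1 : t ≤ 1 := by rw [ht]; nlinarith
      have e : 1 + 15 * d * (zt - 1) = 1 + 15 * t := by rw [ht]; ring
      rw [e, ← ht]
      have u2 : t ^ 2 ≤ t := pow_le_of_le_one ht0 ht1 (by norm_num)
      have u3 : t ^ 3 ≤ t := pow_le_of_le_one ht0 ht1 (by norm_num)
      have u4 : t ^ 4 ≤ t := pow_le_of_le_one ht0 ht1 (by norm_num)
      have u5 : (1 + t) ^ 4 = 1 + 4 * t + 6 * t ^ 2 + 4 * t ^ 3 + t ^ 4 := by ring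
      rw [u5]
      linarith
    calc m * Q4 U' U' U' U' ≤ m * ((ro + (zt - ro) * d) ^ 4 * Q4 U U U U) :=
          mul_le_mul_of_nonneg_left hq4 hm.le
      _ = (ro + (zt - ro) * d) ^ 4 * (m * Q4 U U U U) := by ring
      _ ≤ (1 + (2 / 3 + ep) * (be / be0 - 1)) * (m * Q4 U U U U) :=
          mul_le_mul_of_nonneg_right (hcoef.trans z6)
            (mul_nonneg hm.le (Q4_nonneg U U))

private theorem moE_Wnd {M x0 x1 l0 l0' l m be : ℝ} (h : Wnd N M x0 x1 l0 l m be) (hl : l0 ≤ l0') :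
    Wnd N M x0 x1 l0' l m be := by
  obtain ⟨w1, w2, w3, w4, w5, w6, w7⟩ := h
  exact ⟨w1, w2.trans_le hl, w3, w4, w5, w6, w7⟩

private theorem moE_r1 {d1 d2 e : ℝ} (h1 : 0 ≤ d2) (h2 : d2 ≤ 1 / 2) (h3 : 0 ≤ e) (h4 : e ≤ 1 / 2)
    (h5 : d2 ≤ d1 / 32) (h6 : e ≤ d1 / 128) :
    2 * (1 + d2) * (2 * (1 + 2 * e)) - (2 - e - d2) ≤ (1 + d1) * (2 - e - d2) := by
  have a1 : d2 * e ≤ 1 / 2 * e := mul_le_mul_of_nonneg_right h2 h3
  have a2 : 0 ≤ d1 * (1 - e - d2) := mul_nonneg (by linarith) (by linarith)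
  have e1 : 2 * (1 + d2) * (2 * (1 + 2 * e)) - (2 - e - d2) =
    2 + 5 * d2 + 9 * e + 8 * (d2 * e) := by ring
  have e2 : (1 + d1) * (2 - e - d2) = 2 - e - d2 + d1 + d1 * (1 - e - d2) := by ring
  rw [e1, e2]
  linarith

private theorem moE_fin {L0 L g : ℝ} (h0 : 0 < L0) (h1 : 1 < g) (h2 : g ≤ 11 / 10)
    (h3 : L0 ≤ (1 + 7 / 10 * (g - 1)) * L) (h4 : L ≤ L0 * (1 - (1 - 1 / 100) * (g - 1) / g)) :
    False := by
  obtain ⟨z, hz⟩ : ∃ z, z = (g - 1) / g := ⟨_, rfl⟩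
  have hzg : z * g = g - 1 := by rw [hz]; field_simp
  have hz0 : 0 < z := by rw [hz]; exact div_pos (by linarith) (by linarith)
  have e1 : (1 - 1 / 100) * (g - 1) / g = 99 / 100 * z := by rw [hz]; ring
  rw [e1] at h4
  have h5 : g - 1 ≤ 11 / 10 * z := by nlinarith
  have h6 : (1 + 7 / 10 * (g - 1)) * L ≤
      (1 + 7 / 10 * (g - 1)) * (L0 * (1 - 99 / 100 * z)) :=
    mul_le_mul_of_nonneg_left h4 (by linarith)
  have h7 : (1 + 7 / 10 * (g - 1)) * (1 - 99 / 100 * z) < 1 := by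
    nlinarith [mul_pos hz0 (show (0:ℝ) < g - 1 by linarith)]
  have h8 := mul_lt_mul_of_pos_left h7 h0
  nlinarith

private theorem moE_zx {z x e : ℝ} (h1 : z ^ 2 - z = x) (h2 : 1 ≤ z) (he : 0 < e) (he2 : e ≤ 1 / 2)
    (hx : 2 * (1 - e) ≤ x) : 2 - e ≤ z := by
  by_contra hc
  rw [not_le] at hc
  have q1 : z * (z - 1) < (2 - e) * (1 - e) :=
    mul_lt_mul'' hc (by linarith) (by linarith) (by linarith)
  have q3 : e * e ≤ e * (1 / 2) := mul_le_mul_of_nonneg_left he2 he.le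
  nlinarith

private theorem moE_bb {e y0 be be0 : ℝ} (he : 0 < e) (he2 : e ≤ 1 / 2) (hy : e ≤ y0 / 4)
    (h0 : 0 < be0) (h : 2 / (1 + e) * be ≤ 2 / (1 - e) * be0) : be ≤ (1 + y0) * be0 := by
  have h3 : (1 - e) * be ≤ (1 + e) * be0 := by
    rw [div_mul_eq_mul_div, div_mul_eq_mul_div, div_le_div_iff₀ (by linarith) (by linarith)] at h
    linarith
  have h4 : (1 + e) ≤ (1 + y0) * (1 - e) := by nlinarith
  have h5 : (1 + e) * be0 ≤ (1 + y0) * (1 - e) * be0 := mul_le_mul_of_nonneg_right h4 h0.le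
  have h6 : (1 - e) * be ≤ (1 - e) * ((1 + y0) * be0) := by linarith
  exact le_of_mul_le_mul_left h6 (by linarith)

private theorem moE_P {m s PT PU d1 d1' d2 G : ℝ} (hm : 0 < m) (hs : 0 < s) (hd1 : 0 < d1)
    (hd : d1 ≤ d1') (hd2a : d2 ≤ 1 / 2) (hd2b : d2 ≤ d1 ^ 4 / 2) (hG : 1 ≤ G) (hPU : 0 ≤ PU)
    (h1 : m * PT ≤ d2 * s) (h2 : (1 - d2) * G * s ≤ m * PU) : PT ≤ d1' ^ 4 * PU := by
  have a1 : m * PT ≤ d1 ^ 4 / 2 * s := h1.trans (mul_le_mul_of_nonneg_right hd2b hs.le)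
  have a2 : 1 / 2 * s ≤ m * PU := by
    refine le_trans (mul_le_mul_of_nonneg_right ?_ hs.le) h2
    nlinarith
  have a3 : m * PT ≤ d1 ^ 4 * (m * PU) := by
    have := mul_le_mul_of_nonneg_left a2 (show (0:ℝ) ≤ d1 ^ 4 by positivity)
    linarith
  have a4 : d1 ^ 4 ≤ d1' ^ 4 := pow_le_pow_left₀ hd1.le hd 4
  have a5 : d1 ^ 4 * (m * PU) ≤ d1' ^ 4 * (m * PU) :=
    mul_le_mul_of_nonneg_right a4 (mul_nonneg hm.le hPU)
  have a6 : m * PT ≤ m * (d1' ^ 4 * PU) := by linarith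
  exact le_of_mul_le_mul_left a6 hm

private theorem moE_T {TT cc d1 d1' d2 e h s : ℝ} (h1 : 0 ≤ d2) (h2 : d2 ≤ 1 / 2) (h3 : 0 ≤ e)
    (h4 : e ≤ 1 / 2) (h5 : d2 ≤ d1 / 32) (h6 : e ≤ d1 / 128) (hs : 0 < s) (hd1 : 0 < d1)
    (hd : d1 ≤ d1') (hcc0 : 0 ≤ cc) (hhs : h ≤ 2 * (1 + 2 * e) * s) (hcc : (2 - e - d2) * s ≤ cc)
    (hsum : TT + cc ≤ 2 * (1 + d2) * h) : TT ≤ (1 + d1') * cc := by
  have a1 : TT ≤ 2 * (1 + d2) * (2 * (1 + 2 * e) * s) - (2 - e - d2) * s := by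
    have := mul_le_mul_of_nonneg_left hhs (show 0 ≤ 2 * (1 + d2) by linarith)
    linarith
  have a2 : 2 * (1 + d2) * (2 * (1 + 2 * e) * s) - (2 - e - d2) * s ≤
      (1 + d1) * ((2 - e - d2) * s) := by
    have := mul_le_mul_of_nonneg_right (moE_r1 h1 h2 h3 h4 h5 h6) hs.le
    linarith
  have a4 : (1 + d1) * ((2 - e - d2) * s) ≤ (1 + d1) * cc :=
    mul_le_mul_of_nonneg_left hcc (by linarith)
  have a5 : (1 + d1) * cc ≤ (1 + d1') * cc := mul_le_mul_of_nonneg_right (by linarith) hcc0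
  linarith

/-- module moE. **Monotonicity** near the threshold. `Wnd` with `x0 = 2 / (1 + e')`, `x1 = 2 / (1 - e')`, `e'` small. `crit_GS` at `be`: `level < S2 N 1 / 4` (`up_int`, `win_small`). If `(U,V)` is `Deg` at `be`
with `m P(U) / 4 ≤ level be ≤ (1 + d) h / 2`: `deg_str`: `ip l c c ≥ (zx x - d) s ≥ (2 - d') s`, `ip l T T ≤ m P(U) - ip l c c ≤ (2 + d') s`, so `ip l T T ≤ (1 + d'') ip l c c`; `m P(T) ≤ d s` and
`m P(U) ≥ (1 - d) Gx x s ≥ 3 s`; `comp_low`, `deg_level` at `be0`: `level be0 ≤ m P(U') / 4 ≤ level be (1 + (2/3 + ep)(g - 1))`, `g = be / be0`, and `level_drop` (with `ep = 1/100`, `g ≤ 1 + 1/10`) give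
`level be0 ≤ level be0 (1 - 0.99 (g-1)/g)(1 + 0.7 (g-1)) < level be0`. If `be = be0` nothing to prove. -/
theorem mono_win [Dim N] {M : ℝ} (hM : 1 ≤ M) : ∃ e0 : ℝ, 0 < e0 ∧ e0 < 1 ∧ ∀ e : ℝ, 0 < e →
    e ≤ e0 → ∃ l0 : ℝ, 0 < l0 ∧ l0 ≤ 1 ∧ ∀ l m be0 be : ℝ,
      Wnd N M (2 / (1 + e)) (2 / (1 - e)) l0 l m be0 →
      Wnd N M (2 / (1 + e)) (2 / (1 - e)) l0 l m be → be0 ≤ be → HasGS N l 1 m 1 be0 →
      HasGS N l 1 m 1 be := by
  obtain ⟨d1', y0, hd1', hy0, hy1, HL⟩ := comp_low (N := N) (ep := 1 / 30) (by norm_num)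
    (by norm_num)
  obtain ⟨d1, hd1, hd1a, hd1b⟩ : ∃ d1 : ℝ, 0 < d1 ∧ d1 ≤ d1' ∧ d1 ≤ 1 :=
    ⟨min d1' 1, lt_min hd1' one_pos, min_le_left _ _, min_le_right _ _⟩
  -- small constants
  obtain ⟨d2, hd2, hd2a, hd2b, hd2c⟩ : ∃ d2 : ℝ, 0 < d2 ∧ d2 ≤ 1 / 2 ∧ d2 ≤ d1 ^ 4 / 2 ∧
      d2 ≤ d1 / 32 :=
    ⟨min (1 / 2) (min (d1 ^ 4 / 2) (d1 / 32)), lt_min (by norm_num) (lt_min (by positivity)
      (by positivity)), min_le_left _ _, (min_le_right _ _).trans (min_le_left _ _),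
      (min_le_right _ _).trans (min_le_right _ _)⟩
  obtain ⟨e0, he0, he0a, he0b, he0c⟩ : ∃ e0 : ℝ, 0 < e0 ∧ e0 ≤ 1 / 2 ∧ e0 ≤ d1 / 128 ∧
      e0 ≤ y0 / 4 :=
    ⟨min (1 / 2) (min (d1 / 128) (y0 / 4)), lt_min (by norm_num) (lt_min (by positivity)
      (by positivity)), min_le_left _ _, (min_le_right _ _).trans (min_le_left _ _),
      (min_le_right _ _).trans (min_le_right _ _)⟩
  refine ⟨e0, he0, by linarith, ?_⟩
  intro e he hee
  have hea : e ≤ 1 / 2 := hee.trans he0a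
  have hx0 : (0 : ℝ) < 2 / (1 + e) := by positivity
  have hx01 : 2 / (1 + e) ≤ 2 / (1 - e) :=
    div_le_div_of_nonneg_left (by norm_num) (by linarith) (by linarith)
  have hx1u : 2 / (1 - e) ≤ 2 * (1 + 2 * e) := by
    rw [div_le_iff₀ (by linarith)]; nlinarith
  have hx1b : 2 / (1 - e) ≤ 4 := by
    rw [div_le_iff₀ (by linarith)]; nlinarith
  have hx0l : 2 * (1 - e) ≤ 2 / (1 + e) := by
    rw [le_div_iff₀ (by linarith)]; nlinarith
  have hS := S2_pos (N := N) one_pos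
  obtain ⟨la, ha0, ha1, hA⟩ := win_GdF (N := N) hM hx0 hx01
  obtain ⟨lb, hb0, hb1, hB⟩ := level_drop (N := N) (ep := 1 / 100) hM hx0 hx01 (by norm_num)
  obtain ⟨lc, hc0, hc1, hC⟩ := up_int (N := N) (d := d2) hM hx0 hx01 hd2
  obtain ⟨th, ld, hth, hd0', hd1'', hD⟩ := deg_str (N := N) (C := 16) (d := d2) hM hx0 hx01
    (by norm_num) hd2
  obtain ⟨le', he0', he1', hE⟩ := win_small (N := N) (ep := S2 N 1 / 16) hM hx0 hx01
    (by positivity)
  refine ⟨min la (min lb (min lc (min ld le'))), lt_min ha0 (lt_min hb0 (lt_min hc0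
    (lt_min hd0' he0'))), (min_le_left _ _).trans ha1, ?_⟩
  intro l m be0 be hW0 hW hbe hGS
  have ka : min la (min lb (min lc (min ld le'))) ≤ la := min_le_left _ _
  have kb : min la (min lb (min lc (min ld le'))) ≤ lb := (min_le_right _ _).trans (min_le_left _ _)
  have kc : min la (min lb (min lc (min ld le'))) ≤ lc :=
    (min_le_right _ _).trans ((min_le_right _ _).trans (min_le_left _ _))
  have kd : min la (min lb (min lc (min ld le'))) ≤ ld :=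
    (min_le_right _ _).trans ((min_le_right _ _).trans ((min_le_right _ _).trans (min_le_left _ _)))
  have ke : min la (min lb (min lc (min ld le'))) ≤ le' :=
    (min_le_right _ _).trans ((min_le_right _ _).trans ((min_le_right _ _).trans (min_le_right _ _)))
  obtain ⟨w1, w2, w3, w4, w5, w6, w7⟩ := hW0
  have hW0 : Wnd N M (2 / (1 + e)) (2 / (1 - e)) _ l m be0 := ⟨w1, w2, w3, w4, w5, w6, w7⟩
  have hm : 0 < m := lt_of_lt_of_le (by positivity) w3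
  rcases hbe.eq_or_lt with rfl | hlt
  · exact hGS
  have hWc := hW
  obtain ⟨-, -, -, -, v5, v6, v7⟩ := hWc
  obtain ⟨s, hs⟩ : ∃ s, s = S2 N l / m := ⟨_, rfl⟩
  have hs0 : 0 < s := by rw [hs]; exact div_pos (S2_pos w1) hm
  rw [← hs] at w6 w7 v6 v7
  obtain ⟨h, hh⟩ : ∃ h, h = kap N l 1 / be := ⟨_, rfl⟩
  obtain ⟨x, hx⟩ : ∃ x, x = kap N l 1 / (be * s) := ⟨_, rfl⟩
  have hk := (kap_ge (N := N) w1 one_pos).2
  have hh0 : 0 < h := by rw [hh]; positivity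
  have hxh : x * s = h := by rw [hx, hh]; field_simp
  have hxlo : 2 / (1 + e) ≤ x := by
    rw [hx, le_div_iff₀ (by positivity)]; linarith
  have hxup : x ≤ 2 / (1 - e) := by
    rw [hx, div_le_iff₀ (by positivity)]; linarith
  -- be / be0 ≤ 1 + y0
  have hbb : be ≤ (1 + y0) * be0 := by
    have h1 : 2 / (1 + e) * be * s ≤ 2 / (1 - e) * be0 * s := v6.trans w7
    exact moE_bb he hea (hee.trans he0c) w5 (le_of_mul_le_mul_right h1 hs0)
  have hbe2 : be ≤ 2 * be0 :=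
    hbb.trans (mul_le_mul_of_nonneg_right (by linarith) w5.le)
  obtain ⟨u0, v0, hG0⟩ := hA l m be0 (moE_Wnd hW0 ka) hGS
  obtain ⟨g1, g2, g3, g4, g5, g6, g7, g8, g9, g10, g11, g12, g13⟩ := GdF_facts w1 hm w5 hG0
  have hlev0 : 0 < level N l 1 m 1 be0 := by
    have := ip_pos w1 g1
    have := ip_pos one_pos g2
    linarith
  have hdrop := hB l m be0 be (moE_Wnd hW0 kb) hGS hlt.le hbe2
  have hup := hC l m be (moE_Wnd hW kc)
  rw [← hh] at hup
  obtain ⟨sm1, sm2, sm3, sm4⟩ := hE l m be (moE_Wnd hW ke)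
  rw [← hh] at sm2
  have h2h : (1 + d2) * h ≤ 2 * h := mul_le_mul_of_nonneg_right (by linarith) hh0.le
  apply crit_GS w1 one_pos hm one_pos v5
  · linarith
  intro U V hDeg
  by_contra hcon
  rw [not_lt] at hcon
  obtain ⟨dU, dV, dp, dq⟩ := hDeg
  have hDeg : Deg l 1 m be U V := ⟨dU, dV, dp, dq⟩
  have hPU : m * Q4 U U U U ≤ 2 * (1 + d2) * h := by linarith
  have hhs : h ≤ 4 * s := by rw [← hxh]; exact mul_le_mul_of_nonneg_right (hxup.trans hx1b) hs0.le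
  have hPU16 : m * Q4 U U U U ≤ 16 * (S2 N l / m) := by rw [← hs]; linarith
  obtain ⟨k, hk0, hk2⟩ : ∃ k : ℝ, 0 < k ∧ k ^ 2 = th / be :=
    ⟨Real.sqrt (th / be), Real.sqrt_pos.2 (by positivity), Real.sq_sqrt (by positivity)⟩
  obtain ⟨T, hT, -⟩ := soft_H hk0 U
  obtain ⟨r1, r2, r3, r4, r5⟩ := hD l m be k U V T (moE_Wnd hW kd) hDeg hPU16 hk0 hk2 hT
  rw [← hs, ← hx] at r4 r5
  rw [← hs] at r2
  have hip := (soft_ip hk0 hT w1.le).1
  obtain ⟨zf1, zf2, zf3, -, -, -, -⟩ := zx_facts (hx0.le.trans hxlo)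
  have hzx : 2 - e ≤ zx x := moE_zx zf2 zf3 he hea (hx0l.trans hxlo)
  have hGx1 : 1 ≤ Gx x := by rw [← zf1]; exact one_le_pow₀ zf3
  have hcc : (2 - e - d2) * s ≤ ip l (U - T) (U - T) := by
    refine le_trans (mul_le_mul_of_nonneg_right ?_ hs0.le) r4
    linarith
  have hUU : ip l T T + ip l (U - T) (U - T) ≤ 2 * (1 + d2) * h := hip.trans (dp.trans hPU)
  have hhs2 : h ≤ 2 * (1 + 2 * e) * s := by
    rw [← hxh]; exact mul_le_mul_of_nonneg_right (hxup.trans hx1u) hs0.le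
  have hTT : ip l T T ≤ (1 + d1') * ip l (U - T) (U - T) :=
    moE_T hd2.le hd2a he.le hea hd2c (hee.trans he0b) hs0 hd1 hd1a (ip_nonneg w1.le _) hhs2 hcc hUU
  have hQ : (1 - d1') * Q4 U U V V ≤ Q4 T T V V := by
    refine le_trans (mul_le_mul_of_nonneg_right ?_ (Q4_nonneg U V)) r3
    linarith
  have hP4 : Q4 T T T T ≤ d1' ^ 4 * Q4 U U U U :=
    moE_P hm hs0 hd1 hd1a hd2a hd2b hGx1 (Q4_nonneg U U) r2 r5
  obtain ⟨U', hDeg', hPU'⟩ := HL l m be0 be k U V T w1 hm w5 hlt.le hbb hDeg hk0 hT hTT hQ hP4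
  obtain ⟨g, hg⟩ : ∃ g, g = be / be0 := ⟨_, rfl⟩
  rw [← hg] at hPU' hdrop
  have hgg : 1 < g := by rw [hg, lt_div_iff₀ w5]; linarith
  have hgg2 : g ≤ 11 / 10 := by
    rw [hg, div_le_iff₀ w5]
    exact hbb.trans (mul_le_mul_of_nonneg_right (by linarith) w5.le)
  have hPU0 : 0 ≤ m * Q4 U U U U := mul_nonneg hm.le (Q4_nonneg U U)
  have hlev := deg_level (N := N) w1 one_pos hm one_pos hDeg' (by
    have h1 : (1 + (2 / 3 + 1 / 30) * (g - 1)) * (m * Q4 U U U U) ≤ 2 * (m * Q4 U U U U) :=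
      mul_le_mul_of_nonneg_right (by linarith) hPU0
    rw [div_one]
    linarith)
  have hfin : level N l 1 m 1 be0 ≤ (1 + 7 / 10 * (g - 1)) * level N l 1 m 1 be := by
    have h1 : (1 + (2 / 3 + 1 / 30) * (g - 1)) * (m * Q4 U U U U) ≤
        (1 + 7 / 10 * (g - 1)) * (4 * level N l 1 m 1 be) := by
      have e1 : (1 + (2 / 3 + 1 / 30) * (g - 1)) = (1 + 7 / 10 * (g - 1)) := by ring
      rw [e1]
      exact mul_le_mul_of_nonneg_left (by linarith) (by linarith)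
    linarith
  exact moE_fin hlev0 hgg hgg2 hfin hdrop

/-- module moF. **Closedness.** `(u n, v n)` `GdF` at `be n` (`win_GdF`), `q n ≥ (1/2) kap / be n ≥ c > 0` (`low_sol` with `C = 2 (1+1) x1`, `up_int`), energies bounded: a subsequence converges weakly and in `n4`
(`exists_WC`, `RD_comp`) to `(U,V)`; `Sol` passes to the limit (`WC_ip`, `Q4_tendsto`), `be U V`-term `≥ c`, so `U, V ≠ 0`, `Neh_of_Sol`; `Neh_En`: `En` is a quarter of `m P + 2 be Q + R`, so it converges;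
`En (u n) (v n) = level (be n) ≤ level b` (`level_anti`, `b ≤ be n`, `up_int`); `IsMin_of_level`, `HasGS_iff`. -/
theorem closed_win [Dim N] {M x0 x1 : ℝ} (hM : 1 ≤ M) (h0 : 0 < x0) (h1 : x0 ≤ x1) :
    ∃ l0 : ℝ, 0 < l0 ∧ l0 ≤ 1 ∧ ∀ (l m b : ℝ) (be : ℕ → ℝ), Wnd N M x0 x1 l0 l m b →
      (∀ n, Wnd N M x0 x1 l0 l m (be n)) → (∀ n, b ≤ be n) → (∀ n, HasGS N l 1 m 1 (be n)) →
      Tendsto be atTop (𝓝 b) → HasGS N l 1 m 1 b := by
  have hx1 : 0 < x1 := by linarith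
  have hS := S2_pos (N := N) one_pos
  obtain ⟨la, ha0, ha1, hA⟩ := win_GdF (N := N) hM h0 h1
  obtain ⟨lb, hb0, hb1, hB⟩ := low_sol (N := N) (C := 4 * x1) (d := 1 / 2) hM h0 h1 (by positivity)
    (by norm_num)
  obtain ⟨lc, hc0, hc1, hC⟩ := up_int (N := N) (d := 1) hM h0 h1 one_pos
  obtain ⟨le', he0', he1', hE⟩ := win_small (N := N) (ep := S2 N 1 / 16) hM h0 h1
    (by positivity)
  refine ⟨min la (min lb (min lc le')), lt_min ha0 (lt_min hb0 (lt_min hc0 he0')),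
    (min_le_left _ _).trans ha1, ?_⟩
  intro l m b be hWb hW hbe hGS hlim
  have ka : min la (min lb (min lc le')) ≤ la := min_le_left _ _
  have kb : min la (min lb (min lc le')) ≤ lb := (min_le_right _ _).trans (min_le_left _ _)
  have kc : min la (min lb (min lc le')) ≤ lc :=
    (min_le_right _ _).trans ((min_le_right _ _).trans (min_le_left _ _))
  have ke : min la (min lb (min lc le')) ≤ le' :=
    (min_le_right _ _).trans ((min_le_right _ _).trans (min_le_right _ _))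
  obtain ⟨w1, w2, w3, w4, w5, w6, w7⟩ := hWb
  have hWb : Wnd N M x0 x1 (min la (min lb (min lc le'))) l m b := ⟨w1, w2, w3, w4, w5, w6, w7⟩
  have hm : 0 < m := lt_of_lt_of_le (by positivity) w3
  have hk := (kap_ge (N := N) w1 one_pos).2
  have hs0 : 0 < S2 N l / m := div_pos (S2_pos w1) hm
  choose u v hG using fun n => hA l m (be n) (moE_Wnd (hW n) ka) (hGS n)
  have hben : ∀ n, 0 < be n := fun n => w5.trans_le (hbe n)
  have hF := fun n => GdF_facts w1 hm (hben n) (hG n)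
  -- lower bound of q
  have hbeu : ∀ n, be n ≤ kap N l 1 / (x0 * (S2 N l / m)) := by
    intro n
    rw [le_div_iff₀ (by positivity)]
    have := (hW n).2.2.2.2.2.1
    linarith
  obtain ⟨c, hc, hcq⟩ : ∃ c : ℝ, 0 < c ∧ ∀ n, c ≤ be n * Q4 (u n) (u n) (v n) (v n) := by
    refine ⟨1 / 2 * (x0 * (S2 N l / m)), by positivity, ?_⟩
    intro n
    obtain ⟨g1, g2, g3, g4, g5, g6, g7, g8, g9, g10, g11, g12, g13⟩ := hF n
    have hup := hC l m (be n) (moE_Wnd (hW n) kc)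
    have hhs : kap N l 1 / be n ≤ x1 * (S2 N l / m) := by
      rw [div_le_iff₀ (hben n)]
      have := (hW n).2.2.2.2.2.2
      linarith
    have hlow := hB l m (be n) (u n) (v n) (moE_Wnd (hW n) kb) (hG n).1 (hG n).2.1 g1 g2
      (hG n).2.2.1 (by rw [g6]; linarith)
    refine le_trans ?_ hlow
    have : x0 * (S2 N l / m) ≤ kap N l 1 / be n := by
      rw [le_div_iff₀ (hben n)]
      have := (hW n).2.2.2.2.2.1
      linarith
    linarith
  -- bounded norms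
  obtain ⟨C1, hC1, hn1⟩ := norm_le_ip (N := N) w1
  obtain ⟨C2, hC2, hn2⟩ := norm_le_ip (N := N) (l := 1) one_pos
  have bu : ∀ n, ‖u n‖ ≤ Real.sqrt (C1 * S2 N 1) := by
    intro n
    obtain ⟨g1, g2, g3, g4, g5, g6, g7, g8, g9, g10, g11, g12, g13⟩ := hF n
    apply Real.le_sqrt_of_sq_le
    refine (hn1 (u n)).trans (mul_le_mul_of_nonneg_left ?_ hC1.le)
    have := ip_nonneg (l := 1) zero_le_one (v n)
    linarith
  have bv : ∀ n, ‖v n‖ ≤ Real.sqrt (C2 * S2 N 1) := by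
    intro n
    obtain ⟨g1, g2, g3, g4, g5, g6, g7, g8, g9, g10, g11, g12, g13⟩ := hF n
    apply Real.le_sqrt_of_sq_le
    refine (hn2 (v n)).trans (mul_le_mul_of_nonneg_left ?_ hC2.le)
    have := ip_nonneg w1.le (u n)
    linarith
  obtain ⟨f1, U, hf1, hU⟩ := exists_WC u _ bu
  obtain ⟨f2, V, hf2, hV⟩ := exists_WC (fun n => v (f1 n)) _ (fun n => bv (f1 n))
  obtain ⟨f, hf⟩ : ∃ f : ℕ → ℕ, f = fun n => f1 (f2 n) := ⟨_, rfl⟩
  have hfm : StrictMono f := by rw [hf]; exact hf1.comp hf2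
  have hU' : WC (fun n => u (f n)) U := by rw [hf]; exact WC_comp hU hf2
  have hV' : WC (fun n => v (f n)) V := by rw [hf]; exact hV
  have nU := RD_comp hU' (fun n => (hG (f n)).1)
  have nV := RD_comp hV' (fun n => (hG (f n)).2.1)
  have hbf : Tendsto (fun n => be (f n)) atTop (𝓝 b) := hlim.comp hfm.tendsto_atTop
  have cst : ∀ z : H1 N, Tendsto (fun _ : ℕ => n4 (z - z)) atTop (𝓝 0) := by
    intro z
    have : n4 (z - z) = 0 := by
      rw [sub_self]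
      have h1 := n4_smul 0 z
      rw [zero_smul, abs_zero, zero_mul] at h1
      exact h1
    rw [this]; exact tendsto_const_nhds
  have hPu := Q4_tendsto _ _ _ _ _ _ _ _ nU nU nU nU
  have hRv := Q4_tendsto _ _ _ _ _ _ _ _ nV nV nV nV
  have hQuv := Q4_tendsto _ _ _ _ _ _ _ _ nU nU nV nV
  have hSol : Sol l 1 m 1 b U V := by
    constructor
    · intro z
      have t1 := WC_ip hU' l z
      have t2 := Q4_tendsto _ _ _ (fun _ => z) _ _ _ z nU nU nU (cst z)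
      have t3 := Q4_tendsto _ _ _ (fun _ => z) _ _ _ z nV nV nU (cst z)
      have t4 := (t2.const_mul m).add (hbf.mul t3)
      refine tendsto_nhds_unique t1 (t4.congr ?_)
      intro n
      exact ((hG (f n)).2.2.1.1 z).symm
    · intro z
      have t1 := WC_ip hV' 1 z
      have t2 := Q4_tendsto _ _ _ (fun _ => z) _ _ _ z nV nV nV (cst z)
      have t3 := Q4_tendsto _ _ _ (fun _ => z) _ _ _ z nU nU nV (cst z)
      have t4 := (t2.const_mul 1).add (hbf.mul t3)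
      refine tendsto_nhds_unique t1 (t4.congr ?_)
      intro n
      exact ((hG (f n)).2.2.1.2 z).symm
  have hqlim := hbf.mul hQuv
  have hqc : c ≤ b * Q4 U U V V := ge_of_tendsto' hqlim (fun n => hcq (f n))
  have hQne : Q4 U U V V ≠ 0 := by
    intro h
    rw [h, mul_zero] at hqc
    linarith
  have hU0 : U ≠ 0 := by
    rintro rfl
    exact hQne (Q4_zero1 _ _ _)
  have hV0 : V ≠ 0 := by
    rintro rfl
    apply hQne
    rw [Q4_swapp, Q4_zero1]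
  have hNeh := Neh_of_Sol hU0 hV0 hSol
  have hlevb : level N l 1 m 1 b < S2 N 1 / (4 * 1) := by
    have hup := hC l m b (moE_Wnd hWb kc)
    obtain ⟨sm1, sm2, sm3, sm4⟩ := hE l m b (moE_Wnd hWb ke)
    linarith
  have hEn : En l 1 m 1 b U V ≤ level N l 1 m 1 b := by
    rw [Neh_En hNeh]
    have e1 : ip l U U + ip 1 V V = m * Q4 U U U U + 2 * (b * Q4 U U V V) + Q4 V V V V := by
      rw [hNeh.2.2.1, hNeh.2.2.2]; ring
    rw [e1]
    have t := (((hPu.const_mul m).add (hqlim.const_mul 2)).add hRv).div_const 4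
    refine le_of_tendsto' t ?_
    intro n
    obtain ⟨g1, g2, g3, g4, g5, g6, g7, g8, g9, g10, g11, g12, g13⟩ := hF (f n)
    have h3 := level_anti (N := N) w1 one_pos hm one_pos w5 (hbe (f n)) hlevb
    have h4 : m * Q4 (u (f n)) (u (f n)) (u (f n)) (u (f n)) +
        2 * (be (f n) * Q4 (u (f n)) (u (f n)) (v (f n)) (v (f n))) +
        Q4 (v (f n)) (v (f n)) (v (f n)) (v (f n)) = 4 * level N l 1 m 1 (be (f n)) := by
      rw [← g6, g4, g5]; ring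
    linarith
  exact (HasGS_iff w1 one_pos).2 ⟨U, V, hSol, IsMin_of_level w1 one_pos hNeh hEn⟩

end Sir
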