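import Pool.Agent.SirF.Kap
import Pool.Agent.Sir.ND
import Pool.Agent.Sir.Poh
/-!
# `tau N l1 m1 l2` is much larger than the threshold
modules: taA, taB, taC
-/

namespace Sir

open MeasureTheory Filter Topology

variable {N : ℕ}

private theorem taA_two [Dim N] : N = 2 ∨ N = 3 := Dim.h

private theorem taA_nontriv [Dim N] : Nontrivial (E N) := by
  apply Module.nontrivial_of_finrank_pos (R := ℝ)
  rcases taA_two (N := N) with h | h <;> simp [E, h]

private theorem taA_step [Dim N] {u : H1 N} {F : ℝ → ℝ} (hF : IsProf u F) {A : ℝ} (hA : 0 ≤ A)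
    (hA2 : gX u u ≤ cN N * A ^ 2) {r : ℝ} (hr : 0 < r) (hr1 : r ≤ 1) :
    F r ≤ F (2 * r) + A * (Real.sqrt r)⁻¹ := by
  have hc := cN_pos (N := N)
  have h1 := prof_holder hF hr (by linarith : r ≤ 2 * r)
  have h2 : ∫ x in {x : E N | r < ‖x‖ ∧ ‖x‖ < 2 * r}, ‖gr u x‖ ^ 2 ≤ gX u u := by
    have hi : Integrable (fun x => ‖gr u x‖ ^ 2) (volume : Measure (E N)) := by
      have := (gr_memLp u).integrable_norm_pow (by norm_num : (2 : ℕ) ≠ 0)
      simpa using this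
    have e : gX u u = ∫ x, ‖gr u x‖ ^ 2 := by
      unfold gX
      simp only [real_inner_self_eq_norm_sq]
    rw [e]
    exact setIntegral_le_integral hi (Eventually.of_forall fun x => by positivity)
  have h3 : (r ^ (N - 1))⁻¹ * (2 * r - r) ≤ r⁻¹ := by
    rcases taA_two (N := N) with h | h
    · subst h
      norm_num
      rw [show 2 * r - r = r by ring, inv_mul_cancel₀ hr.ne']
      exact (one_le_inv₀ hr).2 hr1
    · subst h
      norm_num
      rw [show 2 * r - r = r by ring]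
      rw [sq, mul_inv, mul_assoc, inv_mul_cancel₀ hr.ne', mul_one]
  have h4 : cN N * (F (2 * r) - F r) ^ 2 ≤ r⁻¹ * (cN N * A ^ 2) := by
    refine h1.trans ?_
    refine mul_le_mul h3 (h2.trans hA2) ?_ (by positivity)
    exact integral_nonneg fun x => by positivity
  have h5 : (F (2 * r) - F r) ^ 2 ≤ (A * (Real.sqrt r)⁻¹) ^ 2 := by
    have h6 : (A * (Real.sqrt r)⁻¹) ^ 2 = r⁻¹ * A ^ 2 := by
      rw [mul_pow, inv_pow, Real.sq_sqrt hr.le]
      ring
    rw [h6]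
    nlinarith
  have h7 := abs_le.1 (abs_le_of_sq_le_sq h5 (by positivity))
  linarith [h7.1]

private theorem taA_sum {F : ℝ → ℝ} {A : ℝ} (hA : 0 ≤ A)
    (h : ∀ r, 0 < r → r ≤ 1 → F r ≤ F (2 * r) + A * (Real.sqrt r)⁻¹) (hanti : AntitoneOn F (Set.Ioi 0)) :
    ∀ n : ℕ, ∀ r : ℝ, 0 < r → 1 ≤ 2 ^ n * r → F r ≤ F 1 + 4 * A * (Real.sqrt r)⁻¹ := by
  intro n
  induction n with
  | zero =>
    intro r hr h1
    rw [pow_zero, one_mul] at h1
    have h2 := hanti (by norm_num : (1 : ℝ) ∈ Set.Ioi 0) (Set.mem_Ioi.2 hr) h1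
    have h3 : 0 ≤ 4 * A * (Real.sqrt r)⁻¹ := by positivity
    linarith
  | succ n ih =>
    intro r hr h1
    rcases le_total 1 r with h2 | h2
    · have h3 := hanti (by norm_num : (1 : ℝ) ∈ Set.Ioi 0) (Set.mem_Ioi.2 hr) h2
      have h4 : 0 ≤ 4 * A * (Real.sqrt r)⁻¹ := by positivity
      linarith
    · have h3 := ih (2 * r) (by linarith) (by rw [pow_succ] at h1; linarith)
      have h4 := h r hr h2
      have hs : 0 < Real.sqrt r := Real.sqrt_pos.2 hr
      have h5 : (Real.sqrt (2 * r))⁻¹ ≤ 3 / 4 * (Real.sqrt r)⁻¹ := by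
        rw [Real.sqrt_mul (by norm_num), mul_inv]
        refine mul_le_mul_of_nonneg_right ?_ (by positivity)
        rw [inv_le_comm₀ (by positivity) (by norm_num)]
        refine Real.le_sqrt_of_sq_le ?_
        norm_num
      have h6 : 4 * A * (Real.sqrt (2 * r))⁻¹ ≤ 4 * A * (3 / 4 * (Real.sqrt r)⁻¹) :=
        mul_le_mul_of_nonneg_left h5 (by positivity)
      linarith

private theorem taA_one [Dim N] {S : ℝ} : ∃ K : ℝ, 0 < K ∧ ∀ (u : H1 N) (F : ℝ → ℝ), RD u → IsProf u F →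
    gY u u ≤ S → F 1 ≤ K := by
  have hnt := taA_nontriv (N := N)
  set v := (volume (Metric.ball (0 : E N) (1 / 2))).toReal with hv
  have hv0 : 0 < v := ENNReal.toReal_pos (Metric.measure_ball_pos _ _ (by norm_num)).ne' measure_ball_lt_top.ne
  refine ⟨Real.sqrt (S / v) + 1, by positivity, fun u F hu hF hS => ?_⟩
  obtain ⟨hanti, hpos⟩ := prof_anti hF hu
  have h1 : ∀ᵐ x : E N, fn u x ^ 2 * (volume (Metric.ball (0 : E N) ‖x‖)).toReal ≤ gY u u ∧ fn u x = F ‖x‖ := by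
    filter_upwards [RD_decay hu, hF.2.1] with x a b
    exact ⟨a, b⟩
  have h2 := Measure.dense_of_ae h1
  have h3 : IsOpen {x : E N | 1 / 2 < ‖x‖ ∧ ‖x‖ < 1} :=
    (isOpen_lt continuous_const continuous_norm).inter (isOpen_lt continuous_norm continuous_const)
  have h4 : {x : E N | 1 / 2 < ‖x‖ ∧ ‖x‖ < 1}.Nonempty := by
    obtain ⟨x, hx⟩ := exists_norm_eq (E N) (by norm_num : (0 : ℝ) ≤ 3 / 4)
    refine ⟨x, ?_, ?_⟩
    · rw [hx]; norm_num
    · rw [hx]; norm_num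
  obtain ⟨x, ⟨hx3, hx4⟩, ⟨hx1, hx2⟩⟩ := h2.exists_mem_open h3 h4
  have h5 : v ≤ (volume (Metric.ball (0 : E N) ‖x‖)).toReal := by
    apply ENNReal.toReal_mono measure_ball_lt_top.ne
    exact measure_mono (Metric.ball_subset_ball hx1.le)
  have h6 : F ‖x‖ ^ 2 * v ≤ S := by
    rw [← hx4]
    exact (mul_le_mul_of_nonneg_left h5 (sq_nonneg _)).trans (hx3.trans hS)
  have h7 : F ‖x‖ ≤ Real.sqrt (S / v) := by
    apply Real.le_sqrt_of_sq_le
    rw [le_div_iff₀ hv0]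
    exact h6
  have hx0 : 0 < ‖x‖ := by linarith
  have h8 := hanti (Set.mem_Ioi.2 hx0) (by norm_num : (1 : ℝ) ∈ Set.Ioi 0) hx2.le
  linarith

private theorem taA_Hk [Dim N] {r ρ : ℝ} (hr : 0 < r) (hr1 : r ≤ 1) (hρ : 0 < ρ) (hρ1 : ρ < 1) :
    0 ≤ Hk N r 1 ρ ∧ ρ ^ (N - 2) * Hk N r 1 ρ ≤ 4 * ρ ^ (-(1 / 4) : ℝ) := by
  unfold Hk
  rw [if_pos hρ1]
  set s := max ρ r with hs
  have hs0 : 0 < s := lt_of_lt_of_le hρ (le_max_left _ _)
  have hs1 : s ≤ 1 := max_le hρ1.le hr1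
  have hcont : ContinuousOn (fun t : ℝ => (t ^ (N - 1))⁻¹) (Set.uIcc s 1) := by
    rw [Set.uIcc_of_le hs1]
    refine (continuous_pow _).continuousOn.inv₀ fun t ht => ?_
    have : 0 < t := lt_of_lt_of_le hs0 ht.1
    positivity
  constructor
  · refine intervalIntegral.integral_nonneg hs1 fun t ht => ?_
    have : 0 < t := lt_of_lt_of_le hs0 ht.1
    positivity
  · rw [← intervalIntegral.integral_const_mul]
    have h1 : ∫ t in s..1, ρ ^ (N - 2) * (t ^ (N - 1))⁻¹ ≤ ∫ t in s..1, t ^ (-(5 / 4) : ℝ) := by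
      refine intervalIntegral.integral_mono_on hs1 ?_ ?_ fun t ht => ?_
      · exact (continuousOn_const.mul hcont).intervalIntegrable
      · apply ContinuousOn.intervalIntegrable
        rw [Set.uIcc_of_le hs1]
        refine ContinuousOn.rpow_const continuousOn_id fun t ht => Or.inl ?_
        exact (lt_of_lt_of_le hs0 ht.1).ne'
      · have ht0 : 0 < t := lt_of_lt_of_le hs0 ht.1
        have ht1 : ρ ≤ t := (le_max_left _ _).trans ht.1
        have h2 : ρ ^ (N - 2) * (t ^ (N - 1))⁻¹ ≤ t⁻¹ := by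
          have e : t ^ (N - 1) = t ^ (N - 2) * t := by
            rw [← pow_succ]
            congr 1
            rcases taA_two (N := N) with h | h <;> omega
          rw [e, mul_inv, ← mul_assoc]
          have h3 : ρ ^ (N - 2) * (t ^ (N - 2))⁻¹ ≤ 1 := by
            rw [← div_eq_mul_inv, div_le_one (by positivity)]
            exact pow_le_pow_left₀ hρ.le ht1 _
          exact mul_le_of_le_one_left (by positivity) h3
        refine h2.trans ?_
        rw [← Real.rpow_neg_one]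
        exact Real.rpow_le_rpow_of_exponent_ge ht0 ht.2 (by norm_num)
    refine h1.trans ?_
    rw [integral_rpow (Or.inr ⟨by norm_num, by
      rw [Set.uIcc_of_le hs1]
      intro h
      linarith [h.1]⟩)]
    have e1 : (-(5 / 4) : ℝ) + 1 = -(1 / 4) := by norm_num
    rw [e1, Real.one_rpow]
    have h2 : s ^ (-(1 / 4) : ℝ) ≤ ρ ^ (-(1 / 4) : ℝ) :=
      Real.rpow_le_rpow_of_nonpos hρ (le_max_left _ _) (by norm_num)
    have h3 : (1 - s ^ (-(1 / 4) : ℝ)) / (-(1 / 4)) = 4 * s ^ (-(1 / 4) : ℝ) - 4 := by ring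
    rw [h3]
    linarith

private noncomputable def taA_g (N : ℕ) (B ρ : ℝ) : ℝ :=
  if ρ < 1 then 4 * B ^ 3 * ρ ^ (-(3 / 4) : ℝ) * (ρ ^ (N - 1))⁻¹ else 0

private theorem taA_g_int [Dim N] (B : ℝ) :
    Integrable (fun x : E N => taA_g N B ‖x‖) (volume : Measure (E N)) := by
  have := taA_nontriv (N := N)
  rw [integrable_fun_norm_addHaar (volume : Measure (E N)) (f := taA_g N B)]
  have hdim : Module.finrank ℝ (E N) = N := by simp [E]
  rw [hdim]
  have h1 : IntegrableOn (fun y : ℝ => 4 * B ^ 3 * y ^ (-(3 / 4) : ℝ)) (Set.Ioo 0 1) := by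
    have h2 : IntervalIntegrable (fun y : ℝ => y ^ (-(3 / 4) : ℝ)) volume 0 1 :=
      intervalIntegral.intervalIntegrable_rpow' (by norm_num)
    rw [intervalIntegrable_iff_integrableOn_Ioo_of_le (by norm_num)] at h2
    exact h2.const_mul _
  have h2 : IntegrableOn (fun y : ℝ => y ^ (N - 1) • taA_g N B y) (Set.Ioo 0 1) := by
    refine h1.congr_fun (fun y hy => ?_) measurableSet_Ioo
    have hy0 : 0 < y := hy.1
    simp only [taA_g, if_pos hy.2, smul_eq_mul]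
    field_simp
  have h3 : IntegrableOn (fun y : ℝ => y ^ (N - 1) • taA_g N B y) (Set.Ici 1) := by
    have h4 : IntegrableOn (fun _ : ℝ => (0 : ℝ)) (Set.Ici 1) := integrableOn_zero
    refine h4.congr_fun (fun y hy => ?_) measurableSet_Ici
    simp only [taA_g, if_neg (not_lt.2 (Set.mem_Ici.1 hy)), smul_zero]
  have h4 : Set.Ioi (0 : ℝ) = Set.Ioo 0 1 ∪ Set.Ici 1 := by
    ext y
    simp only [Set.mem_Ioi, Set.mem_union, Set.mem_Ioo, Set.mem_Ici]
    constructor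
    · intro h
      rcases lt_or_ge y 1 with h1 | h1
      · exact Or.inl ⟨h, h1⟩
      · exact Or.inr h1
    · rintro (h | h)
      · exact h.1
      · linarith
  rw [h4]
  exact h2.union h3

/-- module taA. **Radial scalar ground states are uniformly bounded.** `F` the profile of `w` (`exists_prof`, `RD_Rad`, `prof_anti`). `prof_holder` on `[r, 2r]`: `cN (F r - F (2r))² ≤ r^(2-N) gX w w`, `gX w w ≤ ip 1 w w = S2 N 1`
(`GNo_vals`), sum over `2^j r ≤ 1`: `F r ≤ F 1 + C r^(-1/2)` (`N = 3`), `≤ F 1 + C (1 + log(1/r))` (`N = 2`), in both cases `F r ≤ C r^(-1/2)` for `r ≤ 1` (`F 1` bounded by `RD_decay` or Chebyshev and `gY w w ≤ S2 N 1`). `eq_flux` (`GNo_sol`) and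
`flux` with `r2 = 1`: `cN (F r1 - F 1) = ∫ (w³ - w) Hk N r1 1 ‖x‖ ≤ ∫ w³ Hk N r1 1 ‖x‖`, `Hk N r1 1 ρ ≤ ρ^(-1)` for `ρ < 1` (`N = 2`: `log (1/ρ) ≤ 1/ρ`... any integrable bound), `w³ ≤ C³ ρ^(-3/2)`,
`int_radial`: `∫ ρ^(-3/2) Hk ρ^(N-1) dρ` converges (`N = 3`: `∫ ρ^(-1/2)`; `N = 2`: `∫ ρ^(-1/2) log (1/ρ)`). -/
theorem GNo_bdd [Dim N] : ∃ C : ℝ, 0 < C ∧ ∀ w : H1 N, GNo 1 1 w → RD w →
    ∀ᵐ x : E N, fn w x ≤ C := by
  have hnt := taA_nontriv (N := N)
  have hc := cN_pos (N := N)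
  have hS := S2_pos (N := N) one_pos
  obtain ⟨K, hK, hK1⟩ := taA_one (N := N) (S := S2 N 1)
  set A := Real.sqrt (S2 N 1 / cN N) with hA
  have hA0 : 0 ≤ A := Real.sqrt_nonneg _
  have hA2 : cN N * A ^ 2 = S2 N 1 := by
    rw [hA, Real.sq_sqrt (by positivity)]
    field_simp
  set B := K + 4 * A with hB
  have hB0 : 0 < B := by positivity
  set G := ∫ x : E N, taA_g N B ‖x‖ with hG
  have hG0 : 0 ≤ G := by
    refine integral_nonneg fun x => ?_
    show 0 ≤ taA_g N B ‖x‖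
    unfold taA_g
    split_ifs
    · have : 0 ≤ ‖x‖ := norm_nonneg x
      positivity
    · exact le_rfl
  refine ⟨K + G / cN N, by positivity, fun w hw hRD => ?_⟩
  obtain ⟨F, hF⟩ := exists_prof (RD_Rad hRD)
  obtain ⟨hanti, hpos⟩ := prof_anti hF hRD
  obtain ⟨hv1, hv2⟩ := GNo_vals one_pos one_pos hw
  rw [div_one] at hv2
  have hX : gX w w ≤ cN N * A ^ 2 := by
    rw [hA2, ← hv2]
    exact gX_le_ip zero_le_one w
  have hY : gY w w ≤ S2 N 1 := by
    rw [← hv2]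
    have := gY_le_ip (l := 1) w
    linarith
  have hF1 : F 1 ≤ K := hK1 w F hRD hF hY
  have hF10 : 0 ≤ F 1 := hpos 1 one_pos
  have hbd : ∀ r : ℝ, 0 < r → r ≤ 1 → F r ≤ B * (Real.sqrt r)⁻¹ := by
    intro r hr hr1
    obtain ⟨n, hn⟩ := pow_unbounded_of_one_lt (1 / r) (by norm_num : (1 : ℝ) < 2)
    have h1 := taA_sum hA0 (fun r hr hr1 => taA_step hF hA0 hX hr hr1) hanti n r hr (by
      rw [div_lt_iff₀ hr] at hn
      exact hn.le)
    have h2 : 1 ≤ (Real.sqrt r)⁻¹ := by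
      rw [one_le_inv₀ (Real.sqrt_pos.2 hr)]
      exact Real.sqrt_le_one.2 hr1
    rw [hB, add_mul]
    nlinarith
  -- the flux identity
  have heq : ∀ z : H1 N, ip 1 w z = 1 * Q4 w w w z := fun z => GNo_sol one_pos one_pos hw z
  obtain ⟨hf1, hf2⟩ := eq_flux heq
  have hmain : ∀ r : ℝ, 0 < r → r ≤ 1 → F r ≤ K + G / cN N := by
    intro r hr hr1
    have h1 := flux hF _ hf1 hf2 hr hr1
    have h2 : ∫ x, (1 * fn w x ^ 2 - 1) * fn w x * Hk N r 1 ‖x‖ ≤ G := by
      by_cases hint : Integrable (fun x => (1 * fn w x ^ 2 - 1) * fn w x * Hk N r 1 ‖x‖) (volume : Measure (E N))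
      · rw [hG]
        refine integral_mono_ae hint (taA_g_int B) ?_
        have h0 : ∀ᵐ x : E N, x ≠ 0 := by
          rw [ae_iff]
          simp
        filter_upwards [hF.2.1, h0] with x hx hx0
        have hρ : 0 < ‖x‖ := norm_pos_iff.2 hx0
        rw [hx]
        rcases lt_or_ge ‖x‖ 1 with h3 | h3
        · obtain ⟨h4, h5⟩ := taA_Hk (N := N) hr hr1 hρ h3
          have h6 := hbd ‖x‖ hρ h3.le
          have h7 := hpos ‖x‖ hρ
          simp only [taA_g, if_pos h3]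
          have h8 : (1 * F ‖x‖ ^ 2 - 1) * F ‖x‖ * Hk N r 1 ‖x‖ ≤ F ‖x‖ ^ 3 * Hk N r 1 ‖x‖ := by
            refine mul_le_mul_of_nonneg_right ?_ h4
            nlinarith
          refine h8.trans ?_
          have h9 : F ‖x‖ ^ 3 ≤ B ^ 3 * ‖x‖ ^ (-(3 / 2) : ℝ) := by
            have e : (Real.sqrt ‖x‖)⁻¹ ^ 3 = ‖x‖ ^ (-(3 / 2) : ℝ) := by
              rw [Real.sqrt_eq_rpow, ← Real.rpow_neg hρ.le, ← Real.rpow_natCast, ← Real.rpow_mul hρ.le]
              norm_num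
            rw [← e, ← mul_pow]
            exact pow_le_pow_left₀ h7 h6 3
          have hpw : ‖x‖ ^ (N - 1) = ‖x‖ ^ (N - 2) * ‖x‖ := by
            rw [← pow_succ]
            congr 1
            rcases taA_two (N := N) with h | h <;> omega
          have hp1 : 0 < ‖x‖ ^ (N - 1) := by positivity
          rw [← div_eq_mul_inv, le_div_iff₀ hp1, hpw]
          have e2 : F ‖x‖ ^ 3 * Hk N r 1 ‖x‖ * (‖x‖ ^ (N - 2) * ‖x‖) =
              (F ‖x‖ ^ 3 * ‖x‖) * (‖x‖ ^ (N - 2) * Hk N r 1 ‖x‖) := by ring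
          rw [e2]
          have e3 : 4 * B ^ 3 * ‖x‖ ^ (-(3 / 4) : ℝ) =
              (B ^ 3 * ‖x‖ ^ (-(3 / 2) : ℝ) * ‖x‖) * (4 * ‖x‖ ^ (-(1 / 4) : ℝ)) := by
            have e4 : ‖x‖ ^ (-(3 / 4) : ℝ) = ‖x‖ ^ (-(3 / 2) : ℝ) * ‖x‖ * ‖x‖ ^ (-(1 / 4) : ℝ) := by
              nth_rewrite 3 [← Real.rpow_one ‖x‖]
              rw [← Real.rpow_add hρ, ← Real.rpow_add hρ]
              norm_num
            rw [e4]
            ring
          rw [e3]
          refine mul_le_mul (mul_le_mul_of_nonneg_right h9 hρ.le) h5 (by positivity) (by positivity)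
        · have h4 : Hk N r 1 ‖x‖ = 0 := by
            unfold Hk
            rw [if_neg (not_lt.2 h3)]
          rw [h4, mul_zero]
          simp only [taA_g, if_neg (not_lt.2 h3)]
          exact le_rfl
      · rw [integral_undef hint]
        exact hG0
    have h3 : cN N * (F r - F 1) ≤ G := by linarith
    have h4 : F r - F 1 ≤ G / cN N := by
      rw [le_div_iff₀ hc]
      linarith
    linarith
  have h0 : ∀ᵐ x : E N, x ≠ 0 := by
    rw [ae_iff]
    simp
  filter_upwards [hF.2.1, h0] with x hx hx0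
  have hρ : 0 < ‖x‖ := norm_pos_iff.2 hx0
  rw [hx]
  rcases le_total ‖x‖ 1 with h3 | h3
  · exact hmain _ hρ h3
  · have h4 := hanti (by norm_num : (1 : ℝ) ∈ Set.Ioi 0) (Set.mem_Ioi.2 hρ) h3
    have : 0 ≤ G / cN N := by positivity
    linarith

/-- module taB. For `w` with `GNo 1 1 w` and any `p`: `symm_pair w p` gives `W`, `P` `RD` with `Q4 w w p p ≤ Q4 W W P P`, `Q4 W W W W = Q4 w w w w`, `ip 1 W W ≤ ip 1 w w`, hence `GNo 1 1 W` (`S2_le`), `gY P P = gY p p`; `GNo_bdd`: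
`Q4 W W P P ≤ C² gY P P ≤ C²/L * ip L p p`. Then every element of the set defining `tau N 1 1 L` is `≥ L / C²` (`SGS_iff`; the set is not empty). -/
theorem tau_low [Dim N] : ∃ c : ℝ, 0 < c ∧ ∀ L : ℝ, 1 ≤ L → c * L ≤ tau N 1 1 L := by
  obtain ⟨C, hC, hbd⟩ := GNo_bdd (N := N)
  refine ⟨(C ^ 2)⁻¹, by positivity, fun L hL => ?_⟩
  have hL0 : 0 < L := by linarith
  obtain ⟨w0, hw0, -⟩ := exists_GNo (N := N) one_pos one_pos
  apply le_csInf
  · exact ⟨_, w0, w0, (SGS_iff one_pos one_pos w0).2 hw0, (Q4_pos hw0.1).ne', rfl⟩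
  · rintro t ⟨w, p, hw, hq, rfl⟩
    rw [SGS_iff one_pos one_pos] at hw
    have hq0 : 0 < Q4 w w p p := lt_of_le_of_ne (Q4_nonneg w p) (Ne.symm hq)
    obtain ⟨W, V, hW, hV, h1, h2, h3, h4, h5, h6, h7⟩ := symm_pair w p
    obtain ⟨hw0, hw1, hw2⟩ := hw
    have hip : ip 1 W W ≤ ip 1 w w := by
      unfold ip
      linarith
    have hQ := Q4_pos hw0
    have hW0 : W ≠ 0 := by
      rintro rfl
      rw [Q4_zero1] at h5
      linarith
    have hip2 : ip 1 w w ^ 2 ≤ ip 1 W W ^ 2 := by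
      rw [hw2, ← h5]
      exact S2_le one_pos W
    have hip3 : ip 1 W W = ip 1 w w := by
      refine le_antisymm hip ?_
      exact (sq_le_sq₀ (ip_nonneg zero_le_one w) (ip_nonneg zero_le_one W)).1 hip2
    have hGW : GNo 1 1 W := ⟨hW0, by rw [hip3, h5]; exact hw1, by rw [hip3, h5]; exact hw2⟩
    have hb := hbd W hGW hW
    have h8 : Q4 W W V V ≤ C ^ 2 * gY V V := by
      unfold Q4 gY
      rw [← integral_const_mul]
      refine integral_mono_ae (Q4_integrable W W V V) (((fn_memLp V).integrable_mul (fn_memLp V)).const_mul _) ?_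
      filter_upwards [hb, hW.1] with x hx1 hx2
      have h9 : fn W x * fn W x ≤ C ^ 2 := by nlinarith
      have h10 : 0 ≤ fn V x * fn V x := mul_self_nonneg _
      calc fn W x * fn W x * fn V x * fn V x = (fn W x * fn W x) * (fn V x * fn V x) := by ring
        _ ≤ C ^ 2 * (fn V x * fn V x) := mul_le_mul_of_nonneg_right h9 h10
    have h9 := gY_le_ip (l := L) p
    rw [le_div_iff₀ hq0]
    have h10 : Q4 w w p p ≤ C ^ 2 * gY p p := by
      rw [← h4]
      exact h7.trans h8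
    calc (C ^ 2)⁻¹ * L * Q4 w w p p ≤ (C ^ 2)⁻¹ * L * (C ^ 2 * gY p p) :=
          mul_le_mul_of_nonneg_left h10 (by positivity)
      _ = L * gY p p := by field_simp
      _ ≤ ip L p p := h9

/-- module taC. `tau N l m 1 = m * tau N 1 1 (1/l)` (`tau_scale` with `s = sqrt l`, `tau_amp`) `≥ c m / l`, while `m kap N l 1 / (2 S2 N l) = (m/l) * (kap N l 1 * l / (2 S2 N l))`, and
`(kap l / S2 N l)² = kap² l² / (l^(4-N) S2 N 1 ^2) = kap² l^(N-2) / S2 N 1 ^2 → 0` (`kap_small`; `S2 N l ^ 2 = l^(4-N) S2 N 1 ^2` from `S2_scale`). -/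
theorem thr_small [Dim N] {ep : ℝ} (hep : 0 < ep) : ∃ l0 : ℝ, 0 < l0 ∧ l0 ≤ 1 ∧ ∀ l m : ℝ, 0 < l →
    l < l0 → 0 < m → m * kap N l 1 / (2 * S2 N l) ≤ ep * tau N l m 1 := by
  obtain ⟨c, hc, htau⟩ := tau_low (N := N)
  have hS := S2_pos (N := N) one_pos
  obtain ⟨l0, hl0, hk⟩ := kap_small (N := N) (ep := (2 * ep * c * S2 N 1) ^ 2) (by positivity)
  refine ⟨min l0 1, lt_min hl0 one_pos, min_le_right _ _, fun l m hl hl1 hm => ?_⟩
  have hl2 : l < l0 := lt_of_lt_of_le hl1 (min_le_left _ _)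
  have hl3 : l ≤ 1 := (lt_of_lt_of_le hl1 (min_le_right _ _)).le
  have hSl := S2_pos (N := N) hl
  have hs : 0 < Real.sqrt l := Real.sqrt_pos.2 hl
  have hs2 : Real.sqrt l ^ 2 = l := Real.sq_sqrt hl.le
  -- tau
  have h1 : tau N l m 1 = m * tau N 1 1 (1 / l) := by
    have h2 := tau_amp (N := N) (l := l) (m := 1) (l' := 1) hl one_pos hm
    rw [mul_one] at h2
    rw [h2]
    congr 1
    have h3 := tau_scale (N := N) (l := 1) (m := 1) (l' := 1 / l) one_pos one_pos hs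
    rw [hs2, mul_one, mul_one_div, div_self hl.ne'] at h3
    exact h3
  have h2 : c * (1 / l) ≤ tau N 1 1 (1 / l) := htau _ (by
    rw [le_div_iff₀ hl]
    linarith)
  -- S2
  have h3 : S2 N l ^ 2 = l ^ (4 - N) * S2 N 1 ^ 2 := by
    have h4 := S2_scale (N := N) (l := 1) one_pos hs
    rw [hs2, mul_one] at h4
    rw [h4, mul_pow, ← pow_mul, mul_comm (4 - N) 2, pow_mul, hs2]
  have hkp := (kap_ge (N := N) hl one_pos).2
  have h4 : (kap N l 1 * l) ^ 2 ≤ (2 * ep * c * S2 N l) ^ 2 := by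
    have h5 := (hk l hl hl2).le
    have h6 : l ^ 2 = l ^ (N - 2) * l ^ (4 - N) := by
      rw [← pow_add]
      congr 1
      rcases taA_two (N := N) with h | h <;> omega
    have h7 : (kap N l 1 * l) ^ 2 = (kap N l 1 ^ 2 * l ^ (N - 2)) * l ^ (4 - N) := by
      rw [mul_pow, h6]
      ring
    have h8 : (2 * ep * c * S2 N l) ^ 2 = (2 * ep * c * S2 N 1) ^ 2 * l ^ (4 - N) := by
      rw [mul_pow, h3, mul_pow]
      ring
    rw [h7, h8]
    exact mul_le_mul_of_nonneg_right h5 (by positivity)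
  have h5 : kap N l 1 * l ≤ 2 * ep * c * S2 N l := (sq_le_sq₀ (by positivity) (by positivity)).1 h4
  rw [h1, div_le_iff₀ (by positivity)]
  have h6 : ep * (m * (c * (1 / l))) * (2 * S2 N l) ≤ ep * (m * tau N 1 1 (1 / l)) * (2 * S2 N l) := by
    gcongr
  refine le_trans ?_ h6
  have h7 : ep * (m * (c * (1 / l))) * (2 * S2 N l) = m * ((2 * ep * c * S2 N l) / l) := by
    field_simp
  rw [h7]
  refine mul_le_mul_of_nonneg_left ?_ hm.le
  rw [le_div_iff₀ hl]
  exact h5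

end Sir
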