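import Pool.Agent.SirF.Gen2
import Pool.Agent.SirF.TauL
import Pool.Agent.SirF.Mono

/-!
# The far theorem, general form
-/

namespace Sir

open MeasureTheory Filter Topology

variable {N : ℕ}

private theorem g3_gY (u T : H1 N) :
    gY u u ≤ 2 * (gY T T + gY (u - T) (u - T)) := by
  have h1 := gY_nonneg (T + (-1 : ℝ) • (u - T))
  have h2 : gY u u = gY (T + (u - T)) (T + (u - T)) := by rw [add_sub_cancel]
  rw [gY_add_left, gY_add_right, gY_add_right, gY_smul_left, gY_smul_left, gY_smul_right,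
    gY_smul_right] at h1
  rw [gY_add_left, gY_add_right, gY_add_right] at h2
  have h3 := gY_comm (u - T) T
  linarith

/-- no ground state between `t` and the threshold -/
theorem nonex_gen3 [Dim N] {M t : ℝ} (hM : 1 ≤ M) (ht : 0 < t) (H : HT N t) :
    ∃ x1 l0 : ℝ, 1 ≤ x1 ∧ 0 < l0 ∧ l0 ≤ 1 ∧ ∀ l m be : ℝ, 0 < l → l < l0 → 1 / M ≤ m → m ≤ M →
      t ≤ be → m ≤ be ^ 2 → x1 * be * (S2 N l / m) ≤ kap N l 1 → ¬ HasGS N l 1 m 1 be := by
  have h1 : (0 : ℝ) < 1 := one_pos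
  have hM0 : 0 < M := lt_of_lt_of_le one_pos hM
  have hS : 0 < S2 N 1 := S2_pos h1
  obtain ⟨d0, l3, hd0, hd01, hl3, hcap⟩ := cap_gen H
  obtain ⟨d, hd, hgn⟩ := gn_near (N := N) (ep := d0 / 32) (by positivity)
  obtain ⟨ep, hep⟩ : ∃ ep, ep = min (d0 / 32) (d / 16) := ⟨_, rfl⟩
  have hep0 : 0 < ep := by rw [hep]; exact lt_min (by positivity) (by positivity)
  have hep1 : ep ≤ d0 / 32 := by rw [hep]; exact min_le_left _ _
  have hep2 : ep ≤ d / 16 := by rw [hep]; exact min_le_right _ _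
  obtain ⟨th, x1, hth, hx1, hone⟩ := step_one (N := N) (ep := ep / 4) (by positivity)
  obtain ⟨l1, hl1, hl1', htwo⟩ := step_two (N := N) (M := M) (ep := ep / 4) (th := th)
    (C0 := 36 * M ^ 2 * S2 N 1) hM (by positivity) hth (by positivity)
  obtain ⟨l2, hl2, hl2', hG⟩ := gen_GdF ht H
  refine ⟨x1, min l1 (min l2 l3), hx1, lt_min hl1 (lt_min hl2 hl3),
    (min_le_left _ _).trans hl1', ?_⟩
  intro l m be hl hll hm1 hm2 hbt hb2 hx hgs
  have hll1 : l < l1 := lt_of_lt_of_le hll (min_le_left _ _)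
  have hll2 : l < l2 := lt_of_lt_of_le hll ((min_le_right _ _).trans (min_le_left _ _))
  have hll3 : l < l3 := lt_of_lt_of_le hll ((min_le_right _ _).trans (min_le_right _ _))
  have hle1 : l ≤ 1 := hll1.le.trans hl1'
  have hm0 : 0 < m := lt_of_lt_of_le (by positivity) hm1
  have hbe : 0 < be := lt_of_lt_of_le ht hbt
  obtain ⟨u, v, hg, hev⟩ := hG l m be hl hll2 hm0 hbt hb2 hgs
  obtain ⟨f1, f2, f3, f4, f5, f6, f7, f8, f9, f10, f11, f12, f13⟩ := GdF_facts hl hm0 hbe hg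
  have hSl : 0 < S2 N l / m := div_pos (S2_pos hl) hm0
  have hx' : be * (S2 N l / m) ≤ kap N l 1 := by
    refine le_trans ?_ hx
    rw [mul_assoc]
    exact le_mul_of_one_le_left (by positivity) hx1
  have hup := level_up hM hl hle1 hm1 hm2 hbe hb2 hx' f8
  have hC : be * (ip l u u + ip 1 v v) ≤ 36 * M ^ 2 * S2 N 1 := by
    rw [f6]
    linarith
  have hb0 : 0 < ip 1 v v := ip_pos h1 f2
  obtain ⟨k, hk⟩ : ∃ k, k = Real.sqrt (th * Q4 u u v v / ip 1 v v) := ⟨_, rfl⟩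
  have hk0 : 0 < k := by rw [hk]; exact Real.sqrt_pos.2 (by positivity)
  have hk2 : k ^ 2 = th * Q4 u u v v / ip 1 v v := by rw [hk]; exact Real.sq_sqrt (by positivity)
  obtain ⟨T, hT, -⟩ := soft_H hk0 u
  obtain ⟨g1, g2⟩ := hone l m be k u v T hl hle1 hm0 hbe hg hx hk0 hk2 hT
  have g3 := htwo l m be k u v T hl hll1 hm1 hm2 hbe hg hx' hC hk0 hk2 hT
  have hmin := hg.2.2.2.1
  have hDl := hg.2.2.2.2.1
  have hpoh := poh_GS hl h1 hm0 h1 hmin hDl.ne'
  have ha0 : 0 < ip l u u := ip_pos hl f1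
  have hp0 : 0 < m * Q4 u u u u := mul_pos hm0 (Q4_pos f1)
  have hq0 : 0 < be * Q4 u u v v := mul_pos hbe f3
  have hr0 : 0 < Q4 v v v v := Q4_pos f2
  have hab : 0 < ip l u u + ip 1 v v := by linarith
  have hD : (be * Q4 u u v v) ^ 2 - m * Q4 u u u u * Q4 v v v v ≤
      ep * (be * Q4 u u v v) * (ip l u u + ip 1 v v) := by
    have e1 : 0 < ep * (be * Q4 u u v v) * (ip l u u + ip 1 v v) := by positivity
    have e2 : ep / 4 * (be * Q4 u u v v) * (ip l u u + ip 1 v v) =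
        ep * (be * Q4 u u v v) * (ip l u u + ip 1 v v) / 4 := by ring
    linarith
  have hYu : l * gY u u ≤ ep * (ip l u u + ip 1 v v) := by
    have e1 := mul_le_mul_of_nonneg_left (g3_gY u T) hl.le
    have e2 := gY_le_ip (l := l) (u - T)
    linarith
  have hYv : gY v v ≤ ip 1 v v := by
    have e1 := gY_le_ip (l := 1) v
    linarith
  have hpoh' : l * gY u u + gY v v = (4 - (N : ℝ)) / 4 * (ip l u u + ip 1 v v) := by
    rw [one_mul] at hpoh
    exact hpoh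
  have hnn : (N : ℝ) = 2 ∨ (N : ℝ) = 3 := by
    rcases (Dim.h (N := N)) with h | h
    · left
      rw [h]
      norm_num
    · right
      rw [h]
      norm_num
  obtain ⟨s1, s2⟩ := step_real (nn := (N : ℝ)) hnn hp0 hq0 hr0 f4 f5 f7 hep0 (by linarith) hD
    f9 hYu hpoh' hYv
  have s3 : ip 1 v v ^ 2 ≤ (1 + d) * (S2 N 1 * Q4 v v v v) := by
    refine s1.trans (mul_le_mul_of_nonneg_right (by linarith) (by positivity))
  have s4 := hgn v s3
  have s6 := s2 (d0 / 32) (by positivity) s4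
  have s7 : ip l u u ≤ d0 / 2 * ip 1 v v := by
    refine s6.trans (mul_le_mul_of_nonneg_right (by linarith) hb0.le)
  have s8 : (1 - d0 / 2) * ip 1 v v ≤ Q4 v v v v := by linarith
  have s9 := S2_le h1 v
  have s10 : (1 - d0 / 2) * S2 N 1 ≤ ip 1 v v := by
    have e1 : S2 N 1 * ((1 - d0 / 2) * ip 1 v v) ≤ S2 N 1 * Q4 v v v v :=
      mul_le_mul_of_nonneg_left s8 hS.le
    have e2 : ((1 - d0 / 2) * S2 N 1) * ip 1 v v ≤ ip 1 v v * ip 1 v v := by
      have : ip 1 v v ^ 2 = ip 1 v v * ip 1 v v := by ring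
      linarith
    exact le_of_mul_le_mul_right e2 hb0
  have s11 : (1 - d0) * S2 N 1 ≤ Q4 v v v v := by
    have e1 : (1 - d0 / 2) * ((1 - d0 / 2) * S2 N 1) ≤ (1 - d0 / 2) * ip 1 v v :=
      mul_le_mul_of_nonneg_left s10 (by linarith)
    have e2 : (1 - d0) * S2 N 1 ≤ (1 - d0 / 2) * ((1 - d0 / 2) * S2 N 1) := by
      have : (1 - d0 / 2) * ((1 - d0 / 2) * S2 N 1) = (1 - d0) * S2 N 1 + d0 ^ 2 / 4 * S2 N 1 := by
        ring
      rw [this]
      have : 0 < d0 ^ 2 / 4 * S2 N 1 := by positivity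
      linarith
    linarith
  have s12 : ip 1 v v ≤ S2 N 1 := by linarith
  obtain ⟨p, hp⟩ := hcap l v hl hll3 hg.2.1 s12 s11
  have e1 := hev p
  have e2 : 0 ≤ m * Q4 u u p p := mul_nonneg hm0.le (Q4_nonneg u p)
  have e3 : 0 ≤ Q4 p p v v := Q4_nonneg p v
  have e5 : t * Q4 p p v v ≤ be * Q4 p p v v := mul_le_mul_of_nonneg_right hbt e3
  linarith

end Sir
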