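import Pool.Agent.SirF.Gen3
/-!
# The far theorem, general form: assembly
-/

namespace Sir

open MeasureTheory Filter Topology

variable {N : ℕ}

theorem far_abs3 [Dim N] {M e t : ℝ} (hM : 1 ≤ M) (he : 0 < e) (he1 : e < 1) (ht : 0 < t)
    (H : HT N t) : ∃ l0 : ℝ, 0 < l0 ∧ l0 ≤ 1 ∧ ∀ l m : ℝ, 0 < l → l < l0 → 1 / M ≤ m → m ≤ M →
      ∃ bs : ℝ, (1 - e) * (m * kap N l 1 / (2 * S2 N l)) ≤ bs ∧
        bs ≤ (1 + e) * (m * kap N l 1 / (2 * S2 N l)) ∧
        ∀ be : ℝ, (be ≤ 0 ∨ be ^ 2 ≤ (1 - e) * m ∨ t ≤ be) →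
          (HasGS N l 1 m 1 be ↔ (0 ≤ be ∧ be < tau N 1 1 l) ∨ bs ≤ be) := by
  have hM0 : 0 < M := lt_of_lt_of_le one_pos hM
  obtain ⟨e0, he0, he01, hmono⟩ := mono_win (N := N) hM
  obtain ⟨e', he'⟩ : ∃ e', e' = min e e0 / 2 := ⟨_, rfl⟩
  have he'0 : 0 < e' := by rw [he']; exact half_pos (lt_min he he0)
  have he'e : e' ≤ e := by
    rw [he']
    have := min_le_left e e0
    linarith
  have he'e0 : e' ≤ e0 := by
    rw [he']
    have := min_le_right e e0
    linarith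
  have he'1 : e' < 1 := lt_of_le_of_lt he'e he1
  have h1e : 0 < 1 - e' := by linarith
  have h2e : 0 < 1 + e' := by linarith
  obtain ⟨x1, la, hx1, hla, hla1, Hnf⟩ := nonex_gen3 (N := N) hM ht H
  obtain ⟨w0, p0, lt, hlt, -, -, Htl⟩ := gen_l0 (N := N) ht H
  obtain ⟨lb, hlb, hlb1, Hnw⟩ := none_win (N := N) (x1 := max x1 (2 / (1 - e'))) hM he'0 he'1
    (le_max_right _ _)
  obtain ⟨lc, hlc, hlc1, Hsw⟩ := some_win (N := N) (x0 := 1 / 4) hM he'0 (by norm_num) (by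
    rw [div_le_div_iff₀ (by norm_num) h2e]
    linarith)
  obtain ⟨ld, hld, hld1, Hsl⟩ := some_large (N := N) hM
  obtain ⟨lx, hlx, hlx1, Hex⟩ := ex_gen2 (N := N) hM he he1
  obtain ⟨lf, hlf, hlf1, Hmw⟩ := hmono e' he'0 he'e0
  obtain ⟨lg, hlg, hlg1, Hcw⟩ := closed_win (N := N) (x0 := 2 / (1 + e')) (x1 := 2 / (1 - e')) hM
    (by positivity) (by
      rw [div_le_div_iff₀ h2e h1e]
      linarith)
  refine ⟨min la (min lb (min lc (min ld (min lx (min lf (min lg lt)))))), ?_,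
    (min_le_left _ _).trans hla1, ?_⟩
  · exact lt_min hla (lt_min hlb (lt_min hlc (lt_min hld (lt_min hlx (lt_min hlf
      (lt_min hlg hlt))))))
  intro l m hl hl0 hm1 hm2
  obtain ⟨ka, hl0⟩ := lt_min_iff.1 hl0
  obtain ⟨kb, hl0⟩ := lt_min_iff.1 hl0
  obtain ⟨kc, hl0⟩ := lt_min_iff.1 hl0
  obtain ⟨kd, hl0⟩ := lt_min_iff.1 hl0
  obtain ⟨kx, hl0⟩ := lt_min_iff.1 hl0
  obtain ⟨kf, hl0⟩ := lt_min_iff.1 hl0
  obtain ⟨kg, kt0⟩ := lt_min_iff.1 hl0
  have h1 : (0 : ℝ) < 1 := one_pos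
  have hm0 : 0 < m := lt_of_lt_of_le (by positivity) hm1
  have hS : 0 < S2 N l := S2_pos hl
  have hs : 0 < S2 N l / m := div_pos hS hm0
  have hk : 0 < kap N l 1 := (kap_ge hl h1).2
  obtain ⟨B, hB⟩ : ∃ B, B = m * kap N l 1 / (2 * S2 N l) := ⟨_, rfl⟩
  have hB0 : 0 < B := by rw [hB]; positivity
  have hBs : B * (S2 N l / m) = kap N l 1 / 2 := by
    rw [hB]
    field_simp
  rw [← hB]
  -- the windows
  have win : ∀ be L : ℝ, (1 - e') * B ≤ be → be ≤ (1 + e') * B → l < L →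
      Wnd N M (2 / (1 + e')) (2 / (1 - e')) L l m be := by
    intro be L k1 k2 k3
    have k4 : 0 < be := lt_of_lt_of_le (mul_pos h1e hB0) k1
    refine ⟨hl, k3, hm1, hm2, k4, ?_, ?_⟩
    · have k5 : be * (S2 N l / m) ≤ (1 + e') * B * (S2 N l / m) :=
        mul_le_mul_of_nonneg_right k2 hs.le
      have k6 : (1 + e') * B * (S2 N l / m) = (1 + e') * (kap N l 1 / 2) := by
        rw [mul_assoc, hBs]
      have k7 : 2 / (1 + e') * be * (S2 N l / m) = 2 / (1 + e') * (be * (S2 N l / m)) := by ring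
      rw [k7]
      calc 2 / (1 + e') * (be * (S2 N l / m)) ≤ 2 / (1 + e') * ((1 + e') * (kap N l 1 / 2)) :=
            mul_le_mul_of_nonneg_left (k6 ▸ k5) (by positivity)
        _ = kap N l 1 := by field_simp
    · have k5 : (1 - e') * B * (S2 N l / m) ≤ be * (S2 N l / m) :=
        mul_le_mul_of_nonneg_right k1 hs.le
      have k6 : (1 - e') * B * (S2 N l / m) = (1 - e') * (kap N l 1 / 2) := by
        rw [mul_assoc, hBs]
      have k7 : 2 / (1 - e') * be * (S2 N l / m) = 2 / (1 - e') * (be * (S2 N l / m)) := by ring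
      rw [k7]
      calc kap N l 1 = 2 / (1 - e') * ((1 - e') * (kap N l 1 / 2)) := by field_simp
        _ ≤ 2 / (1 - e') * (be * (S2 N l / m)) :=
            mul_le_mul_of_nonneg_left (k6 ▸ k5) (by positivity)
  -- existence above the window
  have above : ∀ be : ℝ, (1 + e') * B ≤ be → HasGS N l 1 m 1 be := by
    intro be k1
    have k2 : 0 < be := lt_of_lt_of_le (mul_pos h2e hB0) k1
    by_cases k3 : 4 * kap N l 1 ≤ be * (S2 N l / m)
    · exact Hsl l m be hl kd hm1 hm2 k2 k3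
    · push Not at k3
      refine Hsw l m be ⟨hl, kc, hm1, hm2, k2, ?_, ?_⟩
      · linarith
      · have k5 : (1 + e') * B * (S2 N l / m) ≤ be * (S2 N l / m) :=
          mul_le_mul_of_nonneg_right k1 hs.le
        have k6 : (1 + e') * B * (S2 N l / m) = (1 + e') * (kap N l 1 / 2) := by
          rw [mul_assoc, hBs]
        have k7 : 2 / (1 + e') * be * (S2 N l / m) = 2 / (1 + e') * (be * (S2 N l / m)) := by ring
        rw [k7]
        calc kap N l 1 = 2 / (1 + e') * ((1 + e') * (kap N l 1 / 2)) := by field_simp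
          _ ≤ 2 / (1 + e') * (be * (S2 N l / m)) :=
              mul_le_mul_of_nonneg_left (k6 ▸ k5) (by positivity)
  -- nonexistence below the window
  have ktau : 0 < tau N 1 1 l := by
    have := tau_ge (N := N) h1 h1 hl
    have k3 : 0 < 1 * min 1 (l / 1) := by
      rw [one_mul]
      exact lt_min h1 (by positivity)
    linarith
  have below : ∀ be : ℝ, (be ^ 2 < m ∨ t ≤ be) → tau N 1 1 l ≤ be → be < (1 - e') * B →
      ¬ HasGS N l 1 m 1 be := by
    intro be k00 k1 k2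
    have kt : 0 < tau N 1 1 l := by
      have := tau_ge (N := N) h1 h1 hl
      have k3 : 0 < 1 * min 1 (l / 1) := by
        rw [one_mul]
        exact lt_min h1 (by positivity)
      linarith
    have k0 : 0 < be := lt_of_lt_of_le kt k1
    by_cases k3 : be ^ 2 < m * 1
    · exact nonex_small hl h1 hm0 h1 k1 k3
    · push Not at k3
      rw [mul_one] at k3
      by_cases k4 : x1 * be * (S2 N l / m) ≤ kap N l 1
      · exact Hnf l m be hl ka hm1 hm2 (k00.resolve_left (not_lt.2 k3)) k3 k4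
      · push Not at k4
        refine Hnw l m be ⟨hl, kb, hm1, hm2, k0, ?_, ?_⟩
        · have k5 : be * (S2 N l / m) ≤ (1 - e') * B * (S2 N l / m) :=
            mul_le_mul_of_nonneg_right k2.le hs.le
          have k6 : (1 - e') * B * (S2 N l / m) = (1 - e') * (kap N l 1 / 2) := by
            rw [mul_assoc, hBs]
          have k7 : 2 / (1 - e') * be * (S2 N l / m) = 2 / (1 - e') * (be * (S2 N l / m)) := by
            ring
          rw [k7]
          calc 2 / (1 - e') * (be * (S2 N l / m)) ≤ 2 / (1 - e') * ((1 - e') * (kap N l 1 / 2)) :=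
                mul_le_mul_of_nonneg_left (k6 ▸ k5) (by positivity)
            _ = kap N l 1 := by field_simp
        · refine k4.le.trans ?_
          have k5 : x1 ≤ max x1 (2 / (1 - e')) := le_max_left _ _
          exact mul_le_mul_of_nonneg_right (mul_le_mul_of_nonneg_right k5 k0.le) hs.le
  -- the threshold
  obtain ⟨A, hA⟩ : ∃ A : Set ℝ, A = {be : ℝ | (1 - e') * B ≤ be ∧ be ≤ (1 + e') * B ∧
    HasGS N l 1 m 1 be} := ⟨_, rfl⟩
  have hAhi : (1 + e') * B ∈ A := by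
    rw [hA]
    refine ⟨?_, le_rfl, above _ le_rfl⟩
    exact mul_le_mul_of_nonneg_right (by linarith) hB0.le
  have hAne : A.Nonempty := ⟨_, hAhi⟩
  have hAbd : BddBelow A := by
    refine ⟨(1 - e') * B, fun x hx => ?_⟩
    rw [hA] at hx
    exact hx.1
  have hlo : (1 - e') * B ≤ sInf A := le_csInf hAne fun x hx => by
    rw [hA] at hx
    exact hx.1
  have hhi : sInf A ≤ (1 + e') * B := csInf_le hAbd hAhi
  have hGS : HasGS N l 1 m 1 (sInf A) := by
    obtain ⟨u, hu1, hu2, hu3⟩ := exists_seq_tendsto_sInf hAne hAbd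
    have hu3' : ∀ n, (1 - e') * B ≤ u n ∧ u n ≤ (1 + e') * B ∧ HasGS N l 1 m 1 (u n) := by
      intro n
      have := hu3 n
      rw [hA] at this
      exact this
    exact Hcw l m (sInf A) u (win _ _ hlo hhi kg) (fun n => win _ _ (hu3' n).1 (hu3' n).2.1 kg)
      (fun n => csInf_le hAbd (hu3 n)) (fun n => (hu3' n).2.2) hu2
  refine ⟨sInf A, ?_, ?_, ?_⟩
  · exact le_trans (mul_le_mul_of_nonneg_right (by linarith) hB0.le) hlo
  · exact hhi.trans (mul_le_mul_of_nonneg_right (by linarith) hB0.le)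
  intro be hcond
  constructor
  · intro h
    by_contra hcon
    push Not at hcon
    obtain ⟨hc1, hc2⟩ := hcon
    by_cases k0 : be < 0
    · exact no_GS_neg hl h1 hm0 h1 k0 h
    · push Not at k0
      have k1 := hc1 k0
      by_cases k2 : be < (1 - e') * B
      · refine below be ?_ k1 k2 h
        rcases hcond with k5 | k5 | k5
        · exact absurd (ktau.trans_le k1) (not_lt.2 k5)
        · left
          have : 0 < e * m := mul_pos he hm0
          linarith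
        · exact Or.inr k5
      · push Not at k2
        have k3 : be ∈ A := by
          rw [hA]
          exact ⟨k2, hc2.le.trans hhi, h⟩
        exact absurd (csInf_le hAbd k3) (not_le.2 hc2)
  · rintro (⟨k1, k2⟩ | k1)
    · rcases k1.lt_or_eq with k3 | k3
      · rcases hcond with k5 | k5 | k5
        · exact absurd k3 (not_lt.2 k5)
        · exact Hex l m be hl kx hm1 hm2 k5 k3 k2
        · have := (Htl l hl kt0).2
          linarith
      · rw [← k3]
        exact GS_zero hl h1 hm0 h1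
    · by_cases k2 : be ≤ (1 + e') * B
      · exact Hmw l m (sInf A) be (win _ _ hlo hhi kf) (win _ _ (hlo.trans k1) k2 kf) k1 hGS
      · push Not at k2
        exact above be k2.le


theorem HT_two {t : ℝ} (ht : 0 < t) : HT 2 t := by
  intro w hw
  obtain ⟨p, l0, h0, -, -, h⟩ := wide hw.1 ht one_pos
  refine ⟨p, ?_⟩
  have h1 := h (l0 / 2) (by positivity) (by linarith)
  have h2 : ip 0 p p ≤ ip (l0 / 2) p p := by
    unfold ip
    have := gY_nonneg p
    nlinarith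
  linarith

theorem HT_poh [Dim N] {t : ℝ} (ht : (N : ℝ) / 4 < t) : HT N t := by
  intro w hw
  refine ⟨w, ?_⟩
  have h1 := pohozaev one_pos one_pos hw
  have h2 := Q4_pos hw.1
  rw [div_eq_iff h2.ne'] at h1
  have h3 : ip 1 w w = 1 * Q4 w w w w := hw.2.1
  unfold ip at h3 ⊢
  nlinarith

/-- any two dimensional coupling is covered -/
theorem far_norm3 [Dim N] {M e t : ℝ} (hM : 1 ≤ M) (he : 0 < e) (he1 : e < 1) (ht : 0 < t)
    (H : N = 2 ∨ 3 / 4 < t ∨ HT N t) : ∃ l0 : ℝ, 0 < l0 ∧ l0 ≤ 1 ∧ ∀ l m : ℝ, 0 < l → l < l0 →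
      1 / M ≤ m → m ≤ M → ∃ bs : ℝ, (1 - e) * (m * kap N l 1 / (2 * S2 N l)) ≤ bs ∧
        bs ≤ (1 + e) * (m * kap N l 1 / (2 * S2 N l)) ∧ bs ≤ e * tau N l m 1 ∧
        ∀ be : ℝ, (N = 2 ∨ be ≤ 0 ∨ be ^ 2 ≤ (1 - e) * m ∨ t ≤ be) →
          (HasGS N l 1 m 1 be ↔ (0 ≤ be ∧ be < tau N 1 1 l) ∨ bs ≤ be) := by
  have hM0 : 0 < M := lt_of_lt_of_le one_pos hM
  have key : ∃ l0 : ℝ, 0 < l0 ∧ l0 ≤ 1 ∧ ∀ l m : ℝ, 0 < l → l < l0 →
      1 / M ≤ m → m ≤ M → ∃ bs : ℝ, (1 - e) * (m * kap N l 1 / (2 * S2 N l)) ≤ bs ∧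
        bs ≤ (1 + e) * (m * kap N l 1 / (2 * S2 N l)) ∧
        ∀ be : ℝ, (N = 2 ∨ be ≤ 0 ∨ be ^ 2 ≤ (1 - e) * m ∨ t ≤ be) →
          (HasGS N l 1 m 1 be ↔ (0 ≤ be ∧ be < tau N 1 1 l) ∨ bs ≤ be) := by
    by_cases hN : N = 2
    · subst hN
      have ht' : 0 < Real.sqrt ((1 - e) / M) := Real.sqrt_pos.2 (div_pos (by linarith) hM0)
      obtain ⟨l0, h0, h01, K⟩ := far_abs3 (N := 2) hM he he1 ht' (HT_two ht')
      refine ⟨l0, h0, h01, fun l m k1 k2 k3 k4 => ?_⟩
      obtain ⟨bs, b1, b2, b3⟩ := K l m k1 k2 k3 k4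
      refine ⟨bs, b1, b2, fun be _ => b3 be ?_⟩
      by_cases h5 : be ≤ 0
      · exact Or.inl h5
      · push Not at h5
        right
        by_cases h6 : be ^ 2 ≤ (1 - e) * m
        · exact Or.inl h6
        · push Not at h6
          right
          rw [Real.sqrt_le_left h5.le]
          have h7 : (1 - e) / M ≤ (1 - e) * m := by
            rw [div_eq_mul_one_div]
            exact mul_le_mul_of_nonneg_left k3 (by linarith)
          linarith
    · have hHT : HT N t := by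
        rcases H with h | h | h
        · exact absurd h hN
        · refine HT_poh ?_
          have h3 : N = 3 := (Dim.h (N := N)).resolve_left hN
          rw [h3]
          norm_num
          exact h
        · exact h
      obtain ⟨l0, h0, h01, K⟩ := far_abs3 (N := N) hM he he1 ht hHT
      refine ⟨l0, h0, h01, fun l m k1 k2 k3 k4 => ?_⟩
      obtain ⟨bs, b1, b2, b3⟩ := K l m k1 k2 k3 k4
      exact ⟨bs, b1, b2, fun be h => b3 be (h.resolve_left hN)⟩
  obtain ⟨l0, h0, h1, K⟩ := key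
  obtain ⟨l1, h2, h3, K1⟩ := thr_small (N := N) (ep := e / 2) (by linarith)
  refine ⟨min l0 l1, lt_min h0 h2, (min_le_left _ _).trans h1, fun l m k1 k2 k3 k4 => ?_⟩
  obtain ⟨k5, k6⟩ := lt_min_iff.1 k2
  obtain ⟨bs, b1, b2, b3⟩ := K l m k1 k5 k3 k4
  refine ⟨bs, b1, b2, ?_, b3⟩
  have hm0 : 0 < m := lt_of_lt_of_le (by positivity) k3
  have hS : 0 < S2 N l := S2_pos k1
  have hk : 0 < kap N l 1 := (kap_ge k1 one_pos).2
  have hB : 0 < m * kap N l 1 / (2 * S2 N l) := by positivity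
  have h5 := K1 l m k1 k6 hm0
  have htt : 0 < tau N l m 1 := by
    by_contra hcon
    push Not at hcon
    have : e / 2 * tau N l m 1 ≤ 0 := mul_nonpos_of_nonneg_of_nonpos (by linarith) hcon
    linarith
  calc bs ≤ (1 + e) * (m * kap N l 1 / (2 * S2 N l)) := b2
    _ ≤ (1 + e) * (e / 2 * tau N l m 1) := mul_le_mul_of_nonneg_left h5 (by linarith)
    _ = (1 + e) / 2 * (e * tau N l m 1) := by ring
    _ ≤ 1 * (e * tau N l m 1) := mul_le_mul_of_nonneg_right (by linarith) (by positivity)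
    _ = e * tau N l m 1 := one_mul _

/-- **Far theorem.** -/
theorem main_far3 (N : ℕ) (hN : N = 2 ∨ N = 3) (M e t : ℝ) (hM : 1 ≤ M) (he : 0 < e) (he1 : e < 1)
    (ht : 0 < t) (hH : N = 2 ∨ 3 / 4 < t ∨ HT N t) :
    ∃ T : ℝ, 1 ≤ T ∧ ∀ l1 l2 m1 m2 : ℝ, 0 < l1 → 0 < m1 → 0 < m2 → T * l1 ≤ l2 → m1 ≤ M * m2 →
      m2 ≤ M * m1 →
      ∃ bs : ℝ, (1 - e) * (m1 * kap N l1 l2 / (2 * S2 N l1)) ≤ bs ∧
        bs ≤ (1 + e) * (m1 * kap N l1 l2 / (2 * S2 N l1)) ∧ bs ≤ e * tau N l1 m1 l2 ∧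
        ∀ be : ℝ, (N = 2 ∨ be ≤ 0 ∨ be ^ 2 ≤ (1 - e) * (m1 * m2) ∨ t * m2 ≤ be) →
          (HasGS N l1 l2 m1 m2 be ↔ (0 ≤ be ∧ be < tau N l2 m2 l1) ∨ bs ≤ be) := by
  have : Dim N := ⟨hN⟩
  obtain ⟨l0, h0, h01, H⟩ := far_norm3 (N := N) hM he he1 ht hH
  refine ⟨1 / l0 + 1, by
    have : 0 < 1 / l0 := by positivity
    linarith, ?_⟩
  intro l1 l2 m1 m2 hl1 hm1 hm2 hT hM1 hM2
  have hT' : (1 / l0 + 1) * l1 ≤ l2 := hT
  have hM0 : 0 < M := lt_of_lt_of_le one_pos hM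
  have hl2 : 0 < l2 := lt_of_lt_of_le (by positivity) hT'
  have hq0 : 0 < l1 / l2 := by positivity
  have hq1 : l1 / l2 < l0 := by
    rw [div_lt_iff₀ hl2]
    have e1 : l0 * ((1 / l0 + 1) * l1) ≤ l0 * l2 := mul_le_mul_of_nonneg_left hT' h0.le
    have e2 : l0 * ((1 / l0 + 1) * l1) = l1 + l0 * l1 := by field_simp
    have e3 : 0 < l0 * l1 := by positivity
    linarith
  have hr1 : 1 / M ≤ m1 / m2 := by
    rw [div_le_div_iff₀ hM0 hm2]
    linarith
  have hr2 : m1 / m2 ≤ M := by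
    rw [div_le_iff₀ hm2]
    exact hM1
  obtain ⟨bs, b1, b2, b3, b4⟩ := H (l1 / l2) (m1 / m2) hq0 hq1 hr1 hr2
  -- scalings
  have hs : 0 < Real.sqrt l2 := Real.sqrt_pos.2 hl2
  have hs2 : Real.sqrt l2 ^ 2 = l2 := Real.sq_sqrt hl2.le
  have hll : l2 * (l1 / l2) = l1 := by field_simp
  have hmm : m2 * (m1 / m2) = m1 := by field_simp
  have hkap : kap N l1 l2 = Real.sqrt l2 ^ (4 - N) * kap N (l1 / l2) 1 := by
    have h := kap_scale (N := N) hq0 one_pos hs
    rw [hs2, hll, mul_one] at h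
    exact h
  have hS2 : S2 N l1 = Real.sqrt l2 ^ (4 - N) * S2 N (l1 / l2) := by
    have h := S2_scale (N := N) hq0 hs
    rw [hs2, hll] at h
    exact h
  have hB : m1 * kap N l1 l2 / (2 * S2 N l1) =
      m2 * ((m1 / m2) * kap N (l1 / l2) 1 / (2 * S2 N (l1 / l2))) := by
    have hp : 0 < Real.sqrt l2 ^ (4 - N) := pow_pos hs _
    have hSp : 0 < S2 N (l1 / l2) := S2_pos hq0
    rw [hkap, hS2]
    field_simp
  have ht1 : tau N l1 m1 l2 = m2 * tau N (l1 / l2) (m1 / m2) 1 := by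
    have h := tau_scale (N := N) (l := l1 / l2) (m := m1) (l' := 1) hq0 hm1 hs
    rw [hs2, hll, mul_one] at h
    rw [h, ← tau_amp hq0 (by positivity) hm2, hmm]
  have ht2 : tau N l2 m2 l1 = m2 * tau N 1 1 (l1 / l2) := by
    have h := tau_scale (N := N) (l := 1) (m := m2) (l' := l1 / l2) one_pos hm2 hs
    rw [hs2, hll, mul_one] at h
    have h' := tau_amp (N := N) (l := 1) (m := 1) (l' := l1 / l2) one_pos one_pos hm2
    rw [mul_one] at h'
    rw [h, h']
  have hG : ∀ be : ℝ, HasGS N l1 l2 m1 m2 be ↔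
      HasGS N (l1 / l2) 1 (m1 / m2) 1 (be / m2) := by
    intro be
    have h := HasGS_scale (N := N) (l1 := l1 / l2) (l2 := 1) (m1 := m1) (m2 := m2) (be := be) hs
    rw [hs2, hll, mul_one] at h
    rw [h]
    have h' := HasGS_amp (N := N) (l1 := l1 / l2) (l2 := 1) (m1 := m1 / m2) (m2 := 1)
      (be := be / m2) hm2
    rw [hmm, mul_one, mul_div_cancel₀ be hm2.ne'] at h'
    exact h'
  refine ⟨m2 * bs, ?_, ?_, ?_, ?_⟩
  · rw [hB]
    calc _ = m2 * ((1 - e) * ((m1 / m2) * kap N (l1 / l2) 1 / (2 * S2 N (l1 / l2)))) := by ring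
      _ ≤ m2 * bs := mul_le_mul_of_nonneg_left b1 hm2.le
  · rw [hB]
    calc m2 * bs ≤ m2 * ((1 + e) * ((m1 / m2) * kap N (l1 / l2) 1 / (2 * S2 N (l1 / l2)))) :=
          mul_le_mul_of_nonneg_left b2 hm2.le
      _ = _ := by ring
  · rw [ht1]
    calc m2 * bs ≤ m2 * (e * tau N (l1 / l2) (m1 / m2) 1) := mul_le_mul_of_nonneg_left b3 hm2.le
      _ = _ := by ring
  · intro be hc
    have hc' : N = 2 ∨ be / m2 ≤ 0 ∨ (be / m2) ^ 2 ≤ (1 - e) * (m1 / m2) ∨ t ≤ be / m2 := by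
      rcases hc with hc | hc | hc | hc
      · exact Or.inl hc
      · exact Or.inr (Or.inl (div_nonpos_of_nonpos_of_nonneg hc hm2.le))
      · refine Or.inr (Or.inr (Or.inl ?_))
        rw [div_pow, div_le_iff₀ (by positivity)]
        have : (1 - e) * (m1 / m2) * m2 ^ 2 = (1 - e) * (m1 * m2) := by field_simp
        rw [this]
        exact hc
      · refine Or.inr (Or.inr (Or.inr ?_))
        rw [le_div_iff₀ hm2]
        exact hc
    rw [hG, b4 (be / m2) hc', ht2]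
    refine or_congr (and_congr ?_ ?_) ?_
    · rw [le_div_iff₀ hm2, zero_mul]
    · rw [div_lt_iff₀ hm2, mul_comm]
    · rw [le_div_iff₀ hm2, mul_comm]

end Sir
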