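import Pool.Agent.Sir.RD
/-!
# Soft truncation (text MP_2cd2dd_an_far_helper13.md, section 2)
modules: soA, soB, soC, soD, soE, soF
-/

namespace Sir

open MeasureTheory Filter Topology

variable {N : ℕ}

/-- soft truncation of a number at level `k` -/
noncomputable def sft (k t : ℝ) : ℝ := max (t - k) 0 - max (-t - k) 0

/-- `T` is the soft truncation of `u` at level `k` -/
def IsT (k : ℝ) (u T : H1 N) : Prop := fn T =ᵐ[volume] fun x => sft k (fn u x)

/-- module soA. Real facts (`k > 0`). -/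
theorem sft_facts {k : ℝ} (hk : 0 < k) (t : ℝ) : |t - sft k t| ≤ k ∧ |sft k t| ≤ |t| ∧
    0 ≤ sft k t * (t - sft k t) ∧ (0 ≤ t → 0 ≤ sft k t ∧ 0 ≤ t - sft k t) ∧
    (|t| ≤ k → sft k t = 0) ∧ (2 * k < |t| → |t| ≤ 2 * |sft k t|) ∧
    (0 ≤ t → k < t → t - sft k t = k) := by
  unfold sft
  rcases lt_or_ge k t with h | h
  · have e1 : max (t - k) 0 = t - k := max_eq_left (by linarith)
    have e2 : max (-t - k) 0 = 0 := max_eq_right (by linarith)
    rw [e1, e2, sub_zero]
    have ht : |t| = t := abs_of_pos (by linarith)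
    have ht2 : |t - k| = t - k := abs_of_pos (by linarith)
    have ht3 : |t - (t - k)| = k := by
      rw [show t - (t - k) = k by ring, abs_of_pos hk]
    rw [ht, ht2, ht3]
    refine ⟨le_rfl, by linarith, ?_, fun _ => ⟨by linarith, by linarith⟩, fun h' => by linarith,
      fun _ => by linarith, fun _ _ => by ring⟩
    exact mul_nonneg (by linarith) (by linarith)
  · have e1 : max (t - k) 0 = 0 := max_eq_right (by linarith)
    rcases lt_or_ge t (-k) with h' | h'
    · have e2 : max (-t - k) 0 = -t - k := max_eq_left (by linarith)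
      rw [e1, e2]
      have ht : |t| = -t := abs_of_neg (by linarith)
      have ht2 : |0 - (-t - k)| = -t - k := by
        rw [abs_sub_comm, sub_zero, abs_of_pos (by linarith)]
      have ht3 : |t - (0 - (-t - k))| = k := by
        rw [show t - (0 - (-t - k)) = -k by ring, abs_neg, abs_of_pos hk]
      rw [ht, ht2, ht3]
      refine ⟨le_rfl, by linarith, ?_, fun _ => ⟨by linarith, by linarith⟩, fun h' => by linarith,
        fun _ => by linarith, fun _ _ => by linarith⟩
      nlinarith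
    · have e2 : max (-t - k) 0 = 0 := max_eq_right (by linarith)
      rw [e1, e2]
      have ht : |t| ≤ k := abs_le.2 ⟨h', h⟩
      simp only [sub_zero, abs_zero, zero_mul, mul_zero]
      exact ⟨ht, abs_nonneg t, le_rfl, fun h0 => ⟨le_rfl, h0⟩, fun _ => trivial,
        fun h2 => by linarith, fun _ h2 => by linarith⟩

private theorem soA_lim (T : ℕ → ℝ → ℝ) (hT : ∀ n, ContDiff ℝ 1 (T n))
    (h0 : ∀ n, T n 0 = 0) (M : ℝ) (hM : ∀ n s, |deriv (T n) s| ≤ M)
    (S D : ℝ → ℝ) (hS : ∀ s, Tendsto (fun n => T n s) atTop (𝓝 (S s)))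
    (hD : ∀ s, Tendsto (fun n => deriv (T n) s) atTop (𝓝 (D s))) (u : H1 N) :
    ∃ w : H1 N, fn w =ᵐ[volume] (fun x => S (fn u x)) ∧
      gr w =ᵐ[volume] fun x => (D (fn u x)) • gr u x := by
  have hM0 : 0 ≤ M := (abs_nonneg _).trans (hM 0 0)
  have hTle : ∀ n s, |T n s| ≤ M * |s| := by
    intro n s
    have h := Convex.norm_image_sub_le_of_norm_deriv_le (f := T n) (C := M) (s := Set.univ)
      (x := 0) (y := s) (fun x _ => (hT n).differentiable (by norm_num) x) (fun x _ => hM n x)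
      convex_univ (Set.mem_univ _) (Set.mem_univ _)
    simpa [h0 n] using h
  have hSle : ∀ s, |S s| ≤ M * |s| := fun s =>
    le_of_tendsto (hS s).abs (Eventually.of_forall fun n => hTle n s)
  have c1 : ∀ s, |D s| ≤ M := fun s =>
    le_of_tendsto (hD s).abs (Eventually.of_forall fun n => hM n s)
  choose c hc1 hc2 using fun n => chain1 (T n) (hT n) (h0 n) M (hM n) u
  have mT : ∀ n, AEStronglyMeasurable (fun x => T n (fn u x)) (volume : Measure (E N)) :=
    fun n => (hT n).continuous.comp_aestronglyMeasurable (fn_memLp u).1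
  have mA : ∀ n, AEStronglyMeasurable (fun x => deriv (T n) (fn u x)) (volume : Measure (E N)) :=
    fun n => ((hT n).continuous_deriv (by norm_num)).comp_aestronglyMeasurable (fn_memLp u).1
  have mS : AEStronglyMeasurable (fun x => S (fn u x)) (volume : Measure (E N)) :=
    aestronglyMeasurable_of_tendsto_ae atTop mT (Eventually.of_forall fun x => hS _)
  have mD : AEStronglyMeasurable (fun x => D (fn u x)) (volume : Measure (E N)) :=
    aestronglyMeasurable_of_tendsto_ae atTop mA (Eventually.of_forall fun x => hD _)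
  have memf : MemLp (fun x => S (fn u x)) 2 (volume : Measure (E N)) :=
    MemLp.mono' (g := fun x => M * |fn u x|) ((fn_memLp u).norm.const_mul M) mS
      (Eventually.of_forall fun x => hSle _)
  have memg : MemLp (fun x => D (fn u x) • gr u x) 2 (volume : Measure (E N)) := by
    refine MemLp.mono' (g := fun x => M * ‖gr u x‖) ((gr_memLp u).norm.const_mul M)
      (mD.smul (gr_memLp u).1) (Eventually.of_forall fun x => ?_)
    rw [norm_smul]
    exact mul_le_mul_of_nonneg_right (c1 _) (norm_nonneg _)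
  suffices hsuf : Tendsto (fun n => ∫ x, (fn (c n) x - S (fn u x)) ^ 2) atTop (𝓝 0) ∧
      Tendsto (fun n => ∫ x, ‖gr (c n) x - D (fn u x) • gr u x‖ ^ 2) atTop (𝓝 0) by
    obtain ⟨w, w1, w2, _⟩ := H1_closed c _ _ memf memg hsuf.1 hsuf.2
    exact ⟨w, w1, w2⟩
  constructor
  · have ib : Integrable (fun x => (2 * M * |fn u x|) ^ 2) (volume : Measure (E N)) :=
      ((fn_memLp u).norm.const_mul (2 * M)).integrable_sq
    have h := tendsto_integral_of_dominated_convergence (μ := (volume : Measure (E N)))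
      (F := fun n x => (T n (fn u x) - S (fn u x)) ^ 2) (f := fun _ => (0 : ℝ))
      (fun x => (2 * M * |fn u x|) ^ 2) (fun n => ((mT n).sub mS).pow 2) ib
      (fun n => Eventually.of_forall fun x => ?_) (Eventually.of_forall fun x => ?_)
    · rw [integral_zero] at h
      refine h.congr fun n => ?_
      refine integral_congr_ae ?_
      filter_upwards [hc1 n] with x e
      rw [e]
    · simp only [Real.norm_eq_abs, abs_pow]
      refine pow_le_pow_left₀ (abs_nonneg _) ?_ 2
      refine (abs_sub _ _).trans ?_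
      linarith [hTle n (fn u x), hSle (fn u x)]
    · have := ((hS (fn u x)).sub_const (S (fn u x))).pow 2
      simpa using this
  · have ib : Integrable (fun x => (2 * M * ‖gr u x‖) ^ 2) (volume : Measure (E N)) :=
      ((gr_memLp u).norm.const_mul (2 * M)).integrable_sq
    have h := tendsto_integral_of_dominated_convergence (μ := (volume : Measure (E N)))
      (F := fun n x => ‖(deriv (T n) (fn u x) - D (fn u x)) • gr u x‖ ^ 2)
      (f := fun _ => (0 : ℝ))
      (fun x => (2 * M * ‖gr u x‖) ^ 2)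
      (fun n => ((((mA n).sub mD).smul (gr_memLp u).1)).norm.pow 2) ib
      (fun n => Eventually.of_forall fun x => ?_) (Eventually.of_forall fun x => ?_)
    · rw [integral_zero] at h
      refine h.congr fun n => ?_
      refine integral_congr_ae ?_
      filter_upwards [hc2 n] with x e
      rw [e, sub_smul]
    · rw [Real.norm_eq_abs, abs_pow, abs_norm]
      refine pow_le_pow_left₀ (norm_nonneg _) ?_ 2
      rw [norm_smul]
      refine mul_le_mul_of_nonneg_right ?_ (norm_nonneg _)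
      refine (abs_sub _ _).trans ?_
      linarith [hM n (fn u x), c1 (fn u x)]
    · have h1 := ((hD (fn u x)).sub_const (D (fn u x))).smul_const (gr u x)
      have := h1.norm.pow 2
      simpa using this

/-- `C¹` approximation of `max x 0` -/
private noncomputable def soA_h (e x : ℝ) : ℝ := max x 0 - e + e ^ 2 / (max x 0 + e)

private theorem soA_h_le {e : ℝ} (he : 0 < e) (x : ℝ) :
    max x 0 - e ≤ soA_h e x ∧ soA_h e x ≤ max x 0 := by
  have h0 : 0 ≤ max x 0 := le_max_right _ _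
  unfold soA_h
  have h1 : 0 ≤ e ^ 2 / (max x 0 + e) := by positivity
  have h2 : e ^ 2 / (max x 0 + e) ≤ e := by
    rw [div_le_iff₀ (by linarith)]
    nlinarith
  constructor <;> linarith

private theorem soA_h_deriv {e : ℝ} (he : 0 < e) (x : ℝ) :
    HasDerivAt (soA_h e) (1 - e ^ 2 / (max x 0 + e) ^ 2) x := by
  rcases lt_trichotomy x 0 with h | h | h
  · have e1 : max x 0 = 0 := max_eq_right h.le
    rw [e1, zero_add, div_self (by positivity), sub_self]
    refine (hasDerivAt_const x (0 : ℝ)).congr_of_eventuallyEq ?_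
    filter_upwards [Iio_mem_nhds h] with y hy
    unfold soA_h
    rw [max_eq_right (le_of_lt hy), zero_add]
    field_simp
    ring
  · subst h
    rw [max_self, zero_add, div_self (by positivity), sub_self]
    have hb : (soA_h e) =O[𝓝 0] fun x : ℝ => ‖x - 0‖ ^ 2 := by
      refine Asymptotics.IsBigO.of_bound (1 / e) (Eventually.of_forall fun y => ?_)
      rw [sub_zero, norm_pow, norm_norm, Real.norm_eq_abs, Real.norm_eq_abs, sq_abs]
      have h1 : soA_h e y = (max y 0) ^ 2 / (max y 0 + e) := by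
        have h0 : 0 ≤ max y 0 := le_max_right _ _
        unfold soA_h
        have : max y 0 + e ≠ 0 := by linarith
        field_simp
        ring
      have h0 : 0 ≤ max y 0 := le_max_right _ _
      rw [h1, abs_of_nonneg (div_nonneg (sq_nonneg _) (by linarith))]
      have h2 : (max y 0) ^ 2 ≤ y ^ 2 := by
        rcases le_total y 0 with hy | hy
        · rw [max_eq_right hy]; nlinarith [sq_nonneg y]
        · rw [max_eq_left hy]
      calc (max y 0) ^ 2 / (max y 0 + e) ≤ (max y 0) ^ 2 / e :=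
            div_le_div_of_nonneg_left (sq_nonneg _) he (by linarith)
        _ ≤ y ^ 2 / e := div_le_div_of_nonneg_right h2 he.le
        _ = 1 / e * y ^ 2 := by ring
    have h3 := (hb.hasFDerivAt (𝕜 := ℝ) (by norm_num)).hasDerivAt
    simpa using h3
  · have e1 : max x 0 = x := max_eq_left h.le
    rw [e1]
    have hx : x + e ≠ 0 := by linarith
    have h1 : HasDerivAt (fun y : ℝ => y + e) 1 x := (hasDerivAt_id x).add_const e
    have h2 : HasDerivAt (fun y : ℝ => e ^ 2 / (y + e)) (-(e ^ 2) / (x + e) ^ 2) x := by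
      have h3 : HasDerivAt (fun y : ℝ => e ^ 2 / (y + e)) ((0 * (x + e) - e ^ 2 * 1) / (x + e) ^ 2) x :=
        (hasDerivAt_const x (e ^ 2)).div h1 hx
      have h6 : -(e ^ 2) / (x + e) ^ 2 = (0 * (x + e) - e ^ 2 * 1) / (x + e) ^ 2 := by ring
      rw [h6]
      exact h3
    have h4 : HasDerivAt (fun y : ℝ => y - e + e ^ 2 / (y + e)) (1 - e ^ 2 / (x + e) ^ 2) x := by
      have h5 : HasDerivAt (fun y : ℝ => y - e + e ^ 2 / (y + e)) (1 + -(e ^ 2) / (x + e) ^ 2) x :=
        ((hasDerivAt_id x).sub_const e).add h2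
      have h6 : 1 - e ^ 2 / (x + e) ^ 2 = 1 + -(e ^ 2) / (x + e) ^ 2 := by ring
      rw [h6]
      exact h5
    refine h4.congr_of_eventuallyEq ?_
    filter_upwards [Ioi_mem_nhds h] with y hy
    unfold soA_h
    rw [max_eq_left (le_of_lt hy)]

/-- module soA. **Soft truncation acts on `H1`.** `chain1` with `C¹` functions `τ_n`, `τ_n 0 = 0`, derivative `min 1 (n * max (|s| - k) 0)`
(continuous, `→ 1` for `|s| > k`, `= 0` for `|s| ≤ k`): `τ_n s → sft k s`, `|τ_n s| ≤ |s|`; dominated convergence and `H1_closed`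
(compare `abs_H` in Sir/Chain.lean). -/
theorem soft_H {k : ℝ} (hk : 0 < k) (u : H1 N) : ∃ T : H1 N, IsT k u T ∧
    gr T =ᵐ[volume] fun x => if k < |fn u x| then gr u x else 0 := by
  have hp : ∀ n : ℕ, 0 < (1 : ℝ) / ((n : ℝ) + 1) := fun n => by positivity
  have hlim : Tendsto (fun n : ℕ => (1 : ℝ) / ((n : ℝ) + 1)) atTop (𝓝 0) :=
    tendsto_one_div_add_atTop_nhds_zero_nat
  -- the derivative of the approximation
  have hder : ∀ (n : ℕ) (s : ℝ), HasDerivAt
      (fun s => soA_h (1 / ((n : ℝ) + 1)) (s - k) - soA_h (1 / ((n : ℝ) + 1)) (-s - k))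
      ((1 - (1 / ((n : ℝ) + 1)) ^ 2 / (max (s - k) 0 + 1 / ((n : ℝ) + 1)) ^ 2) +
        (1 - (1 / ((n : ℝ) + 1)) ^ 2 / (max (-s - k) 0 + 1 / ((n : ℝ) + 1)) ^ 2)) s := by
    intro n s
    have h1 : HasDerivAt (fun s : ℝ => s - k) 1 s := (hasDerivAt_id s).sub_const k
    have h2 : HasDerivAt (fun s : ℝ => -s - k) (-1) s := (hasDerivAt_neg s).sub_const k
    have h3 := (soA_h_deriv (hp n) (s - k)).comp s h1
    have h4 := (soA_h_deriv (hp n) (-s - k)).comp s h2
    have h5 := h3.sub h4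
    rw [mul_one, mul_neg_one, sub_neg_eq_add] at h5
    exact h5
  have hb : ∀ (n : ℕ) (x : ℝ), 0 ≤ 1 - (1 / ((n : ℝ) + 1)) ^ 2 / (max x 0 + 1 / ((n : ℝ) + 1)) ^ 2 ∧
      1 - (1 / ((n : ℝ) + 1)) ^ 2 / (max x 0 + 1 / ((n : ℝ) + 1)) ^ 2 ≤ 1 := by
    intro n x
    have h0 : 0 ≤ max x 0 := le_max_right _ _
    have h1 := hp n
    set e := (1 : ℝ) / ((n : ℝ) + 1) with he
    have h2 : 0 ≤ e ^ 2 / (max x 0 + e) ^ 2 := by positivity
    have h3 : e ^ 2 / (max x 0 + e) ^ 2 ≤ 1 := by
      rw [div_le_one (by positivity)]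
      exact pow_le_pow_left₀ h1.le (by linarith) 2
    constructor <;> linarith
  have hdlim : ∀ x : ℝ, Tendsto (fun n : ℕ => 1 - (1 / ((n : ℝ) + 1)) ^ 2 /
      (max x 0 + 1 / ((n : ℝ) + 1)) ^ 2) atTop (𝓝 (if 0 < x then 1 else 0)) := by
    intro x
    by_cases hx : 0 < x
    · rw [if_pos hx, max_eq_left hx.le]
      have h1 : Tendsto (fun n : ℕ => (1 / ((n : ℝ) + 1)) ^ 2 / (x + 1 / ((n : ℝ) + 1)) ^ 2) atTop
          (𝓝 (0 ^ 2 / (x + 0) ^ 2)) :=
        (hlim.pow 2).div ((tendsto_const_nhds.add hlim).pow 2) (by rw [add_zero]; positivity)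
      have h2 := (tendsto_const_nhds (x := (1 : ℝ)) (f := (atTop : Filter ℕ))).sub h1
      simpa using h2
    · rw [if_neg hx, max_eq_right (not_lt.1 hx)]
      refine tendsto_const_nhds.congr fun n => ?_
      have := hp n
      rw [zero_add, div_self (by positivity), sub_self]
  obtain ⟨w, w1, w2⟩ := soA_lim
    (fun n s => soA_h (1 / ((n : ℝ) + 1)) (s - k) - soA_h (1 / ((n : ℝ) + 1)) (-s - k))
    (fun n => by
      rw [contDiff_one_iff_deriv]
      refine ⟨fun s => (hder n s).differentiableAt, ?_⟩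
      have e : deriv (fun s => soA_h (1 / ((n : ℝ) + 1)) (s - k) -
          soA_h (1 / ((n : ℝ) + 1)) (-s - k)) = fun s =>
          ((1 - (1 / ((n : ℝ) + 1)) ^ 2 / (max (s - k) 0 + 1 / ((n : ℝ) + 1)) ^ 2) +
        (1 - (1 / ((n : ℝ) + 1)) ^ 2 / (max (-s - k) 0 + 1 / ((n : ℝ) + 1)) ^ 2)) :=
        funext fun s => (hder n s).deriv
      rw [e]
      have hq := hp n
      have g1 : ∀ s : ℝ, (max (s - k) 0 + 1 / ((n : ℝ) + 1)) ^ 2 ≠ 0 := fun s => by
        have h0 : 0 ≤ max (s - k) 0 := le_max_right _ _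
        positivity
      have g2 : ∀ s : ℝ, (max (-s - k) 0 + 1 / ((n : ℝ) + 1)) ^ 2 ≠ 0 := fun s => by
        have h0 : 0 ≤ max (-s - k) 0 := le_max_right _ _
        positivity
      refine Continuous.add (continuous_const.sub (continuous_const.div ?_ g1))
        (continuous_const.sub (continuous_const.div ?_ g2))
      · fun_prop
      · fun_prop)
    (fun n => by simp) 2
    (fun n s => by
      rw [(hder n s).deriv]
      have b1 := hb n (s - k)
      have b2 := hb n (-s - k)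
      rw [abs_of_nonneg (by linarith [b1.1, b2.1])]
      linarith [b1.2, b2.2])
    (fun s => sft k s) (fun s => (if 0 < s - k then 1 else 0) + (if 0 < -s - k then 1 else 0))
    (fun s => by
      have hh : ∀ x : ℝ, Tendsto (fun n : ℕ => soA_h (1 / ((n : ℝ) + 1)) x) atTop
          (𝓝 (max x 0)) := by
        intro x
        refine tendsto_of_tendsto_of_tendsto_of_le_of_le (g := fun n : ℕ =>
          max x 0 - 1 / ((n : ℝ) + 1)) (h := fun _ => max x 0) ?_ tendsto_const_nhds
          (fun n => (soA_h_le (hp n) x).1) (fun n => (soA_h_le (hp n) x).2)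
        have := (tendsto_const_nhds (x := max x 0) (f := (atTop : Filter ℕ))).sub hlim
        simpa using this
      exact (hh (s - k)).sub (hh (-s - k)))
    (fun s => by
      refine ((hdlim (s - k)).add (hdlim (-s - k))).congr fun n => ?_
      rw [(hder n s).deriv]) u
  refine ⟨w, w1, ?_⟩
  filter_upwards [w2] with x e
  rw [e]
  rcases lt_or_ge k (fn u x) with h | h
  · rw [if_pos (by linarith : 0 < fn u x - k), if_neg (by linarith : ¬ 0 < -fn u x - k), add_zero,
      one_smul, if_pos (lt_of_lt_of_le h (le_abs_self _))]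
  · rcases lt_or_ge (fn u x) (-k) with h' | h'
    · rw [if_neg (by linarith : ¬ 0 < fn u x - k), if_pos (by linarith : 0 < -fn u x - k),
        zero_add, one_smul, if_pos (by rw [lt_abs]; right; linarith)]
    · rw [if_neg (by linarith : ¬ 0 < fn u x - k), if_neg (by linarith : ¬ 0 < -fn u x - k),
        add_zero, zero_smul, if_neg (not_lt.2 (abs_le.2 ⟨h', h⟩))]

/-- module soB. Inner products (`H1_ext`: `T` is the one of `soft_H`; `gr (u - T) = 0` where `k < |u|`, `= gr u` elsewhere). -/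
theorem soft_ip {k : ℝ} (hk : 0 < k) {u T : H1 N} (hT : IsT k u T) {l : ℝ} (hl : 0 ≤ l) :
    ip l T T + ip l (u - T) (u - T) ≤ ip l u u ∧ ip l T T ≤ ip l u T ∧
      ip l (u - T) (u - T) ≤ ip l u (u - T) ∧ 0 ≤ ip l T (u - T) ∧ gX T (u - T) = 0 ∧
      0 ≤ gY T (u - T) := by
  obtain ⟨T', hT1, hT2⟩ := soft_H hk u
  have hTT : T' = T := H1_ext (by
    filter_upwards [hT, hT1] with x a b
    rw [a, b])
  subst hTT
  have hX : gX T' (u - T') = 0 := by
    unfold gX
    rw [← integral_zero (E N) ℝ (μ := volume)]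
    refine integral_congr_ae ?_
    filter_upwards [hT2, gr_sub u T'] with x a b
    rw [b, a]
    by_cases h : k < |fn u x|
    · rw [if_pos h, sub_self, inner_zero_right]
    · rw [if_neg h, inner_zero_left]
  have hY : 0 ≤ gY T' (u - T') := by
    unfold gY
    refine integral_nonneg_of_ae ?_
    filter_upwards [hT, fn_sub u T'] with x a b
    rw [b, a]
    exact (sft_facts hk (fn u x)).2.2.1
  have hI : 0 ≤ ip l T' (u - T') := by
    unfold ip
    rw [hX, zero_add]
    exact mul_nonneg hl hY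
  have e1 : ip l T' (u - T') = ip l u T' - ip l T' T' := by
    rw [ip_sub_right, ip_comm l T' u]
  have e2 : ip l (u - T') (u - T') = ip l u (u - T') - ip l T' (u - T') := ip_sub_left l u T' _
  have e3 : ip l u (u - T') = ip l u u - ip l u T' := ip_sub_right l u T' u
  refine ⟨by linarith, by linarith, by linarith, hI, hX, hY⟩

/-- module soB. If `u` is nonnegative so are `T` and `u - T`; if `u` is `RD` so is `T` (`RD_prof`, `RD_of_prof`). -/
theorem soft_RD [Dim N] {k : ℝ} (hk : 0 < k) {u T : H1 N} (hT : IsT k u T) :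
    ((∀ᵐ x : E N, 0 ≤ fn u x) → (∀ᵐ x : E N, 0 ≤ fn T x) ∧ ∀ᵐ x : E N, 0 ≤ fn (u - T) x) ∧
      (RD u → RD T) := by
  refine ⟨fun h => ⟨?_, ?_⟩, fun h => ?_⟩
  · filter_upwards [h, hT] with x a b
    rw [b]
    exact ((sft_facts hk (fn u x)).2.2.2.1 a).1
  · filter_upwards [h, hT, fn_sub u T] with x a b c
    rw [c, b]
    exact ((sft_facts hk (fn u x)).2.2.2.1 a).2
  · obtain ⟨f, f1, f2, f3⟩ := RD_prof h
    refine RD_of_prof (f := fun r => sft k (f r)) ?_ (fun r => ?_) ?_
    · intro r hr r' hr' hrr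
      have h1 := f1 hr hr' hrr
      unfold sft
      have h2 : max (f r' - k) 0 ≤ max (f r - k) 0 := max_le_max (by linarith) le_rfl
      have h3 : max (-f r - k) 0 ≤ max (-f r' - k) 0 := max_le_max (by linarith) le_rfl
      simp only []
      linarith
    · exact ((sft_facts hk (f r)).2.2.2.1 (f2 r)).1
    · filter_upwards [hT, f3] with x a b
      rw [a, b]

private theorem soC_fc {k : ℝ} {u T : H1 N} (hT : IsT k u T) :
    ∀ᵐ x : E N, fn T x = sft k (fn u x) ∧ fn (u - T) x = fn u x - sft k (fn u x) := by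
  filter_upwards [hT, fn_sub u T] with x h1 h2
  exact ⟨h1, by rw [h2, h1]⟩

private theorem soC_young {et s t : ℝ} (h : 0 < et) :
    (s + t) ^ 2 ≤ (1 + et) * s ^ 2 + (1 + 1 / et) * t ^ 2 := by
  have h1 : 0 ≤ (et * s - t) ^ 2 / et := div_nonneg (sq_nonneg _) h.le
  have h2 : (et * s - t) ^ 2 / et = et * s ^ 2 - 2 * s * t + 1 / et * t ^ 2 := by
    field_simp
    ring
  rw [h2] at h1
  nlinarith [h1]

/-- module soC. `(s + t)² ≤ (1 + η) s² + (1 + 1/η) t²` pointwise, integrate against `v²` (`Q4_integrable`, `fn_sub`). -/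
theorem soft_Q [Dim N] {k : ℝ} (hk : 0 < k) {u T : H1 N} (hT : IsT k u T) (v : H1 N) :
    Q4 (u - T) (u - T) v v ≤ k ^ 2 * gY v v ∧ Q4 T T v v ≤ Q4 u u v v ∧
      ∀ et : ℝ, 0 < et → Q4 u u v v ≤ (1 + et) * Q4 T T v v + (1 + 1 / et) * (k ^ 2 * gY v v) := by
  have hc := soC_fc hT
  have iY : Integrable (fun x => k ^ 2 * (fn v x * fn v x)) (volume : Measure (E N)) :=
    ((fn_memLp v).integrable_mul (fn_memLp v)).const_mul _
  have eY : k ^ 2 * gY v v = ∫ x, k ^ 2 * (fn v x * fn v x) := by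
    unfold gY
    rw [integral_const_mul]
  have hsq : ∀ t : ℝ, (t - sft k t) ^ 2 ≤ k ^ 2 := fun t =>
    sq_le_sq' (by linarith [(abs_le.1 (sft_facts hk t).1).1]) (abs_le.1 (sft_facts hk t).1).2
  have hA : Q4 (u - T) (u - T) v v ≤ k ^ 2 * gY v v := by
    rw [eY]
    refine integral_mono_ae (Q4_integrable _ _ _ _) iY ?_
    filter_upwards [hc] with x hx
    show fn (u - T) x * fn (u - T) x * fn v x * fn v x ≤ k ^ 2 * (fn v x * fn v x)
    rw [hx.2]
    have h1 := hsq (fn u x)
    nlinarith [mul_le_mul_of_nonneg_right h1 (mul_self_nonneg (fn v x))]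
  refine ⟨hA, ?_, ?_⟩
  · refine integral_mono_ae (Q4_integrable _ _ _ _) (Q4_integrable _ _ _ _) ?_
    filter_upwards [hc] with x hx
    show fn T x * fn T x * fn v x * fn v x ≤ fn u x * fn u x * fn v x * fn v x
    rw [hx.1]
    have h1 : sft k (fn u x) ^ 2 ≤ fn u x ^ 2 := sq_le_sq.2 (sft_facts hk (fn u x)).2.1
    nlinarith [mul_le_mul_of_nonneg_right h1 (mul_self_nonneg (fn v x))]
  · intro et het
    have h1 : Q4 u u v v ≤ (1 + et) * Q4 T T v v + (1 + 1 / et) * Q4 (u - T) (u - T) v v := by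
      have e : (1 + et) * Q4 T T v v + (1 + 1 / et) * Q4 (u - T) (u - T) v v =
          ∫ x, ((1 + et) * (fn T x * fn T x * fn v x * fn v x) +
            (1 + 1 / et) * (fn (u - T) x * fn (u - T) x * fn v x * fn v x)) := by
        unfold Q4
        rw [integral_add ((Q4_integrable _ _ _ _).const_mul _) ((Q4_integrable _ _ _ _).const_mul _),
          integral_const_mul, integral_const_mul]
      rw [e]
      refine integral_mono_ae (Q4_integrable _ _ _ _)
        (((Q4_integrable _ _ _ _).const_mul _).add ((Q4_integrable _ _ _ _).const_mul _)) ?_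
      filter_upwards [hc] with x hx
      show fn u x * fn u x * fn v x * fn v x ≤ (1 + et) * (fn T x * fn T x * fn v x * fn v x) +
            (1 + 1 / et) * (fn (u - T) x * fn (u - T) x * fn v x * fn v x)
      have h2 := soC_young (s := fn T x) (t := fn (u - T) x) het
      have h3 : fn T x + fn (u - T) x = fn u x := by
        rw [hx.1, hx.2]
        ring
      rw [h3] at h2
      nlinarith [mul_le_mul_of_nonneg_right h2 (mul_self_nonneg (fn v x))]
    refine h1.trans ?_
    have h4 : (1 + 1 / et) * Q4 (u - T) (u - T) v v ≤ (1 + 1 / et) * (k ^ 2 * gY v v) :=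
      mul_le_mul_of_nonneg_left hA (by positivity)
    linarith

/-- module soC. Quartic terms (pointwise inequalities from `sft_facts`). -/
theorem soft_P [Dim N] {k : ℝ} (hk : 0 < k) {u T : H1 N} (hT : IsT k u T) :
    Q4 T T T T + Q4 (u - T) (u - T) (u - T) (u - T) ≤ Q4 u u u u ∧ 0 ≤ Q4 u u u T ∧
      ∀ T2 : H1 N, IsT (2 * k) u T2 → Q4 u u u T2 ≤ 16 * Q4 T T T T := by
  have hc := soC_fc hT
  refine ⟨?_, ?_, ?_⟩
  · have e : Q4 T T T T + Q4 (u - T) (u - T) (u - T) (u - T) =
        ∫ x, (fn T x * fn T x * fn T x * fn T x +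
          fn (u - T) x * fn (u - T) x * fn (u - T) x * fn (u - T) x) := by
      unfold Q4
      rw [integral_add (Q4_integrable _ _ _ _) (Q4_integrable _ _ _ _)]
    rw [e]
    refine integral_mono_ae ((Q4_integrable _ _ _ _).add (Q4_integrable _ _ _ _))
      (Q4_integrable _ _ _ _) ?_
    filter_upwards [hc] with x hx
    show fn T x * fn T x * fn T x * fn T x +
          fn (u - T) x * fn (u - T) x * fn (u - T) x * fn (u - T) x ≤
            fn u x * fn u x * fn u x * fn u x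
    rw [hx.1, hx.2]
    have h1 := (sft_facts hk (fn u x)).2.2.1
    set a := sft k (fn u x)
    obtain ⟨c, hcc⟩ : ∃ c, c = fn u x - a := ⟨_, rfl⟩
    have h2 : fn u x = a + c := by rw [hcc]; ring
    rw [← hcc] at h1 ⊢
    rw [h2]
    nlinarith [mul_nonneg h1 (sq_nonneg a), mul_nonneg h1 (sq_nonneg c), mul_nonneg h1 h1]
  · refine integral_nonneg_of_ae ?_
    filter_upwards [hc] with x hx
    show 0 ≤ fn u x * fn u x * fn u x * fn T x
    rw [hx.1]
    have h1 := (sft_facts hk (fn u x)).2.2.1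
    have h2 : 0 ≤ fn u x * sft k (fn u x) := by nlinarith [sq_nonneg (sft k (fn u x))]
    have h3 := mul_nonneg (mul_self_nonneg (fn u x)) h2
    linarith
  · intro T2 hT2
    have e : 16 * Q4 T T T T = ∫ x, 16 * (fn T x * fn T x * fn T x * fn T x) := by
      unfold Q4
      rw [integral_const_mul]
    rw [e]
    refine integral_mono_ae (Q4_integrable _ _ _ _) ((Q4_integrable _ _ _ _).const_mul _) ?_
    filter_upwards [hc, hT2] with x hx hx2
    show fn u x * fn u x * fn u x * fn T2 x ≤ 16 * (fn T x * fn T x * fn T x * fn T x)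
    rw [hx.1, hx2]
    have h2k : 0 < 2 * k := by linarith
    rcases le_or_gt |fn u x| (2 * k) with h | h
    · rw [(sft_facts h2k (fn u x)).2.2.2.2.1 h]
      have : 0 ≤ (sft k (fn u x) * sft k (fn u x)) ^ 2 := sq_nonneg _
      nlinarith [this]
    · have h1 := (sft_facts hk (fn u x)).2.2.2.2.2.1 h
      have h2 := (sft_facts h2k (fn u x)).2.1
      have h3 : |fn u x * fn u x * fn u x * sft (2 * k) (fn u x)| ≤ |fn u x| ^ 4 := by
        rw [abs_mul, abs_mul, abs_mul]
        calc |fn u x| * |fn u x| * |fn u x| * |sft (2 * k) (fn u x)|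
            ≤ |fn u x| * |fn u x| * |fn u x| * |fn u x| := by gcongr
          _ = |fn u x| ^ 4 := by ring
      have h4 : |fn u x| ^ 4 ≤ (2 * |sft k (fn u x)|) ^ 4 := pow_le_pow_left₀ (abs_nonneg _) h1 4
      have h5 : (2 * |sft k (fn u x)|) ^ 4 =
          16 * (sft k (fn u x) * sft k (fn u x) * sft k (fn u x) * sft k (fn u x)) := by
        rw [mul_pow, Even.pow_abs (by decide)]
        ring
      rw [h5] at h4
      exact (le_abs_self _).trans (h3.trans h4)

/-- module soD. `u ≥ 0`, `c = u - T`: on `{u ≤ k}` `c = u`, on `{u > k}` `c = k ≤ u`; Hölder. `∫ v² u T ≤ ∫ v² u²`; `∫ v² u c ≤ (∫ u²v²)^(1/2) (∫ c² v²)^(1/2)`. -/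
theorem soft_c [Dim N] {k : ℝ} (hk : 0 < k) {u T : H1 N} (hT : IsT k u T)
    (hu : ∀ᵐ x : E N, 0 ≤ fn u x) (v : H1 N) :
    Q4 u u u (u - T) ≤ n4 (u - T) ^ 4 + n4 u ^ 3 * n4 (u - T) ∧
      Q4 v v u T ≤ Q4 u u v v ∧ Q4 v v u (u - T) ^ 2 ≤ Q4 u u v v * (k ^ 2 * gY v v) := by
  have hc := soC_fc hT
  refine ⟨?_, ?_, ?_⟩
  · have h1 := (le_abs_self _).trans (Q4_le u u u (u - T))
    have h2 : 0 ≤ n4 (u - T) ^ 4 := pow_nonneg (n4_nonneg _) 4
    calc Q4 u u u (u - T) ≤ n4 u * n4 u * n4 u * n4 (u - T) := h1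
      _ = n4 u ^ 3 * n4 (u - T) := by ring
      _ ≤ _ := by linarith
  · refine integral_mono_ae (Q4_integrable _ _ _ _) (Q4_integrable _ _ _ _) ?_
    filter_upwards [hc, hu] with x hx hux
    show fn v x * fn v x * fn u x * fn T x ≤ fn u x * fn u x * fn v x * fn v x
    rw [hx.1]
    have h1 := ((sft_facts hk (fn u x)).2.2.2.1 hux).2
    have h2 : fn u x * sft k (fn u x) ≤ fn u x * fn u x :=
      mul_le_mul_of_nonneg_left (by linarith) hux
    nlinarith [mul_le_mul_of_nonneg_right h2 (mul_self_nonneg (fn v x))]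
  · have h1 := Q4_cs' v u v (u - T)
    have e1 : Q4 v u v (u - T) = Q4 v v u (u - T) := Q4_swap23 _ _ _ _
    have e2 : Q4 v v u u = Q4 u u v v := Q4_swapp _ _ _ _
    have e3 : Q4 v v (u - T) (u - T) = Q4 (u - T) (u - T) v v := Q4_swapp _ _ _ _
    rw [e1, e2, e3] at h1
    exact h1.trans (mul_le_mul_of_nonneg_left (soft_Q hk hT v).1 (Q4_nonneg u v))

private theorem soE_dil [Dim N] : ∃ C : ℝ, 0 < C ∧ ∀ (u : H1 N) (sg : ℝ), 0 < sg →
    sg ^ N * Q4 u u u u ^ 2 ≤ C * gY u u * (sg * gX u u + gY u u) ^ 3 := by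
  obtain ⟨C, hC, H⟩ := gn (N := N)
  refine ⟨C, hC, fun u sg hsg => ?_⟩
  obtain ⟨s, hs, rfl⟩ : ∃ s : ℝ, 0 < s ∧ sg = s ^ 2 := ⟨√sg, Real.sqrt_pos.2 hsg,
    (Real.sq_sqrt hsg.le).symm⟩
  obtain ⟨T, _, h1, h2⟩ := dil_H (N := N) s hs
  have h3 := H (T u)
  have e0 : ∫ x, fn (T u) x ^ 4 = Q4 (T u) (T u) (T u) (T u) := by
    unfold Q4
    congr 1
    ext x
    ring
  rw [e0, h2, norm_sq_eq] at h3
  have k1 := h1 0 u u
  have k2 := h1 1 u u
  unfold ip at k1 k2 h3
  rw [mul_zero, zero_mul, zero_mul, add_zero, add_zero] at k1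
  rw [mul_one, one_mul] at k2
  rw [one_mul] at h3
  rw [k1] at k2 h3
  have k3 : s ^ 2 * gY (T u) (T u) = s ^ (4 - N) * gY u u := by linarith
  have hs2 : 0 < s ^ 2 := by positivity
  have k4 : gY (T u) (T u) = s ^ (4 - N) * gY u u / s ^ 2 := by
    rw [eq_div_iff hs2.ne']
    linarith
  rw [k4] at h3
  have hX := gX_nonneg u
  have hY := gY_nonneg u
  rcases Dim.h (N := N) with rfl | rfl
  · norm_num at h3 ⊢
    have e1 : s ^ 2 * gY u u / s ^ 2 = gY u u := by field_simp
    rw [e1] at h3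
    calc (s ^ 2) ^ 2 * Q4 u u u u ^ 2 = (s ^ 2 * Q4 u u u u) ^ 2 := by ring
      _ ≤ _ := h3
  · norm_num at h3 ⊢
    have e1 : s * gY u u / s ^ 2 = gY u u / s := by field_simp
    rw [e1] at h3
    have e2 : s * gX u u + gY u u / s = (s ^ 2 * gX u u + gY u u) / s := by field_simp
    rw [e2] at h3
    have h4 := mul_le_mul_of_nonneg_left h3 (by positivity : 0 ≤ s ^ 4)
    calc (s ^ 2) ^ 3 * Q4 u u u u ^ 2 = s ^ 4 * (s * Q4 u u u u) ^ 2 := by ring
      _ ≤ s ^ 4 * (C * (gY u u / s) * ((s ^ 2 * gX u u + gY u u) / s) ^ 3) := h4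
      _ = C * gY u u * (s ^ 2 * gX u u + gY u u) ^ 3 := by field_simp

/-- module soE. **Gagliardo-Nirenberg, scale invariant.** Apply `gn` to the dilations of `u` (`dil_H s`: `gX` is multiplied by `s^(4-N)`, `gY` by
`s^(4-N)/s²`, `Q4` by `s^(4-N)`, `norm_sq_eq`), with `s² = gY u u / gX u u` (`u ≠ 0`; `gX u u > 0` then: if `gX u u = 0` let `s → ∞`, or use that the
left side must vanish). -/
theorem gnX [Dim N] : ∃ C : ℝ, 0 < C ∧ ∀ u : H1 N,
    Q4 u u u u ^ 2 ≤ C * gX u u ^ N * gY u u ^ (4 - N) := by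
  obtain ⟨C, hC, H⟩ := soE_dil (N := N)
  refine ⟨8 * C, by positivity, fun u => ?_⟩
  have hN : 1 ≤ N := by
    rcases Dim.h (N := N) with h | h <;> omega
  have hN4 : N ≤ 4 := by
    rcases Dim.h (N := N) with h | h <;> omega
  have hX := gX_nonneg u
  rcases eq_or_ne u 0 with h0 | h0
  · rw [h0, Q4_zero1]
    have h1 := gX_nonneg (0 : H1 N)
    have h2 := gY_nonneg (0 : H1 N)
    have : 0 ≤ 8 * C * gX (0 : H1 N) 0 ^ N * gY (0 : H1 N) 0 ^ (4 - N) := by positivity
    simpa using this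
  have hY := gY_pos h0
  have hP := Q4_pos h0
  rcases hX.eq_or_lt with hX0 | hXp
  · exfalso
    have hP2 : 0 < Q4 u u u u ^ 2 := by positivity
    set sg : ℝ := max 1 ((C * gY u u ^ 4 + 1) / Q4 u u u u ^ 2) with hsg
    have hs1 : 1 ≤ sg := le_max_left _ _
    have hs2 : (C * gY u u ^ 4 + 1) / Q4 u u u u ^ 2 ≤ sg := le_max_right _ _
    have h3 := H u sg (by linarith)
    rw [← hX0] at h3
    have h4 : sg ≤ sg ^ N := le_self_pow₀ hs1 (by omega)
    rw [div_le_iff₀ hP2] at hs2
    have h5 : sg * Q4 u u u u ^ 2 ≤ sg ^ N * Q4 u u u u ^ 2 := mul_le_mul_of_nonneg_right h4 hP2.le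
    have h6 : C * gY u u * (sg * 0 + gY u u) ^ 3 = C * gY u u ^ 4 := by ring
    linarith
  · have h3 := H u (gY u u / gX u u) (by positivity)
    have h4 : gY u u / gX u u * gX u u + gY u u = 2 * gY u u := by
      field_simp
      ring
    rw [h4, div_pow, div_mul_eq_mul_div, div_le_iff₀ (by positivity)] at h3
    have h5 : gY u u ^ 4 = gY u u ^ N * gY u u ^ (4 - N) := by
      rw [← pow_add]
      congr 1
      omega
    have h6 : gY u u ^ N * Q4 u u u u ^ 2 ≤
        gY u u ^ N * (8 * C * gX u u ^ N * gY u u ^ (4 - N)) := by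
      calc gY u u ^ N * Q4 u u u u ^ 2 ≤ C * gY u u * (2 * gY u u) ^ 3 * gX u u ^ N := h3
        _ = 8 * C * gX u u ^ N * gY u u ^ 4 := by ring
        _ = _ := by rw [h5]; ring
    exact le_of_mul_le_mul_left h6 (by positivity)

private theorem soF_Y [Dim N] {k : ℝ} (hk : 0 < k) {u T : H1 N} (hT : IsT k u T) :
    gY T T ^ 2 ≤ Q4 u u u u / k ^ 4 * Q4 T T T T := by
  have h1 : k ^ 2 * gY T T ≤ Q4 u u T T := by
    unfold gY
    rw [← integral_const_mul]
    refine integral_mono_ae (((fn_memLp T).integrable_mul (fn_memLp T)).const_mul _)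
      (Q4_integrable _ _ _ _) ?_
    filter_upwards [hT] with x hx
    show k ^ 2 * (fn T x * fn T x) ≤ fn u x * fn u x * fn T x * fn T x
    rw [hx]
    rcases le_or_gt |fn u x| k with h | h
    · rw [(sft_facts hk (fn u x)).2.2.2.2.1 h]
      simp
    · have h2 : k ^ 2 ≤ fn u x ^ 2 := by
        rw [← sq_abs (fn u x)]
        exact pow_le_pow_left₀ hk.le h.le 2
      nlinarith [mul_le_mul_of_nonneg_right h2 (mul_self_nonneg (sft k (fn u x)))]
  have h2 := Q4_cs u T
  have hY := gY_nonneg T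
  have h3 : (k ^ 2 * gY T T) ^ 2 ≤ Q4 u u u u * Q4 T T T T :=
    (pow_le_pow_left₀ (by positivity) h1 2).trans h2
  have h4 : (k ^ 2 * gY T T) ^ 2 = k ^ 4 * gY T T ^ 2 := by ring
  rw [h4] at h3
  have hk4 : 0 < k ^ 4 := by positivity
  rw [div_mul_eq_mul_div, le_div_iff₀ hk4]
  linarith

/-- module soF. **Support.** `ω = {k < |u|}`: `k⁴ |ω| ≤ Q4 u u u u` (Chebyshev), `T = 0` outside `ω`, `gY T T ≤ sqrt |ω| sqrt (Q4 T T T T)` (Hölder), `gnX`:
`P(T)^4 ≤ C² X^(2N) Y^(2(4-N)) ≤ C² X^(2N) (|ω| P(T))^(4-N)`, hence the first; `Y^(2N) ≤ (|ω| P)^N`, hence the second. -/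
theorem soft_supp [Dim N] : ∃ C : ℝ, 0 < C ∧ ∀ (k : ℝ) (u T : H1 N), 0 < k → IsT k u T →
    Q4 T T T T ^ N ≤ C * (Q4 u u u u / k ^ 4) ^ (4 - N) * gX T T ^ (2 * N) ∧
      gY T T ^ N ≤ C * (Q4 u u u u / k ^ 4) ^ 2 * gX T T ^ N := by
  obtain ⟨C, hC, H⟩ := gnX (N := N)
  refine ⟨C ^ 2 + C, by positivity, fun k u T hk hT => ?_⟩
  have hN1 : 1 ≤ N := by
    rcases Dim.h (N := N) with h | h <;> omega
  have hN4 : N ≤ 3 := by
    rcases Dim.h (N := N) with h | h <;> omega
  have hYP := soF_Y hk hT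
  have hg := H T
  have hX := gX_nonneg T
  have hY := gY_nonneg T
  have hP := Q4_nonneg T T
  have hW : 0 ≤ Q4 u u u u / k ^ 4 := div_nonneg (Q4_nonneg u u) (by positivity)
  set w := Q4 u u u u / k ^ 4 with hw
  set P := Q4 T T T T with hPd
  set X := gX T T with hXd
  set Y := gY T T with hYd
  have key : P ^ N ≤ C ^ 2 * w ^ (4 - N) * X ^ (2 * N) := by
    rcases hP.eq_or_lt with h0 | h0
    · rw [← h0, zero_pow (by omega)]
      positivity
    · have h1 : P ^ 4 ≤ C ^ 2 * X ^ (2 * N) * (w * P) ^ (4 - N) := by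
        calc P ^ 4 = (P ^ 2) ^ 2 := by ring
          _ ≤ (C * X ^ N * Y ^ (4 - N)) ^ 2 := pow_le_pow_left₀ (by positivity) hg 2
          _ = C ^ 2 * X ^ (2 * N) * (Y ^ 2) ^ (4 - N) := by
              rw [mul_pow, mul_pow, ← pow_mul, ← pow_mul, ← pow_mul, mul_comm N 2,
                mul_comm (4 - N) 2]
          _ ≤ C ^ 2 * X ^ (2 * N) * (w * P) ^ (4 - N) := by gcongr
      have h2 : P ^ 4 = P ^ (4 - N) * P ^ N := by
        rw [← pow_add]
        congr 1
        omega
      rw [h2, mul_pow] at h1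
      have h3 : P ^ (4 - N) * P ^ N ≤ P ^ (4 - N) * (C ^ 2 * w ^ (4 - N) * X ^ (2 * N)) := by
        calc P ^ (4 - N) * P ^ N ≤ C ^ 2 * X ^ (2 * N) * (w ^ (4 - N) * P ^ (4 - N)) := h1
          _ = _ := by ring
      exact le_of_mul_le_mul_left h3 (by positivity)
  refine ⟨?_, ?_⟩
  · refine key.trans ?_
    have h1 : 0 ≤ C * w ^ (4 - N) * X ^ (2 * N) := by positivity
    calc C ^ 2 * w ^ (4 - N) * X ^ (2 * N)
        ≤ C ^ 2 * w ^ (4 - N) * X ^ (2 * N) + C * w ^ (4 - N) * X ^ (2 * N) := by linarith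
      _ = _ := by ring
  · have h1 : (Y ^ N) ^ 2 ≤ (C * w ^ 2 * X ^ N) ^ 2 := by
      calc (Y ^ N) ^ 2 = (Y ^ 2) ^ N := by rw [← pow_mul, ← pow_mul, mul_comm]
        _ ≤ (w * P) ^ N := pow_le_pow_left₀ (by positivity) hYP N
        _ = w ^ N * P ^ N := mul_pow _ _ _
        _ ≤ w ^ N * (C ^ 2 * w ^ (4 - N) * X ^ (2 * N)) := by gcongr
        _ = C ^ 2 * (w ^ N * w ^ (4 - N)) * X ^ (2 * N) := by ring
        _ = C ^ 2 * w ^ 4 * X ^ (2 * N) := by
            rw [← pow_add]
            congr 3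
            omega
        _ = (C * w ^ 2 * X ^ N) ^ 2 := by
            rw [mul_pow, mul_pow, ← pow_mul, ← pow_mul, mul_comm N 2]
    have h2 : Y ^ N ≤ C * w ^ 2 * X ^ N :=
      (pow_le_pow_iff_left₀ (by positivity) (by positivity) (by norm_num)).1 h1
    refine h2.trans ?_
    have h3 : 0 ≤ C ^ 2 * w ^ 2 * X ^ N := by positivity
    calc C * w ^ 2 * X ^ N ≤ C ^ 2 * w ^ 2 * X ^ N + C * w ^ 2 * X ^ N := by linarith
      _ = _ := by ring

end Sir
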