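import Pool.Agent.SirF.Rel
import Pool.Agent.SirF.Kap
import Pool.Agent.SirF.Soft
/-!
# No ground state far below the threshold (text MP_2cd2dd_an_far_helper13.md, section 3)
modules: nfA, nfB, nfC, nfD, nfE, nfF, nfG
-/

namespace Sir

open MeasureTheory Filter Topology

variable {N : ℕ}

/-- module nfA. `S2_scale` with `s = sqrt l`, squared. -/
theorem S2_sq [Dim N] {l : ℝ} (hl : 0 < l) : S2 N l ^ 2 = l ^ (4 - N) * S2 N 1 ^ 2 := by

  have h := S2_scale (N := N) (l := 1) (s := Real.sqrt l) one_pos (Real.sqrt_pos.2 hl)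
  rw [Real.sq_sqrt hl.le, mul_one] at h
  rw [h, mul_pow, ← pow_mul, mul_comm (4 - N) 2, pow_mul, Real.sq_sqrt hl.le]

private theorem nfA_two {ep d y : ℝ} (hep : 0 ≤ ep) (hd : 0 < d)
    (hd2 : d ≤ ep ^ 2 / 10) (hy : 0 ≤ y) (hy1 : y ≤ 1)
    (h : ∀ t : ℝ, -1 < t → (1 + t) ^ 2 ≤ (1 + d) ^ 2 * (1 + y * t) ^ 4) :
    |y - 1 / 2| ≤ ep := by
  set e : ℝ := y - 1 / 2 with he
  have hy2 : y = 1 / 2 + e := by rw [he]; ring
  have he1 : -(1 / 2) ≤ e := by linarith
  have he2 : e ≤ 1 / 2 := by linarith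
  have h1 := h (-e) (by linarith)
  have h2 : 1 + -e ≤ (1 + d) * (1 + y * -e) ^ 2 := by
    have h3 : (1 + -e) ^ 2 ≤ ((1 + d) * (1 + y * -e) ^ 2) ^ 2 := by
      calc _ ≤ _ := h1
        _ = _ := by ring
    exact le_of_sq_le_sq h3 (by positivity)
  have h3 : (1 + y * -e) ^ 2 = 1 - e - 2 * e ^ 2 + y ^ 2 * e ^ 2 := by
    rw [hy2]
    ring
  rw [h3] at h2
  have h4 : y ^ 2 * e ^ 2 ≤ e ^ 2 := by
    have : y ^ 2 ≤ 1 := by nlinarith
    nlinarith [sq_nonneg e]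
  have h5 : e ^ 2 ≤ ep ^ 2 := by nlinarith [sq_nonneg e]
  exact abs_le_of_sq_le_sq h5 hep

private theorem nfA_three {ep d y : ℝ} (hep : 0 ≤ ep) (hd : 0 < d) (hd1 : d ≤ 1)
    (hd2 : d ≤ ep ^ 2 / 10) (hy : 0 ≤ y) (hy1 : y ≤ 1)
    (h : ∀ t : ℝ, -1 < t → 1 + t ≤ (1 + d) ^ 2 * (1 + y * t) ^ 4) :
    |y - 1 / 4| ≤ ep := by
  set e : ℝ := y - 1 / 4 with he
  have hy2 : y = 1 / 4 + e := by rw [he]; ring
  have he1 : -(1 / 4) ≤ e := by linarith
  have he2 : e ≤ 3 / 4 := by linarith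
  have h1 := h (-e / 6) (by linarith)
  set t : ℝ := -e / 6 with ht
  have ht1 : -1 ≤ t := by rw [ht]; linarith
  have ht2 : t ≤ 1 := by rw [ht]; linarith
  have h3 : (1 + y * t) ^ 4 ≤ 1 + 4 * (y * t) + 11 * t ^ 2 := by
    have h4 : (1 + y * t) ^ 4 = 1 + 4 * (y * t) + y ^ 2 * t ^ 2 * (6 + 4 * (y * t) + y ^ 2 * t ^ 2) := by
      ring
    have h5 : y * t ≤ 1 := by nlinarith
    have h5' : -1 ≤ y * t := by nlinarith
    have h6 : y ^ 2 * t ^ 2 ≤ t ^ 2 := by
      have : y ^ 2 ≤ 1 := by nlinarith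
      nlinarith [sq_nonneg t]
    have h7 : y ^ 2 * t ^ 2 ≤ 1 := by nlinarith [sq_nonneg t]
    have h8 : 0 ≤ y ^ 2 * t ^ 2 := by positivity
    have h9 : 6 + 4 * (y * t) + y ^ 2 * t ^ 2 ≤ 11 := by linarith
    have h10 : y ^ 2 * t ^ 2 * (6 + 4 * (y * t) + y ^ 2 * t ^ 2) ≤ t ^ 2 * 11 :=
      mul_le_mul h6 h9 (by linarith) (sq_nonneg t)
    rw [h4]
    linarith
  have h4 : 4 * (y * t) + 11 * t ^ 2 = t - 13 / 36 * e ^ 2 := by
    rw [hy2, ht]
    ring
  have h5 : 1 + t ≤ (1 + d) ^ 2 * (1 + t - 13 / 36 * e ^ 2) := by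
    refine h1.trans (mul_le_mul_of_nonneg_left ?_ (sq_nonneg _))
    linarith
  have h6 : e ^ 2 ≤ ep ^ 2 := by
    have h7 : t ≤ 1 / 24 := by rw [ht]; linarith
    have h8 : (1 + d) ^ 2 * (13 / 36 * e ^ 2) ≥ 13 / 36 * e ^ 2 := by
      have : 1 ≤ (1 + d) ^ 2 := by nlinarith
      nlinarith [sq_nonneg e]
    have h9 : (1 + d) ^ 2 - 1 ≤ 3 * d := by nlinarith
    have h10 : ((1 + d) ^ 2 - 1) * (1 + t) ≤ 3 * d * (25 / 24) :=
      mul_le_mul h9 (by linarith) (by linarith) (by positivity)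
    nlinarith
  exact abs_le_of_sq_le_sq h6 hep

/-- module nfA. **Near optimal functions for `S2 N 1` almost satisfy Pohozaev's identity.** For every dilation (`dil_H s`):
`S2 N 1 * P(v) ≤ s^(4-N) (X + Y/s²)²`. With `y = Y/b`, `b = ip 1 v v = X + Y`: `1 ≤ (1 + d) s^(4-N) (1 - y + y/s²)²` for all `s > 0`; use
`s = 1 + σ` if `y ≥ (4-N)/4 + ep`, `s = 1 - σ` if `y ≤ (4-N)/4 - ep`, `σ` and then `d` small (`0 ≤ y ≤ 1`). -/
theorem gn_near [Dim N] {ep : ℝ} (hep : 0 < ep) : ∃ d : ℝ, 0 < d ∧ ∀ v : H1 N,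
    ip 1 v v ^ 2 ≤ (1 + d) * (S2 N 1 * Q4 v v v v) →
      |gY v v - (4 - (N : ℝ)) / 4 * ip 1 v v| ≤ ep * ip 1 v v := by

  have key : ∀ (d : ℝ) (v : H1 N), 0 < d → ip 1 v v ^ 2 ≤ (1 + d) * (S2 N 1 * Q4 v v v v) →
      ∀ t : ℝ, -1 < t → (1 + t) ^ (4 - N) * ip 1 v v ^ 4 ≤
        (1 + d) ^ 2 * (ip 1 v v + gY v v * t) ^ 4 := by
    intro d v hd h t ht
    have h0 : 0 < 1 + t := by linarith
    set s : ℝ := Real.sqrt (1 + t) with hs
    have hs0 : 0 < s := Real.sqrt_pos.2 h0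
    have hs2 : s ^ 2 = 1 + t := Real.sq_sqrt h0.le
    obtain ⟨T, -, hT1, hT2⟩ := dil_H (N := N) s⁻¹ (inv_pos.2 hs0)
    have h1 := hT1 (s ^ 2) v v
    have e0 : s⁻¹ ^ 2 * s ^ 2 = 1 := by
      rw [inv_pow, inv_mul_cancel₀ (by positivity)]
    rw [e0] at h1
    have h2 := S2_le (N := N) one_pos (T v)
    rw [hT2, h1] at h2
    have h3 : ip (s ^ 2) v v = ip 1 v v + gY v v * t := by
      unfold ip
      rw [hs2]
      ring
    rw [h3] at h2
    set W : ℝ := s⁻¹ ^ (4 - N) with hW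
    have hW0 : 0 < W := by positivity
    have h4 : S2 N 1 * Q4 v v v v ≤ W * (ip 1 v v + gY v v * t) ^ 2 := by
      have h5 : W * (S2 N 1 * Q4 v v v v) ≤ W * (W * (ip 1 v v + gY v v * t) ^ 2) := by
        calc _ = S2 N 1 * (W * Q4 v v v v) := by ring
          _ ≤ _ := h2
          _ = _ := by ring
      exact le_of_mul_le_mul_left h5 hW0
    have h5 : ip 1 v v ^ 2 ≤ W * ((1 + d) * (ip 1 v v + gY v v * t) ^ 2) := by
      calc _ ≤ _ := h
        _ ≤ (1 + d) * (W * (ip 1 v v + gY v v * t) ^ 2) :=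
          mul_le_mul_of_nonneg_left h4 (by linarith)
        _ = _ := by ring
    have h6 : (ip 1 v v ^ 2) ^ 2 ≤ (W * ((1 + d) * (ip 1 v v + gY v v * t) ^ 2)) ^ 2 :=
      pow_le_pow_left₀ (by positivity) h5 2
    have h7 : (1 + t) ^ (4 - N) * W ^ 2 = 1 := by
      rw [hW, ← hs2, ← pow_mul, ← pow_mul, mul_comm (4 - N) 2, ← mul_pow, mul_inv_cancel₀ hs0.ne',
        one_pow]
    have h8 : 0 ≤ (1 + t) ^ (4 - N) := by positivity
    calc (1 + t) ^ (4 - N) * ip 1 v v ^ 4 = (1 + t) ^ (4 - N) * (ip 1 v v ^ 2) ^ 2 := by ring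
      _ ≤ (1 + t) ^ (4 - N) * (W * ((1 + d) * (ip 1 v v + gY v v * t) ^ 2)) ^ 2 :=
          mul_le_mul_of_nonneg_left h6 h8
      _ = ((1 + t) ^ (4 - N) * W ^ 2) * ((1 + d) ^ 2 * (ip 1 v v + gY v v * t) ^ 4) := by ring
      _ = _ := by rw [h7, one_mul]
  refine ⟨min 1 (ep ^ 2 / 10), by positivity, ?_⟩
  intro v h
  set d : ℝ := min 1 (ep ^ 2 / 10) with hd
  have hd0 : 0 < d := by positivity
  have hd1 : d ≤ 1 := min_le_left _ _
  have hd2 : d ≤ ep ^ 2 / 10 := min_le_right _ _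
  have hk := key d v hd0 h
  by_cases hv : v = 0
  · subst hv
    have h1 : gY (0 : H1 N) 0 = 0 := by
      have := gY_smul_left 0 (0 : H1 N) 0
      simpa using this
    rw [ip_zero_left, h1]
    simp
  · have hb : 0 < ip 1 v v := ip_pos one_pos hv
    set b : ℝ := ip 1 v v with hbd
    have hY0 : 0 ≤ gY v v := gY_nonneg v
    have hY1 : gY v v ≤ b := by
      have := gY_le_ip (l := 1) v
      linarith
    set y : ℝ := gY v v / b with hy
    have hyb : gY v v = y * b := by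
      rw [hy, div_mul_cancel₀ _ hb.ne']
    have hy0 : 0 ≤ y := by positivity
    have hy1 : y ≤ 1 := by
      rw [hy, div_le_one hb]
      exact hY1
    have hk' : ∀ t : ℝ, -1 < t → (1 + t) ^ (4 - N) ≤ (1 + d) ^ 2 * (1 + y * t) ^ 4 := by
      intro t ht
      have h1 := hk t ht
      rw [hyb] at h1
      have h2 : b ^ 4 * (1 + t) ^ (4 - N) ≤ b ^ 4 * ((1 + d) ^ 2 * (1 + y * t) ^ 4) := by
        calc _ = (1 + t) ^ (4 - N) * b ^ 4 := by ring
          _ ≤ _ := h1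
          _ = _ := by ring
      exact le_of_mul_le_mul_left h2 (by positivity)
    have h9 : |y - (4 - (N : ℝ)) / 4| ≤ ep := by
      rcases (‹Dim N›).h with rfl | rfl
      · norm_num at hk' ⊢
        exact nfA_two hep.le hd0 hd2 hy0 hy1 hk'
      · norm_num at hk' ⊢
        exact nfA_three hep.le hd0 hd1 hd2 hy0 hy1 hk'
    have h10 : gY v v - (4 - (N : ℝ)) / 4 * b = (y - (4 - (N : ℝ)) / 4) * b := by
      rw [hyb]
      ring
    rw [h10, abs_mul, abs_of_pos hb]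
    exact mul_le_mul_of_nonneg_right h9 hb.le

private theorem nfB_nn [Dim N] (a b c d : H1 N) (ha : ∀ᵐ x : E N, 0 ≤ fn a x)
    (hb : ∀ᵐ x : E N, 0 ≤ fn b x) (hc : ∀ᵐ x : E N, 0 ≤ fn c x) (hd : ∀ᵐ x : E N, 0 ≤ fn d x) :
    0 ≤ Q4 a b c d := by
  unfold Q4
  refine integral_nonneg_of_ae ?_
  filter_upwards [ha, hb, hc, hd] with x h1 h2 h3 h4
  exact mul_nonneg (mul_nonneg (mul_nonneg h1 h2) h3) h4

private theorem nfB_nn' [Dim N] (a b v : H1 N) (ha : ∀ᵐ x : E N, 0 ≤ fn a x)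
    (hb : ∀ᵐ x : E N, 0 ≤ fn b x) : 0 ≤ Q4 a b v v := by
  unfold Q4
  refine integral_nonneg_of_ae ?_
  filter_upwards [ha, hb] with x h1 h2
  have h3 : fn a x * fn b x * fn v x * fn v x = fn a x * fn b x * (fn v x * fn v x) := by ring
  simp only [Pi.zero_apply]
  rw [h3]
  exact mul_nonneg (mul_nonneg h1 h2) (mul_self_nonneg _)

private theorem nfB_ivt {s A g P0 P1 P2 P3 : ℝ} (hs : 0 < s) (hA : 0 < A) (hg : 0 ≤ g)
    (h0 : 0 ≤ P0) (h0A : P0 < A) (h1 : 0 ≤ P1) (h2 : 0 ≤ P2) (h3 : 0 ≤ P3) :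
    ∃ t : ℝ, 0 ≤ t ∧ P0 + 4 * t * P1 + 6 * t ^ 2 * P2 + 4 * t ^ 3 * P3 + t ^ 4 * s =
      A + 2 * t * g + t ^ 2 * s := by
  set R : ℝ := 1 + (A + 2 * g + s) / s with hR
  have hR1 : 1 ≤ R := by
    rw [hR]
    have : 0 ≤ (A + 2 * g + s) / s := by positivity
    linarith
  have hRs : (A + 2 * g + s) ≤ R * s := by
    rw [hR, add_mul, div_mul_cancel₀ _ hs.ne']
    linarith
  have hcont : ContinuousOn (fun t : ℝ => P0 + 4 * t * P1 + 6 * t ^ 2 * P2 + 4 * t ^ 3 * P3 +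
      t ^ 4 * s - (A + 2 * t * g + t ^ 2 * s)) (Set.Icc 0 R) := by
    apply Continuous.continuousOn
    fun_prop
  have hiv := intermediate_value_Icc (by linarith : (0 : ℝ) ≤ R) hcont
  have h00 : (0 : ℝ) ∈ Set.Icc
      ((fun t : ℝ => P0 + 4 * t * P1 + 6 * t ^ 2 * P2 + 4 * t ^ 3 * P3 +
        t ^ 4 * s - (A + 2 * t * g + t ^ 2 * s)) 0)
      ((fun t : ℝ => P0 + 4 * t * P1 + 6 * t ^ 2 * P2 + 4 * t ^ 3 * P3 +
        t ^ 4 * s - (A + 2 * t * g + t ^ 2 * s)) R) := by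
    constructor
    · simp only
      linarith
    · simp only
      have k1 : 0 ≤ 4 * R * P1 := by positivity
      have k2 : 0 ≤ 6 * R ^ 2 * P2 := by positivity
      have k3 : 0 ≤ 4 * R ^ 3 * P3 := by positivity
      have e0 : R ≤ R ^ 2 := by nlinarith
      have e0' : 1 ≤ R ^ 2 := by nlinarith
      have e1 : A ≤ R ^ 2 * A := le_mul_of_one_le_left hA.le e0'
      have e2 : R * g ≤ R ^ 2 * g := mul_le_mul_of_nonneg_right e0 hg
      have h4 : R ^ 2 * (A + 2 * g + s) ≤ R ^ 2 * (R * s) :=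
        mul_le_mul_of_nonneg_left hRs (by positivity)
      have h5 : R ^ 3 * s ≤ R ^ 4 * s :=
        mul_le_mul_of_nonneg_right (pow_le_pow_right₀ hR1 (by norm_num)) hs.le
      linarith
  obtain ⟨t, ht, ht2⟩ := hiv h00
  refine ⟨t, ht.1, ?_⟩
  simp only at ht2
  linarith

private theorem nfB_real {al sg x A : ℝ} (hal0 : 0 < al) (hsg0 : 0 < sg) (hx0 : 0 ≤ x)
    (hsa : sg ≤ al) (hal : al ^ 4 = A)
    (h2 : x ^ 4 ≤ A + 2 * x * sg ^ 2 * al + x ^ 2 * sg ^ 2) :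
    2 * x * sg ^ 2 * al + x ^ 2 * sg ^ 2 ≤ 8 * (al ^ 2 * sg ^ 2) := by
  have h3 : x ^ 4 ≤ al ^ 4 + 2 * x * al ^ 3 + x ^ 2 * al ^ 2 := by
    have e4 : sg ^ 2 ≤ al ^ 2 := pow_le_pow_left₀ hsg0.le hsa 2
    have e5 : 2 * x * sg ^ 2 * al ≤ 2 * x * al ^ 3 := by
      calc _ ≤ 2 * x * al ^ 2 * al :=
            mul_le_mul_of_nonneg_right (mul_le_mul_of_nonneg_left e4 (by positivity)) hal0.le
        _ = _ := by ring
    have e6 : x ^ 2 * sg ^ 2 ≤ x ^ 2 * al ^ 2 := mul_le_mul_of_nonneg_left e4 (by positivity)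
    rw [hal]
    linarith
  have h4 : x ≤ 2 * al := by
    by_contra hcon
    push Not at hcon
    have e4 : 4 * al ^ 2 ≤ x ^ 2 := by nlinarith
    have e5 : 4 * al ^ 2 * x ^ 2 ≤ x ^ 4 := by nlinarith [sq_nonneg x]
    have e6 : 2 * al ^ 3 * x ≤ al ^ 2 * x ^ 2 := by
      have : 0 ≤ al ^ 2 * x * (x - 2 * al) := by
        have : 0 ≤ x - 2 * al := by linarith
        positivity
      linarith
    have e7 : 4 * al ^ 4 ≤ al ^ 2 * x ^ 2 := by nlinarith [sq_nonneg al]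
    have e8 : 0 < al ^ 4 := by positivity
    linarith
  have e4 : 2 * x * sg ^ 2 * al ≤ 4 * (al ^ 2 * sg ^ 2) := by
    calc 2 * x * sg ^ 2 * al = x * (2 * sg ^ 2 * al) := by ring
      _ ≤ 2 * al * (2 * sg ^ 2 * al) := mul_le_mul_of_nonneg_right h4 (by positivity)
      _ = _ := by ring
  have e5 : x ^ 2 * sg ^ 2 ≤ 4 * (al ^ 2 * sg ^ 2) := by
    have : x ^ 2 ≤ (2 * al) ^ 2 := pow_le_pow_left₀ hx0 h4 2
    have := mul_le_mul_of_nonneg_right this (sq_nonneg sg)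
    linarith
  linarith

private theorem nfB_root {a : ℝ} (ha : 0 < a) : ∃ b : ℝ, 0 < b ∧ b ^ 4 = a := by
  refine ⟨Real.sqrt (Real.sqrt a), Real.sqrt_pos.2 (Real.sqrt_pos.2 ha), ?_⟩
  rw [show (4 : ℕ) = 2 * 2 from rfl, pow_mul, Real.sq_sqrt (Real.sqrt_nonneg a),
    Real.sq_sqrt ha.le]

/-- module nfB. **Competitor.** If `m P(T) ≥ ip l T T` use `deg_level'` for `(T,v)`. Otherwise let `w` be `RD` with `GNo l m w` (`exists_GNo`; `GNo_vals`:
`ip l w w = m P(w) = s := S2 N l / m`) and `t > 0` with `m P(T + t w) = ip l (T + t w) (T + t w)` (intermediate value theorem, quartic growth). `(T + t w, v)` is `Deg`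
(`T, w ≥ 0` a.e. so `Q4 T T v v ≤ Q4 (T + t w) (T + t w) v v`), `deg_level'`: `4 level ≤ ip l (T + t w) (T + t w) = A + t² s + 2 t ip l w T`, `A = ip l T T`,
`ip l w T = m Q4 w w w T ≤ m n4 w ^3 n4 T` (`GNo_sol`, `Q4_le`), i.e. `≤ s^(3/4) (m P(T))^(1/4) ≤ s^(3/4) A^(1/4)`; `t⁴ s ≤ m P(T + t w)`. With
`τ = t (s/A)^(1/4)`, `ε = sqrt (s/A) ≤ 1`: `τ⁴ ≤ 1 + ε τ² + 2 ε τ`, so `τ ≤ 2` and `4 level ≤ A (1 + 8 ε)`. -/
theorem comp_level [Dim N] {l m be : ℝ} (hl : 0 < l) (hm : 0 < m) (hb : 0 < be)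
    (hK : level N l 1 m 1 be ≤ S2 N 1 / (4 * 1)) {T v : H1 N} (hT : ∀ᵐ x : E N, 0 ≤ fn T x)
    (hT0 : T ≠ 0) (hv : v ≠ 0) (hq : ip 1 v v ≤ be * Q4 T T v v) (hs : S2 N l / m ≤ ip l T T) :
    4 * level N l 1 m 1 be ≤
      max (m * Q4 T T T T) (ip l T T + 8 * Real.sqrt (ip l T T * (S2 N l / m))) := by

  have hS2 := S2_pos (N := N) hl
  set s : ℝ := S2 N l / m with hsd
  have hs0 : 0 < s := div_pos hS2 hm
  set A : ℝ := ip l T T with hA
  have hA0 : 0 < A := lt_of_lt_of_le hs0 hs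
  rcases le_or_gt A (m * Q4 T T T T) with hc | hc
  · have h1 := deg_level' (N := N) (l1 := l) (l2 := 1) (m1 := m) (m2 := 1) (be := be) hl one_pos hm
      one_pos ⟨hT0, hv, hc, hq⟩ hK
    refine le_max_of_le_left ?_
    linarith
  · obtain ⟨w, hw, hwr⟩ := exists_GNo (N := N) hl hm
    obtain ⟨hw1, hw2⟩ := GNo_vals hl hm hw
    have hw3 : m * Q4 w w w w = s := by
      rw [hw1, hsd]
      field_simp
    have hw4 : ip l w w = s := hw2
    have hc1 : 0 ≤ Q4 T T T w := nfB_nn T T T w hT hT hT hwr.1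
    have hc2 : 0 ≤ Q4 T w w w := nfB_nn T w w w hT hwr.1 hwr.1 hwr.1
    have hc3 : 0 ≤ Q4 T w v v := nfB_nn' T w v hT hwr.1
    have hc4 : 0 ≤ Q4 w w w T := nfB_nn w w w T hwr.1 hwr.1 hwr.1 hT
    have hg1 : ip l w T = m * Q4 w w w T := GNo_sol hl hm hw T
    have hg0 : 0 ≤ ip l w T := by
      rw [hg1]
      exact mul_nonneg hm.le hc4
    -- the fourth roots
    obtain ⟨al, hal0, hal⟩ := nfB_root hA0
    obtain ⟨sg, hsg0, hsg⟩ := nfB_root hs0
    obtain ⟨mu, hmu0, hmu⟩ := nfB_root hm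
    have hsa : sg ≤ al := by
      refine le_of_pow_le_pow_left₀ (n := 4) (by norm_num) hal0.le ?_
      rw [hal, hsg]
      exact hs
    have hn1 : mu * n4 w ≤ sg := by
      refine le_of_pow_le_pow_left₀ (n := 4) (by norm_num) hsg0.le ?_
      rw [mul_pow, hmu, n4_pow, hsg, hw3]
    have hn2 : mu * n4 T ≤ al := by
      refine le_of_pow_le_pow_left₀ (n := 4) (by norm_num) hal0.le ?_
      rw [mul_pow, hmu, n4_pow, hal]
      exact hc.le
    have hg2 : ip l w T ≤ sg ^ 3 * al := by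
      have h1 := (le_abs_self _).trans (Q4_le w w w T)
      have h2 : (mu * n4 w) ^ 3 ≤ sg ^ 3 :=
        pow_le_pow_left₀ (mul_nonneg hmu0.le (n4_nonneg _)) hn1 3
      calc ip l w T = m * Q4 w w w T := hg1
        _ ≤ m * (n4 w * n4 w * n4 w * n4 T) := mul_le_mul_of_nonneg_left h1 hm.le
        _ = (mu * n4 w) ^ 3 * (mu * n4 T) := by
            rw [← hmu]
            ring
        _ ≤ sg ^ 3 * al := mul_le_mul h2 hn2 (mul_nonneg hmu0.le (n4_nonneg _)) (by positivity)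
    have hip : ∀ t : ℝ, ip l (T + t • w) (T + t • w) = A + 2 * t * ip l w T + t ^ 2 * s := by
      intro t
      rw [ip_add_left, ip_add_right, ip_add_right, ip_smul_left, ip_smul_left, ip_smul_right,
        ip_smul_right, ip_comm l T w, hw4]
      ring
    have hP : ∀ t : ℝ, m * Q4 (T + t • w) (T + t • w) (T + t • w) (T + t • w) =
        m * Q4 T T T T + 4 * t * (m * Q4 T T T w) + 6 * t ^ 2 * (m * Q4 T T w w) +
          4 * t ^ 3 * (m * Q4 T w w w) + t ^ 4 * s := by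
      intro t
      rw [P_expand, ← hw3]
      ring
    have hPge : ∀ t : ℝ, 0 ≤ t → t ^ 4 * s ≤
        m * Q4 (T + t • w) (T + t • w) (T + t • w) (T + t • w) := by
      intro t ht
      rw [hP]
      have h1 : 0 ≤ m * Q4 T T T T := mul_nonneg hm.le (Q4_nonneg T T)
      have h2 : 0 ≤ 4 * t * (m * Q4 T T T w) := by positivity
      have h3 : 0 ≤ 6 * t ^ 2 * (m * Q4 T T w w) := by
        have := Q4_nonneg T w
        positivity
      have h4 : 0 ≤ 4 * t ^ 3 * (m * Q4 T w w w) := by positivity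
      linarith
    -- the intermediate value theorem
    obtain ⟨t, ht0, ht⟩ : ∃ t : ℝ, 0 ≤ t ∧
        m * Q4 (T + t • w) (T + t • w) (T + t • w) (T + t • w) =
          ip l (T + t • w) (T + t • w) := by
      have e1 : 0 ≤ m * Q4 T T w w := mul_nonneg hm.le (Q4_nonneg T w)
      obtain ⟨t, ht0, ht⟩ := nfB_ivt hs0 hA0 hg0 (mul_nonneg hm.le (Q4_nonneg T T)) hc
        (mul_nonneg hm.le hc1) e1 (mul_nonneg hm.le hc2)
      refine ⟨t, ht0, ?_⟩
      rw [hP, hip]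
      exact ht
    have hne : T + t • w ≠ 0 := by
      intro h0
      have h1 := hip t
      rw [h0, ip_zero_left] at h1
      have h2 : 0 ≤ 2 * t * ip l w T + t ^ 2 * s := by positivity
      linarith
    have hqt : ip 1 v v ≤ be * Q4 (T + t • w) (T + t • w) v v := by
      refine hq.trans (mul_le_mul_of_nonneg_left ?_ hb.le)
      rw [Q_expand]
      have h1 : 0 ≤ 2 * t * Q4 T w v v := by positivity
      have h2 : 0 ≤ t ^ 2 * Q4 w w v v := mul_nonneg (sq_nonneg _) (Q4_nonneg _ _)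
      linarith
    have h1 := deg_level' (N := N) (l1 := l) (l2 := 1) (m1 := m) (m2 := 1) (be := be) hl one_pos hm
      one_pos ⟨hne, hv, ht.ge, hqt⟩ hK
    rw [ht, hip] at h1
    have h2 := hPge t ht0
    rw [ht, hip] at h2
    -- the real inequality
    set x : ℝ := t * sg with hx
    have hx0 : 0 ≤ x := by positivity
    have e1 : t ^ 4 * s = x ^ 4 := by
      rw [← hsg, hx]
      ring
    have e2 : t ^ 2 * s = x ^ 2 * sg ^ 2 := by
      rw [← hsg, hx]
      ring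
    have e3 : 2 * t * ip l w T ≤ 2 * x * sg ^ 2 * al := by
      calc 2 * t * ip l w T ≤ 2 * t * (sg ^ 3 * al) :=
            mul_le_mul_of_nonneg_left hg2 (by positivity)
        _ = _ := by
            rw [hx]
            ring
    rw [e1, e2] at h2
    rw [e2] at h1
    have h5 : Real.sqrt (A * s) = al ^ 2 * sg ^ 2 := by
      rw [← hal, ← hsg, show al ^ 4 * sg ^ 4 = (al ^ 2 * sg ^ 2) ^ 2 by ring,
        Real.sqrt_sq (by positivity)]
    refine le_max_of_le_right ?_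
    rw [h5]
    have h6 := nfB_real hal0 hsg0 hx0 hsa hal (h2.trans (by linarith only [e3]))
    linarith only [h6, h1, e3]

/-- module nfC. `v = w` `RD` with `GNo 1 1 w` (`ip 1 w w = P(w) = S2 N 1`), `T = (1 / sqrt be) • w`: `ip 1 w w = be * Q4 T T w w`,
`ip l T T ≥ kap N l 1 / be ≥ s` (`kap_le`), `ip l T T ≤ S2 N 1 / be`, `m P(T) = m S2 N 1 / be² ≤ M² S2 N 1 / be`; `comp_level`. -/
theorem level_up [Dim N] {M : ℝ} (hM : 1 ≤ M) {l m be : ℝ} (hl : 0 < l) (hl1 : l ≤ 1)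
    (hm1 : 1 / M ≤ m) (hm2 : m ≤ M) (hb : 0 < be) (hb2 : m ≤ be ^ 2)
    (hx : be * (S2 N l / m) ≤ kap N l 1)
    (hK : level N l 1 m 1 be ≤ S2 N 1 / (4 * 1)) :
    be * level N l 1 m 1 be ≤ 9 * M ^ 2 * S2 N 1 := by

  have hS := S2_pos (N := N) (l := 1) one_pos
  have hSl := S2_pos (N := N) hl
  have hM0 : 0 < M := by linarith
  have hm : 0 < m := lt_of_lt_of_le (by positivity) hm1
  obtain ⟨w, hw, hwr⟩ := exists_GNo (N := N) (l := 1) (m := 1) one_pos one_pos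
  obtain ⟨hw1, hw2⟩ := GNo_vals (l := 1) (m := 1) one_pos one_pos hw
  rw [one_pow, div_one] at hw1
  rw [div_one] at hw2
  set S : ℝ := S2 N 1 with hSd
  set g : ℝ := Real.sqrt be with hg
  have hg0 : 0 < g := Real.sqrt_pos.2 hb
  have hg2 : g ^ 2 = be := Real.sq_sqrt hb.le
  have hT1 : ip l (g⁻¹ • w) (g⁻¹ • w) = ip l w w / be := by
    rw [ip_smul_left, ip_smul_right, ← hg2]
    field_simp
  have hT2 : Q4 (g⁻¹ • w) (g⁻¹ • w) (g⁻¹ • w) (g⁻¹ • w) = S / be ^ 2 := by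
    rw [Q4_smul1, Q4_smul2, Q4_smul3, Q4_smul4, hw1, ← hg2]
    field_simp
  have hT3 : Q4 (g⁻¹ • w) (g⁻¹ • w) w w = S / be := by
    rw [Q4_smul1, Q4_smul2, hw1, ← hg2]
    field_simp
  have hk : kap N l 1 ≤ ip l w w := by
    have h1 := kap_le (N := N) hl one_pos w w
    rw [hw1, hw2] at h1
    exact le_of_mul_le_mul_right h1 hS
  have hs : S2 N l / m ≤ ip l w w / be := by
    rw [le_div_iff₀ hb]
    calc S2 N l / m * be = be * (S2 N l / m) := by ring
      _ ≤ _ := hx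
      _ ≤ _ := hk
  have hT0 : ∀ᵐ x : E N, 0 ≤ fn (g⁻¹ • w) x := by
    filter_upwards [hwr.1, fn_smul g⁻¹ w] with x h1 h2
    rw [h2]
    exact mul_nonneg (inv_pos.2 hg0).le h1
  have hTne : g⁻¹ • w ≠ 0 := smul_ne_zero (inv_pos.2 hg0).ne' hw.1
  have h1 := comp_level (N := N) hl hm hb hK hT0 hTne hw.1 (by
    rw [hT3, hw2]
    field_simp
    exact le_refl _) (by
    rw [hT1]
    exact hs)
  rw [hT1, hT2] at h1
  have hA : ip l w w ≤ S := by
    rw [← hw2]
    exact ip_mono hl1 w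
  have hbM : 1 ≤ M * be := by
    have h2 : 1 ≤ M * m := by
      have := mul_le_mul_of_nonneg_left hm1 hM0.le
      rwa [mul_one_div_cancel hM0.ne'] at this
    have h3 : 1 ≤ (M * be) ^ 2 := by
      calc (1 : ℝ) ≤ M * m := h2
        _ ≤ M * (M * m) := by nlinarith
        _ ≤ M * (M * be ^ 2) := by
            have := mul_le_mul_of_nonneg_left hb2 (mul_pos hM0 hM0).le
            nlinarith
        _ = _ := by ring
    nlinarith [mul_pos hM0 hb]
  have h2 : be * max (m * (S / be ^ 2)) (ip l w w / be +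
      8 * Real.sqrt (ip l w w / be * (S2 N l / m))) ≤ 9 * M ^ 2 * S := by
    rw [mul_max_of_nonneg _ _ hb.le]
    refine max_le ?_ ?_
    · have e1 : be * (m * (S / be ^ 2)) = m * S / be := by
        field_simp
      rw [e1, div_le_iff₀ hb]
      have e2 : m * S ≤ M * S := mul_le_mul_of_nonneg_right hm2 hS.le
      have e3 : M * S * 1 ≤ M * S * (M * be) := mul_le_mul_of_nonneg_left hbM (by positivity)
      have e4 : 0 ≤ M * S * (M * be) := by positivity
      nlinarith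
    · have e1 : Real.sqrt (ip l w w / be * (S2 N l / m)) ≤ ip l w w / be := by
        have hi : 0 ≤ ip l w w / be := div_nonneg (ip_nonneg hl.le w) hb.le
        rw [← Real.sqrt_sq hi]
        refine Real.sqrt_le_sqrt ?_
        rw [Real.sqrt_sq hi, pow_two]
        exact mul_le_mul_of_nonneg_left hs hi
      have e2 : be * (ip l w w / be) = ip l w w := by field_simp
      have e3 : be * Real.sqrt (ip l w w / be * (S2 N l / m)) ≤ ip l w w := by
        rw [← e2]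
        exact mul_le_mul_of_nonneg_left (by rw [e2]; exact e1) hb.le
      have e4 : (1 : ℝ) ≤ M ^ 2 := one_le_pow₀ hM
      have e5 : S ≤ M ^ 2 * S := by nlinarith
      nlinarith
  have h3 := mul_le_mul_of_nonneg_left h1 hb.le
  have h4 : 0 ≤ be * level N l 1 m 1 be := by
    obtain ⟨h5, -⟩ := level_lt (N := N) (l1 := l) (l2 := 1) (m1 := m) (m2 := 1) (be := be)
      (t := level N l 1 m 1 be + 1) hl one_pos hm one_pos (by linarith)
    positivity
  linarith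

/-- the ground states produced by `good_GS'` for `l1 = l`, `l2 = 1`, `m1 = m`, `m2 = 1` -/
def GdF (l m be : ℝ) (u v : H1 N) : Prop :=
  RD u ∧ RD v ∧ Sol l 1 m 1 be u v ∧ IsMin l 1 m 1 be u v ∧ 0 < Dl m 1 be u v ∧
    m * Q4 u u v v + be * Q4 v v v v ≤ ip l v v ∧ En l 1 m 1 be u v ≤ S2 N 1 / (4 * 1)

/-- module nfD. Elementary consequences, `a = ip l u u`, `b = ip 1 v v`, `q = be * Q4 u u v v`, `p = m P(u)`, `r = P(v)`: `a = p + q`, `b = q + r`, all positive,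
`a + b = 4 level ≤ S2 N 1`, `D = Dl = q² - p r = b q - a r = a q - b p > 0`, so `b p < a q`, `a b < q (a + b)`, `b² = (a + b) r + D`, and (`kap_le`)
`kap N l 1 * q ≤ be * a * b`, hence `kap N l 1 / be < a + b`. -/
theorem GdF_facts [Dim N] {l m be : ℝ} (hl : 0 < l) (hm : 0 < m) (hb : 0 < be) {u v : H1 N}
    (h : GdF l m be u v) : u ≠ 0 ∧ v ≠ 0 ∧ 0 < Q4 u u v v ∧
      ip l u u = m * Q4 u u u u + be * Q4 u u v v ∧ ip 1 v v = be * Q4 u u v v + Q4 v v v v ∧
      ip l u u + ip 1 v v = 4 * level N l 1 m 1 be ∧ ip l u u + ip 1 v v ≤ S2 N 1 ∧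
      level N l 1 m 1 be ≤ S2 N 1 / (4 * 1) ∧
      0 < (be * Q4 u u v v) ^ 2 - m * Q4 u u u u * Q4 v v v v ∧
      ip 1 v v * (m * Q4 u u u u) < ip l u u * (be * Q4 u u v v) ∧
      ip l u u * ip 1 v v < be * Q4 u u v v * (ip l u u + ip 1 v v) ∧
      ip 1 v v ^ 2 = (ip l u u + ip 1 v v) * Q4 v v v v +
        ((be * Q4 u u v v) ^ 2 - m * Q4 u u u u * Q4 v v v v) ∧
      kap N l 1 < be * (ip l u u + ip 1 v v) := by

  obtain ⟨h1, h2, h3, h4, h5, h6, h7⟩ := h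
  obtain ⟨⟨hu, hv, hn1, hn2⟩, hmin⟩ := h4
  have hE := Neh_En (N := N) (l1 := l) (l2 := 1) (m1 := m) (m2 := 1) (be := be) ⟨hu, hv, hn1, hn2⟩
  have hlev := level_IsMin (N := N) hl one_pos (m1 := m) (m2 := 1) (be := be)
    ⟨⟨hu, hv, hn1, hn2⟩, hmin⟩
  have hP : 0 < Q4 u u u u := Q4_pos hu
  have hR : 0 < Q4 v v v v := Q4_pos hv
  have hD : 0 < (be * Q4 u u v v) ^ 2 - m * Q4 u u u u * Q4 v v v v := by
    unfold Dl at h5
    rwa [one_mul] at h5
  have hQ : 0 < Q4 u u v v := by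
    rcases (Q4_nonneg u v).lt_or_eq with h | h
    · exact h
    · exfalso
      rw [← h] at hD
      have : 0 < m * Q4 u u u u * Q4 v v v v := by positivity
      nlinarith
  have ha : ip l u u = m * Q4 u u u u + be * Q4 u u v v := hn1
  have hb' : ip 1 v v = be * Q4 u u v v + Q4 v v v v := by
    rw [hn2]
    ring
  have hk := kap_le (N := N) hl one_pos u v
  rw [← hlev] at hE h7
  set p : ℝ := m * Q4 u u u u with hp
  set q : ℝ := be * Q4 u u v v with hq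
  set r : ℝ := Q4 v v v v with hr
  have hab : ip l u u * ip 1 v v < q * (ip l u u + ip 1 v v) := by
    rw [ha, hb']
    nlinarith
  refine ⟨hu, hv, hQ, ha, hb', by linarith, by linarith, h7, hD, ?_, hab, ?_, ?_⟩
  · rw [ha, hb']
    nlinarith
  · rw [ha, hb']
    ring
  · have h8 : Q4 u u v v * kap N l 1 < Q4 u u v v * (be * (ip l u u + ip 1 v v)) := by
      calc Q4 u u v v * kap N l 1 = kap N l 1 * Q4 u u v v := by ring
        _ ≤ _ := hk
        _ < _ := hab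
        _ = _ := by
            rw [hq]
            ring
    exact lt_of_mul_lt_mul_left h8 hQ.le

private theorem nfE_x1 {h : ℝ} (hh0 : 0 < h) (hh1 : h ≤ 1 / 2) : (1 : ℝ) ≤ 64 / h ^ 2 := by
  rw [le_div_iff₀ (by positivity)]
  nlinarith

private theorem nfE_r1 {et : ℝ} (h0 : 0 < et) (h1 : et ≤ 1 / 96) :
    1 + et ≤ (1 + 3 * et) * (1 - et - et ^ 2) ∧ 0 < 1 - et - et ^ 2 := by
  constructor
  · nlinarith
  · nlinarith

private theorem nfE_sqrt {h s A : ℝ} (hh : 0 < h) (hs : 0 < s) (hA : 0 ≤ A)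
    (hAge : 64 / h ^ 2 * s ≤ A) : Real.sqrt (A * s) ≤ h / 8 * A := by
  have e1 : A * s ≤ (h / 8 * A) ^ 2 := by
    have e2 : s ≤ h ^ 2 / 64 * A := by
      have e3 := mul_le_mul_of_nonneg_left hAge (by positivity : 0 ≤ h ^ 2 / 64)
      have e4 : h ^ 2 / 64 * (64 / h ^ 2 * s) = s := by
        field_simp
      linarith
    calc A * s ≤ A * (h ^ 2 / 64 * A) := mul_le_mul_of_nonneg_left e2 hA
      _ = _ := by ring
  calc Real.sqrt (A * s) ≤ Real.sqrt ((h / 8 * A) ^ 2) := Real.sqrt_le_sqrt e1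
    _ = _ := Real.sqrt_sq (by positivity)

private theorem nfE_case1 {d g p w a b pT pc : ℝ} (hd : 0 < d) (hg : 0 < g) (hp : 0 < p)
    (hw : 0 < w) (hab : 0 < a + b) (hc : 0 ≤ pc) (h4 : pT + pc ≤ p)
    (j1 : a + b ≤ (1 + d) ^ 2 * g ^ 2 * pT) (j2 : g ^ 2 * p < (a + b) - w) :
    w ≤ 2 * d * (a + b) ∧ pc ≤ 2 * d * p := by
  have j6 : (1 + d) ^ 2 - 1 ≤ (1 + d) ^ 2 * (2 * d) := by
    have e1 : 0 < d ^ 2 := by positivity
    have e2 : 0 < d ^ 3 := by positivity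
    linarith
  constructor
  · have j4 : a + b ≤ (1 + d) ^ 2 * ((a + b) - w) := by
      calc a + b ≤ (1 + d) ^ 2 * g ^ 2 * pT := j1
        _ ≤ (1 + d) ^ 2 * g ^ 2 * p := mul_le_mul_of_nonneg_left (by linarith) (by positivity)
        _ = (1 + d) ^ 2 * (g ^ 2 * p) := by ring
        _ ≤ _ := mul_le_mul_of_nonneg_left j2.le (by positivity)
    have j5 : (1 + d) ^ 2 * w ≤ ((1 + d) ^ 2 - 1) * (a + b) := by linarith
    have j7 : (1 + d) ^ 2 * w ≤ (1 + d) ^ 2 * (2 * d * (a + b)) := by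
      calc _ ≤ _ := j5
        _ ≤ (1 + d) ^ 2 * (2 * d) * (a + b) := mul_le_mul_of_nonneg_right j6 hab.le
        _ = _ := by ring
    exact le_of_mul_le_mul_left j7 (by positivity)
  · have k2 : g ^ 2 * p ≤ g ^ 2 * ((1 + d) ^ 2 * pT) := by linarith
    have k3 : p ≤ (1 + d) ^ 2 * pT := le_of_mul_le_mul_left k2 (by positivity)
    have k5 : (1 + d) ^ 2 * pc ≤ ((1 + d) ^ 2 - 1) * p := by
      have := mul_le_mul_of_nonneg_left h4 (by positivity : 0 ≤ (1 + d) ^ 2)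
      linarith
    have k6 : (1 + d) ^ 2 * pc ≤ (1 + d) ^ 2 * (2 * d * p) := by
      calc _ ≤ _ := k5
        _ ≤ (1 + d) ^ 2 * (2 * d) * p := mul_le_mul_of_nonneg_right j6 hp.le
        _ = _ := by ring
    exact le_of_mul_le_mul_left k6 (by positivity)

private theorem nfE_fin1 {h et d ep a b p q D ic : ℝ}
    (hh2 : 2 * h ≤ ep) (hh4 : h ^ 4 ≤ h / 8) (het0 : 0 < et) (het1 : et ≤ h / 48)
    (hd2 : 2 * d = h ^ 4) (hp : 0 < p) (hq : 0 < q) (hb : 0 < b) (ha : a = p + q)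
    (j3 : D / q ≤ 2 * d * (a + b)) (hic : ic ≤ (h ^ 4 + h) * p + et * q) :
    D ≤ ep * q * (a + b) ∧ ic ≤ ep * (a + b) := by
  have ha0 : 0 < a := by rw [ha]; linarith
  have hab : 0 < a + b := by linarith
  constructor
  · rw [div_le_iff₀ hq] at j3
    have e2 : 2 * d * (a + b) * q ≤ ep * (a + b) * q :=
      mul_le_mul_of_nonneg_right (mul_le_mul_of_nonneg_right (by linarith) hab.le) hq.le
    linarith
  · have e2 : (h ^ 4 + h) * p ≤ ep * p := mul_le_mul_of_nonneg_right (by linarith) hp.le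
    have e3 : et * q ≤ ep * q := mul_le_mul_of_nonneg_right (by linarith) hq.le
    have e4 : 0 ≤ ep * b := mul_nonneg (by linarith) hb.le
    have e5 : ep * (a + b) = ep * p + ep * q + ep * b := by
      rw [ha]
      ring
    linarith

private theorem nfE_case2 {h d ep a b q g ic A s D : ℝ} (hh0 : 0 < h) (hh1 : h ≤ 1 / 2)
    (hh2 : 2 * h ≤ ep) (hd0 : 0 < d) (hd1 : d ≤ h / 16) (hq : 0 < q) (hg1 : 1 ≤ g)
    (hic0 : 0 ≤ ic) (hDq : 0 < D / q) (hab : 0 < a + b) (hga : g * a = (a + b) - D / q)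
    (hII : a + b ≤ A + 8 * s) (j1 : s ≤ h / 8 * A) (j3 : A ≤ (1 + d) * g * (a - ic)) :
    D ≤ ep * q * (a + b) ∧ ic ≤ ep * (a + b) := by
  have j2 : a + b ≤ (1 + h) * A := by linarith
  have j4 : g * (a - ic) ≤ (a + b) - D / q - ic := by
    have : ic ≤ g * ic := le_mul_of_one_le_left hic0 hg1
    rw [mul_sub, hga]
    linarith
  have j5 : a + b ≤ (1 + h) * (1 + d) * ((a + b) - D / q - ic) := by
    calc a + b ≤ (1 + h) * A := j2
      _ ≤ (1 + h) * ((1 + d) * g * (a - ic)) := mul_le_mul_of_nonneg_left j3 (by positivity)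
      _ = (1 + h) * (1 + d) * (g * (a - ic)) := by ring
      _ ≤ _ := mul_le_mul_of_nonneg_left j4 (by positivity)
  have j6 : (1 + h) * (1 + d) ≤ 1 + ep := by nlinarith
  have hE11 : 1 ≤ (1 + h) * (1 + d) := by nlinarith
  have e1 : (1 + h) * (1 + d) * (D / q + ic) ≤ ((1 + h) * (1 + d) - 1) * (a + b) := by linarith
  have e2 : D / q + ic ≤ (1 + h) * (1 + d) * (D / q + ic) :=
    le_mul_of_one_le_left (by linarith) hE11
  have e3 : ((1 + h) * (1 + d) - 1) * (a + b) ≤ ep * (a + b) :=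
    mul_le_mul_of_nonneg_right (by linarith) hab.le
  constructor
  · have e4 : D / q ≤ ep * (a + b) := by linarith
    rw [div_le_iff₀ hq] at e4
    linarith
  · linarith

/-- module nfE. **Step 1** of section 3: `θ = th` small, `d = 3 sqrt θ`, `x1` large. Notation of `GdF_facts`, `c = u - T`,
`be k² = θ q / b`; `soft_Q` with `et = sqrt θ`: `be Q4 T T v v ≥ q / (1 + d)`. `sg² = b / (be Q4 T T v v)`, `comp_level` for `sg • T` and `v`
(`ip l (sg T)(sg T) ≥ kap/be ≥ x1 s` by `kap_le`). Case `a + b ≤ A_T (1 + 8 / sqrt x1)`, `A_T = sg² ip l T T ≤ (1+d)(b/q)(a - ip l c c)`, `a b / q = a + b - D/q`: done.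
Case `a + b ≤ sg⁴ m P(T) ≤ (1+d)² (b/q)² m P(T)`: `(b/q)² p < (b/q) a = a + b - D/q`, so `D/q ≤ 2d(a+b)` and `m P(c) ≤ p - m P(T) ≤ 2 d p`; test the first equation of
`Sol` with `c` (`soft_ip`, `soft_c`): `ip l c c ≤ (2d + (2d)^(1/4)) p + sqrt θ q`. -/
theorem step_one [Dim N] {ep : ℝ} (hep : 0 < ep) : ∃ th x1 : ℝ, 0 < th ∧ 1 ≤ x1 ∧
    ∀ (l m be k : ℝ) (u v T : H1 N), 0 < l → l ≤ 1 → 0 < m → 0 < be → GdF l m be u v →
      x1 * be * (S2 N l / m) ≤ kap N l 1 → 0 < k →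
      k ^ 2 = th * Q4 u u v v / ip 1 v v → IsT k u T →
      (be * Q4 u u v v) ^ 2 - m * Q4 u u u u * Q4 v v v v ≤
          ep * (be * Q4 u u v v) * (ip l u u + ip 1 v v) ∧
        ip l (u - T) (u - T) ≤ ep * (ip l u u + ip 1 v v) := by

  -- the constants
  obtain ⟨h, hh0, hh1, hh2⟩ : ∃ h : ℝ, 0 < h ∧ h ≤ 1 / 2 ∧ 2 * h ≤ ep :=
    ⟨min (1 / 2) (ep / 2), by positivity, min_le_left _ _, by
      have := min_le_right (1 / 2) (ep / 2)
      linarith⟩
  have hh4 : h ^ 4 ≤ h / 8 := by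
    have e1 : h ^ 3 ≤ (1 / 2) ^ 3 := pow_le_pow_left₀ hh0.le hh1 3
    have e2 : h ^ 4 = h * h ^ 3 := by ring
    rw [e2]
    nlinarith
  have hh40 : 0 < h ^ 4 := by positivity
  set et : ℝ := h ^ 4 / 6 with het
  have het0 : 0 < et := by positivity
  have het1 : et ≤ h / 48 := by rw [het]; linarith
  have het2 : et ≤ 1 / 96 := by linarith
  set d : ℝ := 3 * et with hd
  have hd0 : 0 < d := by positivity
  have hd2 : 2 * d = h ^ 4 := by rw [hd, het]; ring
  have hd1 : d ≤ h / 16 := by linarith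
  refine ⟨et ^ 2, 64 / h ^ 2, by positivity, nfE_x1 hh0 hh1, ?_⟩
  intro l m be k u v T hl hl1 hm hb hG hx hk hk2 hT
  have hGG := hG
  obtain ⟨hu, hv, hQ, ha, hbb, hlev, hS, hlS, hD, h1, h2, h3, h4⟩ := GdF_facts hl hm hb hG
  obtain ⟨hur, hvr, hsol, -, -, -, -⟩ := hG
  set a : ℝ := ip l u u with had
  set b : ℝ := ip 1 v v with hbd
  set Q : ℝ := Q4 u u v v with hQd
  set q : ℝ := be * Q with hqd
  set P : ℝ := Q4 u u u u with hPd
  set p : ℝ := m * P with hpd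
  set r : ℝ := Q4 v v v v with hrd
  have hP : 0 < P := Q4_pos hu
  have hr : 0 < r := Q4_pos hv
  have hp : 0 < p := mul_pos hm hP
  have hq : 0 < q := mul_pos hb hQ
  have hb0 : 0 < b := by rw [hbb]; positivity
  have ha0 : 0 < a := by rw [ha]; positivity
  have hqb : q ≤ b := by linarith
  have hSl := S2_pos (N := N) hl
  set s : ℝ := S2 N l / m with hsd
  have hs0 : 0 < s := div_pos hSl hm
  have hYv0 : 0 ≤ gY v v := gY_nonneg v
  have hYv : gY v v ≤ b := by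
    have := gY_le_ip (l := 1) v
    rw [one_mul] at this
    exact this
  have hkb : k ^ 2 * gY v v ≤ et ^ 2 * Q := by
    rw [hk2]
    calc et ^ 2 * Q / b * gY v v ≤ et ^ 2 * Q / b * b :=
          mul_le_mul_of_nonneg_left hYv (by positivity)
      _ = _ := div_mul_cancel₀ _ hb0.ne'
  obtain ⟨hQ1, hQ2, hQ3⟩ := soft_Q hk hT v
  have hQ3 := hQ3 et het0
  set QT : ℝ := Q4 T T v v with hQTd
  have hQT : Q ≤ (1 + d) * QT := by
    have e1 : (1 + 1 / et) * (k ^ 2 * gY v v) ≤ (1 + 1 / et) * (et ^ 2 * Q) :=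
      mul_le_mul_of_nonneg_left hkb (by positivity)
    have e2 : (1 + 1 / et) * (et ^ 2 * Q) = (et ^ 2 + et) * Q := by
      field_simp
    have e3 : Q * (1 - et - et ^ 2) ≤ (1 + et) * QT := by
      rw [e2] at e1
      linarith
    have hQT0 : 0 ≤ QT := Q4_nonneg T v
    obtain ⟨e4, e5⟩ := nfE_r1 het0 het2
    rw [← hd] at e4
    have e6 : (1 - et - et ^ 2) * Q ≤ (1 - et - et ^ 2) * ((1 + d) * QT) := by
      have := mul_le_mul_of_nonneg_right e4 hQT0
      linarith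
    exact le_of_mul_le_mul_left e6 e5
  have hQT0 : 0 < QT := by
    by_contra hcon
    push Not at hcon
    have : (1 + d) * QT ≤ 0 := mul_nonpos_of_nonneg_of_nonpos (by positivity) hcon
    linarith
  -- the scaled truncation
  set sg2 : ℝ := b / (be * QT) with hsg2
  have hsg20 : 0 < sg2 := by positivity
  set sg : ℝ := Real.sqrt sg2 with hsgd
  have hsg0 : 0 < sg := Real.sqrt_pos.2 hsg20
  have hsgs : sg ^ 2 = sg2 := Real.sq_sqrt hsg20.le
  set g : ℝ := b / q with hgd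
  have hg0 : 0 < g := by positivity
  have hg1 : 1 ≤ g := by
    rw [hgd, le_div_iff₀ hq]
    linarith
  have hsg2g : sg2 ≤ (1 + d) * g := by
    rw [hsg2, hgd, div_le_iff₀ (by positivity)]
    have e1 : (1 + d) * (b / q) * (be * QT) = b * ((1 + d) * QT) / Q := by
      rw [hqd]
      field_simp
    rw [e1, le_div_iff₀ hQ]
    exact mul_le_mul_of_nonneg_left hQT hb0.le
  have hcA : ip l (sg • T) (sg • T) = sg2 * ip l T T := by
    rw [ip_smul_left, ip_smul_right, ← hsgs]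
    ring
  have hcP : m * Q4 (sg • T) (sg • T) (sg • T) (sg • T) = sg2 ^ 2 * (m * Q4 T T T T) := by
    rw [Q4_smul1, Q4_smul2, Q4_smul3, Q4_smul4, ← hsgs]
    ring
  have hcQ : Q4 (sg • T) (sg • T) v v = b / be := by
    rw [Q4_smul1, Q4_smul2]
    have : sg * (sg * Q4 T T v v) = sg2 * QT := by
      rw [← hsgs, hQTd]
      ring
    rw [this, hsg2]
    field_simp
  have hT0 : ∀ᵐ x : E N, 0 ≤ fn (sg • T) x := by
    filter_upwards [((soft_RD hk hT).1 hur.1).1, fn_smul sg T] with x e1 e2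
    rw [e2]
    exact mul_nonneg hsg0.le e1
  have hTne : sg • T ≠ 0 := by
    intro h0
    have h5 := hcQ
    rw [h0, Q4_zero1] at h5
    have : 0 < b / be := by positivity
    linarith
  have hAge : 64 / h ^ 2 * s ≤ sg2 * ip l T T := by
    have h5 := kap_le (N := N) hl one_pos (sg • T) v
    rw [hcQ, hcA] at h5
    have h6 : kap N l 1 / be ≤ sg2 * ip l T T := by
      have h7 : b * (kap N l 1 / be) ≤ b * (sg2 * ip l T T) := by
        calc b * (kap N l 1 / be) = kap N l 1 * (b / be) := by ring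
          _ ≤ _ := h5
          _ = _ := by ring
      exact le_of_mul_le_mul_left h7 hb0
    refine le_trans ?_ h6
    rw [le_div_iff₀ hb]
    calc 64 / h ^ 2 * s * be = 64 / h ^ 2 * be * s := by ring
      _ ≤ _ := hx
  have hcs : s ≤ sg2 * ip l T T := (le_mul_of_one_le_left hs0.le (nfE_x1 hh0 hh1)).trans hAge
  have hcomp := comp_level (N := N) hl hm hb hlS hT0 hTne hv (by
    rw [hcQ]
    field_simp
    exact le_refl _) (by
    rw [hcA]
    exact hcs)
  rw [hcA, hcP, ← hlev] at hcomp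
  obtain ⟨i1, i2, i3, i4, i5, i6⟩ := soft_ip hk hT hl.le
  set c : H1 N := u - T with hc
  set ic : ℝ := ip l c c with hic
  have hic0 : 0 ≤ ic := ip_nonneg hl.le c
  have hAT0 : 0 ≤ ip l T T := ip_nonneg hl.le T
  set D : ℝ := q ^ 2 - p * r with hDd
  -- `g * a = (a + b) - D / q`
  have hga : g * a = (a + b) - D / q := by
    rw [hgd, hDd, eq_sub_iff_add_eq]
    rw [div_mul_eq_mul_div, ← add_div, div_eq_iff hq.ne', hbb, ha]
    ring
  have hgp : g * p < a := by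
    rw [hgd, div_mul_eq_mul_div, div_lt_iff₀ hq]
    exact h1
  obtain ⟨P1, P2, P3⟩ := soft_P hk hT
  have hDq0 : 0 < D / q := div_pos hD hq
  have hab0 : 0 < a + b := add_pos ha0 hb0
  rcases le_max_iff.1 hcomp with hI | hII
  · -- case I
    have hPT0 : 0 ≤ m * Q4 T T T T := mul_nonneg hm.le (Q4_nonneg T T)
    have hPc0 : 0 ≤ m * Q4 c c c c := mul_nonneg hm.le (Q4_nonneg c c)
    have k4 : m * Q4 T T T T + m * Q4 c c c c ≤ p := by
      rw [← mul_add]
      exact mul_le_mul_of_nonneg_left P1 hm.le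
    have j1 : a + b ≤ (1 + d) ^ 2 * g ^ 2 * (m * Q4 T T T T) := by
      refine hI.trans (mul_le_mul_of_nonneg_right ?_ hPT0)
      calc sg2 ^ 2 ≤ ((1 + d) * g) ^ 2 := pow_le_pow_left₀ hsg20.le hsg2g 2
        _ = _ := by ring
    have j2 : g ^ 2 * p < (a + b) - D / q := by
      rw [← hga]
      calc g ^ 2 * p = g * (g * p) := by ring
        _ < g * a := mul_lt_mul_of_pos_left hgp hg0
    obtain ⟨j3, j8⟩ := nfE_case1 hd0 hg0 hp hDq0 hab0 hPc0 k4 j1 j2
    obtain ⟨c1, c2, c3⟩ := soft_c hk hT hur.1 v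
    -- test with `c`
    have t1 : ip l u c = m * Q4 u u u c + be * Q4 v v u c := hsol.1 c
    obtain ⟨mu, hmu0, hmu⟩ := nfB_root hm
    obtain ⟨pi, hpi0, hpi⟩ := nfB_root hp
    have t2 : mu * n4 u = pi := by
      have : (mu * n4 u) ^ 4 = pi ^ 4 := by
        rw [mul_pow, hmu, n4_pow, hpi]
      exact (pow_left_inj₀ (mul_nonneg hmu0.le (n4_nonneg u)) hpi0.le (by norm_num)).1 this
    have t3 : mu * n4 c ≤ h * pi := by
      refine le_of_pow_le_pow_left₀ (n := 4) (by norm_num) (mul_nonneg hh0.le hpi0.le) ?_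
      rw [mul_pow, hmu, n4_pow, mul_pow, hpi, ← hd2]
      exact j8
    have t4 : m * Q4 u u u c ≤ (h ^ 4 + h) * p := by
      calc m * Q4 u u u c ≤ m * (n4 c ^ 4 + n4 u ^ 3 * n4 c) :=
            mul_le_mul_of_nonneg_left c1 hm.le
        _ = m * Q4 c c c c + (mu * n4 u) ^ 3 * (mu * n4 c) := by
            rw [n4_pow, ← hmu]
            ring
        _ ≤ 2 * d * p + pi ^ 3 * (h * pi) := by
            rw [t2]
            exact add_le_add j8 (mul_le_mul_of_nonneg_left t3 (pow_nonneg hpi0.le 3))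
        _ = _ := by
            rw [hd2, ← hpi]
            ring
    have t5 : be * Q4 v v u c ≤ et * q := by
      have e1 : (be * Q4 v v u c) ^ 2 ≤ (et * q) ^ 2 := by
        calc (be * Q4 v v u c) ^ 2 = be ^ 2 * Q4 v v u c ^ 2 := by ring
          _ ≤ be ^ 2 * (Q * (k ^ 2 * gY v v)) := mul_le_mul_of_nonneg_left c3 (sq_nonneg _)
          _ ≤ be ^ 2 * (Q * (et ^ 2 * Q)) := mul_le_mul_of_nonneg_left
              (mul_le_mul_of_nonneg_left hkb hQ.le) (sq_nonneg _)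
          _ = _ := by
              rw [hqd]
              ring
      exact le_of_sq_le_sq e1 (mul_nonneg het0.le hq.le)
    exact nfE_fin1 hh2 hh4 het0 het1 hd2 hp hq hb0 ha j3 (by
      calc ic ≤ ip l u c := i3
        _ = _ := t1
        _ ≤ _ := add_le_add t4 t5)
  · -- case II
    have hA0 : 0 ≤ sg2 * ip l T T := mul_nonneg hsg20.le hAT0
    have j1 := nfE_sqrt hh0 hs0 hA0 hAge
    have j3 : sg2 * ip l T T ≤ (1 + d) * g * (a - ic) := by
      calc sg2 * ip l T T ≤ (1 + d) * g * ip l T T := mul_le_mul_of_nonneg_right hsg2g hAT0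
        _ ≤ _ := mul_le_mul_of_nonneg_left (by linarith only [i1]) (by positivity)
    exact nfE_case2 hh0 hh1 hh2 hd0 hd1 hq hg1 hic0 hDq0 hab0 hga hII j1 j3

/-- module nfF. **Step 2** of section 3 (`soft_supp`, second part; `P(u)/k⁴ = P(u) b²/(θ² Q²) ≤ (be²/(m θ²)) (a + b) ≤ be C0 / (m θ²)` from `b p < a q` and `a b < q (a + b)`;
`be ≤ kap m / S2 N l`, `S2_sq`, so `l^N be² ≤ M² kap² l^(N-2) l^(N-2) / S2 N 1 ^2`, small by `kap_small`; `gX T T ≤ a`). -/
theorem step_two [Dim N] {M ep th C0 : ℝ} (hM : 1 ≤ M) (hep : 0 < ep) (hth : 0 < th)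
    (hC : 0 < C0) : ∃ l0 : ℝ, 0 < l0 ∧ l0 ≤ 1 ∧
    ∀ (l m be k : ℝ) (u v T : H1 N), 0 < l → l < l0 → 1 / M ≤ m → m ≤ M → 0 < be →
      GdF l m be u v → be * (S2 N l / m) ≤ kap N l 1 →
      be * (ip l u u + ip 1 v v) ≤ C0 → 0 < k →
      k ^ 2 = th * Q4 u u v v / ip 1 v v → IsT k u T →
      l * gY T T ≤ ep * (ip l u u + ip 1 v v) := by

  have hS := S2_pos (N := N) (l := 1) one_pos
  obtain ⟨C, hC0, hCs⟩ := soft_supp (N := N)
  have hM0 : 0 < M := by linarith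
  have hN2 : 2 ≤ N := by
    rcases (‹Dim N›).h with h | h <;> omega
  set K : ℝ := C * (C0 * M / th ^ 2) ^ 2 * (M ^ 2 / S2 N 1 ^ 2) with hK
  have hK0 : 0 < K := by positivity
  obtain ⟨l1, hl1, hl1k⟩ := kap_small (N := N) (ep := ep ^ N / K) (by positivity)
  refine ⟨min 1 l1, by positivity, min_le_left _ _, ?_⟩
  intro l m be k u v T hl hll hm1 hm2 hb hG hx hCb hk hk2 hT
  have hl1' : l < 1 := lt_of_lt_of_le hll (min_le_left _ _)
  have hm : 0 < m := lt_of_lt_of_le (by positivity) hm1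
  have hksm := hl1k l hl (lt_of_lt_of_le hll (min_le_right _ _))
  obtain ⟨hu, hv, hQ, ha, hbb, hlev, hSS, hlS, hD, h1, h2, h3, h4⟩ := GdF_facts hl hm hb hG
  set a : ℝ := ip l u u with had
  set b : ℝ := ip 1 v v with hbd
  set Q : ℝ := Q4 u u v v with hQd
  set q : ℝ := be * Q with hqd
  set P : ℝ := Q4 u u u u with hPd
  set p : ℝ := m * P with hpd
  set r : ℝ := Q4 v v v v with hrd
  have hP : 0 < P := Q4_pos hu
  have hr : 0 < r := Q4_pos hv
  have hp : 0 < p := mul_pos hm hP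
  have hq : 0 < q := mul_pos hb hQ
  have hb0 : 0 < b := by rw [hbb]; positivity
  have ha0 : 0 < a := by rw [ha]; positivity
  have hSl := S2_pos (N := N) hl
  obtain ⟨-, hs2⟩ := hCs k u T hk hT
  obtain ⟨i1, i2, i3, i4, i5, i6⟩ := soft_ip hk hT hl.le
  have hX0 : 0 ≤ gX T T := gX_nonneg T
  have hX : gX T T ≤ a + b := by
    have e1 := gX_le_ip hl.le T
    have e2 := ip_nonneg hl.le (u - T)
    linarith
  have hY0 : 0 ≤ gY T T := gY_nonneg T
  -- `P / k ^ 4`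
  have hPk : P / k ^ 4 ≤ be * (C0 * M / th ^ 2) := by
    have e1 : k ^ 4 = (th * Q / b) ^ 2 := by
      rw [← hk2]
      ring
    have e2 : P / k ^ 4 = be ^ 2 / (m * th ^ 2) * (p * b ^ 2 / q ^ 2) := by
      rw [e1, hpd, hqd]
      field_simp
    have e3 : p * b ^ 2 / q ^ 2 ≤ a + b := by
      rw [div_le_iff₀ (by positivity)]
      calc p * b ^ 2 = b * p * b := by ring
        _ ≤ a * q * b := mul_le_mul_of_nonneg_right h1.le hb0.le
        _ = a * b * q := by ring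
        _ ≤ q * (a + b) * q := mul_le_mul_of_nonneg_right h2.le hq.le
        _ = (a + b) * q ^ 2 := by ring
    rw [e2]
    calc be ^ 2 / (m * th ^ 2) * (p * b ^ 2 / q ^ 2) ≤ be ^ 2 / (m * th ^ 2) * (a + b) :=
          mul_le_mul_of_nonneg_left e3 (by positivity)
      _ = be / (m * th ^ 2) * (be * (a + b)) := by ring
      _ ≤ be / (m * th ^ 2) * C0 := mul_le_mul_of_nonneg_left hCb (by positivity)
      _ ≤ be / (1 / M * th ^ 2) * C0 := by
          refine mul_le_mul_of_nonneg_right ?_ hC.le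
          refine div_le_div_of_nonneg_left hb.le (by positivity) ?_
          exact mul_le_mul_of_nonneg_right hm1 (by positivity)
      _ = _ := by
          field_simp
  have hPk0 : 0 ≤ P / k ^ 4 := by positivity
  -- `l ^ N be ^ 2`
  have hlb : l ^ N * be ^ 2 ≤ M ^ 2 / S2 N 1 ^ 2 * (ep ^ N / K) := by
    have e1 : be ≤ M * kap N l 1 / S2 N l := by
      rw [le_div_iff₀ hSl]
      have e2 : be * S2 N l ≤ m * kap N l 1 := by
        calc be * S2 N l = m * (be * (S2 N l / m)) := by field_simp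
          _ ≤ _ := mul_le_mul_of_nonneg_left hx hm.le
      have e3 : 0 < kap N l 1 := (kap_ge (N := N) hl one_pos).2
      exact e2.trans (mul_le_mul_of_nonneg_right hm2 e3.le)
    have e2 : be ^ 2 ≤ M ^ 2 * kap N l 1 ^ 2 / (l ^ (4 - N) * S2 N 1 ^ 2) := by
      calc be ^ 2 ≤ (M * kap N l 1 / S2 N l) ^ 2 := pow_le_pow_left₀ hb.le e1 2
        _ = _ := by
            rw [div_pow, S2_sq hl, mul_pow]
    have e3 : l ^ N = l ^ (4 - N) * (l ^ (N - 2) * l ^ (N - 2)) := by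
      rw [← pow_add, ← pow_add]
      congr 1
      rcases (‹Dim N›).h with h | h <;> subst h <;> norm_num
    calc l ^ N * be ^ 2 ≤ l ^ N * (M ^ 2 * kap N l 1 ^ 2 / (l ^ (4 - N) * S2 N 1 ^ 2)) :=
          mul_le_mul_of_nonneg_left e2 (by positivity)
      _ = M ^ 2 / S2 N 1 ^ 2 * ((kap N l 1 ^ 2 * l ^ (N - 2)) * l ^ (N - 2)) := by
          rw [e3]
          field_simp
      _ ≤ M ^ 2 / S2 N 1 ^ 2 * ((ep ^ N / K) * 1) := by
          refine mul_le_mul_of_nonneg_left ?_ (by positivity)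
          exact mul_le_mul hksm.le (pow_le_one₀ hl.le hl1'.le) (by positivity) (by positivity)
      _ = _ := by rw [mul_one]
  have hfin : (l * gY T T) ^ N ≤ (ep * (a + b)) ^ N := by
    calc (l * gY T T) ^ N = l ^ N * gY T T ^ N := mul_pow _ _ _
      _ ≤ l ^ N * (C * (P / k ^ 4) ^ 2 * gX T T ^ N) := mul_le_mul_of_nonneg_left hs2 (by positivity)
      _ ≤ l ^ N * (C * (be * (C0 * M / th ^ 2)) ^ 2 * (a + b) ^ N) := by
          refine mul_le_mul_of_nonneg_left ?_ (by positivity)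
          refine mul_le_mul (mul_le_mul_of_nonneg_left (pow_le_pow_left₀ hPk0 hPk 2) hC0.le)
            (pow_le_pow_left₀ hX0 hX N) (by positivity) (by positivity)
      _ = (l ^ N * be ^ 2) * (C * (C0 * M / th ^ 2) ^ 2 * (a + b) ^ N) := by ring
      _ ≤ (M ^ 2 / S2 N 1 ^ 2 * (ep ^ N / K)) * (C * (C0 * M / th ^ 2) ^ 2 * (a + b) ^ N) :=
          mul_le_mul_of_nonneg_right hlb (by positivity)
      _ = (K * (ep ^ N / K)) * (a + b) ^ N := by
          rw [hK]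
          ring
      _ = (ep * (a + b)) ^ N := by
          rw [mul_div_cancel₀ _ hK0.ne', mul_pow]
  exact le_of_pow_le_pow_left₀ (by omega) (by positivity) hfin

/-- module nfG. Real arithmetic of step 3: `a, b, p, q, r > 0` with `a = p + q`, `b = q + r`, `a + b ≤ S`, `S r ≤ b²` not needed; `Yu = l * gY u u`, `Yv = gY v v`, `NN = N ∈ {2,3}`.
Hypotheses: `D = q² - p r ≤ ep q (a+b)`, `Yu ≤ ep (a+b)`, Pohozaev `Yu + Yv = (4-N)/4 (a+b)`, `Yv ≤ b`. Conclusions: `b² ≤ (1 + 16 ep) S r`, and if moreover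
`|Yv - (4-N)/4 b| ≤ e3 b` then `a ≤ 8 (ep + e3) b`. -/
theorem step_real {a b p q r S ep Yu Yv nn : ℝ} (hn : nn = 2 ∨ nn = 3) (hp : 0 < p) (hq : 0 < q)
    (hr : 0 < r) (ha : a = p + q) (hb : b = q + r) (hS : a + b ≤ S) (hep : 0 < ep)
    (hep1 : ep ≤ 1 / 32) (hD : q ^ 2 - p * r ≤ ep * q * (a + b)) (hD0 : 0 < q ^ 2 - p * r)
    (hYu : Yu ≤ ep * (a + b)) (hpoh : Yu + Yv = (4 - nn) / 4 * (a + b)) (hYv : Yv ≤ b) :
    b ^ 2 ≤ (1 + 16 * ep) * (S * r) ∧
      ∀ e3 : ℝ, 0 < e3 → |Yv - (4 - nn) / 4 * b| ≤ e3 * b → a ≤ 8 * (ep + e3) * b := by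

  have hab : 0 < a + b := by rw [ha, hb]; linarith
  have hb0 : 0 < b := by rw [hb]; linarith
  have ha0 : 0 < a := by rw [ha]; linarith
  have hnn : 1 / 4 ≤ (4 - nn) / 4 := by
    rcases hn with h | h <;> rw [h] <;> norm_num
  have h1 : 7 / 32 * (a + b) ≤ b := by nlinarith
  have h2 : q * (a + b) ≤ 16 / 3 * (a * r) := by
    have e1 : a * r = b * q - (q ^ 2 - p * r) := by
      rw [ha, hb]
      ring
    rw [e1]
    have e2 : 7 / 32 * (a + b) * q ≤ b * q := mul_le_mul_of_nonneg_right h1 hq.le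
    have e3 : ep * q * (a + b) ≤ 1 / 32 * q * (a + b) := by
      have : 0 < q * (a + b) := mul_pos hq hab
      nlinarith
    linarith
  have h3 : q ^ 2 - p * r ≤ 16 * ep * (S * r) := by
    have e1 : ep * (q * (a + b)) ≤ ep * (16 / 3 * (a * r)) := mul_le_mul_of_nonneg_left h2 hep.le
    have e2 : a * r ≤ S * r := mul_le_mul_of_nonneg_right (by linarith) hr.le
    have e3 : ep * (a * r) ≤ ep * (S * r) := mul_le_mul_of_nonneg_left e2 hep.le
    have e4 : 0 < ep * (a * r) := by positivity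
    linarith
  refine ⟨?_, fun e3 he3 h4 => ?_⟩
  · have e1 : b ^ 2 = (a + b) * r + (q ^ 2 - p * r) := by
      rw [ha, hb]
      ring
    have e2 : (a + b) * r ≤ S * r := mul_le_mul_of_nonneg_right hS hr.le
    linarith
  · have h5 := (abs_le.1 h4).2
    have h6 : (4 - nn) / 4 * a ≤ ep * (a + b) + e3 * b := by linarith
    have h7 : 1 / 4 * a ≤ (4 - nn) / 4 * a := mul_le_mul_of_nonneg_right hnn ha0.le
    have h8 : ep * a ≤ 1 / 32 * a := mul_le_mul_of_nonneg_right hep1 ha0.le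
    nlinarith [mul_pos hep hb0, mul_pos he3 hb0]

private theorem nfG_e {e : ℝ} (he : 0 < e) : (1 + e / 2) ^ 2 * (1 - e) ≤ 1 := by
  have h1 : 0 < e ^ 2 := by positivity
  have h2 : 0 < e ^ 3 := by positivity
  linarith

private theorem nfG_fin {e ep l n : ℝ} (he : 0 < e) (he1 : e < 1) (hep : 0 < ep)
    (hep1 : ep ≤ e / 100) (hl : l < e / 100) (hn : 1 / 2 ≤ n) (hn1 : n ≤ 3 / 4)
    (h : n * (1 + e / 2) * (1 - 8 * (ep + e / 100)) ≤ n + e / 100 + l) : False := by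
  have f6 : 1 + e / 4 ≤ (1 + e / 2) * (1 - 8 * (ep + e / 100)) := by nlinarith
  have f7 : n * (1 + e / 4) ≤ n * ((1 + e / 2) * (1 - 8 * (ep + e / 100))) :=
    mul_le_mul_of_nonneg_left f6 (by linarith)
  have f8 : 1 / 2 * e ≤ n * e := mul_le_mul_of_nonneg_right hn he.le
  linarith

/-- module nfG. **No ground state for `sqrt m ≤ be ≤ kap / (x1 s)`.** `good_GS'` (`rho0 N l 1 1 = N/4 + l (4-N)/4 < be` for small `l`) gives `GdF`; `poh_GS`;
`level_up` (`C0 = 36 M² S2 N 1`), `step_one`, `step_two` (with `k = sqrt (th Q / b)`, `T` from `soft_H`), `gY u u ≤ 2 (gY T T + gY (u-T) (u-T))`, `step_real`, `gn_near`,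
then `be r ≤ ip l v v = b - Yv + l Yv ≤ (N/4 + e3 + l) b`, `r = b - q ≥ b - a`, against `be ≥ sqrt m ≥ (N/4) (1 + e/2)`. -/
theorem nonex_far [Dim N] {M e : ℝ} (hM : 1 ≤ M) (he : 0 < e) (he1 : e < 1) :
    ∃ x1 l0 : ℝ, 1 ≤ x1 ∧ 0 < l0 ∧ l0 ≤ 1 ∧ ∀ l m be : ℝ, 0 < l → l < l0 → 1 / M ≤ m → m ≤ M →
      (N : ℝ) ^ 2 ≤ 16 * (1 - e) * m → 0 < be → m ≤ be ^ 2 →
      x1 * be * (S2 N l / m) ≤ kap N l 1 → ¬ HasGS N l 1 m 1 be := by

  have hS := S2_pos (N := N) (l := 1) one_pos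
  have hM0 : 0 < M := by linarith
  have hN4 : (1 : ℝ) / 2 ≤ (N : ℝ) / 4 ∧ (N : ℝ) / 4 ≤ 3 / 4 := by
    rcases (‹Dim N›).h with h | h <;> rw [h] <;> norm_num
  obtain ⟨d0, hd0, hgn⟩ := gn_near (N := N) (ep := e / 100) (by positivity)
  obtain ⟨ep, hep, hep1, hep2⟩ : ∃ ep : ℝ, 0 < ep ∧ ep ≤ e / 100 ∧ 16 * ep ≤ d0 :=
    ⟨min (e / 100) (d0 / 16), by positivity, min_le_left _ _, by
      have := min_le_right (e / 100) (d0 / 16)
      linarith⟩
  obtain ⟨th, x1, hth, hx1, hone⟩ := step_one (N := N) (ep := ep / 4) (by positivity)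
  obtain ⟨l2, hl2, hl21, htwo⟩ := step_two (N := N) (M := M) (ep := ep / 4) (th := th)
    (C0 := 36 * M ^ 2 * S2 N 1) hM (by positivity) hth (by positivity)
  refine ⟨x1, min l2 (e / 100), hx1, by positivity, (min_le_left _ _).trans hl21, ?_⟩
  intro l m be hl hll hm1 hm2 hNm hb hb2 hx hGS
  have hm : 0 < m := lt_of_lt_of_le (by positivity) hm1
  have hll2 : l < l2 := lt_of_lt_of_le hll (min_le_left _ _)
  have hlle : l < e / 100 := lt_of_lt_of_le hll (min_le_right _ _)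
  have hl1 : l ≤ 1 := by linarith
  have hSl := S2_pos (N := N) hl
  have hs0 : 0 < S2 N l / m := div_pos hSl hm
  -- the lower bound for `be`
  have hbe : (N : ℝ) / 4 * (1 + e / 2) ≤ be := by
    have e1 : ((N : ℝ) / 4 * (1 + e / 2)) ^ 2 ≤ be ^ 2 := by
      have e2 : (1 + e / 2) ^ 2 * (1 - e) ≤ 1 := nfG_e he
      have e3 : (N : ℝ) ^ 2 * (1 + e / 2) ^ 2 ≤ 16 * m := by
        calc (N : ℝ) ^ 2 * (1 + e / 2) ^ 2 ≤ 16 * (1 - e) * m * (1 + e / 2) ^ 2 :=
              mul_le_mul_of_nonneg_right hNm (sq_nonneg _)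
          _ = 16 * m * ((1 + e / 2) ^ 2 * (1 - e)) := by ring
          _ ≤ 16 * m * 1 := mul_le_mul_of_nonneg_left e2 (by positivity)
          _ = _ := by ring
      calc ((N : ℝ) / 4 * (1 + e / 2)) ^ 2 = (N : ℝ) ^ 2 * (1 + e / 2) ^ 2 / 16 := by ring
        _ ≤ m := by
            rw [div_le_iff₀ (by norm_num)]
            linarith
        _ ≤ _ := hb2
    exact le_of_sq_le_sq e1 hb.le
  have hrho : rho0 N l 1 1 < be := by
    refine lt_of_lt_of_le ?_ hbe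
    unfold rho0
    have e1 : l * ((4 - (N : ℝ)) / 4) ≤ l * (1 / 2) :=
      mul_le_mul_of_nonneg_left (by linarith) hl.le
    have e2 : (N : ℝ) / 4 * (e / 2) ≥ 1 / 2 * (e / 2) :=
      mul_le_mul_of_nonneg_right hN4.1 (by positivity)
    rw [div_one]
    linarith
  obtain ⟨u, v, g1, g2, g3, g4, g5, g6, g7⟩ := good_GS' (N := N) (l1 := l) (l2 := 1) (m1 := m)
    (m2 := 1) hl one_pos hm one_pos hb (by linarith) hrho hGS
  have hG : GdF l m be u v := ⟨g1, g2, g3, g4, g5, g6, g7⟩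
  obtain ⟨hu, hv, hQ, ha, hbb, hlev, hSS, hlS, hD, h1, h2, h3, h4⟩ := GdF_facts hl hm hb hG
  have hpoh := poh_GS (N := N) (m1 := m) (m2 := 1) (be := be) hl one_pos hm one_pos g4 g5.ne'
  rw [one_mul] at hpoh
  have hP : 0 < Q4 u u u u := Q4_pos hu
  have hr : 0 < Q4 v v v v := Q4_pos hv
  have hp : 0 < m * Q4 u u u u := mul_pos hm hP
  have hq : 0 < be * Q4 u u v v := mul_pos hb hQ
  have hb0 : 0 < ip 1 v v := by rw [hbb]; positivity
  have ha0 : 0 < ip l u u := by rw [ha]; positivity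
  have hxs : be * (S2 N l / m) ≤ kap N l 1 := by
    refine le_trans ?_ hx
    rw [mul_assoc]
    exact le_mul_of_one_le_left (mul_pos hb hs0).le hx1
  have hlu := level_up (N := N) hM hl hl1 hm1 hm2 hb hb2 hxs hlS
  have hCb : be * (ip l u u + ip 1 v v) ≤ 36 * M ^ 2 * S2 N 1 := by
    rw [hlev]
    linarith
  -- the truncation
  set k : ℝ := Real.sqrt (th * Q4 u u v v / ip 1 v v) with hk
  have hk0 : 0 < k := Real.sqrt_pos.2 (by positivity)
  have hk2 : k ^ 2 = th * Q4 u u v v / ip 1 v v := Real.sq_sqrt (by positivity)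
  obtain ⟨T, hT, -⟩ := soft_H hk0 u
  obtain ⟨o1, o2⟩ := hone l m be k u v T hl hl1 hm hb hG hx hk0 hk2 hT
  have o3 := htwo l m be k u v T hl hll2 hm1 hm2 hb hG hxs hCb hk0 hk2 hT
  have hab0 : 0 < ip l u u + ip 1 v v := by positivity
  have hYu : l * gY u u ≤ ep * (ip l u u + ip 1 v v) := by
    have e1 : l * gY (u - T) (u - T) ≤ ip l (u - T) (u - T) := gY_le_ip (u - T)
    have e2 : gY u u ≤ 2 * (gY T T + gY (u - T) (u - T)) := by
      have e3 : u = T + (u - T) := by abel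
      have e4 : gY u u = gY T T + 2 * gY T (u - T) + gY (u - T) (u - T) := by
        conv_lhs => rw [e3]
        rw [gY_add_left, gY_add_right, gY_add_right, gY_comm (u - T) T]
        ring
      have e5 := gY_nonneg (T - (u - T))
      have e6 : gY (T - (u - T)) (T - (u - T)) =
          gY T T - 2 * gY T (u - T) + gY (u - T) (u - T) := by
        have e7 : T - (u - T) = T + (-1 : ℝ) • (u - T) := by
          rw [neg_one_smul]
          abel
        rw [e7, gY_add_left, gY_add_right, gY_add_right, gY_smul_left, gY_smul_left, gY_smul_right,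
          gY_smul_right, gY_comm (u - T) T]
        ring
      linarith
    have e3 := mul_le_mul_of_nonneg_left e2 hl.le
    linarith
  have hYv : gY v v ≤ ip 1 v v := by
    have := gY_le_ip (l := 1) v
    rwa [one_mul] at this
  have hDD : (be * Q4 u u v v) ^ 2 - m * Q4 u u u u * Q4 v v v v ≤
      ep * (be * Q4 u u v v) * (ip l u u + ip 1 v v) := by
    refine o1.trans ?_
    exact mul_le_mul_of_nonneg_right (mul_le_mul_of_nonneg_right (by linarith only [hep]) hq.le)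
      hab0.le
  obtain ⟨r1, r2⟩ := step_real (nn := (N : ℝ)) (by
    rcases (‹Dim N›).h with h | h
    · left
      rw [h]
      norm_num
    · right
      rw [h]
      norm_num) hp hq hr ha hbb hSS hep (by linarith) hDD hD hYu hpoh hYv
  have hgn1 := hgn v (by
    refine r1.trans (mul_le_mul_of_nonneg_right (by linarith) ?_)
    positivity)
  have hab := r2 (e / 100) (by positivity) hgn1
  -- the end
  set b : ℝ := ip 1 v v with hbd
  have f1 : ip l v v ≤ ((N : ℝ) / 4 + e / 100 + l) * b := by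
    have e1 : ip l v v = b - gY v v + l * gY v v := by
      rw [hbd]
      unfold ip
      ring
    have e2 := (abs_le.1 hgn1).1
    have e3 : l * gY v v ≤ l * b := mul_le_mul_of_nonneg_left hYv hl.le
    rw [e1]
    linarith
  have f2 : (1 - 8 * (ep + e / 100)) * b ≤ Q4 v v v v := by
    have e1 : be * Q4 u u v v ≤ ip l u u := by linarith
    linarith
  have f3 : be * Q4 v v v v ≤ ip l v v := by
    have : 0 ≤ m * Q4 u u v v := by positivity
    linarith
  have f4 : (N : ℝ) / 4 * (1 + e / 2) * ((1 - 8 * (ep + e / 100)) * b) ≤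
      ((N : ℝ) / 4 + e / 100 + l) * b := by
    have e0 : 0 ≤ (N : ℝ) / 4 * (1 + e / 2) := by positivity
    calc _ ≤ (N : ℝ) / 4 * (1 + e / 2) * Q4 v v v v := mul_le_mul_of_nonneg_left f2 e0
      _ ≤ be * Q4 v v v v := mul_le_mul_of_nonneg_right hbe hr.le
      _ ≤ _ := f3
      _ ≤ _ := f1
  have f5 : (N : ℝ) / 4 * (1 + e / 2) * (1 - 8 * (ep + e / 100)) ≤
      (N : ℝ) / 4 + e / 100 + l := by
    refine le_of_mul_le_mul_right ?_ hb0
    linarith
  exact nfG_fin he he1 hep hep1 hlle hN4.1 hN4.2 f5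

end Sir
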