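import Pool.Agent.Sir.Poh
import Pool.Agent.Sir.ExS
import Pool.Agent.Sir.Neg
import Pool.Agent.Sir.ExL
/-!
# The level: relaxation, degenerate pairs, Pohozaev identity (text MP_2cd2dd_an_far_helper13.md, section 0)
modules: reA, reB, reC, reD, reE, reF, reG
-/

namespace Sir

open MeasureTheory Filter Topology

variable {N : ℕ}

/-- module reA. The set of energies is bounded below by `0` (`Neh_En`, `ip_nonneg`): `csInf_le`. -/
theorem level_le {l1 l2 m1 m2 be : ℝ} (h1 : 0 < l1) (h2 : 0 < l2) {u v : H1 N}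
    (h : Neh l1 l2 m1 m2 be u v) : level N l1 l2 m1 m2 be ≤ En l1 l2 m1 m2 be u v := by
  refine csInf_le ⟨0, ?_⟩ ⟨u, v, h, rfl⟩
  rintro e ⟨u', v', h', rfl⟩
  rw [Neh_En h']
  have := ip_nonneg h1.le u'
  have := ip_nonneg h2.le v'
  linarith

/-- module reA. `proj` and `level_le`. -/
theorem level_proj [Dim N] {l1 l2 m1 m2 be : ℝ} (h1 : 0 < l1) (h2 : 0 < l2) (hm1 : 0 < m1)
    (hm2 : 0 < m2) {u v : H1 N} (h : OmMp l1 l2 m1 m2 be u v ∨ OmPp l1 l2 m1 m2 be u v) :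
    level N l1 l2 m1 m2 be ≤ EEp l1 l2 m1 m2 be u v := by
  obtain ⟨x, y, -, -, hN, hE⟩ := proj h1 h2 hm1 hm2 h
  rw [← hE]
  exact level_le h1 h2 hN

/-- module reA. The energy of a minimiser is the level. -/
theorem level_IsMin {l1 l2 m1 m2 be : ℝ} (h1 : 0 < l1) (h2 : 0 < l2) {u v : H1 N}
    (h : IsMin l1 l2 m1 m2 be u v) : level N l1 l2 m1 m2 be = En l1 l2 m1 m2 be u v := by
  refine le_antisymm (level_le h1 h2 h.1) (le_csInf ⟨_, u, v, h.1, rfl⟩ ?_)
  rintro e ⟨u', v', h', rfl⟩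
  exact h.2 u' v' h'

/-- module reA. Conversely a Nehari pair at the level is a minimiser. -/
theorem IsMin_of_level {l1 l2 m1 m2 be : ℝ} (h1 : 0 < l1) (h2 : 0 < l2) {u v : H1 N}
    (h : Neh l1 l2 m1 m2 be u v) (hE : En l1 l2 m1 m2 be u v ≤ level N l1 l2 m1 m2 be) :
    IsMin l1 l2 m1 m2 be u v := by
  exact ⟨h, fun u' v' h' => hE.trans (level_le h1 h2 h')⟩

private theorem reB_dist [Dim N] : ∃ c : E N, ‖c‖ = 5 := by
  have hN : 0 < N := by rcases (inferInstance : Dim N).h with h | h <;> omega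
  refine ⟨EuclideanSpace.single (⟨0, hN⟩ : Fin N) (5 : ℝ), ?_⟩
  simp

private theorem reB_bump [Dim N] (c : E N) : ∃ (φ : E N → ℝ) (u : H1 N), (∀ x, x ∉ Metric.ball c 2 → φ x = 0) ∧
    fn u =ᵐ[volume] φ ∧ u ≠ 0 := by
  let f : ContDiffBump c := ⟨1, 2, by norm_num, by norm_num⟩
  obtain ⟨u, hu, -⟩ := ofCc (f : E N → ℝ) (f.contDiff (n := 1)) f.hasCompactSupport
  refine ⟨f, u, ?_, hu, ?_⟩
  · intro x hx
    have h1 : x ∉ Function.support f := by
      rw [f.support_eq]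
      exact hx
    simpa using h1
  · intro h0
    rw [h0] at hu
    have h2 : ∀ᵐ x : E N, f x = 0 := by
      filter_upwards [hu, fn_zero (N := N)] with x a b
      rw [← a, b]
    have h3 : volume (Metric.ball c 1) = 0 := by
      rw [ae_iff] at h2
      refine measure_mono_null ?_ h2
      intro x hx
      have h4 : f x = 1 := f.one_of_mem_closedBall (Metric.ball_subset_closedBall hx)
      simp [h4]
    exact (Metric.measure_ball_pos volume c one_pos).ne' h3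

private theorem reB_pair [Dim N] : ∃ u v : H1 N, u ≠ 0 ∧ v ≠ 0 ∧ Q4 u u v v = 0 := by
  obtain ⟨c, hc⟩ := reB_dist (N := N)
  obtain ⟨φ, u, h1, h2, h3⟩ := reB_bump (0 : E N)
  obtain ⟨ψ, v, k1, k2, k3⟩ := reB_bump c
  refine ⟨u, v, h3, k3, ?_⟩
  unfold Q4
  rw [integral_eq_zero_of_ae]
  filter_upwards [h2, k2] with x a b
  rw [a, b]
  by_cases hx : x ∈ Metric.ball (0 : E N) 2
  · have h4 : x ∉ Metric.ball c 2 := by
      intro h5
      rw [Metric.mem_ball, dist_zero_right] at hx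
      rw [Metric.mem_ball, dist_eq_norm] at h5
      have h6 : ‖c‖ ≤ ‖x‖ + ‖x - c‖ := by
        calc ‖c‖ = ‖x - (x - c)‖ := by congr 1; abel
          _ ≤ ‖x‖ + ‖x - c‖ := norm_sub_le _ _
      linarith
    rw [k1 x h4]
    simp
  · rw [h1 x hx]
    simp

/-- module reB. The Nehari set is not empty: take `φ` and a translate `ψ` of it with disjoint supports
(`ofCc`; `φ` a smooth bump): `Q4 = 0` for the mixed term, so the pair is in `OmPp`, `proj`. -/
theorem Neh_nonempty [Dim N] {l1 l2 m1 m2 : ℝ} (be : ℝ) (h1 : 0 < l1) (h2 : 0 < l2) (hm1 : 0 < m1)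
    (hm2 : 0 < m2) : ∃ u v : H1 N, Neh l1 l2 m1 m2 be u v := by
  obtain ⟨w, hw⟩ := exists_ne (N := N)
  obtain ⟨u, v, hu, hv, huv⟩ := reB_pair (N := N)
  have hO : OmPp l1 l2 m1 m2 be u v := by
    have a1 := ip_pos h1 hu
    have a2 := ip_pos h2 hv
    have a3 := Q4_pos hu
    have a4 := Q4_pos hv
    unfold OmPp OmP
    rw [huv]
    refine ⟨?_, ?_, ?_⟩
    · have : 0 < m1 * Q4 u u u u * (m2 * Q4 v v v v) := by positivity
      linarith [this, mul_zero be]
    · have : 0 < ip l1 u u * (m2 * Q4 v v v v) := by positivity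
      simpa using this
    · have : 0 < ip l2 v v * (m1 * Q4 u u u u) := by positivity
      simpa using this
  obtain ⟨x, y, -, -, hN, -⟩ := proj h1 h2 hm1 hm2 (Or.inr hO)
  exact ⟨_, _, hN⟩

/-- module reB. Pairs of energy close to the level exist (`Neh_nonempty`, `exists_lt_of_csInf_lt`), and the level is `≥ 0`. -/
theorem level_lt [Dim N] {l1 l2 m1 m2 be t : ℝ} (h1 : 0 < l1) (h2 : 0 < l2) (hm1 : 0 < m1)
    (hm2 : 0 < m2) (h : level N l1 l2 m1 m2 be < t) :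
    0 ≤ level N l1 l2 m1 m2 be ∧ ∃ u v : H1 N, Neh l1 l2 m1 m2 be u v ∧
      En l1 l2 m1 m2 be u v < t := by
  refine ⟨?_, ?_⟩
  · refine Real.sInf_nonneg ?_
    rintro e ⟨u', v', h', rfl⟩
    rw [Neh_En h']
    have := ip_nonneg h1.le u'
    have := ip_nonneg h2.le v'
    linarith
  · obtain ⟨u0, v0, h0⟩ := Neh_nonempty (N := N) be h1 h2 hm1 hm2
    unfold level at h
    have hne : {e : ℝ | ∃ u v : H1 N, Neh l1 l2 m1 m2 be u v ∧
        e = En l1 l2 m1 m2 be u v}.Nonempty := ⟨_, u0, v0, h0, rfl⟩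
    obtain ⟨e, ⟨u, v, hN, rfl⟩, hlt⟩ := exists_lt_of_csInf_lt hne h
    exact ⟨u, v, hN, hlt⟩

private theorem reC_one [Dim N] {l : ℝ} (hl : 0 < l) (u : H1 N) {a d : ℝ} (ha : ip l u u ≤ a)
    (hd : 0 < d) : ∃ U : H1 N, ip l U U = a ∧ n4 (U - u) ≤ Real.sqrt (a - ip l u u) * d := by
  obtain ⟨p0, hp1, hp2⟩ := flat (N := N) hl (d := d ^ 4) (by positivity)
  obtain ⟨p, hp1, hp2, hp3⟩ : ∃ p : H1 N, ip l p p = 1 ∧ Q4 p p p p < d ^ 4 ∧ 0 ≤ ip l u p := by
    rcases le_total 0 (ip l u p0) with h | h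
    · exact ⟨p0, hp1, hp2, h⟩
    · refine ⟨-p0, ?_, ?_, ?_⟩
      · rw [ip_neg_left, ip_neg_right, hp1]; norm_num
      · rw [Q4_neg1, Q4_neg2, Q4_neg3, Q4_neg4]; simpa using hp2
      · rw [ip_neg_right]; linarith
  obtain ⟨c, hc⟩ : ∃ c, c = ip l u p := ⟨_, rfl⟩
  rw [← hc] at hp3
  obtain ⟨A, hA⟩ : ∃ A, A = a - ip l u u := ⟨_, rfl⟩
  have hA0 : 0 ≤ A := by rw [hA]; linarith
  obtain ⟨s, hs⟩ : ∃ s, s = Real.sqrt (c ^ 2 + A) := ⟨_, rfl⟩
  have hs0 : 0 ≤ s := by rw [hs]; exact Real.sqrt_nonneg _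
  have hs2 : s ^ 2 = c ^ 2 + A := by rw [hs]; exact Real.sq_sqrt (by positivity)
  have hcs : c ≤ s := by
    rw [hs]
    exact Real.le_sqrt_of_sq_le (by linarith)
  refine ⟨u + (s - c) • p, ?_, ?_⟩
  · rw [ip_add_left, ip_add_right, ip_add_right, ip_smul_left, ip_smul_left, ip_smul_right,
      ip_smul_right, ip_comm l p u, hp1, ← hc]
    have : ip l u u = a - A := by rw [hA]; ring
    rw [this]
    linear_combination hs2
  · have e1 : u + (s - c) • p - u = (s - c) • p := by abel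
    rw [e1, n4_smul, abs_of_nonneg (by linarith), ← hA]
    have e2 : s - c ≤ Real.sqrt A := by
      refine Real.le_sqrt_of_sq_le ?_
      nlinarith
    have e3 : n4 p ≤ d := by
      have h4 := n4_pow p
      refine le_of_not_gt fun h5 => ?_
      have h6 : d ^ 4 < n4 p ^ 4 := pow_lt_pow_left₀ h5 hd.le (by norm_num)
      linarith
    exact mul_le_mul e2 e3 (n4_nonneg p) (Real.sqrt_nonneg _)

private theorem reC_seq [Dim N] {l : ℝ} (hl : 0 < l) (u : H1 N) {a : ℝ} (ha : ip l u u ≤ a) :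
    ∃ U : ℕ → H1 N, (∀ n, ip l (U n) (U n) = a) ∧
      Tendsto (fun n => n4 (U n - u)) atTop (𝓝 0) := by
  choose U h3 h4 using fun n : ℕ => reC_one hl u ha (d := 1 / ((n : ℝ) + 1)) (by positivity)
  refine ⟨U, h3, ?_⟩
  refine squeeze_zero (fun n => n4_nonneg _) h4 ?_
  have := tendsto_one_div_add_atTop_nhds_zero_nat (𝕜 := ℝ)
  simpa using this.const_mul (Real.sqrt (a - ip l u u))

/-- module reC. **Relaxation.** `a ≥ ip l1 u u`, `b ≥ ip l2 v v` may replace the true values in the projected energy: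
add `t • φ` with `φ` flat (`flat`: `ip l1 φ φ = 1`, `Q4 φ φ φ φ < d`; sign of `φ` such that `0 ≤ ip l1 u φ`),
`0 ≤ t ≤ sqrt (a - ip l1 u u)` with `ip l1 (u + tφ) (u + tφ) = a` exactly (intermediate value theorem); the same for `v`.
All `Q4`'s converge as `d → 0` (`Q4_tendsto`, `n4`), `OmM` is open and `EEn` is continuous where `q² ≠ pr`; `level_proj`. -/
theorem relax [Dim N] {l1 l2 m1 m2 be : ℝ} (h1 : 0 < l1) (h2 : 0 < l2) (hm1 : 0 < m1)
    (hm2 : 0 < m2) {u v : H1 N} {a b : ℝ} (ha : ip l1 u u ≤ a) (hb : ip l2 v v ≤ b)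
    (h : OmM a b (m1 * Q4 u u u u) (be * Q4 u u v v) (m2 * Q4 v v v v)) :
    level N l1 l2 m1 m2 be ≤
      EEn a b (m1 * Q4 u u u u) (be * Q4 u u v v) (m2 * Q4 v v v v) := by
  obtain ⟨U, hU1, hU2⟩ := reC_seq h1 u ha
  obtain ⟨V, hV1, hV2⟩ := reC_seq h2 v hb
  have tp := (Q4_tendsto U U U U u u u u hU2 hU2 hU2 hU2).const_mul m1
  have tq := (Q4_tendsto U U V V u u v v hU2 hU2 hV2 hV2).const_mul be
  have tr := (Q4_tendsto V V V V v v v v hV2 hV2 hV2 hV2).const_mul m2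
  obtain ⟨hD, hO2, hO3⟩ := h
  have tD := (tq.pow 2).sub (tp.mul tr)
  have e1 := tD.eventually (lt_mem_nhds hD)
  have e2 : ∀ᶠ n in atTop, a * (m2 * Q4 (V n) (V n) (V n) (V n)) <
      b * (be * Q4 (U n) (U n) (V n) (V n)) := (tr.const_mul a).eventually_lt (tq.const_mul b) hO2
  have e3 : ∀ᶠ n in atTop, b * (m1 * Q4 (U n) (U n) (U n) (U n)) <
      a * (be * Q4 (U n) (U n) (V n) (V n)) := (tp.const_mul b).eventually_lt (tq.const_mul a) hO3
  have tE : Tendsto (fun n => EEn a b (m1 * Q4 (U n) (U n) (U n) (U n))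
      (be * Q4 (U n) (U n) (V n) (V n)) (m2 * Q4 (V n) (V n) (V n) (V n))) atTop
      (𝓝 (EEn a b (m1 * Q4 u u u u) (be * Q4 u u v v) (m2 * Q4 v v v v))) := by
    unfold EEn
    refine Tendsto.div ?_ (tD.const_mul 4) (mul_ne_zero (by norm_num) hD.ne')
    exact ((tq.const_mul (2 * a * b)).sub (tr.const_mul (a ^ 2))).sub (tp.const_mul (b ^ 2))
  refine ge_of_tendsto tE ?_
  filter_upwards [e1, e2, e3] with n f1 f2 f3
  have hO : OmMp l1 l2 m1 m2 be (U n) (V n) := by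
    unfold OmMp
    rw [hU1, hV1]
    exact ⟨f1, f2, f3⟩
  have := level_proj h1 h2 hm1 hm2 (Or.inl hO)
  unfold EEp at this
  rwa [hU1, hV1] at this

/-- degenerate pairs: the limit of Nehari pairs with `v → 0` -/
def Deg (l1 l2 m1 be : ℝ) (u v : H1 N) : Prop :=
  u ≠ 0 ∧ v ≠ 0 ∧ ip l1 u u ≤ m1 * Q4 u u u u ∧ ip l2 v v ≤ be * Q4 u u v v

/-- module reD. `relax` with `a = p (1 + t)`, `b = ip l2 v v`, `t → 0+`; `q ≥ b > 0`, `S2 N l2 / m2 * r ≤ b²` (`S2_le`), so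
`p r < b² ≤ q²`, `a r < b² ≤ b q` for small `t`, `b p < a q`; `EE_a`: `EEn a b p q r ≤ a² / (4 p) = (1 + t)² p / 4`. -/
theorem deg_level [Dim N] {l1 l2 m1 m2 be : ℝ} (h1 : 0 < l1) (h2 : 0 < l2) (hm1 : 0 < m1)
    (hm2 : 0 < m2) {u v : H1 N} (h : Deg l1 l2 m1 be u v)
    (hK : m1 * Q4 u u u u < S2 N l2 / m2) :
    level N l1 l2 m1 m2 be ≤ m1 * Q4 u u u u / 4 := by
  obtain ⟨hu, hv, hA, hB⟩ := h
  have hP := Q4_pos hu
  have hR := Q4_pos hv
  have hb := ip_pos h2 hv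
  have hS := S2_le h2 v
  have key : ∀ t : ℝ, 0 < t → m1 * Q4 u u u u * (1 + t) < S2 N l2 / m2 →
      level N l1 l2 m1 m2 be ≤ (1 + t) ^ 2 * (m1 * Q4 u u u u) / 4 := by
    intro t ht htK
    obtain ⟨p, hp⟩ : ∃ p, p = m1 * Q4 u u u u := ⟨_, rfl⟩
    obtain ⟨q, hq⟩ : ∃ q, q = be * Q4 u u v v := ⟨_, rfl⟩
    obtain ⟨r, hr⟩ : ∃ r, r = m2 * Q4 v v v v := ⟨_, rfl⟩
    obtain ⟨b, hbd⟩ : ∃ b, b = ip l2 v v := ⟨_, rfl⟩
    obtain ⟨K, hKd⟩ : ∃ K, K = S2 N l2 / m2 := ⟨_, rfl⟩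
    have hp0 : 0 < p := by rw [hp]; positivity
    have hr0 : 0 < r := by rw [hr]; positivity
    have hSr : K * r ≤ b ^ 2 := by
      have : K * r = S2 N l2 * Q4 v v v v := by rw [hKd, hr]; field_simp
      rw [this, hbd]
      exact hS
    have hre := relax (a := p * (1 + t)) (b := b) h1 h2 hm1 hm2 (be := be) (u := u) (v := v)
      (by rw [hp]; nlinarith [mul_pos (mul_pos hm1 hP) ht]) (le_of_eq hbd.symm)
    rw [← hp, ← hq, ← hr] at hre
    rw [← hp, ← hKd] at htK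
    rw [← hp]
    rw [← hbd, ← hq] at hB
    rw [← hbd] at hb
    have hq0 : 0 < q := lt_of_lt_of_le hb hB
    have hpK : p < K := by nlinarith
    have hb2 : b ^ 2 ≤ b * q := by nlinarith
    have hbq : b * q ≤ q ^ 2 := by nlinarith
    have hO : OmM (p * (1 + t)) b p q r := by
      refine ⟨?_, ?_, ?_⟩
      · nlinarith [mul_lt_mul_of_pos_right hpK hr0]
      · have := mul_lt_mul_of_pos_right htK hr0
        linarith
      · have h5 : b * p ≤ q * p := mul_le_mul_of_nonneg_right hB hp0.le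
        have h6 : 0 < q * p * t := by positivity
        linarith
    refine (hre hO).trans ?_
    have hEE := EE_a (a := p * (1 + t)) (b := b) (p := p) (q := q) (r := r) hp0.ne' hO.1.ne'
    have h7 : 0 ≤ (p * (1 + t) * q - b * p) ^ 2 / (4 * p * (q ^ 2 - p * r)) := by
      have := hO.1
      positivity
    have h8 : (p * (1 + t)) ^ 2 / (4 * p) = (1 + t) ^ 2 * p / 4 := by
      field_simp
    linarith
  have hp0 : 0 < m1 * Q4 u u u u := by positivity
  have hev : ∀ᶠ t in 𝓝[>] (0 : ℝ), level N l1 l2 m1 m2 be ≤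
      (1 + t) ^ 2 * (m1 * Q4 u u u u) / 4 := by
    have h5 : ContinuousAt (fun t : ℝ => m1 * Q4 u u u u * (1 + t)) 0 := by fun_prop
    have h6 : ∀ᶠ t in 𝓝 (0 : ℝ), m1 * Q4 u u u u * (1 + t) < S2 N l2 / m2 := by
      refine h5.eventually (gt_mem_nhds ?_)
      simpa using hK
    filter_upwards [self_mem_nhdsWithin, nhdsWithin_le_nhds h6] with t a b
    exact key t a b
  have h7 : Tendsto (fun t : ℝ => (1 + t) ^ 2 * (m1 * Q4 u u u u) / 4) (𝓝[>] 0)
      (𝓝 (m1 * Q4 u u u u / 4)) := by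
    have : ContinuousAt (fun t : ℝ => (1 + t) ^ 2 * (m1 * Q4 u u u u) / 4) 0 := by fun_prop
    have h8 := this.tendsto
    simp only [add_zero, one_pow, one_mul] at h8
    exact h8.mono_left nhdsWithin_le_nhds
  exact ge_of_tendsto h7 hev

/-- module reD. The same when the level is `≤ S2 N l2 / (4 m2)` (otherwise `m1 P(u) / 4 ≥ S2 N l2 / (4 m2)`). -/
theorem deg_level' [Dim N] {l1 l2 m1 m2 be : ℝ} (h1 : 0 < l1) (h2 : 0 < l2) (hm1 : 0 < m1)
    (hm2 : 0 < m2) {u v : H1 N} (h : Deg l1 l2 m1 be u v)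
    (hK : level N l1 l2 m1 m2 be ≤ S2 N l2 / (4 * m2)) :
    level N l1 l2 m1 m2 be ≤ m1 * Q4 u u u u / 4 := by
  rcases lt_or_ge (m1 * Q4 u u u u) (S2 N l2 / m2) with h3 | h3
  · exact deg_level h1 h2 hm1 hm2 h h3
  · refine hK.trans ?_
    have : S2 N l2 / (4 * m2) = S2 N l2 / m2 / 4 := by field_simp
    rw [this]
    linarith

private theorem reE_aux [Dim N] {l1 l2 m1 m2 be be' t : ℝ} (h1 : 0 < l1) (h2 : 0 < l2)
    (hm1 : 0 < m1) (hm2 : 0 < m2) (hb : 0 < be) (hlt : be < be')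
    (ht : level N l1 l2 m1 m2 be < t) (htK : t < S2 N l2 / (4 * m2)) :
    level N l1 l2 m1 m2 be' ≤ t := by
  obtain ⟨-, u, v, hN, hE⟩ := level_lt h1 h2 hm1 hm2 ht
  have hP := Q4_pos hN.1
  have hR := Q4_pos hN.2.1
  have hge := (Neh_ge h1 h2 hm1 hm2 hN).1
  have hD : 0 < Dl m1 m2 be u v := by
    by_contra hc
    push Not at hc
    have : Dl m1 m2 be u v / (4 * (m2 * Q4 v v v v)) ≤ 0 :=
      div_nonpos_of_nonpos_of_nonneg hc (by positivity)
    linarith
  obtain ⟨hO, -, hEE⟩ := Neh_Om hN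
  have hQ : 0 < Q4 u u v v := by
    refine lt_of_le_of_ne (Q4_nonneg u v) fun h0 => ?_
    unfold Dl at hD
    rw [← h0] at hD
    have : 0 < m1 * Q4 u u u u * (m2 * Q4 v v v v) := by positivity
    have e : (be * 0) ^ 2 = 0 := by ring
    rw [e] at hD
    linarith
  have h3 := EE_q (q' := be' * Q4 u u v v) (mul_pos hm1 hP) (mul_pos hm2 hR) (ip_pos h1 hN.1)
    (ip_pos h2 hN.2.1) (mul_pos hb hQ) (hO hD) (mul_lt_mul_of_pos_right hlt hQ)
  have h4 : OmMp l1 l2 m1 m2 be' u v := h3.1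
  have h5 := level_proj h1 h2 hm1 hm2 (Or.inl h4)
  have h6 : EEp l1 l2 m1 m2 be' u v < EEp l1 l2 m1 m2 be u v := h3.2
  rw [hEE hD.ne'] at h6
  linarith

/-- module reE. `level` is nonincreasing where it is below `S2 N l2 / (4 m2)`: for `(u,v)` in the Nehari set with
`En < S2 N l2 / (4 m2)`, `Neh_ge` gives `0 < Dl`, `Neh_Om`: `OmMp` and `EEp = En`; `EE_q` (all `Q4`'s are `> 0`: `0 < Dl` gives
`Q4 u u v v ≠ 0`), `level_proj`. -/
theorem level_anti [Dim N] {l1 l2 m1 m2 be be' : ℝ} (h1 : 0 < l1) (h2 : 0 < l2) (hm1 : 0 < m1)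
    (hm2 : 0 < m2) (hb : 0 < be) (hbb : be ≤ be')
    (hK : level N l1 l2 m1 m2 be < S2 N l2 / (4 * m2)) :
    level N l1 l2 m1 m2 be' ≤ level N l1 l2 m1 m2 be := by
  rcases eq_or_lt_of_le hbb with rfl | hlt
  · exact le_rfl
  refine le_of_forall_gt_imp_ge_of_dense fun t ht => ?_
  rcases le_or_gt (S2 N l2 / (4 * m2)) t with h3 | h3
  · obtain ⟨t', h4, h5⟩ := exists_between hK
    exact (reE_aux h1 h2 hm1 hm2 hb hlt h4 h5).trans (h5.le.trans h3)
  · exact reE_aux h1 h2 hm1 hm2 hb hlt ht h3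

private theorem reF_a_nab (l1 l2 s : ℝ) (u v : H1 N) :
    nab l1 l2 (s • u) (s • v) = s ^ 2 * nab l1 l2 u v := by
  unfold nab
  simp only [ip_smul_left, ip_smul_right]
  ring

private theorem reF_a_q44 (m1 m2 be s : ℝ) (u v : H1 N) :
    q44 m1 m2 be (s • u) (s • v) = s ^ 4 * q44 m1 m2 be u v := by
  unfold q44
  simp only [Q4_smul1, Q4_smul2, Q4_smul3, Q4_smul4]
  ring

private theorem reF_b_poly {c1 c2 c3 c4 : ℝ}
    (h : ∀ t : ℝ, 0 ≤ c1 * t + c2 * t ^ 2 + c3 * t ^ 3 + c4 * t ^ 4) : c1 = 0 := by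
  have h1 : HasDerivAt (fun t : ℝ => c1 * t + c2 * t ^ 2 + c3 * t ^ 3 + c4 * t ^ 4) c1 0 := by
    have e := (((hasDerivAt_id' (0 : ℝ)).const_mul c1).fun_add
      ((hasDerivAt_pow 2 (0 : ℝ)).const_mul c2)).fun_add ((hasDerivAt_pow 3 (0 : ℝ)).const_mul c3)
    have e2 := e.fun_add ((hasDerivAt_pow 4 (0 : ℝ)).const_mul c4)
    simpa using e2
  have h2 : IsLocalMin (fun t : ℝ => c1 * t + c2 * t ^ 2 + c3 * t ^ 3 + c4 * t ^ 4) 0 := by
    refine Eventually.of_forall fun t => ?_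
    have := h t
    simpa using this
  exact h2.hasDerivAt_eq_zero h1

/-- module reF. As in `ex_large` (file Sir/ExL.lean, whose proof builds such a pair for both indices and then concludes):
`quot_min` gives a minimiser `(U,V)` of `nab² / q44`; if `V = 0` or `U = 0` the quotient is at least `S2 N l1 / m1` resp.
`S2 N l2 / m2` (`S2_le`), excluded by the two hypotheses; so both are nonzero and the minimiser, scaled, is a ground
state. Copy the last part of the proof of `ex_large`. -/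
theorem quot_GS [Dim N] {l1 l2 m1 m2 be : ℝ} (h1 : 0 < l1) (h2 : 0 < l2) (hm1 : 0 < m1)
    (hm2 : 0 < m2) (hb : 0 < be) {u v : H1 N}
    (ha : nab l1 l2 u v ^ 2 < S2 N l1 / m1 * q44 m1 m2 be u v)
    (hb' : nab l1 l2 u v ^ 2 < S2 N l2 / m2 * q44 m1 m2 be u v) : HasGS N l1 l2 m1 m2 be := by
  obtain ⟨U, V, B, -, -, hUV, hB, hBeq, hBle⟩ := quot_min (N := N) h1 h2 hm1 hm2 hb
  have hqq : 0 ≤ q44 m1 m2 be u v := by
    unfold q44
    have e1 := Q4_nonneg u u
    have e2 := Q4_nonneg u v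
    have e3 := Q4_nonneg v v
    positivity
  have hqp : 0 < q44 m1 m2 be u v := by
    refine lt_of_le_of_ne hqq fun h0 => ?_
    rw [← h0, mul_zero] at ha
    exact absurd ha (not_lt.2 (sq_nonneg _))
  have hlt1 : B < S2 N l1 / m1 := lt_of_mul_lt_mul_right ((hBle u v).trans_lt ha) hqp.le
  have hlt2 : B < S2 N l2 / m2 := lt_of_mul_lt_mul_right ((hBle u v).trans_lt hb') hqp.le
  clear ha hb' hqq hqp
  clear u v
  -- both components are nonzero
  have hV : V ≠ 0 := by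
    intro hV
    have hU : U ≠ 0 := by
      rcases hUV with h | h
      · exact h
      · exact absurd hV h
    have e1 : nab l1 l2 U V = ip l1 U U := by
      unfold nab
      rw [hV, ip_zero_left, add_zero]
    have e2 : q44 m1 m2 be U V = m1 * Q4 U U U U := by
      unfold q44
      have e3 : Q4 U U (0 : H1 N) 0 = 0 := by rw [Q4_swapp, Q4_zero1]
      rw [hV, e3, Q4_zero1]
      ring
    rw [e1, e2] at hBeq
    have e3 := S2_le h1 U
    have e4 := Q4_pos hU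
    have e5 : B * m1 < S2 N l1 := by rwa [lt_div_iff₀ hm1] at hlt1
    have e6 := mul_lt_mul_of_pos_right e5 e4
    nlinarith
  have hU : U ≠ 0 := by
    intro hU
    have e1 : nab l1 l2 U V = ip l2 V V := by
      unfold nab
      rw [hU, ip_zero_left, zero_add]
    have e2 : q44 m1 m2 be U V = m2 * Q4 V V V V := by
      unfold q44
      rw [hU, Q4_zero1, Q4_zero1]
      ring
    rw [e1, e2] at hBeq
    have e3 := S2_le h2 V
    have e4 := Q4_pos hV
    have e5 : B * m2 < S2 N l2 := by rwa [lt_div_iff₀ hm2] at hlt2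
    have e6 := mul_lt_mul_of_pos_right e5 e4
    nlinarith
  -- scaling
  have hn : 0 < nab l1 l2 U V := add_pos (ip_pos h1 hU) (ip_pos h2 hV)
  have hq : 0 < q44 m1 m2 be U V := by
    unfold q44
    have e1 := Q4_pos hU
    have e2 := Q4_nonneg U V
    have e3 := Q4_nonneg V V
    positivity
  set s : ℝ := Real.sqrt (nab l1 l2 U V / q44 m1 m2 be U V) with hs
  have hs2 : s ^ 2 = nab l1 l2 U V / q44 m1 m2 be U V := Real.sq_sqrt (by positivity)
  have hs0 : s ≠ 0 := (Real.sqrt_pos.mpr (by positivity)).ne'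
  set u : H1 N := s • U with hu
  set v : H1 N := s • V with hv
  have hnu : nab l1 l2 u v = B := by
    rw [hu, hv, reF_a_nab, hs2]
    field_simp
    rw [hBeq]
    ring
  have hqu : q44 m1 m2 be u v = B := by
    rw [hu, hv, reF_a_q44, show s ^ 4 = (s ^ 2) ^ 2 by ring, hs2]
    have e1 : (nab l1 l2 U V / q44 m1 m2 be U V) ^ 2 * q44 m1 m2 be U V =
        nab l1 l2 U V ^ 2 / q44 m1 m2 be U V := by
      field_simp
    rw [e1, hBeq, mul_div_assoc, div_self hq.ne', mul_one]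
  have hu0 : u ≠ 0 := smul_ne_zero hs0 hU
  have hv0 : v ≠ 0 := smul_ne_zero hs0 hV
  have hSol : Sol l1 l2 m1 m2 be u v := by
    refine ⟨fun h => ?_, fun h => ?_⟩
    · have key := reF_b_poly (c1 := 4 * B * ip l1 u h - B * (4 * (m1 * Q4 u u u h) +
          4 * (be * Q4 u h v v)))
        (c2 := 2 * B * ip l1 h h + 4 * ip l1 u h ^ 2 - B * (6 * (m1 * Q4 u u h h) +
          2 * (be * Q4 h h v v)))
        (c3 := 4 * ip l1 u h * ip l1 h h - B * (4 * (m1 * Q4 u h h h)))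
        (c4 := ip l1 h h ^ 2 - B * (m1 * Q4 h h h h)) fun t => by
          have h3 := hBle (u + t • h) v
          unfold nab q44 at h3
          rw [P_expand, Q_expand] at h3
          have e1 : ip l1 (u + t • h) (u + t • h) = ip l1 u u + 2 * t * ip l1 u h +
              t ^ 2 * ip l1 h h := by
            simp only [ip_add_left, ip_add_right, ip_smul_left, ip_smul_right]
            rw [ip_comm l1 h u]
            ring
          rw [e1] at h3
          have e2 := hnu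
          have e3 := hqu
          unfold nab at e2
          unfold q44 at e3
          have e4 : ip l1 u u + 2 * t * ip l1 u h + t ^ 2 * ip l1 h h + ip l2 v v =
              B + 2 * t * ip l1 u h + t ^ 2 * ip l1 h h := by linarith
          rw [e4] at h3
          have e5 : m1 * (Q4 u u u u + 4 * t * Q4 u u u h + 6 * t ^ 2 * Q4 u u h h +
              4 * t ^ 3 * Q4 u h h h + t ^ 4 * Q4 h h h h) + 2 * (be * (Q4 u u v v +
              2 * t * Q4 u h v v + t ^ 2 * Q4 h h v v)) + m2 * Q4 v v v v =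
              B + (4 * t * (m1 * Q4 u u u h) + 6 * t ^ 2 * (m1 * Q4 u u h h) +
              4 * t ^ 3 * (m1 * Q4 u h h h) + t ^ 4 * (m1 * Q4 h h h h)) +
              (4 * t * (be * Q4 u h v v) + 2 * t ^ 2 * (be * Q4 h h v v)) := by
            rw [← e3]; ring
          rw [e5] at h3
          nlinarith
      have e1 : Q4 v v u h = Q4 u h v v := Q4_swapp v v u h
      rw [e1]
      have e2 : B * (ip l1 u h - (m1 * Q4 u u u h + be * Q4 u h v v)) = 0 := by linarith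
      have e3 := (mul_eq_zero.mp e2).resolve_left hB.ne'
      linarith
    · have key := reF_b_poly (c1 := 4 * B * ip l2 v h - B * (4 * (m2 * Q4 v v v h) +
          4 * (be * Q4 v h u u)))
        (c2 := 2 * B * ip l2 h h + 4 * ip l2 v h ^ 2 - B * (6 * (m2 * Q4 v v h h) +
          2 * (be * Q4 h h u u)))
        (c3 := 4 * ip l2 v h * ip l2 h h - B * (4 * (m2 * Q4 v h h h)))
        (c4 := ip l2 h h ^ 2 - B * (m2 * Q4 h h h h)) fun t => by
          have h3 := hBle u (v + t • h)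
          unfold nab q44 at h3
          rw [P_expand, Q4_swapp u u (v + t • h) (v + t • h), Q_expand] at h3
          have e1 : ip l2 (v + t • h) (v + t • h) = ip l2 v v + 2 * t * ip l2 v h +
              t ^ 2 * ip l2 h h := by
            simp only [ip_add_left, ip_add_right, ip_smul_left, ip_smul_right]
            rw [ip_comm l2 h v]
            ring
          rw [e1] at h3
          have e2 := hnu
          have e3 := hqu
          unfold nab at e2
          unfold q44 at e3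
          rw [Q4_swapp u u v v] at e3
          have e4 : ip l1 u u + (ip l2 v v + 2 * t * ip l2 v h + t ^ 2 * ip l2 h h) =
              B + 2 * t * ip l2 v h + t ^ 2 * ip l2 h h := by linarith
          rw [e4] at h3
          have e5 : m1 * Q4 u u u u + 2 * (be * (Q4 v v u u +
              2 * t * Q4 v h u u + t ^ 2 * Q4 h h u u)) +
              m2 * (Q4 v v v v + 4 * t * Q4 v v v h + 6 * t ^ 2 * Q4 v v h h +
              4 * t ^ 3 * Q4 v h h h + t ^ 4 * Q4 h h h h) =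
              B + (4 * t * (m2 * Q4 v v v h) + 6 * t ^ 2 * (m2 * Q4 v v h h) +
              4 * t ^ 3 * (m2 * Q4 v h h h) + t ^ 4 * (m2 * Q4 h h h h)) +
              (4 * t * (be * Q4 v h u u) + 2 * t ^ 2 * (be * Q4 h h u u)) := by
            rw [← e3]; ring
          rw [e5] at h3
          nlinarith
      have e1 : Q4 u u v h = Q4 v h u u := Q4_swapp u u v h
      rw [e1]
      have e2 : B * (ip l2 v h - (m2 * Q4 v v v h + be * Q4 v h u u)) = 0 := by linarith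
      have e3 := (mul_eq_zero.mp e2).resolve_left hB.ne'
      linarith
  rw [HasGS_iff h1 h2]
  refine ⟨u, v, hSol, Neh_of_Sol hu0 hv0 hSol, fun u' v' hN => ?_⟩
  rw [Neh_En (Neh_of_Sol hu0 hv0 hSol), Neh_En hN]
  have e1 := hBle u' v'
  have e2 : q44 m1 m2 be u' v' = nab l1 l2 u' v' := by
    unfold q44 nab
    have := hN.2.2.1
    have := hN.2.2.2
    linarith
  have e3 : 0 < nab l1 l2 u' v' := add_pos (ip_pos h1 hN.1) (ip_pos h2 hN.2.1)
  rw [e2, sq] at e1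
  have e4 : B ≤ nab l1 l2 u' v' := le_of_mul_le_mul_right e1 e3
  have e5 := hnu
  unfold nab at e4 e5
  linarith

/-- module reG. **Pohozaev identity for minimisers.** For the dilation `T` of `dil_H s` (`s` near `1`):
`ip l (T u) (T u) = s^(4-N) * ip (l / s²) u u = s^(4-N) * (gX u u + l / s² * gY u u)`, all `Q4` are multiplied by `s^(4-N)`. `OmMp` / `OmPp`
are open conditions at `s = 1`, so `min_le` gives `En u v ≤ s^(4-N) * EEn (X(u) + l1 Y(u)/s²) (X(v) + l2 Y(v)/s²) p q r` for `s` near `1`,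
with equality at `s = 1`; the derivative at `s = 1` is `(4 - N) En - l1 Y(u) - l2 Y(v)` since `EEn` has the partial derivatives
`(b q - a r)/(2 (q² - p r)) = 1/2` and `(a q - b p)/(2 (q² - p r)) = 1/2` in `a`, `b` at a Nehari pair. Compare `pohozaev` in Sir/Poh.lean. -/
theorem poh_GS [Dim N] {l1 l2 m1 m2 be : ℝ} (h1 : 0 < l1) (h2 : 0 < l2) (hm1 : 0 < m1)
    (hm2 : 0 < m2) {u v : H1 N} (h : IsMin l1 l2 m1 m2 be u v) (hD : Dl m1 m2 be u v ≠ 0) :
    l1 * gY u u + l2 * gY v v = (4 - (N : ℝ)) / 4 * (ip l1 u u + ip l2 v v) := by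
  obtain ⟨hOm, hOp, hEE⟩ := Neh_Om h.1
  have hEE := hEE hD
  obtain ⟨p, hp⟩ : ∃ p, p = m1 * Q4 u u u u := ⟨_, rfl⟩
  obtain ⟨q, hq⟩ : ∃ q, q = be * Q4 u u v v := ⟨_, rfl⟩
  obtain ⟨r, hr⟩ : ∃ r, r = m2 * Q4 v v v v := ⟨_, rfl⟩
  obtain ⟨X1, hX1⟩ : ∃ X, X = gX u u := ⟨_, rfl⟩
  obtain ⟨X2, hX2⟩ : ∃ X, X = gX v v := ⟨_, rfl⟩
  obtain ⟨Y1, hY1⟩ : ∃ X, X = gY u u := ⟨_, rfl⟩
  obtain ⟨Y2, hY2⟩ : ∃ X, X = gY v v := ⟨_, rfl⟩
  have hDn : q ^ 2 - p * r ≠ 0 := by
    rw [hp, hq, hr]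
    exact hD
  have hEn := Neh_En h.1
  obtain ⟨-, -, n3, n4'⟩ := h.1
  have ha : X1 + l1 * Y1 = p + q := by rw [hX1, hY1, hp, hq]; exact n3
  have hb : X2 + l2 * Y2 = r + q := by rw [hX2, hY2, hr, hq]; exact n4'
  -- the comparison
  have hcomp : ∀ᶠ s in 𝓝 (1 : ℝ), En l1 l2 m1 m2 be u v ≤
      s ^ (4 - N) * EEn (X1 + l1 * Y1 * (s ^ 2)⁻¹) (X2 + l2 * Y2 * (s ^ 2)⁻¹) p q r := by
    have c0 : ContinuousAt (fun s : ℝ => (s ^ 2)⁻¹) 1 := by
      refine ContinuousAt.inv₀ (by fun_prop) (by norm_num)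
    have c1 : ContinuousAt (fun s : ℝ => X1 + l1 * Y1 * (s ^ 2)⁻¹) 1 :=
      continuousAt_const.add (continuousAt_const.mul c0)
    have c2 : ContinuousAt (fun s : ℝ => X2 + l2 * Y2 * (s ^ 2)⁻¹) 1 :=
      continuousAt_const.add (continuousAt_const.mul c0)
    have v1 : X1 + l1 * Y1 * ((1 : ℝ) ^ 2)⁻¹ = p + q := by rw [← ha]; ring
    have v2 : X2 + l2 * Y2 * ((1 : ℝ) ^ 2)⁻¹ = r + q := by rw [← hb]; ring
    have hev : ∀ᶠ s in 𝓝 (1 : ℝ),
        (OmM (X1 + l1 * Y1 * (s ^ 2)⁻¹) (X2 + l2 * Y2 * (s ^ 2)⁻¹) p q r ∨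
          OmP (X1 + l1 * Y1 * (s ^ 2)⁻¹) (X2 + l2 * Y2 * (s ^ 2)⁻¹) p q r) := by
      have d1 : ContinuousAt (fun s : ℝ => (X2 + l2 * Y2 * (s ^ 2)⁻¹) * q -
          (X1 + l1 * Y1 * (s ^ 2)⁻¹) * r) 1 :=
        (c2.mul continuousAt_const).sub (c1.mul continuousAt_const)
      have d2 : ContinuousAt (fun s : ℝ => (X1 + l1 * Y1 * (s ^ 2)⁻¹) * q -
          (X2 + l2 * Y2 * (s ^ 2)⁻¹) * p) 1 :=
        (c1.mul continuousAt_const).sub (c2.mul continuousAt_const)
      rcases lt_or_gt_of_ne hDn with hneg | hpos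
      · have f1 : ∀ᶠ s in 𝓝 (1 : ℝ), (X2 + l2 * Y2 * (s ^ 2)⁻¹) * q -
            (X1 + l1 * Y1 * (s ^ 2)⁻¹) * r < 0 := by
          refine d1.eventually (gt_mem_nhds ?_)
          beta_reduce
          rw [v1, v2]
          linarith
        have f2 : ∀ᶠ s in 𝓝 (1 : ℝ), (X1 + l1 * Y1 * (s ^ 2)⁻¹) * q -
            (X2 + l2 * Y2 * (s ^ 2)⁻¹) * p < 0 := by
          refine d2.eventually (gt_mem_nhds ?_)
          beta_reduce
          rw [v1, v2]
          linarith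
        filter_upwards [f1, f2] with s g1 g2
        exact Or.inr ⟨hneg, by linarith, by linarith⟩
      · have f1 : ∀ᶠ s in 𝓝 (1 : ℝ), 0 < (X2 + l2 * Y2 * (s ^ 2)⁻¹) * q -
            (X1 + l1 * Y1 * (s ^ 2)⁻¹) * r := by
          refine d1.eventually (lt_mem_nhds ?_)
          beta_reduce
          rw [v1, v2]
          linarith
        have f2 : ∀ᶠ s in 𝓝 (1 : ℝ), 0 < (X1 + l1 * Y1 * (s ^ 2)⁻¹) * q -
            (X2 + l2 * Y2 * (s ^ 2)⁻¹) * p := by
          refine d2.eventually (lt_mem_nhds ?_)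
          beta_reduce
          rw [v1, v2]
          linarith
        filter_upwards [f1, f2] with s g1 g2
        exact Or.inl ⟨hpos, by linarith, by linarith⟩
    have hs1 : ∀ᶠ s in 𝓝 (1 : ℝ), 0 < s := lt_mem_nhds one_pos
    filter_upwards [hev, hs1] with s hs hs0
    obtain ⟨T, -, hT1, hT2⟩ := dil_H (N := N) s hs0
    obtain ⟨k, hk⟩ : ∃ k, k = s ^ (4 - N) := ⟨_, rfl⟩
    have hk0 : 0 < k := by rw [hk]; positivity
    have g1 : ∀ (l : ℝ) (z : H1 N), ip l (T z) (T z) = k * (gX z z + l * gY z z * (s ^ 2)⁻¹) := by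
      intro l z
      have := hT1 (l * (s ^ 2)⁻¹) z z
      have e : s ^ 2 * (l * (s ^ 2)⁻¹) = l := by field_simp
      rw [e] at this
      rw [this, ← hk]
      unfold ip
      ring
    have g2 : ip l1 (T u) (T u) = k * (X1 + l1 * Y1 * (s ^ 2)⁻¹) := by rw [g1, hX1, hY1]
    have g3 : ip l2 (T v) (T v) = k * (X2 + l2 * Y2 * (s ^ 2)⁻¹) := by rw [g1, hX2, hY2]
    have g4 : m1 * Q4 (T u) (T u) (T u) (T u) = k * p := by rw [hT2, ← hk, hp]; ring
    have g5 : be * Q4 (T u) (T u) (T v) (T v) = k * q := by rw [hT2, ← hk, hq]; ring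
    have g6 : m2 * Q4 (T v) (T v) (T v) (T v) = k * r := by rw [hT2, ← hk, hr]; ring
    obtain ⟨A, hA⟩ : ∃ A, A = X1 + l1 * Y1 * (s ^ 2)⁻¹ := ⟨_, rfl⟩
    obtain ⟨B, hB⟩ : ∃ B, B = X2 + l2 * Y2 * (s ^ 2)⁻¹ := ⟨_, rfl⟩
    rw [← hA, ← hB] at hs
    rw [← hA] at g2
    rw [← hB] at g3
    rw [← hA, ← hB, ← hk]
    have hO : OmMp l1 l2 m1 m2 be (T u) (T v) ∨ OmPp l1 l2 m1 m2 be (T u) (T v) := by
      unfold OmMp OmPp
      rw [g2, g3, g4, g5, g6]
      have hk2 : 0 < k * k := by positivity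
      rcases hs with ⟨a1, a2, a3⟩ | ⟨a1, a2, a3⟩
      · left
        have b1 := mul_pos hk2 a1
        have b2 := mul_lt_mul_of_pos_left a2 hk2
        have b3 := mul_lt_mul_of_pos_left a3 hk2
        refine ⟨?_, ?_, ?_⟩ <;> linarith
      · right
        have b1 := mul_neg_of_pos_of_neg hk2 a1
        have b2 := mul_lt_mul_of_pos_left a2 hk2
        have b3 := mul_lt_mul_of_pos_left a3 hk2
        refine ⟨?_, ?_, ?_⟩ <;> linarith
    have hmin := min_le h1 h2 hm1 hm2 h hO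
    unfold EEp at hmin
    rw [g2, g3, g4, g5, g6] at hmin
    have e7 : EEn (k * A) (k * B) (k * p) (k * q) (k * r) = k * EEn A B p q r := by
      unfold EEn
      have : 4 * ((k * q) ^ 2 - k * p * (k * r)) = k ^ 2 * (4 * (q ^ 2 - p * r)) := by ring
      rw [this]
      have h9 : 4 * (q ^ 2 - p * r) ≠ 0 := mul_ne_zero (by norm_num) hDn
      field_simp
    rw [e7] at hmin
    exact hmin
  -- the derivative
  obtain ⟨F, hF⟩ : ∃ F : ℝ → ℝ, F = fun s => s ^ (4 - N) *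
    EEn (X1 + l1 * Y1 * (s ^ 2)⁻¹) (X2 + l2 * Y2 * (s ^ 2)⁻¹) p q r := ⟨_, rfl⟩
  have hF1 : F 1 = En l1 l2 m1 m2 be u v := by
    rw [hF]
    simp only [one_pow, inv_one, mul_one, one_mul]
    rw [← hEE]
    unfold EEp ip
    rw [hX1, hX2, hY1, hY2, hp, hq, hr]
  have hloc : IsLocalMin F 1 := by
    unfold IsLocalMin IsMinFilter
    rw [hF1]
    filter_upwards [hcomp] with s hs
    rw [hF]
    exact hs
  have hc4 : ((4 - N : ℕ) : ℝ) = 4 - (N : ℝ) := by
    rcases (inferInstance : Dim N).h with h | h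
    · subst h; norm_num
    · subst h; norm_num
  have hder : HasDerivAt F ((4 - (N : ℝ)) * (((X1 + l1 * Y1) + (X2 + l2 * Y2)) / 4) -
      l1 * Y1 - l2 * Y2) 1 := by
    have d0 : HasDerivAt (fun s : ℝ => (s ^ 2)⁻¹) (-2) 1 := by
      have := (hasDerivAt_pow 2 (1 : ℝ)).fun_inv (by norm_num)
      refine this.congr_deriv ?_
      norm_num
    have d1 : HasDerivAt (fun s : ℝ => X1 + l1 * Y1 * (s ^ 2)⁻¹) (l1 * Y1 * (-2)) 1 :=
      (d0.const_mul _).const_add _
    have d2 : HasDerivAt (fun s : ℝ => X2 + l2 * Y2 * (s ^ 2)⁻¹) (l2 * Y2 * (-2)) 1 :=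
      (d0.const_mul _).const_add _
    have d3 : HasDerivAt (fun s : ℝ => s ^ (4 - N)) (((4 - N : ℕ) : ℝ) * 1 ^ (4 - N - 1)) 1 :=
      hasDerivAt_pow _ _
    have d4 : HasDerivAt (fun s : ℝ => EEn (X1 + l1 * Y1 * (s ^ 2)⁻¹) (X2 + l2 * Y2 * (s ^ 2)⁻¹)
        p q r) (-(l1 * Y1) - l2 * Y2) 1 := by
      unfold EEn
      have := ((((d1.mul d2).const_mul (2 * q)).sub ((d1.pow 2).mul_const r)).sub
        ((d2.pow 2).mul_const p)).div_const (4 * (q ^ 2 - p * r))
      refine (this.congr_of_eventuallyEq ?_).congr_deriv ?_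
      · filter_upwards with s
        simp only [Pi.mul_apply, Pi.sub_apply, Pi.pow_apply]
        ring_nf
      · simp only [one_pow, inv_one, mul_one]
        rw [ha, hb, div_eq_iff (mul_ne_zero (by norm_num) hDn)]
        push_cast
        ring
    rw [hF]
    refine (d3.mul d4).congr_deriv ?_
    simp only [one_pow, inv_one, mul_one, one_mul]
    have e8 : EEn (X1 + l1 * Y1) (X2 + l2 * Y2) p q r = ((X1 + l1 * Y1) + (X2 + l2 * Y2)) / 4 := by
      unfold EEn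
      rw [ha, hb, div_eq_iff (mul_ne_zero (by norm_num) hDn)]
      ring
    rw [e8, hc4]
    ring
  have hz := hloc.hasDerivAt_eq_zero hder
  unfold ip
  rw [← hX1, ← hX2, ← hY1, ← hY2]
  linarith

end Sir
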