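import Pool.Agent.SirF.NonF
import Pool.Agent.SirF.Crit
/-!
# The window around the threshold (text MP_2cd2dd_an_far_helper13.md, section 4)
modules: wiA, wiB, wiC, wiD, wiE, wiF, wiG, wiH
-/

namespace Sir

open MeasureTheory Filter Topology

variable {N : ℕ}

/-- `t0²`, the larger root of `z² - z = x` -/
noncomputable def zx (x : ℝ) : ℝ := (1 + Real.sqrt (1 + 4 * x)) / 2

/-- `t0⁴` -/
noncomputable def Gx (x : ℝ) : ℝ := (1 + 2 * x + Real.sqrt (1 + 4 * x)) / 2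

/-- the parameters of the window: `x0 ≤ x ≤ x1` where `x = kap / (be s)`, `s = S2 N l / m` -/
def Wnd (N : ℕ) (M x0 x1 l0 l m be : ℝ) : Prop :=
  0 < l ∧ l < l0 ∧ 1 / M ≤ m ∧ m ≤ M ∧ 0 < be ∧ x0 * be * (S2 N l / m) ≤ kap N l 1 ∧
    kap N l 1 ≤ x1 * be * (S2 N l / m)

/-- module wiA. Real facts. -/
theorem zx_facts {x : ℝ} (hx : 0 ≤ x) : zx x ^ 2 = Gx x ∧ zx x ^ 2 - zx x = x ∧ 1 ≤ zx x ∧
    (∀ z : ℝ, 0 < z → x ≤ z ^ 2 - z → zx x ≤ z) ∧ (∀ y : ℝ, x ≤ y → zx x ≤ zx y ∧ Gx x ≤ Gx y) ∧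
    (2 ≤ x → 2 / 3 * (x - 2) ≤ 2 * x - Gx x) ∧ (x ≤ 2 → (2 - x) / 3 ≤ Gx x - 2 * x) := by
  have h0 : (0 : ℝ) ≤ 1 + 4 * x := by linarith
  have hr : Real.sqrt (1 + 4 * x) ^ 2 = 1 + 4 * x := Real.sq_sqrt h0
  have hr1 : 1 ≤ Real.sqrt (1 + 4 * x) := by
    rw [Real.one_le_sqrt]; linarith
  have h1 : zx x ^ 2 = Gx x := by
    unfold zx Gx; nlinarith
  have h2 : zx x ^ 2 - zx x = x := by
    unfold zx; nlinarith
  have h3 : 1 ≤ zx x := by unfold zx; linarith
  refine ⟨h1, h2, h3, ?_, ?_, ?_, ?_⟩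
  · intro z hz hxz
    by_contra hc
    push Not at hc
    have hz1 : 1 ≤ z := by
      by_contra h
      push Not at h
      nlinarith
    nlinarith
  · intro y hy
    have hs : Real.sqrt (1 + 4 * x) ≤ Real.sqrt (1 + 4 * y) := Real.sqrt_le_sqrt (by linarith)
    constructor
    · unfold zx; linarith
    · unfold Gx; linarith
  · intro h
    have : Real.sqrt (1 + 4 * x) ≤ 3 + 2 / 3 * (x - 2) := by
      rw [Real.sqrt_le_left (by linarith)]
      nlinarith [sq_nonneg (x - 2)]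
    unfold Gx; linarith
  · intro h
    have : 1 + x ≤ Real.sqrt (1 + 4 * x) := by
      apply Real.le_sqrt_of_sq_le
      nlinarith
    unfold Gx; linarith

private theorem wiA_mono {M x0 x1 l0 l0' l m be : ℝ} (h : Wnd N M x0 x1 l0 l m be)
    (hl : l0 ≤ l0') : Wnd N M x0 x1 l0' l m be := by
  obtain ⟨a, b, c⟩ := h
  exact ⟨a, lt_of_lt_of_le b hl, c⟩

/-- `s² ≤ l S² M²` -/
private theorem wiA_s [Dim N] {M l m : ℝ} (hM : 1 ≤ M) (hl : 0 < l) (hl1 : l ≤ 1)
    (hm1 : 1 / M ≤ m) : 0 < m ∧ 0 < S2 N l / m ∧ (S2 N l / m) ^ 2 ≤ l * (M * S2 N 1) ^ 2 := by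
  have hM0 : 0 < M := by linarith
  have hm : 0 < m := lt_of_lt_of_le (by positivity) hm1
  have hS : 0 < S2 N l := S2_pos hl
  refine ⟨hm, by positivity, ?_⟩
  rw [div_pow, S2_sq hl, div_le_iff₀ (by positivity)]
  have h1 : l ^ (4 - N) ≤ l := by
    have : 1 ≤ 4 - N := by
      rcases (Dim.h : N = 2 ∨ N = 3) with h | h <;> subst h <;> norm_num
    calc l ^ (4 - N) ≤ l ^ 1 := pow_le_pow_of_le_one hl.le hl1 this
      _ = l := pow_one l
  have h2 : 1 ≤ M * m := by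
    rw [div_le_iff₀ hM0] at hm1; linarith
  have h3 : 1 ≤ (M * m) ^ 2 := one_le_pow₀ h2
  have h4 : 0 ≤ S2 N 1 ^ 2 := sq_nonneg _
  calc l ^ (4 - N) * S2 N 1 ^ 2 ≤ l * S2 N 1 ^ 2 := mul_le_mul_of_nonneg_right h1 h4
    _ ≤ l * S2 N 1 ^ 2 * (M * m) ^ 2 := le_mul_of_one_le_right (by positivity) h3
    _ = l * (M * S2 N 1) ^ 2 * m ^ 2 := by ring

/-- all the smallness in terms of `s` -/
private theorem wiA_small [Dim N] {M ep : ℝ} (hM : 1 ≤ M) (hep : 0 < ep) :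
    ∃ l0 : ℝ, 0 < l0 ∧ l0 ≤ 1 ∧ ∀ l m : ℝ, 0 < l → l < l0 → 1 / M ≤ m → S2 N l / m < ep := by
  have hS : 0 < S2 N 1 := S2_pos one_pos
  have hK : 0 < (M * S2 N 1) ^ 2 := by positivity
  refine ⟨min 1 (ep ^ 2 / (M * S2 N 1) ^ 2), by positivity, min_le_left _ _, ?_⟩
  intro l m hl hl0 hm
  obtain ⟨h1, h2, h3⟩ := wiA_s (N := N) hM hl (hl0.le.trans (min_le_left _ _)) hm
  have h4 : l < ep ^ 2 / (M * S2 N 1) ^ 2 := lt_of_lt_of_le hl0 (min_le_right _ _)
  rw [lt_div_iff₀ hK] at h4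
  exact lt_of_pow_lt_pow_left₀ 2 hep.le (lt_of_le_of_lt h3 h4)

/-- module wiA. **Everything is small in the window.** `s² = l^(4-N) S2 N 1^2 / m²` (`S2_sq`), `h = kap/be ≤ x1 s`, `be ≥ kap/(x1 s) ≥ sqrt (S2 N l S2 N 1) / (x1 s)`
(`kap_ge`), and `(s be²)^(4-N) s^N = s^(2N-4) (be s)^(8-2N) ≤ s^(2N-4) (kap/x0)^(8-2N)`, small by `kap_small` (`N = 2`: `kap^4`; `N = 3`: `s² kap²`, `s² ≤ M² l S2 N 1^2`). -/
theorem win_small [Dim N] {M x0 x1 ep : ℝ} (hM : 1 ≤ M) (h0 : 0 < x0) (h1 : x0 ≤ x1)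
    (hep : 0 < ep) : ∃ l0 : ℝ, 0 < l0 ∧ l0 ≤ 1 ∧ ∀ l m be : ℝ, Wnd N M x0 x1 l0 l m be →
      S2 N l / m < ep ∧ kap N l 1 / be < ep ∧ 1 / be < ep ∧
        (S2 N l / m * be ^ 2) ^ (4 - N) * (S2 N l / m) ^ N < ep := by
  have hS : 0 < S2 N 1 := S2_pos one_pos
  have hx1 : 0 < x1 := by linarith
  have hM0 : 0 < M := by linarith
  -- s < e1 with e1 = min (ep, ep / x1, S ep^2 / (x1^2 M))
  obtain ⟨a, ha, ha1, Ha⟩ := wiA_small (N := N) hM
    (show 0 < min ep (min (ep / x1) (S2 N 1 * ep ^ 2 / (x1 ^ 2 * M))) by positivity)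
  have hN := (Dim.h : N = 2 ∨ N = 3)
  -- kappa small
  obtain ⟨b, hb, Hb⟩ := kap_small (N := N)
    (show 0 < min (min (x0 ^ 2) (ep * x0 ^ 2)) (x0 ^ 2 * ep / (M * S2 N 1) ^ 2) by positivity)
  refine ⟨min a b, by positivity, (min_le_left _ _).trans ha1, ?_⟩
  rintro l m be ⟨w1, w2, w3, w4, w5, w6, w7⟩
  have hla : l < a := lt_of_lt_of_le w2 (min_le_left _ _)
  have hlb : l < b := lt_of_lt_of_le w2 (min_le_right _ _)
  have hl1 : l ≤ 1 := hla.le.trans ha1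
  obtain ⟨hm, hs, hs2⟩ := wiA_s (N := N) hM w1 hl1 w3
  have Ha' := Ha l m w1 hla w3
  have Hb' := Hb l w1 hlb
  set s := S2 N l / m with hsdef
  set κ := kap N l 1 with hκ
  have hs1 : s < ep := lt_of_lt_of_le Ha' (min_le_left _ _)
  have hs3 : s < ep / x1 := lt_of_lt_of_le Ha' ((min_le_right _ _).trans (min_le_left _ _))
  have hs4 : s < S2 N 1 * ep ^ 2 / (x1 ^ 2 * M) :=
    lt_of_lt_of_le Ha' ((min_le_right _ _).trans (min_le_right _ _))
  obtain ⟨hk1, hk0⟩ := kap_ge (N := N) w1 one_pos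
  rw [← hκ] at hk1 hk0
  refine ⟨hs1, ?_, ?_, ?_⟩
  · rw [div_lt_iff₀ w5]
    rw [lt_div_iff₀ hx1] at hs3
    calc κ ≤ x1 * be * s := w7
      _ = (s * x1) * be := by ring
      _ < ep * be := mul_lt_mul_of_pos_right hs3 w5
  · rw [div_lt_iff₀ w5]
    -- 1 < ep * be; (x1 be s)^2 ≥ κ^2 ≥ S2 N l * S = m s S
    have e1 : S2 N l = m * s := by rw [hsdef]; field_simp
    have e2 : m * s * S2 N 1 ≤ (x1 * be * s) ^ 2 := by
      rw [← e1]; exact hk1.trans (pow_le_pow_left₀ hk0.le w7 2)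
    have e3 : 1 ≤ M * m := by rw [div_le_iff₀ hM0] at w3; linarith
    rw [lt_div_iff₀ (by positivity)] at hs4
    -- S ≤ M m S ≤ M x1² be² s < S ep² be²
    have e4 : m * S2 N 1 ≤ x1 ^ 2 * be ^ 2 * s := by
      have : s * (m * S2 N 1) ≤ s * (x1 ^ 2 * be ^ 2 * s) := by nlinarith
      exact le_of_mul_le_mul_left this hs
    have e5 : S2 N 1 < S2 N 1 * (ep * be) ^ 2 := by
      calc S2 N 1 ≤ (M * m) * S2 N 1 := le_mul_of_one_le_left hS.le e3
        _ = M * (m * S2 N 1) := by ring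
        _ ≤ M * (x1 ^ 2 * be ^ 2 * s) := mul_le_mul_of_nonneg_left e4 hM0.le
        _ = (s * (x1 ^ 2 * M)) * be ^ 2 := by ring
        _ < (S2 N 1 * ep ^ 2) * be ^ 2 := mul_lt_mul_of_pos_right hs4 (by positivity)
        _ = S2 N 1 * (ep * be) ^ 2 := by ring
    have e6 : 1 < (ep * be) ^ 2 := by
      by_contra hc
      push Not at hc
      nlinarith
    by_contra hc
    push Not at hc
    have : (ep * be) ^ 2 ≤ 1 := pow_le_one₀ (by positivity) hc
    linarith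
  · -- s be² ≤ κ²/(x0² s)
    have f1 : x0 ^ 2 * (s * (s * be ^ 2)) ≤ κ ^ 2 := by
      have : (x0 * be * s) ^ 2 ≤ κ ^ 2 := pow_le_pow_left₀ (by positivity) w6 2
      nlinarith
    rcases hN with h | h
    · subst h
      have g1 : κ ^ 2 * l ^ (2 - 2) < min (x0 ^ 2) (ep * x0 ^ 2) :=
        lt_of_lt_of_le Hb' (min_le_left _ _)
      have g2 : κ ^ 2 < x0 ^ 2 := by
        have := lt_of_lt_of_le g1 (min_le_left _ _)
        simpa using this
      have g3 : κ ^ 2 < ep * x0 ^ 2 := by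
        have := lt_of_lt_of_le g1 (min_le_right _ _)
        simpa using this
      have g4 : s * (s * be ^ 2) < ep := by
        have : x0 ^ 2 * (s * (s * be ^ 2)) < x0 ^ 2 * ep := by linarith
        exact lt_of_mul_lt_mul_left this (by positivity)
      have g5 : s * (s * be ^ 2) < 1 := by
        have : x0 ^ 2 * (s * (s * be ^ 2)) < x0 ^ 2 * 1 := by linarith
        exact lt_of_mul_lt_mul_left this (by positivity)
      have g6 : 0 < s * (s * be ^ 2) := by positivity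
      calc (s * be ^ 2) ^ (4 - 2) * s ^ 2 = (s * (s * be ^ 2)) * (s * (s * be ^ 2)) := by
            norm_num; ring
        _ ≤ (s * (s * be ^ 2)) * 1 := mul_le_mul_of_nonneg_left g5.le g6.le
        _ < ep := by linarith
    · subst h
      have g1 : κ ^ 2 * l ^ (3 - 2) < x0 ^ 2 * ep / (M * S2 3 1) ^ 2 :=
        lt_of_lt_of_le Hb' (min_le_right _ _)
      rw [lt_div_iff₀ (by positivity)] at g1
      have g2 : l ^ (3 - 2) = l := by norm_num
      rw [g2] at g1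
      have g3 : x0 ^ 2 * ((s * be ^ 2) ^ (4 - 3) * s ^ 3) < x0 ^ 2 * ep := by
        calc x0 ^ 2 * ((s * be ^ 2) ^ (4 - 3) * s ^ 3) = x0 ^ 2 * (s * (s * be ^ 2)) * s ^ 2 := by
              norm_num; ring
          _ ≤ κ ^ 2 * s ^ 2 := mul_le_mul_of_nonneg_right f1 (by positivity)
          _ ≤ κ ^ 2 * (l * (M * S2 3 1) ^ 2) := mul_le_mul_of_nonneg_left hs2 (by positivity)
          _ = κ ^ 2 * l * (M * S2 3 1) ^ 2 := by ring
          _ < x0 ^ 2 * ep := g1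
      exact lt_of_mul_lt_mul_left g3 (by positivity)

/-- a.e. nonnegative functions: `Q4` is nonnegative -/
private theorem wiB_Q4 {a b c d : H1 N} (ha : ∀ᵐ x : E N, 0 ≤ fn a x) (hb : ∀ᵐ x : E N, 0 ≤ fn b x)
    (hc : ∀ᵐ x : E N, 0 ≤ fn c x) (hd : ∀ᵐ x : E N, 0 ≤ fn d x) : 0 ≤ Q4 a b c d := by
  unfold Q4
  apply integral_nonneg_of_ae
  filter_upwards [ha, hb, hc, hd] with x h1 h2 h3 h4
  exact mul_nonneg (mul_nonneg (mul_nonneg h1 h2) h3) h4

/-- module wiB. **Truncated functions have small `L⁴` norm.** `soft_supp` (first part), `gX T T ≤ ip l u u` (`soft_ip`), `k⁴ = th² / be²`: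
`P(T)^N ≤ C (C1 s be²/th²)^(4-N) (C1 s)^(2N) = C' ((s be²)^(4-N) s^N) s^N`, `win_small`. -/
theorem win_trunc [Dim N] {M x0 x1 C1 th ep : ℝ} (hM : 1 ≤ M) (h0 : 0 < x0) (h1 : x0 ≤ x1)
    (hC : 0 < C1) (hth : 0 < th) (hep : 0 < ep) : ∃ l0 : ℝ, 0 < l0 ∧ l0 ≤ 1 ∧
    ∀ (l m be k : ℝ) (u T : H1 N), Wnd N M x0 x1 l0 l m be → 0 < k → k ^ 2 = th / be → IsT k u T →
      ip l u u ≤ C1 * (S2 N l / m) → Q4 u u u u ≤ C1 * (S2 N l / m) →
      m * Q4 T T T T ≤ ep * (S2 N l / m) := by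
  obtain ⟨C, hC0, HC⟩ := soft_supp (N := N)
  have hM0 : 0 < M := by linarith
  have hN : N ≠ 0 := by
    rcases (Dim.h : N = 2 ∨ N = 3) with h | h <;> subst h <;> norm_num
  set K : ℝ := C * (C1 / th ^ 2) ^ (4 - N) * C1 ^ (2 * N) with hK
  have hKp : 0 < K := by positivity
  obtain ⟨l0, hl0, hl01, H⟩ := win_small (N := N) hM h0 h1
    (show 0 < ep ^ N / (M ^ N * K) by positivity)
  refine ⟨l0, hl0, hl01, ?_⟩
  intro l m be k u T hW hk hk2 hT hu hP
  obtain ⟨-, -, -, H4⟩ := H l m be hW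
  obtain ⟨w1, w2, w3, w4, w5, w6, w7⟩ := hW
  obtain ⟨hm, hs, -⟩ := wiA_s (N := N) hM w1 (w2.le.trans hl01) w3
  set s := S2 N l / m with hsdef
  have hk4 : k ^ 4 = th ^ 2 / be ^ 2 := by
    have : k ^ 4 = (k ^ 2) ^ 2 := by ring
    rw [this, hk2, div_pow]
  have e1 : Q4 u u u u / k ^ 4 ≤ (C1 / th ^ 2) * (s * be ^ 2) := by
    rw [hk4, div_div_eq_mul_div, div_le_iff₀ (by positivity)]
    calc Q4 u u u u * be ^ 2 ≤ (C1 * s) * be ^ 2 := mul_le_mul_of_nonneg_right hP (by positivity)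
      _ = C1 / th ^ 2 * (s * be ^ 2) * th ^ 2 := by field_simp
  have e2 : gX T T ≤ C1 * s := by
    have a1 := (soft_ip (N := N) hk hT w1.le).1
    have a2 := ip_nonneg w1.le (u - T)
    have a3 := gX_le_ip w1.le T
    linarith
  have e0 : 0 ≤ Q4 u u u u / k ^ 4 := div_nonneg (Q4_nonneg u u) (by positivity)
  have e3 : Q4 T T T T ^ N ≤ K * ((s * be ^ 2) ^ (4 - N) * s ^ N) * s ^ N := by
    calc Q4 T T T T ^ N ≤ C * (Q4 u u u u / k ^ 4) ^ (4 - N) * gX T T ^ (2 * N) :=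
          (HC k u T hk hT).1
      _ ≤ C * ((C1 / th ^ 2) * (s * be ^ 2)) ^ (4 - N) * (C1 * s) ^ (2 * N) := by
          apply mul_le_mul
          · exact mul_le_mul_of_nonneg_left (pow_le_pow_left₀ e0 e1 _) hC0.le
          · exact pow_le_pow_left₀ (gX_nonneg T) e2 _
          · exact pow_nonneg (gX_nonneg T) _
          · positivity
      _ = K * ((s * be ^ 2) ^ (4 - N) * s ^ N) * s ^ N := by
          have e9 : s ^ (2 * N) = s ^ N * s ^ N := by rw [two_mul, pow_add]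
          rw [hK, mul_pow (C1 / th ^ 2) (s * be ^ 2) (4 - N), mul_pow C1 s (2 * N), e9]; ring
  have e4 : (m * Q4 T T T T) ^ N ≤ (ep * s) ^ N := by
    have hKM : 0 < M ^ N * K := by positivity
    rw [lt_div_iff₀ hKM] at H4
    calc (m * Q4 T T T T) ^ N = m ^ N * Q4 T T T T ^ N := mul_pow _ _ _
      _ ≤ M ^ N * (K * ((s * be ^ 2) ^ (4 - N) * s ^ N) * s ^ N) := by
          apply mul_le_mul (pow_le_pow_left₀ hm.le w4 _) e3 (pow_nonneg (Q4_nonneg T T) _)
            (by positivity)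
      _ = ((s * be ^ 2) ^ (4 - N) * s ^ N * (M ^ N * K)) * s ^ N := by ring
      _ ≤ ep ^ N * s ^ N := mul_le_mul_of_nonneg_right H4.le (by positivity)
      _ = (ep * s) ^ N := (mul_pow _ _ _).symm
  exact (pow_le_pow_iff_left₀ (mul_nonneg hm.le (Q4_nonneg T T)) (by positivity) hN).1 e4

/-- basic quantities of the window -/
private theorem wiC_basic [Dim N] {M x0 x1 l0 l m be : ℝ} (hM : 1 ≤ M) (_h0 : 0 < x0)
    (hl0 : l0 ≤ 1) (hW : Wnd N M x0 x1 l0 l m be) :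
    0 < m ∧ 1 ≤ M * m ∧ 0 < S2 N l / m ∧ 0 < kap N l 1 ∧ 0 < kap N l 1 / be ∧
      x0 * (S2 N l / m) ≤ kap N l 1 / be ∧ kap N l 1 / be ≤ x1 * (S2 N l / m) ∧
      x0 ≤ kap N l 1 / (be * (S2 N l / m)) ∧ kap N l 1 / (be * (S2 N l / m)) ≤ x1 ∧
      kap N l 1 / (be * (S2 N l / m)) * (S2 N l / m) = kap N l 1 / be := by
  obtain ⟨w1, w2, w3, w4, w5, w6, w7⟩ := hW
  obtain ⟨hm, hs, -⟩ := wiA_s (N := N) hM w1 (w2.le.trans hl0) w3
  have hM0 : 0 < M := by linarith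
  have hk := (kap_ge (N := N) w1 one_pos).2
  have e3 : 1 ≤ M * m := by rw [div_le_iff₀ hM0] at w3; linarith
  refine ⟨hm, e3, hs, hk, by positivity, ?_, ?_, ?_, ?_, ?_⟩
  · rw [le_div_iff₀ w5]; linarith
  · rw [div_le_iff₀ w5]; linarith
  · rw [le_div_iff₀ (by positivity)]; linarith
  · rw [div_le_iff₀ (by positivity)]; linarith
  · generalize S2 N l / m = s at hs
    field_simp

/-- real arithmetic of soft truncation: `th = d²/64` -/
private theorem wiC_soft {d q q1 b : ℝ} (hd : 0 < d) (hd1 : d ≤ 1) (hb : b ≤ 2 * q)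
    (hq : 0 ≤ q) (h : q ≤ (1 + d / 4) * q1 + (1 + 1 / (d / 4)) * ((d ^ 2 / 64) * b)) :
    (1 - d) * q ≤ q1 := by
  have e1 : 1 + 1 / (d / 4) ≤ 5 / d := by
    rw [le_div_iff₀ hd]
    have : (1 + 1 / (d / 4)) * d = d + 4 := by field_simp
    linarith
  have e2 : (1 + 1 / (d / 4)) * ((d ^ 2 / 64) * b) ≤ (5 / d) * ((d ^ 2 / 64) * (2 * q)) := by
    apply (mul_le_mul_of_nonneg_left (mul_le_mul_of_nonneg_left hb (by positivity))
      (by positivity)).trans
    exact mul_le_mul_of_nonneg_right e1 (by positivity)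
  have e3 : (5 / d) * ((d ^ 2 / 64) * (2 * q)) = (10 / 64) * (d * q) := by field_simp; ring
  have e4 : q * (1 - 10 / 64 * d) ≤ (1 + d / 4) * q1 := by linarith
  have e5 : (1 + d / 4) * ((1 - d) * q) ≤ (1 + d / 4) * q1 := by
    have : 0 ≤ d * q := by positivity
    have : 0 ≤ d ^ 2 * q := by positivity
    nlinarith
  exact le_of_mul_le_mul_left e5 (by positivity)

private theorem wiC_nonneg_smul {u : H1 N} {c : ℝ} (hc : 0 ≤ c) (hu : ∀ᵐ x : E N, 0 ≤ fn u x) :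
    ∀ᵐ x : E N, 0 ≤ fn (c • u) x := by
  filter_upwards [hu, fn_smul c u] with x h1 h2
  rw [h2]; exact mul_nonneg hc h1

private theorem wiC_Q4_smul (c d : ℝ) (u v : H1 N) :
    Q4 (c • u) (c • u) (d • v) (d • v) = (c ^ 2 * d ^ 2) * Q4 u u v v := by
  rw [Q4_smul1, Q4_smul2, Q4_smul3, Q4_smul4]; ring

private theorem wiC_P_smul (c : ℝ) (u : H1 N) :
    Q4 (c • u) (c • u) (c • u) (c • u) = c ^ 4 * Q4 u u u u := by
  rw [Q4_smul1, Q4_smul2, Q4_smul3, Q4_smul4]; ring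

private theorem wiC_ip_smul (l c : ℝ) (u : H1 N) : ip l (c • u) (c • u) = c ^ 2 * ip l u u := by
  rw [ip_smul_left, ip_smul_right]; ring

/-- near optimal radial pairs, balanced -/
private theorem wiC_pair [Dim N] {l e : ℝ} (hl : 0 < l) (he : 0 < e) : ∃ u v : H1 N,
    RD u ∧ RD v ∧ 0 < Q4 u u v v ∧ ip l u u * ip 1 v v < (1 + e) * kap N l 1 * Q4 u u v v := by
  have hk := (kap_ge (N := N) hl one_pos).2
  obtain ⟨u1, v1, hQ, hlt⟩ := kap_lt (N := N) (t := (1 + e) * kap N l 1) hl one_pos (by nlinarith)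
  obtain ⟨U, V, hU, hV, gU, gV, yU, yV, -, -, hQ2⟩ := symm_pair u1 v1
  refine ⟨U, V, hU, hV, lt_of_lt_of_le hQ hQ2, ?_⟩
  have a1 : ip l U U ≤ ip l u1 u1 := by unfold ip; rw [yU]; linarith
  have a2 : ip 1 V V ≤ ip 1 v1 v1 := by unfold ip; rw [yV]; linarith
  calc ip l U U * ip 1 V V ≤ ip l u1 u1 * ip 1 v1 v1 :=
        mul_le_mul a1 a2 (ip_nonneg zero_le_one V) (ip_nonneg hl.le u1)
    _ < (1 + e) * kap N l 1 * Q4 u1 u1 v1 v1 := hlt
    _ ≤ (1 + e) * kap N l 1 * Q4 U U V V := mul_le_mul_of_nonneg_left hQ2 (by positivity)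

/-- the same, scaled: both norms are `z`, `be Q = h` -/
private theorem wiC_scaled [Dim N] {l e be : ℝ} (hl : 0 < l) (he : 0 < e) (hb : 0 < be) :
    ∃ (u v : H1 N) (z : ℝ), RD u ∧ RD v ∧ 0 < z ∧ ip l u u = z ∧ ip 1 v v = z ∧
      z ^ 2 ≤ (1 + e) * (kap N l 1 / be) ^ 2 ∧ be * Q4 u u v v = kap N l 1 / be := by
  have hk := (kap_ge (N := N) hl one_pos).2
  obtain ⟨U, V, hU, hV, hQ, hlt⟩ := wiC_pair (N := N) hl he
  have hU0 : U ≠ 0 := by
    rintro rfl
    rw [Q4_zero1] at hQ; exact lt_irrefl _ hQ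
  have hV0 : V ≠ 0 := by
    rintro rfl
    rw [Q4_swapp, Q4_zero1] at hQ; exact lt_irrefl _ hQ
  have hA : 0 < ip l U U := ip_pos hl hU0
  have hB : 0 < ip 1 V V := ip_pos one_pos hV0
  set A := ip l U U with hAd
  set B := ip 1 V V with hBd
  set Q := Q4 U U V V with hQd
  set h := kap N l 1 / be with hh
  have hh0 : 0 < h := by positivity
  set z := Real.sqrt (A * B * (h / (be * Q))) with hz
  have hz0 : 0 < z := Real.sqrt_pos.2 (by positivity)
  have hz2 : z ^ 2 = A * B * (h / (be * Q)) := Real.sq_sqrt (by positivity)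
  have c1 : Real.sqrt (z / A) ^ 2 = z / A := Real.sq_sqrt (by positivity)
  have c2 : Real.sqrt (z / B) ^ 2 = z / B := Real.sq_sqrt (by positivity)
  refine ⟨Real.sqrt (z / A) • U, Real.sqrt (z / B) • V, z, RD_smul hU (Real.sqrt_nonneg _),
    RD_smul hV (Real.sqrt_nonneg _), hz0, ?_, ?_, ?_, ?_⟩
  · rw [wiC_ip_smul, c1, ← hAd]; field_simp
  · rw [wiC_ip_smul, c2, ← hBd]; field_simp
  · rw [hz2]
    have e1 : kap N l 1 = h * be := by rw [hh]; field_simp
    rw [e1] at hlt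
    have e2 : A * B * (h / (be * Q)) = (A * B) * h / (be * Q) := by ring
    rw [e2, div_le_iff₀ (by positivity)]
    calc A * B * h ≤ ((1 + e) * (h * be) * Q) * h := mul_le_mul_of_nonneg_right hlt.le hh0.le
      _ = (1 + e) * h ^ 2 * (be * Q) := by ring
  · rw [wiC_Q4_smul, c1, c2, ← hQd]
    have : z / A * (z / B) = z ^ 2 / (A * B) := by rw [div_mul_div_comm]; ring
    rw [this, hz2]
    field_simp

/-- module wiC. **Near optimal pairs for `kap` with small `L⁴` norms** (near_pair of the text), `h = kap / be`: `kap_lt` with `t = (1 + et') kap`, `symm_pair`, scaling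
`α`, `γ` with `ip l (α u0) = ip 1 (γ v0) = z`, `be Q = h`, `z² ≤ (1 + et') h²`; `T` soft truncation of `α u0` at level `k² = th/be` (`soft_Q`: `be Q4 T T v v ≥ (1 - et2) h`),
`win_trunc` (`P(u0) ≤ ip²/S2 N l`), scale `T` back so that `be Q = h`; `P(v) ≤ z²/S2 N 1`, `win_small`. -/
theorem near_pair [Dim N] {M x0 x1 et : ℝ} (hM : 1 ≤ M) (h0 : 0 < x0) (h1 : x0 ≤ x1)
    (het : 0 < et) : ∃ l0 : ℝ, 0 < l0 ∧ l0 ≤ 1 ∧ ∀ l m be : ℝ, Wnd N M x0 x1 l0 l m be →
      ∃ u v : H1 N, (∀ᵐ x : E N, 0 ≤ fn u x) ∧ (∀ᵐ x : E N, 0 ≤ fn v x) ∧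
        ip l u u ≤ (1 + et) * (kap N l 1 / be) ∧ ip 1 v v ≤ (1 + et) * (kap N l 1 / be) ∧
        be * Q4 u u v v = kap N l 1 / be ∧ m * Q4 u u u u ≤ et * (kap N l 1 / be) ∧
        Q4 v v v v ≤ et * (kap N l 1 / be) := by
  have hS : 0 < S2 N 1 := S2_pos one_pos
  have hM0 : 0 < M := by linarith
  have hx1 : 0 < x1 := by linarith
  -- `e = min et 1`
  obtain ⟨e, he, he1, hee⟩ : ∃ e : ℝ, 0 < e ∧ e ≤ 1 ∧ e ≤ et :=
    ⟨min et 1, by positivity, min_le_right _ _, min_le_left _ _⟩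
  set d := e / 4 with hd
  have hd0 : 0 < d := by positivity
  have hd1 : d ≤ 1 / 4 := by rw [hd]; linarith
  set C1 : ℝ := 2 * x1 ^ 2 * M + 2 * x1 with hC1
  have hC1p : 0 < C1 := by positivity
  obtain ⟨la, hla, hla1, Ha⟩ := win_trunc (N := N) (C1 := C1) (th := d ^ 2 / 64)
    (ep := e * x0 / 4) hM h0 h1 hC1p (by positivity) (by positivity)
  obtain ⟨lb, hlb, hlb1, Hb⟩ := win_small (N := N) (ep := e * S2 N 1 / 2) hM h0 h1
    (by positivity)
  refine ⟨min la lb, by positivity, (min_le_left _ _).trans hla1, ?_⟩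
  intro l m be hW
  have hWa := wiA_mono hW (min_le_left la lb)
  have hWb := wiA_mono hW (min_le_right la lb)
  obtain ⟨hm, hMm, hs, hk, hh, b1, b2, -, -, -⟩ := wiC_basic (N := N) hM h0 hla1 hWa
  obtain ⟨-, hbs, -, -⟩ := Hb l m be hWb
  have hl : 0 < l := hW.1
  have hb : 0 < be := hW.2.2.2.2.1
  have hl1 := S2_pos (N := N) hl
  obtain ⟨u0, v0, z, hu0, hv0, hz0, hzu, hzv, hz2, hQ⟩ := wiC_scaled (N := N) hl hd0 hb
  set h := kap N l 1 / be with hhd
  set s := S2 N l / m with hsd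
  have hz : z ≤ (1 + d) * h := by
    have : z ^ 2 ≤ ((1 + d) * h) ^ 2 := by
      rw [mul_pow]
      apply hz2.trans
      apply mul_le_mul_of_nonneg_right _ (by positivity)
      nlinarith
    exact (pow_le_pow_iff_left₀ hz0.le (by positivity) two_ne_zero).1 this
  have hz3 : z ≤ 2 * h := hz.trans (by nlinarith)
  have hz4 : z ^ 2 ≤ 2 * h ^ 2 := hz2.trans (by nlinarith [sq_nonneg h])
  obtain ⟨T, hT, -⟩ := soft_H (N := N) (k := Real.sqrt (d ^ 2 / 64 / be))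
    (Real.sqrt_pos.2 (by positivity)) u0
  set k := Real.sqrt (d ^ 2 / 64 / be) with hkd
  have hk0 : 0 < k := Real.sqrt_pos.2 (by positivity)
  have hk2 : k ^ 2 = d ^ 2 / 64 / be := Real.sq_sqrt (by positivity)
  -- `be Q(T, v0) ≥ (1 - d) h`
  have hbk : be * k ^ 2 = d ^ 2 / 64 := by rw [hk2]; field_simp
  have hgY : gY v0 v0 ≤ z := by
    have := gY_le_ip (l := 1) v0
    linarith
  have q1 : (1 - d) * h ≤ be * Q4 T T v0 v0 := by
    apply wiC_soft (b := gY v0 v0) hd0 (by linarith) (hgY.trans hz3) hh.le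
    have := (soft_Q (N := N) hk0 hT v0).2.2 (d / 4) (by positivity)
    calc h = be * Q4 u0 u0 v0 v0 := hQ.symm
      _ ≤ be * ((1 + d / 4) * Q4 T T v0 v0 + (1 + 1 / (d / 4)) * (k ^ 2 * gY v0 v0)) :=
          mul_le_mul_of_nonneg_left this hb.le
      _ = (1 + d / 4) * (be * Q4 T T v0 v0) + (1 + 1 / (d / 4)) * ((be * k ^ 2) * gY v0 v0) := by
          ring
      _ = _ := by rw [hbk]
  -- `P(u0)`
  have p1 : Q4 u0 u0 u0 u0 ≤ C1 * s := by
    have e1 : S2 N l = m * s := by rw [hsd]; field_simp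
    have e2 := S2_le hl u0
    rw [hzu, e1] at e2
    have e3 : z ^ 2 ≤ 2 * (x1 * s) ^ 2 := hz4.trans (by
      have := pow_le_pow_left₀ hh.le b2 2
      linarith)
    have e4 : m * s * Q4 u0 u0 u0 u0 ≤ m * s * (2 * x1 ^ 2 * M * s) := by
      calc m * s * Q4 u0 u0 u0 u0 ≤ 2 * (x1 * s) ^ 2 := e2.trans e3
        _ = 2 * x1 ^ 2 * s ^ 2 * 1 := by ring
        _ ≤ 2 * x1 ^ 2 * s ^ 2 * (M * m) := mul_le_mul_of_nonneg_left hMm (by positivity)
        _ = m * s * (2 * x1 ^ 2 * M * s) := by ring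
    have e5 := le_of_mul_le_mul_left e4 (by positivity)
    have e6 : 0 ≤ 2 * x1 * s := by positivity
    calc Q4 u0 u0 u0 u0 ≤ 2 * x1 ^ 2 * M * s := e5
      _ ≤ C1 * s := by rw [hC1]; linarith
  have p2 : ip l u0 u0 ≤ C1 * s := by
    rw [hzu]
    have e6 : 0 ≤ 2 * x1 ^ 2 * M * s := by positivity
    calc z ≤ 2 * h := hz3
      _ ≤ 2 * (x1 * s) := by linarith
      _ ≤ C1 * s := by rw [hC1]; linarith
  have p3 := Ha l m be k u0 T hWa hk0 hk2 hT p2 p1
  rw [← hsd] at p3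
  -- scaling back
  have hq0 : 0 < be * Q4 T T v0 v0 := lt_of_lt_of_le (by
    have : 0 < 1 - d := by linarith
    positivity) q1
  set g := h / (be * Q4 T T v0 v0) with hg
  have hg0 : 0 < g := by positivity
  have hg1 : g * (1 - d) ≤ 1 := by
    rw [hg, div_mul_eq_mul_div, div_le_one hq0]; linarith
  have hsg : Real.sqrt g ^ 2 = g := Real.sq_sqrt hg0.le
  have hpos := (soft_RD (N := N) hk0 hT).1 hu0.1
  refine ⟨Real.sqrt g • T, v0, wiC_nonneg_smul (Real.sqrt_nonneg _) hpos.1, hv0.1, ?_, ?_, ?_, ?_, ?_⟩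
  · rw [wiC_ip_smul, hsg]
    have a1 := (soft_ip (N := N) hk0 hT hl.le).1
    have a2 := ip_nonneg hl.le (u0 - T)
    have a3 : ip l T T ≤ (1 + d) * h := by
      rw [hzu] at a1; linarith
    have a4 : (1 - d) * (g * ip l T T) ≤ (1 - d) * ((1 + et) * h) := by
      calc (1 - d) * (g * ip l T T) = (g * (1 - d)) * ip l T T := by ring
        _ ≤ 1 * ip l T T := mul_le_mul_of_nonneg_right hg1 (ip_nonneg hl.le T)
        _ ≤ (1 + d) * h := by linarith
        _ ≤ (1 - d) * ((1 + et) * h) := by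
            have t1 : (1 - d) * (1 + 4 * d) ≤ (1 - d) * (1 + et) :=
              mul_le_mul_of_nonneg_left (by linarith) (by linarith)
            have t2 : 0 ≤ d * (1 / 4 - d) := mul_nonneg hd0.le (by linarith)
            have : (1 + d) ≤ (1 - d) * (1 + et) := by linarith
            calc (1 + d) * h ≤ ((1 - d) * (1 + et)) * h := mul_le_mul_of_nonneg_right this hh.le
              _ = _ := by ring
    exact le_of_mul_le_mul_left a4 (by linarith)
  · rw [hzv]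
    calc z ≤ (1 + d) * h := hz
      _ ≤ (1 + et) * h := mul_le_mul_of_nonneg_right (by linarith) hh.le
  · have : Q4 (Real.sqrt g • T) (Real.sqrt g • T) v0 v0 = g * Q4 T T v0 v0 := by
      rw [Q4_smul1, Q4_smul2, ← mul_assoc, ← pow_two, hsg]
    rw [this, hg]
    have e1 : be * (h / (be * Q4 T T v0 v0) * Q4 T T v0 v0) =
        h / (be * Q4 T T v0 v0) * (be * Q4 T T v0 v0) := by ring
    rw [e1, div_mul_cancel₀ _ hq0.ne']
  · rw [wiC_P_smul]
    have e1 : Real.sqrt g ^ 4 = g ^ 2 := by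
      have : Real.sqrt g ^ 4 = (Real.sqrt g ^ 2) ^ 2 := by ring
      rw [this, hsg]
    rw [e1]
    have hg2 : g ≤ 4 / 3 := by
      have : g * (3 / 4) ≤ g * (1 - d) := mul_le_mul_of_nonneg_left (by linarith) hg0.le
      linarith
    have hg3 : g ^ 2 ≤ 4 := by nlinarith
    have e2 : m * Q4 T T T T ≤ e / 4 * h := by
      calc m * Q4 T T T T ≤ e * x0 / 4 * s := p3
        _ = e / 4 * (x0 * s) := by ring
        _ ≤ e / 4 * h := mul_le_mul_of_nonneg_left b1 (by positivity)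
    calc m * (g ^ 2 * Q4 T T T T) = g ^ 2 * (m * Q4 T T T T) := by ring
      _ ≤ 4 * (e / 4 * h) := mul_le_mul hg3 e2 (mul_nonneg hm.le (Q4_nonneg T T)) (by norm_num)
      _ = e * h := by ring
      _ ≤ et * h := mul_le_mul_of_nonneg_right hee hh.le
  · have a1 := S2_le one_pos v0
    rw [hzv] at a1
    have a2 : S2 N 1 * Q4 v0 v0 v0 v0 ≤ S2 N 1 * (e * h) := by
      calc S2 N 1 * Q4 v0 v0 v0 v0 ≤ 2 * h ^ 2 := a1.trans hz4
        _ = 2 * h * h := by ring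
        _ ≤ (e * S2 N 1) * h := mul_le_mul_of_nonneg_right (by linarith) hh.le
        _ = S2 N 1 * (e * h) := by ring
    have a3 := le_of_mul_le_mul_left a2 hS
    exact a3.trans (mul_le_mul_of_nonneg_right hee hh.le)

/-- module wiD. (U1) `relax` for the pair of `near_pair` with `a = b = (1 + et) h`. -/
theorem up_int [Dim N] {M x0 x1 d : ℝ} (hM : 1 ≤ M) (h0 : 0 < x0) (h1 : x0 ≤ x1) (hd : 0 < d) :
    ∃ l0 : ℝ, 0 < l0 ∧ l0 ≤ 1 ∧ ∀ l m be : ℝ, Wnd N M x0 x1 l0 l m be →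
      level N l 1 m 1 be ≤ (1 + d) * (kap N l 1 / be) / 2 := by
  obtain ⟨e, he, he1, hee⟩ : ∃ e : ℝ, 0 < e ∧ e ≤ 1 / 4 ∧ e ≤ d / 4 :=
    ⟨min (1 / 4) (d / 4), by positivity, min_le_left _ _, min_le_right _ _⟩
  obtain ⟨l0, hl0, hl01, H⟩ := near_pair (N := N) (et := e) hM h0 h1 he
  refine ⟨l0, hl0, hl01, ?_⟩
  intro l m be hW
  obtain ⟨u, v, -, -, H1, H2, H3, H4, H5⟩ := H l m be hW
  obtain ⟨hm, -, hs, hk, hh, -⟩ := wiC_basic (N := N) hM h0 hl01 hW
  have hl : 0 < l := hW.1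
  have hb : 0 < be := hW.2.2.2.2.1
  set h := kap N l 1 / be with hhd
  set p := m * Q4 u u u u with hp
  set r := 1 * Q4 v v v v with hr
  have hp0 : 0 ≤ p := mul_nonneg hm.le (Q4_nonneg u u)
  have hr0 : 0 ≤ r := mul_nonneg zero_le_one (Q4_nonneg v v)
  have hr1 : r ≤ e * h := by rw [hr, one_mul]; exact H5
  have hpr : p * r ≤ (e * h) * (e * h) := mul_le_mul H4 hr1 hr0 (by positivity)
  have hee2 : e * e ≤ 1 / 16 := by nlinarith
  have hhh : 0 < h * h := by positivity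
  have hD : (1 - e * e) * (h * h) ≤ h ^ 2 - p * r := by nlinarith
  have hD0 : 0 < h ^ 2 - p * r := lt_of_lt_of_le (by
    apply mul_pos _ hhh; linarith) hD
  have ha0 : 0 < (1 + e) * h := by positivity
  have hOm : OmM ((1 + e) * h) ((1 + e) * h) p h r := by
    refine ⟨hD0, ?_, ?_⟩
    · exact mul_lt_mul_of_pos_left (by nlinarith) ha0
    · exact mul_lt_mul_of_pos_left (by nlinarith) ha0
  have hR := relax (N := N) (m1 := m) (m2 := 1) (be := be) hl one_pos hm one_pos H1 H2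
    (by rw [H3]; exact hOm)
  rw [H3] at hR
  apply hR.trans
  unfold EEn
  rw [div_le_iff₀ (by positivity)]
  -- numerator ≤ 2 (1+e)² h³
  have n1 : 2 * ((1 + e) * h) * ((1 + e) * h) * h - ((1 + e) * h) ^ 2 * r - ((1 + e) * h) ^ 2 * p
      ≤ 2 * (1 + e) ^ 2 * h * (h * h) := by
    have : 0 ≤ ((1 + e) * h) ^ 2 * r := by positivity
    have : 0 ≤ ((1 + e) * h) ^ 2 * p := by positivity
    nlinarith
  apply n1.trans
  have n2 : (1 + d) * h / 2 * (4 * ((1 - e * e) * (h * h))) ≤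
      (1 + d) * h / 2 * (4 * (h ^ 2 - p * r)) :=
    mul_le_mul_of_nonneg_left (by linarith) (by positivity)
  apply le_trans _ n2
  have n3 : (1 + e) ≤ (1 + d) * (1 - e) := by
    have : 0 ≤ d * (1 / 4 - e) := mul_nonneg hd.le (by linarith)
    nlinarith
  have n4 : (1 + e) ^ 2 ≤ (1 + d) * (1 - e * e) := by
    calc (1 + e) ^ 2 = (1 + e) * (1 + e) := by ring
      _ ≤ (1 + e) * ((1 + d) * (1 - e)) := mul_le_mul_of_nonneg_left n3 (by positivity)
      _ = (1 + d) * (1 - e * e) := by ring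
  calc 2 * (1 + e) ^ 2 * h * (h * h) = (1 + e) ^ 2 * (2 * h * (h * h)) := by ring
    _ ≤ ((1 + d) * (1 - e * e)) * (2 * h * (h * h)) := mul_le_mul_of_nonneg_right n4 (by positivity)
    _ = (1 + d) * h / 2 * (4 * ((1 - e * e) * (h * h))) := by ring

/-- `Q4` of the sum with a nonnegative function -/
private theorem wiD_add [Dim N] {u w v : H1 N} (hu : ∀ᵐ x : E N, 0 ≤ fn u x)
    (hw : ∀ᵐ x : E N, 0 ≤ fn w x) (hv : ∀ᵐ x : E N, 0 ≤ fn v x) :
    Q4 u u v v ≤ Q4 (u + w) (u + w) v v := by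
  have h1 : Q4 (u + w) (u + w) v v = Q4 u u v v + Q4 u w v v + (Q4 w u v v + Q4 w w v v) := by
    rw [Q4_add1, Q4_add2, Q4_add2]
  have h2 := wiB_Q4 hu hw hv hv
  have h3 := wiB_Q4 hw hu hv hv
  have h4 := Q4_nonneg w v
  linarith

private theorem wiD_addP [Dim N] {u w : H1 N} (hu : ∀ᵐ x : E N, 0 ≤ fn u x)
    (hw : ∀ᵐ x : E N, 0 ≤ fn w x) : Q4 w w w w ≤ Q4 (u + w) (u + w) (u + w) (u + w) := by
  have hx : ∀ᵐ x : E N, 0 ≤ fn (u + w) x := by
    filter_upwards [hu, hw, fn_add u w] with x h1 h2 h3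
    rw [h3]; positivity
  have e : u + w = w + u := add_comm u w
  have h1 : Q4 w w w w ≤ Q4 (w + u) (w + u) w w := wiD_add hw hu hw
  have h2 : Q4 w w (u + w) (u + w) ≤ Q4 (w + u) (w + u) (u + w) (u + w) := wiD_add hw hu hx
  rw [← e] at h1 h2
  calc Q4 w w w w ≤ Q4 (u + w) (u + w) w w := h1
    _ = Q4 w w (u + w) (u + w) := Q4_swapp _ _ _ _
    _ ≤ _ := h2

/-- real arithmetic of `up_deg` -/
private theorem wiD_real {x1 d : ℝ} (hx1 : 0 < x1) (hd : 0 < d) : ∃ e e1 et : ℝ, 0 < e ∧ 0 < e1 ∧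
    0 < et ∧ et ≤ 1 ∧ et * x1 ≤ e1 ^ 4 ∧ ∀ x t : ℝ, 0 ≤ x → x ≤ x1 → 0 ≤ t →
      t ^ 2 = (1 + e) * zx x → (1 + et) ^ 2 * x + 4 * t * e1 + t ^ 2 ≤ t ^ 4 ∧
        (t + 2 * e1) ^ 4 ≤ (1 + d) * Gx x ∧ 1 ≤ t := by
  obtain ⟨y, hy, hy1, hyd⟩ : ∃ y : ℝ, 0 < y ∧ y ≤ 1 / 16 ∧ y ≤ d / 16 :=
    ⟨min (1 / 16) (d / 16), by positivity, min_le_left _ _, min_le_right _ _⟩
  refine ⟨y, y / 8, min (y / 3) ((y / 8) ^ 4 / x1), hy, by positivity, by positivity,
    (min_le_left _ _).trans (by linarith), ?_, ?_⟩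
  · calc min (y / 3) ((y / 8) ^ 4 / x1) * x1 ≤ ((y / 8) ^ 4 / x1) * x1 :=
          mul_le_mul_of_nonneg_right (min_le_right _ _) hx1.le
      _ = (y / 8) ^ 4 := by field_simp
  · intro x t hx hxx ht htt
    obtain ⟨z1, z2, z3, -⟩ := zx_facts hx
    set et := min (y / 3) ((y / 8) ^ 4 / x1) with het
    have het0 : 0 < et := by positivity
    have het1 : et ≤ y / 3 := min_le_left _ _
    set z := zx x with hz
    have hz2 : 1 ≤ z ^ 2 := one_le_pow₀ z3
    have ht1 : 1 ≤ t := by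
      by_contra hc
      push Not at hc
      have : t ^ 2 < 1 := by nlinarith
      nlinarith
    have ht4 : t ^ 4 = (1 + y) ^ 2 * z ^ 2 := by
      have : t ^ 4 = (t ^ 2) ^ 2 := by ring
      rw [this, htt]; ring
    have hzz : z ≤ z ^ 2 := by nlinarith
    refine ⟨?_, ?_, ht1⟩
    · have a1 : t ≤ 2 * z ^ 2 := by
        have : t ≤ t ^ 2 := by nlinarith
        nlinarith
      have a2 : 4 * t * (y / 8) ≤ y * z ^ 2 := by nlinarith
      have a3 : (1 + et) ^ 2 * x ≤ (1 + y) * x := by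
        apply mul_le_mul_of_nonneg_right _ hx
        nlinarith
      have a4 : t ^ 4 - t ^ 2 = (1 + y) * (x + y * z ^ 2) := by
        rw [ht4, htt]
        have : x = z ^ 2 - z := z2.symm
        rw [this]; ring
      have a5 : 0 ≤ y * (y * z ^ 2) := by positivity
      nlinarith
    · rw [← z1]
      have b1 : t + 2 * (y / 8) ≤ t * (1 + y / 4) := by nlinarith
      have b2 : (t + 2 * (y / 8)) ^ 4 ≤ (t * (1 + y / 4)) ^ 4 :=
        pow_le_pow_left₀ (by positivity) b1 4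
      have b3 : (1 + y / 4) ^ 2 ≤ 1 + y := by nlinarith
      have b4 : (1 + y / 4) ^ 4 ≤ (1 + y) ^ 2 := by
        have : (1 + y / 4) ^ 4 = ((1 + y / 4) ^ 2) ^ 2 := by ring
        rw [this]; exact pow_le_pow_left₀ (by positivity) b3 2
      have b5 : (1 + y) ^ 2 * (1 + y) ^ 2 ≤ 1 + d := by
        have c1 : (1 + y) ^ 2 ≤ 1 + 3 * y := by nlinarith
        have c2 : (1 + y) ^ 2 * (1 + y) ^ 2 ≤ (1 + 3 * y) * (1 + 3 * y) :=
          mul_le_mul c1 c1 (by positivity) (by positivity)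
        nlinarith
      calc (t + 2 * (y / 8)) ^ 4 ≤ (t * (1 + y / 4)) ^ 4 := b2
        _ = t ^ 4 * (1 + y / 4) ^ 4 := by ring
        _ ≤ t ^ 4 * (1 + y) ^ 2 := mul_le_mul_of_nonneg_left b4 (by positivity)
        _ = ((1 + y) ^ 2 * (1 + y) ^ 2) * z ^ 2 := by rw [ht4]; ring
        _ ≤ (1 + d) * z ^ 2 := mul_le_mul_of_nonneg_right b5 (by positivity)

/-- module wiD. (U2) `U = sqrt (1 + et) • u + t • w`, `w` `RD` with `GNo l m w`, `t² = (1 + et') zx x`, `x = kap / (be s)`: `Deg`, `m P(U) ≤ (1 + d) Gx x s`, `deg_level`. -/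
theorem up_deg [Dim N] {M x0 x1 d : ℝ} (hM : 1 ≤ M) (h0 : 0 < x0) (h1 : x0 ≤ x1) (hd : 0 < d) :
    ∃ l0 : ℝ, 0 < l0 ∧ l0 ≤ 1 ∧ ∀ l m be : ℝ, Wnd N M x0 x1 l0 l m be →
      level N l 1 m 1 be ≤
        (1 + d) * Gx (kap N l 1 / (be * (S2 N l / m))) * (S2 N l / m) / 4 := by
  have hS : 0 < S2 N 1 := S2_pos one_pos
  have hx1 : 0 < x1 := by linarith
  obtain ⟨e, e1, et, he, he1, het, het1, hex, HR⟩ := wiD_real hx1 hd
  obtain ⟨la, hla, hla1, Ha⟩ := near_pair (N := N) (et := et) hM h0 h1 het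
  have hG1 : 0 < Gx x1 := by
    have := zx_facts hx1.le
    rw [← this.1]; have := this.2.2.1; positivity
  obtain ⟨lb, hlb, hlb1, Hb⟩ := win_small (N := N) (ep := S2 N 1 / ((1 + d) * Gx x1)) hM h0 h1
    (by positivity)
  refine ⟨min la lb, by positivity, (min_le_left _ _).trans hla1, ?_⟩
  intro l m be hW
  have hWa := wiA_mono hW (min_le_left la lb)
  have hWb := wiA_mono hW (min_le_right la lb)
  obtain ⟨hm, hMm, hs, hk, hh, b1, b2, b3, b4, b5⟩ := wiC_basic (N := N) hM h0 hla1 hWa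
  obtain ⟨hbs, -, -, -⟩ := Hb l m be hWb
  obtain ⟨u, v, hu0, hv0, H1, H2, H3, H4, H5⟩ := Ha l m be hWa
  have hl : 0 < l := hW.1
  have hb : 0 < be := hW.2.2.2.2.1
  obtain ⟨w, hw, hwR⟩ := exists_GNo (N := N) hl hm
  obtain ⟨hwP, hwi⟩ := GNo_vals hl hm hw
  have hx0 : 0 ≤ kap N l 1 / (be * (S2 N l / m)) := by linarith
  set x := kap N l 1 / (be * (S2 N l / m)) with hxd
  set s := S2 N l / m with hsd
  set h := kap N l 1 / be with hhd
  have hwP2 : m * Q4 w w w w = s := by rw [hwP, hsd]; field_simp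
  obtain ⟨z1, z2, z3, z4, z5, -⟩ := zx_facts hx0
  have ht0 : 0 ≤ (1 + e) * zx x := by positivity
  set t := Real.sqrt ((1 + e) * zx x) with htd
  have ht2 : t ^ 2 = (1 + e) * zx x := Real.sq_sqrt ht0
  obtain ⟨r1, r2, r3⟩ := HR x t hx0 b4 (Real.sqrt_nonneg _) ht2
  have hc2 : Real.sqrt (1 + et) ^ 2 = 1 + et := Real.sq_sqrt (by positivity)
  have hc0 : 0 ≤ Real.sqrt (1 + et) := Real.sqrt_nonneg _
  have hc3 : Real.sqrt (1 + et) ≤ 2 := by nlinarith
  set c := Real.sqrt (1 + et) with hcd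
  have hcu : ∀ᵐ x : E N, 0 ≤ fn (c • u) x := wiC_nonneg_smul hc0 hu0
  have htw : ∀ᵐ x : E N, 0 ≤ fn (t • w) x := wiC_nonneg_smul (by linarith) hwR.1
  -- `n4 u ≤ e1 * n4 w`
  have n1 : n4 u ≤ e1 * n4 w := by
    have : m * n4 u ^ 4 ≤ m * (e1 * n4 w) ^ 4 := by
      rw [mul_pow, n4_pow, n4_pow]
      calc m * Q4 u u u u ≤ et * h := H4
        _ = et * x * s := by rw [← b5]; ring
        _ ≤ e1 ^ 4 * s := by
            apply mul_le_mul_of_nonneg_right _ hs.le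
            exact (mul_le_mul_of_nonneg_left b4 het.le).trans hex
        _ = m * (e1 ^ 4 * Q4 w w w w) := by rw [← hwP2]; ring
    have := le_of_mul_le_mul_left this hm
    exact (pow_le_pow_iff_left₀ (n4_nonneg u) (mul_nonneg he1.le (n4_nonneg w)) (by norm_num)).1 this
  have hn4w : m * n4 w ^ 4 = s := by rw [n4_pow, hwP2]
  -- the pair
  set U := c • u + t • w with hU
  have hUP : t ^ 4 * s ≤ m * Q4 U U U U := by
    calc t ^ 4 * s = m * Q4 (t • w) (t • w) (t • w) (t • w) := by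
          rw [wiC_P_smul, ← hwP2]; ring
      _ ≤ m * Q4 U U U U := mul_le_mul_of_nonneg_left (wiD_addP hcu htw) hm.le
  have hUU : m * Q4 U U U U ≤ (t + 2 * e1) ^ 4 * s := by
    have a1 : n4 U ≤ (t + 2 * e1) * n4 w := by
      calc n4 U ≤ n4 (c • u) + n4 (t • w) := n4_add _ _
        _ = c * n4 u + t * n4 w := by
            rw [n4_smul, n4_smul, abs_of_nonneg hc0, abs_of_nonneg (by linarith : 0 ≤ t)]
        _ ≤ 2 * (e1 * n4 w) + t * n4 w := by
            have : c * n4 u ≤ 2 * (e1 * n4 w) :=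
              mul_le_mul hc3 n1 (n4_nonneg u) (by norm_num)
            linarith
        _ = (t + 2 * e1) * n4 w := by ring
    calc m * Q4 U U U U = m * n4 U ^ 4 := by rw [n4_pow]
      _ ≤ m * ((t + 2 * e1) * n4 w) ^ 4 :=
          mul_le_mul_of_nonneg_left (pow_le_pow_left₀ (n4_nonneg U) a1 4) hm.le
      _ = (t + 2 * e1) ^ 4 * (m * n4 w ^ 4) := by ring
      _ = (t + 2 * e1) ^ 4 * s := by rw [hn4w]
  have hts : 0 < t ^ 4 * s := by positivity
  have hU0 : U ≠ 0 := by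
    intro hc
    rw [hc, Q4_zero1, mul_zero] at hUP
    linarith
  have hQ0 : 0 < Q4 u u v v := by
    by_contra hc
    push Not at hc
    have : be * Q4 u u v v ≤ 0 := mul_nonpos_of_nonneg_of_nonpos hb.le hc
    linarith
  have hv1 : v ≠ 0 := by
    rintro rfl
    rw [Q4_swapp, Q4_zero1] at hQ0; exact lt_irrefl _ hQ0
  have hDeg : Deg l 1 m be U v := by
    refine ⟨hU0, hv1, ?_, ?_⟩
    · have a1 : ip l U U = c ^ 2 * ip l u u + 2 * c * t * ip l w u + t ^ 2 * ip l w w := by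
        rw [hU, ip_add_left, ip_add_right, ip_add_right, ip_smul_left, ip_smul_right, ip_smul_left,
          ip_smul_right, ip_smul_left, ip_smul_right, ip_smul_left, ip_smul_right, ip_comm l u w]
        ring
      have a2 : ip l w u ≤ e1 * s := by
        rw [GNo_sol hl hm hw u]
        have := Q4_le w w w u
        calc m * Q4 w w w u ≤ m * (n4 w * n4 w * n4 w * n4 u) :=
              mul_le_mul_of_nonneg_left ((le_abs_self _).trans this) hm.le
          _ ≤ m * (n4 w * n4 w * n4 w * (e1 * n4 w)) := by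
              apply mul_le_mul_of_nonneg_left _ hm.le
              apply mul_le_mul_of_nonneg_left n1
              have := n4_nonneg w
              positivity
          _ = e1 * (m * n4 w ^ 4) := by ring
          _ = e1 * s := by rw [hn4w]
      have a3 : 2 * c * t * ip l w u ≤ 4 * t * e1 * s := by
        calc 2 * c * t * ip l w u ≤ 2 * c * t * (e1 * s) :=
              mul_le_mul_of_nonneg_left a2 (by positivity)
          _ ≤ 2 * 2 * t * (e1 * s) := by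
              apply mul_le_mul_of_nonneg_right _ (by positivity)
              apply mul_le_mul_of_nonneg_right _ (by linarith)
              linarith
          _ = _ := by ring
      have a4 : c ^ 2 * ip l u u ≤ (1 + et) ^ 2 * x * s := by
        rw [hc2]
        calc (1 + et) * ip l u u ≤ (1 + et) * ((1 + et) * h) :=
              mul_le_mul_of_nonneg_left H1 (by positivity)
          _ = (1 + et) ^ 2 * x * s := by rw [← b5]; ring
      calc ip l U U ≤ (1 + et) ^ 2 * x * s + 4 * t * e1 * s + t ^ 2 * s := by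
            rw [a1, hwi]; linarith
        _ = ((1 + et) ^ 2 * x + 4 * t * e1 + t ^ 2) * s := by ring
        _ ≤ t ^ 4 * s := mul_le_mul_of_nonneg_right r1 hs.le
        _ ≤ _ := hUP
    · calc ip 1 v v ≤ (1 + et) * h := H2
        _ = be * Q4 (c • u) (c • u) v v := by
            rw [Q4_smul1, Q4_smul2, ← mul_assoc c c, ← pow_two, hc2, ← H3]; ring
        _ ≤ be * Q4 U U v v := mul_le_mul_of_nonneg_left (wiD_add hcu htw hv0) hb.le
  have hfin : m * Q4 U U U U ≤ (1 + d) * Gx x * s :=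
    hUU.trans (mul_le_mul_of_nonneg_right r2 hs.le)
  have hK : m * Q4 U U U U < S2 N 1 / 1 := by
    rw [div_one]
    have g1 : Gx x ≤ Gx x1 := (z5 x1 b4).2
    rw [lt_div_iff₀ (by positivity)] at hbs
    calc m * Q4 U U U U ≤ (1 + d) * Gx x * s := hfin
      _ ≤ (1 + d) * Gx x1 * s := by
          apply mul_le_mul_of_nonneg_right _ hs.le
          exact mul_le_mul_of_nonneg_left g1 (by positivity)
      _ = s * ((1 + d) * Gx x1) := by ring
      _ < S2 N 1 := hbs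
  have := deg_level (N := N) hl one_pos hm one_pos hDeg hK
  linarith

/-- module wiE. Real lemma for (Ldeg): `χ ≤ π ≤ C`, `(dd + sqrt χ)⁴ ≤ χ² + C' dd`, so `χ² - χ ≥ x - C'' dd`. -/
theorem deg_real {x0 x1 C d : ℝ} (h0 : 0 < x0) (h1 : x0 ≤ x1) (hC : 0 < C) (hd : 0 < d) :
    ∃ dd : ℝ, 0 < dd ∧ dd ≤ 1 ∧ ∀ x pp ch : ℝ, x0 ≤ x → x ≤ x1 → 0 ≤ ch → pp ≤ C →
      (1 - dd) * x + ch ≤ pp → pp ≤ (dd + Real.sqrt ch) ^ 4 →
      zx x - d ≤ ch ∧ (1 - d) * Gx x ≤ pp := by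
  have hx1 : 0 < x1 := by linarith
  set R := Real.sqrt C with hR
  have hR0 : 0 ≤ R := Real.sqrt_nonneg _
  set K := 4 * R ^ 3 + 6 * R ^ 2 + 4 * R + 1 with hK
  have hK0 : 0 < K := by positivity
  set L := K + 2 * x1 + 1 with hL
  have hL0 : 0 < L := by positivity
  obtain ⟨dd, hdd, hdd1, hdd2, hdd3⟩ : ∃ dd : ℝ, 0 < dd ∧ dd ≤ 1 ∧ dd * L ≤ x0 / 2 ∧ dd * L ≤ d := by
    refine ⟨min 1 (min (x0 / 2) d / L), by positivity, min_le_left _ _, ?_, ?_⟩
    · calc min 1 (min (x0 / 2) d / L) * L ≤ (min (x0 / 2) d / L) * L :=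
            mul_le_mul_of_nonneg_right (min_le_right _ _) hL0.le
        _ = min (x0 / 2) d := by field_simp
        _ ≤ x0 / 2 := min_le_left _ _
    · calc min 1 (min (x0 / 2) d / L) * L ≤ (min (x0 / 2) d / L) * L :=
            mul_le_mul_of_nonneg_right (min_le_right _ _) hL0.le
        _ = min (x0 / 2) d := by field_simp
        _ ≤ d := min_le_right _ _
  refine ⟨dd, hdd, hdd1, ?_⟩
  intro x pp ch hx0 hxx hch hpC hlow hup
  have hx : 0 < x := by linarith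
  have hchC : ch ≤ C := by
    have : 0 ≤ (1 - dd) * x := mul_nonneg (by linarith) hx.le
    linarith
  have hsC : Real.sqrt ch ≤ R := Real.sqrt_le_sqrt hchC
  have hs0 : 0 ≤ Real.sqrt ch := Real.sqrt_nonneg _
  have hs2 : Real.sqrt ch ^ 2 = ch := Real.sq_sqrt hch
  set y := Real.sqrt ch with hy
  have e1 : (dd + y) ^ 4 ≤ ch ^ 2 + dd * K := by
    have a1 : (dd + y) ^ 4 = (y ^ 2) ^ 2 + dd * (4 * y ^ 3 + 6 * y ^ 2 * dd + 4 * y * dd ^ 2 + dd ^ 3) := by
      ring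
    have a0 : (y ^ 2) ^ 2 = ch ^ 2 := by rw [hs2]
    rw [a1, a0]
    have a2 : 4 * y ^ 3 + 6 * y ^ 2 * dd + 4 * y * dd ^ 2 + dd ^ 3 ≤ K := by
      have b1 : y ^ 3 ≤ R ^ 3 := pow_le_pow_left₀ hs0 hsC 3
      have b2 : y ^ 2 * dd ≤ R ^ 2 * 1 :=
        mul_le_mul (pow_le_pow_left₀ hs0 hsC 2) hdd1 hdd.le (by positivity)
      have b3 : y * dd ^ 2 ≤ R * 1 :=
        mul_le_mul hsC (pow_le_one₀ hdd.le hdd1) (by positivity) hR0
      have b4 : dd ^ 3 ≤ 1 := pow_le_one₀ hdd.le hdd1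
      rw [hK]; linarith
    have := mul_le_mul_of_nonneg_left a2 hdd.le
    linarith
  have e2 : dd * x ≤ dd * x1 := mul_le_mul_of_nonneg_left hxx hdd.le
  have e3 : x - dd * (K + x1) ≤ ch ^ 2 - ch := by nlinarith
  have e4 : dd * (K + x1) ≤ dd * L := mul_le_mul_of_nonneg_left (by rw [hL]; linarith) hdd.le
  have hx' : 0 < x - dd * (K + x1) := by linarith
  set x' := x - dd * (K + x1) with hx'd
  have hch0 : 0 < ch := by
    rcases hch.eq_or_lt with h | h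
    · rw [← h] at e3; norm_num at e3; linarith
    · exact h
  have e5 : zx x' ≤ ch := (zx_facts hx'.le).2.2.2.1 ch hch0 e3
  have e6 : zx x - zx x' ≤ x - x' := by
    have z1 := zx_facts hx.le
    have z2 := zx_facts hx'.le
    have z3 : zx x' ≤ zx x := (z2.2.2.2.2.1 x (by rw [hx'd]; nlinarith [mul_pos hdd (by positivity : 0 < K + x1)])).1
    -- (z - z')(z + z' - 1) = x - x', z + z' - 1 ≥ 1
    have z4 : (zx x - zx x') * (zx x + zx x' - 1) = x - x' := by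
      have a1 := z1.2.1
      have a2 := z2.2.1
      nlinarith
    have z5 : (zx x - zx x') * 1 ≤ (zx x - zx x') * (zx x + zx x' - 1) :=
      mul_le_mul_of_nonneg_left (by linarith [z1.2.2.1, z2.2.2.1]) (by linarith)
    linarith
  have e7 : x - x' = dd * (K + x1) := by rw [hx'd]; ring
  have e8 : zx x - dd * (K + x1) ≤ ch := by linarith
  refine ⟨by linarith, ?_⟩
  have z1 := zx_facts hx.le
  have e9 : Gx x = x + zx x := by
    rw [← z1.1]; linarith [z1.2.1]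
  have e10 : 1 ≤ Gx x := by
    rw [← z1.1]; exact one_le_pow₀ z1.2.2.1
  have e11 : dd * (K + x1) + dd * x1 ≤ d := by
    calc dd * (K + x1) + dd * x1 ≤ dd * L := by rw [hL]; nlinarith
      _ ≤ d := hdd3
  have e12 : d * 1 ≤ d * Gx x := mul_le_mul_of_nonneg_left e10 hd.le
  calc (1 - d) * Gx x = Gx x - d * Gx x := by ring
    _ ≤ Gx x - d := by linarith
    _ ≤ pp := by rw [e9]; linarith

/-- module wiF. **Structure of degenerate pairs** (Ldeg), `s = S2 N l / m`, `h = kap / be`, `x = h/s`, `k² = th / be`, `T` soft truncation, `c = u - T`. `b = ip 1 v v ≤ be Q4 u u v v`; `soft_Q` with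
`et = sqrt th`: `be Q4 T T v v ≥ (1 - 3 sqrt th) be Q4 u u v v ≥ (1 - 3 sqrt th) b`; `kap_le`: `ip l T T ≥ (1 - 3 sqrt th) h`; `win_trunc`; `m P(c) ≤ (ip l c c)²/s` (`S2_le`), `n4_add`;
`ip l T T + ip l c c ≤ ip l u u ≤ m P(u)` (`soft_ip`); `deg_real` with `pp = m P(u)/s`, `ch = ip l c c / s`. -/
theorem deg_str [Dim N] {M x0 x1 C d : ℝ} (hM : 1 ≤ M) (h0 : 0 < x0) (h1 : x0 ≤ x1) (hC : 0 < C)
    (hd : 0 < d) : ∃ th l0 : ℝ, 0 < th ∧ 0 < l0 ∧ l0 ≤ 1 ∧ ∀ (l m be k : ℝ) (u v T : H1 N),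
      Wnd N M x0 x1 l0 l m be → Deg l 1 m be u v → m * Q4 u u u u ≤ C * (S2 N l / m) →
      0 < k → k ^ 2 = th / be → IsT k u T →
      (1 - d) * (kap N l 1 / be) ≤ ip l T T ∧ m * Q4 T T T T ≤ d * (S2 N l / m) ∧
        (1 - d) * Q4 u u v v ≤ Q4 T T v v ∧
        (zx (kap N l 1 / (be * (S2 N l / m))) - d) * (S2 N l / m) ≤ ip l (u - T) (u - T) ∧
        (1 - d) * Gx (kap N l 1 / (be * (S2 N l / m))) * (S2 N l / m) ≤ m * Q4 u u u u := by
  have hM0 : 0 < M := by linarith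
  obtain ⟨dd, hdd, hdd1, HR⟩ := deg_real h0 h1 hC hd
  obtain ⟨e, he, he1, hed, hedd⟩ : ∃ e : ℝ, 0 < e ∧ e ≤ 1 ∧ e ≤ d ∧ e ≤ dd :=
    ⟨min 1 (min d dd), by positivity, min_le_left _ _, (min_le_right _ _).trans (min_le_left _ _),
      (min_le_right _ _).trans (min_le_right _ _)⟩
  obtain ⟨l0, hl0, hl01, H⟩ := win_trunc (N := N) (C1 := C * M) (th := e ^ 2 / 64)
    (ep := min d (dd ^ 4)) hM h0 h1 (by positivity) (by positivity) (by positivity)
  refine ⟨e ^ 2 / 64, l0, by positivity, hl0, hl01, ?_⟩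
  intro l m be k u v T hW hDeg hP hk hk2 hT
  obtain ⟨hm, hMm, hs, hkap, hh, b1, b2, b3, b4, b5⟩ := wiC_basic (N := N) hM h0 hl01 hW
  have hl : 0 < l := hW.1
  have hb : 0 < be := hW.2.2.2.2.1
  obtain ⟨hu0, hv0, D1, D2⟩ := hDeg
  have hbv : 0 < ip 1 v v := ip_pos one_pos hv0
  have e1 : S2 N l = m * (S2 N l / m) := by field_simp
  set x := kap N l 1 / (be * (S2 N l / m)) with hxd
  set s := S2 N l / m with hsd
  set h := kap N l 1 / be with hhd
  have hq0 : 0 < be * Q4 u u v v := lt_of_lt_of_le hbv D2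
  have hQ0 : 0 < Q4 u u v v := by
    by_contra hc
    push Not at hc
    have : be * Q4 u u v v ≤ 0 := mul_nonpos_of_nonneg_of_nonpos hb.le hc
    linarith
  have hbk : be * k ^ 2 = e ^ 2 / 64 := by rw [hk2]; field_simp
  have q1 : (1 - e) * (be * Q4 u u v v) ≤ be * Q4 T T v v := by
    have hg : gY v v ≤ ip 1 v v := by
      have := gY_le_ip (l := 1) v
      linarith
    apply wiC_soft (b := gY v v) he he1 (by linarith) hq0.le
    have := (soft_Q (N := N) hk hT v).2.2 (e / 4) (by positivity)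
    calc be * Q4 u u v v
        ≤ be * ((1 + e / 4) * Q4 T T v v + (1 + 1 / (e / 4)) * (k ^ 2 * gY v v)) :=
          mul_le_mul_of_nonneg_left this hb.le
      _ = (1 + e / 4) * (be * Q4 T T v v) + (1 + 1 / (e / 4)) * ((be * k ^ 2) * gY v v) := by
          ring
      _ = _ := by rw [hbk]
  have q2 : (1 - e) * Q4 u u v v ≤ Q4 T T v v := by
    have : be * ((1 - e) * Q4 u u v v) ≤ be * Q4 T T v v := by linarith
    exact le_of_mul_le_mul_left this hb
  -- `ip l T T ≥ (1 - e) h`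
  have q3 : (1 - e) * h ≤ ip l T T := by
    have a1 := kap_le (N := N) hl one_pos T v
    have a2 : kap N l 1 * ((1 - e) * Q4 u u v v) ≤ ip l T T * (be * Q4 u u v v) :=
      (mul_le_mul_of_nonneg_left q2 hkap.le).trans
        (a1.trans (mul_le_mul_of_nonneg_left D2 (ip_nonneg hl.le T)))
    have a3 : ((1 - e) * h) * (be * Q4 u u v v) ≤ ip l T T * (be * Q4 u u v v) := by
      calc ((1 - e) * h) * (be * Q4 u u v v) = (h * be) * ((1 - e) * Q4 u u v v) := by ring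
        _ = kap N l 1 * ((1 - e) * Q4 u u v v) := by rw [hhd, div_mul_cancel₀ _ hb.ne']
        _ ≤ _ := a2
    exact le_of_mul_le_mul_right a3 hq0
  have hPu : Q4 u u u u ≤ C * M * s := by
    have : m * Q4 u u u u ≤ m * (C * M * s) := by
      calc m * Q4 u u u u ≤ C * s * 1 := by linarith
        _ ≤ C * s * (M * m) := mul_le_mul_of_nonneg_left hMm (by positivity)
        _ = m * (C * M * s) := by ring
    exact le_of_mul_le_mul_left this hm
  have hIu : ip l u u ≤ C * M * s := by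
    calc ip l u u ≤ C * s := D1.trans hP
      _ ≤ C * s * M := le_mul_of_one_le_right (by positivity) hM
      _ = C * M * s := by ring
  have q4 := H l m be k u T hW hk hk2 hT hIu hPu
  rw [← hsd] at q4
  have q5 : m * Q4 T T T T ≤ d * s := q4.trans (mul_le_mul_of_nonneg_right (min_le_left _ _) hs.le)
  have q6 : m * Q4 T T T T ≤ dd ^ 4 * s :=
    q4.trans (mul_le_mul_of_nonneg_right (min_le_right _ _) hs.le)
  have q7 := (soft_ip (N := N) hk hT hl.le).1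
  have hc0 := ip_nonneg hl.le (u - T)
  set cc := ip l (u - T) (u - T) with hcc
  have hch0 : 0 ≤ cc / s := by positivity
  -- the fourth root of `m / s`
  set g : ℝ := (m / s) ^ ((1 : ℝ) / 4) with hg
  have hg0 : 0 ≤ g := by positivity
  have hg4 : g ^ 4 = m / s := by
    rw [hg, ← Real.rpow_natCast, ← Real.rpow_mul (by positivity)]
    norm_num
  have r1 : g * n4 T ≤ dd := by
    have : (g * n4 T) ^ 4 ≤ dd ^ 4 := by
      rw [mul_pow, hg4, n4_pow, div_mul_eq_mul_div, div_le_iff₀ hs]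
      exact q6
    exact (pow_le_pow_iff_left₀ (mul_nonneg hg0 (n4_nonneg T)) hdd.le (by norm_num)).1 this
  have r2 : g * n4 (u - T) ≤ Real.sqrt (cc / s) := by
    have : (g * n4 (u - T)) ^ 4 ≤ Real.sqrt (cc / s) ^ 4 := by
      have a0 : Real.sqrt (cc / s) ^ 4 = (cc / s) ^ 2 := by
        have : Real.sqrt (cc / s) ^ 4 = (Real.sqrt (cc / s) ^ 2) ^ 2 := by ring
        rw [this, Real.sq_sqrt hch0]
      rw [a0, mul_pow, hg4, n4_pow, div_pow, div_mul_eq_mul_div, div_le_div_iff₀ hs (by positivity)]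
      have a1 := S2_le hl (u - T)
      rw [e1, ← hcc] at a1
      calc m * Q4 (u - T) (u - T) (u - T) (u - T) * s ^ 2
          = (m * s * Q4 (u - T) (u - T) (u - T) (u - T)) * s := by ring
        _ ≤ cc ^ 2 * s := mul_le_mul_of_nonneg_right a1 hs.le
    exact (pow_le_pow_iff_left₀ (mul_nonneg hg0 (n4_nonneg _)) (Real.sqrt_nonneg _)
      (by norm_num)).1 this
  have r3 : m * Q4 u u u u / s ≤ (dd + Real.sqrt (cc / s)) ^ 4 := by
    have a1 : n4 u ≤ n4 T + n4 (u - T) := by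
      have := n4_add T (u - T)
      rwa [add_sub_cancel] at this
    have a2 : g * n4 u ≤ dd + Real.sqrt (cc / s) := by
      calc g * n4 u ≤ g * (n4 T + n4 (u - T)) := mul_le_mul_of_nonneg_left a1 hg0
        _ = g * n4 T + g * n4 (u - T) := by ring
        _ ≤ _ := add_le_add r1 r2
    calc m * Q4 u u u u / s = (g * n4 u) ^ 4 := by
          rw [mul_pow, hg4, n4_pow]; ring
      _ ≤ _ := pow_le_pow_left₀ (mul_nonneg hg0 (n4_nonneg u)) a2 4
  have r4 : (1 - dd) * x + cc / s ≤ m * Q4 u u u u / s := by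
    rw [le_div_iff₀ hs]
    have : ((1 - dd) * x + cc / s) * s = (1 - dd) * (x * s) + cc := by
      field_simp
    rw [this, b5]
    have a1 : (1 - dd) * h ≤ (1 - e) * h := mul_le_mul_of_nonneg_right (by linarith) hh.le
    linarith
  have r5 : m * Q4 u u u u / s ≤ C := by rw [div_le_iff₀ hs]; exact hP
  obtain ⟨f1, f2⟩ := HR x (m * Q4 u u u u / s) (cc / s) b3 b4 hch0 r5 r4 r3
  refine ⟨?_, q5, ?_, ?_, ?_⟩
  · exact (mul_le_mul_of_nonneg_right (by linarith) hh.le).trans q3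
  · exact (mul_le_mul_of_nonneg_right (by linarith) hQ0.le).trans q2
  · rwa [le_div_iff₀ hs] at f1
  · rwa [le_div_iff₀ hs] at f2

/-- module wiG. (Lsol) `a + b ≤ C s`: `r ≤ b²/S2 N 1 ≤ et b` (`S2_le`, `win_small`), `q ≥ (1 - et) b`; `T`, `T2` soft truncations at levels `k`, `2k`, `k² = th/be`; `soft_Q` for `T2`, `kap_le`:
`ip l T2 T2 ≥ (1 - et2) h`; first equation of `Sol` tested with `T2`: `ip l T2 T2 ≤ ip l u T2 = m Q4 u u u T2 + be Q4 v v u T2 ≤ 16 m P(T) + q` (`soft_ip`, `soft_P`, `soft_c`), `win_trunc`. -/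
theorem low_sol [Dim N] {M x0 x1 C d : ℝ} (hM : 1 ≤ M) (h0 : 0 < x0) (h1 : x0 ≤ x1) (hC : 0 < C)
    (hd : 0 < d) : ∃ l0 : ℝ, 0 < l0 ∧ l0 ≤ 1 ∧ ∀ (l m be : ℝ) (u v : H1 N),
      Wnd N M x0 x1 l0 l m be → RD u → RD v → u ≠ 0 → v ≠ 0 → Sol l 1 m 1 be u v →
      ip l u u + ip 1 v v ≤ C * (S2 N l / m) →
      (1 - d) * (kap N l 1 / be) ≤ be * Q4 u u v v := by
  have hS : 0 < S2 N 1 := S2_pos one_pos
  have hM0 : 0 < M := by linarith
  obtain ⟨e, he, he1, hed⟩ : ∃ e : ℝ, 0 < e ∧ e ≤ 1 / 4 ∧ e ≤ d / 4 :=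
    ⟨min (1 / 4) (d / 4), by positivity, min_le_left _ _, min_le_right _ _⟩
  obtain ⟨la, hla, hla1, Ha⟩ := win_trunc (N := N) (C1 := C * M) (th := e ^ 2 / 64 / 4)
    (ep := e * x0 / 16) hM h0 h1 (by positivity) (by positivity) (by positivity)
  obtain ⟨lb, hlb, hlb1, Hb⟩ := win_small (N := N) (ep := e * S2 N 1 / C) hM h0 h1
    (by positivity)
  refine ⟨min la lb, by positivity, (min_le_left _ _).trans hla1, ?_⟩
  intro l m be u v hW hu hv hu0 hv0 hSol hab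
  have hWa := wiA_mono hW (min_le_left la lb)
  have hWb := wiA_mono hW (min_le_right la lb)
  obtain ⟨hm, hMm, hs, hkap, hh, b1, b2, b3, b4, b5⟩ := wiC_basic (N := N) hM h0 hla1 hWa
  obtain ⟨hbs, -, -, -⟩ := Hb l m be hWb
  have hl : 0 < l := hW.1
  have hb : 0 < be := hW.2.2.2.2.1
  have hbv : 0 < ip 1 v v := ip_pos one_pos hv0
  have hau : 0 < ip l u u := ip_pos hl hu0
  obtain ⟨S1, S3⟩ := hSol
  have hNu := S1 u
  have hNv := S3 v
  rw [Q4_swapp v v u u] at hNu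
  rw [one_mul] at hNv
  set s := S2 N l / m with hsd
  set h := kap N l 1 / be with hhd
  have hPu0 := Q4_nonneg u u
  have hPv0 := Q4_nonneg v v
  have hQ0 := Q4_nonneg u v
  -- `r ≤ e b`
  have r1 : Q4 v v v v ≤ e * ip 1 v v := by
    have a1 := S2_le one_pos v
    rw [lt_div_iff₀ hC] at hbs
    have a2 : ip 1 v v ≤ C * s := by linarith
    have a3 : S2 N 1 * Q4 v v v v ≤ S2 N 1 * (e * ip 1 v v) := by
      calc S2 N 1 * Q4 v v v v ≤ ip 1 v v ^ 2 := a1
        _ = ip 1 v v * ip 1 v v := by ring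
        _ ≤ (C * s) * ip 1 v v := mul_le_mul_of_nonneg_right a2 hbv.le
        _ ≤ (e * S2 N 1) * ip 1 v v := mul_le_mul_of_nonneg_right (by linarith) hbv.le
        _ = S2 N 1 * (e * ip 1 v v) := by ring
    exact le_of_mul_le_mul_left a3 hS
  have r2 : (1 - e) * ip 1 v v ≤ be * Q4 u u v v := by linarith
  have hq0 : 0 < be * Q4 u u v v := lt_of_lt_of_le (mul_pos (by linarith) hbv) r2
  have hk0 : (0 : ℝ) < e ^ 2 / 64 / 4 / be := by positivity
  set k := Real.sqrt (e ^ 2 / 64 / 4 / be) with hkd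
  have hk : 0 < k := Real.sqrt_pos.2 hk0
  have hk2 : k ^ 2 = e ^ 2 / 64 / 4 / be := Real.sq_sqrt hk0.le
  have h2k : 0 < 2 * k := by positivity
  obtain ⟨T, hT, -⟩ := soft_H (N := N) hk u
  obtain ⟨T2, hT2, -⟩ := soft_H (N := N) h2k u
  have hbk : be * (2 * k) ^ 2 = e ^ 2 / 64 := by
    rw [mul_pow, hk2]; field_simp; norm_num
  have q1 : (1 - e) * (be * Q4 u u v v) ≤ be * Q4 T2 T2 v v := by
    have hg : gY v v ≤ ip 1 v v := by
      have := gY_le_ip (l := 1) v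
      linarith
    have hg2 : ip 1 v v ≤ 2 * (be * Q4 u u v v) := by nlinarith
    apply wiC_soft (b := gY v v) he (by linarith) (by linarith) hq0.le
    have := (soft_Q (N := N) h2k hT2 v).2.2 (e / 4) (by positivity)
    calc be * Q4 u u v v
        ≤ be * ((1 + e / 4) * Q4 T2 T2 v v + (1 + 1 / (e / 4)) * ((2 * k) ^ 2 * gY v v)) :=
          mul_le_mul_of_nonneg_left this hb.le
      _ = (1 + e / 4) * (be * Q4 T2 T2 v v) +
          (1 + 1 / (e / 4)) * ((be * (2 * k) ^ 2) * gY v v) := by ring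
      _ = _ := by rw [hbk]
  -- `ip l T2 T2 ≥ (1 - e)² h`
  have q3 : (1 - e) * (1 - e) * h ≤ ip l T2 T2 := by
    have a1 := kap_le (N := N) hl one_pos T2 v
    have a2 : ((1 - e) * (1 - e) * h) * ip 1 v v ≤ ip l T2 T2 * ip 1 v v := by
      calc ((1 - e) * (1 - e) * h) * ip 1 v v = ((1 - e) * h) * ((1 - e) * ip 1 v v) := by ring
        _ ≤ ((1 - e) * h) * (be * Q4 u u v v) :=
            mul_le_mul_of_nonneg_left r2 (mul_nonneg (by linarith) hh.le)
        _ = h * ((1 - e) * (be * Q4 u u v v)) := by ring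
        _ ≤ h * (be * Q4 T2 T2 v v) := mul_le_mul_of_nonneg_left q1 hh.le
        _ = (h * be) * Q4 T2 T2 v v := by ring
        _ = kap N l 1 * Q4 T2 T2 v v := by rw [hhd, div_mul_cancel₀ _ hb.ne']
        _ ≤ _ := a1
    exact le_of_mul_le_mul_right a2 hbv
  have hPu : Q4 u u u u ≤ C * M * s := by
    have a0 : m * Q4 u u u u ≤ C * s := by linarith
    have : m * Q4 u u u u ≤ m * (C * M * s) := by
      calc m * Q4 u u u u ≤ C * s * 1 := by linarith
        _ ≤ C * s * (M * m) := mul_le_mul_of_nonneg_left hMm (by positivity)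
        _ = m * (C * M * s) := by ring
    exact le_of_mul_le_mul_left this hm
  have hIu : ip l u u ≤ C * M * s := by
    calc ip l u u ≤ C * s := by linarith
      _ ≤ C * s * M := le_mul_of_one_le_right (by positivity) hM
      _ = C * M * s := by ring
  have q4 := Ha l m be k u T hWa hk hk2 hT hIu hPu
  rw [← hsd] at q4
  -- the equation
  have t1 := (soft_ip (N := N) h2k hT2 hl.le).2.1
  have t2 := (soft_P (N := N) hk hT).2.2 T2 hT2
  have t3 := (soft_c (N := N) h2k hT2 hu.1 v).2.1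
  have t4 : ip l T2 T2 ≤ 16 * (m * Q4 T T T T) + be * Q4 u u v v := by
    have a1 := S1 T2
    have a2 : m * Q4 u u u T2 ≤ m * (16 * Q4 T T T T) := mul_le_mul_of_nonneg_left t2 hm.le
    have a3 : be * Q4 v v u T2 ≤ be * Q4 u u v v := mul_le_mul_of_nonneg_left t3 hb.le
    linarith
  have t5 : 16 * (m * Q4 T T T T) ≤ e * h := by
    calc 16 * (m * Q4 T T T T) ≤ 16 * (e * x0 / 16 * s) := by linarith
      _ = e * (x0 * s) := by ring
      _ ≤ e * h := mul_le_mul_of_nonneg_left b1 he.le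
  have t6 : (1 - d) * h ≤ (1 - e) * (1 - e) * h - e * h := by
    have a1 : 1 - d ≤ (1 - e) * (1 - e) - e := by nlinarith
    have := mul_le_mul_of_nonneg_right a1 hh.le
    linarith
  linarith

/-- module wiH. `HasGS` in the window gives an `RD` ground state (`good_GS'`: `rho0 N l 1 1 ≤ 1 < be`, `m ≤ be²` for small `l` by `win_small`), which is `GdF`. -/
theorem win_GdF [Dim N] {M x0 x1 : ℝ} (hM : 1 ≤ M) (h0 : 0 < x0) (h1 : x0 ≤ x1) :
    ∃ l0 : ℝ, 0 < l0 ∧ l0 ≤ 1 ∧ ∀ l m be : ℝ, Wnd N M x0 x1 l0 l m be → HasGS N l 1 m 1 be →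
      ∃ u v : H1 N, GdF l m be u v := by
  have hM0 : 0 < M := by linarith
  obtain ⟨l0, hl0, hl01, H⟩ := win_small (N := N) (ep := 1 / M) hM h0 h1 (by positivity)
  refine ⟨l0, hl0, hl01, ?_⟩
  intro l m be hW hGS
  obtain ⟨-, -, H3, -⟩ := H l m be hW
  obtain ⟨hm, hMm, hs, hkap, hh, -⟩ := wiC_basic (N := N) hM h0 hl01 hW
  obtain ⟨w1, w2, w3, w4, w5, w6, w7⟩ := hW
  have hbM : M < be := by
    rwa [one_div_lt_one_div w5 hM0] at H3
  have hb1 : 1 < be := by linarith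
  have hl1 : l ≤ 1 := w2.le.trans hl01
  have hr : rho0 N l 1 1 < be := by
    have : rho0 N l 1 1 ≤ 1 := by
      unfold rho0
      have hN : 0 ≤ (4 - (N : ℝ)) / 4 := by
        rcases (Dim.h : N = 2 ∨ N = 3) with h | h <;> subst h <;> norm_num
      have : (l / 1 - 1) * ((4 - (N : ℝ)) / 4) ≤ 0 :=
        mul_nonpos_of_nonpos_of_nonneg (by rw [div_one]; linarith) hN
      linarith
    linarith
  have hb2 : m * 1 ≤ be ^ 2 := by nlinarith
  obtain ⟨U, V, g1, g2, g3, g4, g5, g6, g7⟩ := good_GS' (N := N) w1 one_pos hm one_pos w5 hb2 hr hGS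
  exact ⟨U, V, g1, g2, g3, g4, g5, g6, g7⟩

/-- module wiH. **None in the window above `x = 2`.** `win_GdF`, `up_deg`, `low_sol` (`C = Gx x1 + 1`): `(1 - d) x s ≤ q ≤ (a+b)/2 ≤ (1 + d) Gx x s / 2`, against
`2/3 (x - 2) ≤ 2 x - Gx x` (`zx_facts`), `x ≥ 2 / (1 - e)`. -/
theorem none_win [Dim N] {M e x1 : ℝ} (hM : 1 ≤ M) (he : 0 < e) (he1 : e < 1)
    (hx : 2 / (1 - e) ≤ x1) : ∃ l0 : ℝ, 0 < l0 ∧ l0 ≤ 1 ∧ ∀ l m be : ℝ,
      Wnd N M (2 / (1 - e)) x1 l0 l m be → ¬ HasGS N l 1 m 1 be := by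
  have hx0 : 0 < 2 / (1 - e) := by
    have : 0 < 1 - e := by linarith
    positivity
  have hx1 : 0 < x1 := by linarith
  have hG1 : 0 < Gx x1 := by
    have := zx_facts hx1.le
    rw [← this.1]; have := this.2.2.1; positivity
  obtain ⟨la, hla, hla1, Ha⟩ := win_GdF (N := N) hM hx0 hx
  obtain ⟨lb, hlb, hlb1, Hb⟩ := up_deg (N := N) (d := e / 8) hM hx0 hx (by positivity)
  obtain ⟨lc, hlc, hlc1, Hc⟩ := low_sol (N := N) (C := 2 * Gx x1) (d := e / 8) hM hx0 hx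
    (by positivity) (by positivity)
  refine ⟨min la (min lb lc), by positivity, (min_le_left _ _).trans hla1, ?_⟩
  intro l m be hW hGS
  have hWa := wiA_mono hW (min_le_left la (min lb lc))
  have hWb := wiA_mono hW ((min_le_right la (min lb lc)).trans (min_le_left _ _))
  have hWc := wiA_mono hW ((min_le_right la (min lb lc)).trans (min_le_right _ _))
  obtain ⟨hm, hMm, hs, hkap, hh, b1, b2, b3, b4, b5⟩ := wiC_basic (N := N) hM hx0 hla1 hWa
  have hl : 0 < l := hW.1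
  have hb : 0 < be := hW.2.2.2.2.1
  obtain ⟨u, v, hG⟩ := Ha l m be hWa hGS
  obtain ⟨g1, g2, g3, g4, g5, g6, -⟩ := GdF_facts (N := N) hl hm hb hG
  have hlev := Hb l m be hWb
  set x := kap N l 1 / (be * (S2 N l / m)) with hxd
  set s := S2 N l / m with hsd
  set h := kap N l 1 / be with hhd
  have hxp : 0 < x := by linarith
  have zf := zx_facts hxp.le
  have hGG : Gx x ≤ Gx x1 := (zf.2.2.2.2.1 x1 b4).2
  have hGp : 0 < Gx x := by
    rw [← zf.1]; have := zf.2.2.1; positivity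
  have hab : ip l u u + ip 1 v v ≤ (1 + e / 8) * Gx x * s := by rw [g6]; linarith
  have hab2 : ip l u u + ip 1 v v ≤ 2 * Gx x1 * s := by
    apply hab.trans
    apply mul_le_mul_of_nonneg_right _ hs.le
    exact mul_le_mul (by linarith) hGG hGp.le (by norm_num)
  have hq := Hc l m be u v hWc hG.1 hG.2.1 g1 g2 hG.2.2.1 hab2
  rw [← hhd] at hq
  have hp0 : 0 ≤ m * Q4 u u u u := mul_nonneg hm.le (Q4_nonneg u u)
  have hr0 := Q4_nonneg v v
  have k1 : 2 * ((1 - e / 8) * (x * s)) ≤ (1 + e / 8) * Gx x * s := by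
    rw [b5]; linarith
  have k2 : 2 * ((1 - e / 8) * x) ≤ (1 + e / 8) * Gx x := by
    have : s * (2 * ((1 - e / 8) * x)) ≤ s * ((1 + e / 8) * Gx x) := by linarith
    exact le_of_mul_le_mul_left this hs
  have k3 : 2 ≤ x * (1 - e) := by
    rwa [div_le_iff₀ (by linarith)] at b3
  have k4 : 2 ≤ x := by nlinarith
  have k5 := zf.2.2.2.2.2.1 k4
  have k6 : Gx x ≤ (2 - 2 / 3 * e) * x := by nlinarith
  have k7 : (1 + e / 8) * Gx x ≤ (1 + e / 8) * ((2 - 2 / 3 * e) * x) :=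
    mul_le_mul_of_nonneg_left k6 (by positivity)
  have k8 : 0 < e * x := by positivity
  have k9 : 0 < e * (e * x) := by positivity
  nlinarith

/-- module wiH. **Existence in the window below `x = 2`.** `crit_GS`: `level ≤ (1 + d) h / 2 < S2 N 1 / 4` (`up_int`, `win_small`); for a `Deg` pair with
`m P(u) ≤ 4 level ≤ 2 (1 + d) x1 s`: `deg_str`: `m P(u) ≥ (1 - d) Gx x s > 2 (1 + d) x s` by `zx_facts`, `x ≤ 2 / (1 + e)`. -/
theorem some_win [Dim N] {M e x0 : ℝ} (hM : 1 ≤ M) (he : 0 < e) (hx0 : 0 < x0)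
    (hx : x0 ≤ 2 / (1 + e)) : ∃ l0 : ℝ, 0 < l0 ∧ l0 ≤ 1 ∧ ∀ l m be : ℝ,
      Wnd N M x0 (2 / (1 + e)) l0 l m be → HasGS N l 1 m 1 be := by
  have hS : 0 < S2 N 1 := S2_pos one_pos
  have hx1 : 0 < 2 / (1 + e) := by positivity
  have hx12 : 2 / (1 + e) ≤ 2 := by
    rw [div_le_iff₀ (by positivity)]; linarith
  obtain ⟨d, hd, hd1, hde⟩ : ∃ d : ℝ, 0 < d ∧ d ≤ 1 / 24 ∧ d ≤ e / 24 :=
    ⟨min (1 / 24) (e / 24), by positivity, min_le_left _ _, min_le_right _ _⟩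
  obtain ⟨th, la, hth, hla, hla1, Ha⟩ := deg_str (N := N) (C := 8) (d := d) hM hx0 hx
    (by norm_num) hd
  obtain ⟨lb, hlb, hlb1, Hb⟩ := up_int (N := N) (d := d) hM hx0 hx hd
  obtain ⟨lc, hlc, hlc1, Hc⟩ := win_small (N := N) (ep := S2 N 1 / 4) hM hx0 hx (by positivity)
  refine ⟨min la (min lb lc), by positivity, (min_le_left _ _).trans hla1, ?_⟩
  intro l m be hW
  have hWa := wiA_mono hW (min_le_left la (min lb lc))
  have hWb := wiA_mono hW ((min_le_right la (min lb lc)).trans (min_le_left _ _))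
  have hWc := wiA_mono hW ((min_le_right la (min lb lc)).trans (min_le_right _ _))
  obtain ⟨hm, hMm, hs, hkap, hh, b1, b2, b3, b4, b5⟩ := wiC_basic (N := N) hM hx0 hla1 hWa
  have hl : 0 < l := hW.1
  have hb : 0 < be := hW.2.2.2.2.1
  have hlev := Hb l m be hWb
  obtain ⟨-, hc2, -, -⟩ := Hc l m be hWc
  set x := kap N l 1 / (be * (S2 N l / m)) with hxd
  set s := S2 N l / m with hsd
  set h := kap N l 1 / be with hhd
  have hxp : 0 < x := by linarith
  have zf := zx_facts hxp.le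
  apply crit_GS (N := N) hl one_pos hm one_pos hb
  · rw [mul_one]
    have : (1 + d) * h ≤ 2 * h := mul_le_mul_of_nonneg_right (by linarith) hh.le
    linarith
  · intro u v hDeg
    by_contra hc
    push Not at hc
    have k0 : m * Q4 u u u u ≤ 2 * (1 + d) * (x * s) := by rw [b5]; linarith
    have k1 : m * Q4 u u u u ≤ 8 * s := by
      have : 2 * (1 + d) * x ≤ 8 := by nlinarith
      have := mul_le_mul_of_nonneg_right this hs.le
      linarith
    have hk0 : (0 : ℝ) < th / be := by positivity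
    obtain ⟨T, hT, -⟩ := soft_H (N := N) (Real.sqrt_pos.2 hk0) u
    obtain ⟨-, -, -, -, f5⟩ := Ha l m be (Real.sqrt (th / be)) u v T hWa hDeg k1
      (Real.sqrt_pos.2 hk0) (Real.sq_sqrt hk0.le) hT
    rw [← hsd, ← hxd] at f5
    have k2 : (1 - d) * Gx x ≤ 2 * (1 + d) * x := by
      have : s * ((1 - d) * Gx x) ≤ s * (2 * (1 + d) * x) := by linarith
      exact le_of_mul_le_mul_left this hs
    have k3 : x * (1 + e) ≤ 2 := by
      rwa [le_div_iff₀ (by positivity)] at b4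
    have k4 : x ≤ 2 := by nlinarith
    have k5 := zf.2.2.2.2.2.2 k4
    have k6 : (2 + e / 3) * x ≤ Gx x := by nlinarith
    have k7 : (1 - d) * ((2 + e / 3) * x) ≤ (1 - d) * Gx x :=
      mul_le_mul_of_nonneg_left k6 (by linarith)
    have k8 : 0 < e * x := by positivity
    have k9 : d * (e * x) ≤ 1 / 24 * (e * x) := mul_le_mul_of_nonneg_right hd1 k8.le
    have k10 : d * x ≤ e / 24 * x := mul_le_mul_of_nonneg_right hde hxp.le
    nlinarith

/-- module wiH. **Existence for large `be`** (`x ≤ 1/4`): `quot_GS` with a pair of `kap_lt` (`t = 3/2 kap`), scaled so that `ip l u u = ip 1 v v`: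
`nab² = 4 a b < 6 kap Q ≤ 3 kap/be * (2 be Q) ≤ 3/4 s q44`, and `s = S2 N l / m < S2 N 1` for small `l`. -/
theorem some_large [Dim N] {M : ℝ} (hM : 1 ≤ M) : ∃ l0 : ℝ, 0 < l0 ∧ l0 ≤ 1 ∧ ∀ l m be : ℝ,
      0 < l → l < l0 → 1 / M ≤ m → m ≤ M → 0 < be → 4 * kap N l 1 ≤ be * (S2 N l / m) →
      HasGS N l 1 m 1 be := by
  have hS : 0 < S2 N 1 := S2_pos one_pos
  obtain ⟨l0, hl0, hl01, H⟩ := wiA_small (N := N) hM hS
  refine ⟨l0, hl0, hl01, ?_⟩
  intro l m be hl hll hm1 hm2 hb hx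
  obtain ⟨hm, hs, -⟩ := wiA_s (N := N) hM hl (hll.le.trans hl01) hm1
  have hsS := H l m hl hll hm1
  have hk := (kap_ge (N := N) hl one_pos).2
  obtain ⟨u, v, z, hu, hv, hz0, hzu, hzv, hz2, hQ⟩ :=
    wiC_scaled (N := N) (e := 1 / 2) hl (by norm_num) hb
  set s := S2 N l / m with hsd
  have hQ0 : 0 < be * Q4 u u v v := by rw [hQ]; positivity
  have hnab : nab l 1 u v ^ 2 = 4 * z ^ 2 := by
    unfold nab; rw [hzu, hzv]; ring
  have hq44 : 2 * (be * Q4 u u v v) ≤ q44 m 1 be u v := by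
    unfold q44
    have a1 : 0 ≤ m * Q4 u u u u := mul_nonneg hm.le (Q4_nonneg u u)
    have a2 : 0 ≤ 1 * Q4 v v v v := mul_nonneg zero_le_one (Q4_nonneg v v)
    linarith
  have hlt : nab l 1 u v ^ 2 < s * q44 m 1 be u v := by
    have a1 : s * (2 * (kap N l 1 / be)) ≤ s * q44 m 1 be u v := by
      rw [← hQ]; exact mul_le_mul_of_nonneg_left hq44 hs.le
    apply lt_of_lt_of_le _ a1
    rw [hnab]
    have a2 : 4 * (kap N l 1 / be) ≤ s := by
      rw [← mul_div_assoc, div_le_iff₀ hb]; linarith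
    have hh : 0 < kap N l 1 / be := by positivity
    have a3 : (4 * (kap N l 1 / be)) * (2 * (kap N l 1 / be)) ≤ s * (2 * (kap N l 1 / be)) :=
      mul_le_mul_of_nonneg_right a2 (by positivity)
    nlinarith
  apply quot_GS (N := N) (u := u) (v := v) hl one_pos hm one_pos hb hlt
  rw [div_one]
  apply hlt.trans_le
  apply mul_le_mul_of_nonneg_right hsS.le
  linarith

end Sir
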